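import Pool.Agent.KneserCone.Defs

/-!
# The limit of the averages

PROOF. `wr D Λ r * (1 + r) ^ ((D - 3) / 2) ≤ (1 + r) ^ (-2)` for `Λ ≥ 1`, `r > 0`, integrable on
`(0, ∞)`. For `tendsto_abel` substitute `r = s / (k + 1)`
(`integral_comp_mul_left_Ioi` or similar): the expression is `∫ s in Ioi 0, wr D 1 s * A (s / (k + 1))`
with `|A (s / (k + 1))| ≤ C (1 + s) ^ ((D-3)/2)`; dominated convergence.
-/

set_option autoImplicit false
set_option linter.unusedSectionVars false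

namespace Pool.Agent.KneserCone

open MeasureTheory Set Filter Topology Module
open scoped ENNReal
open Pool.Agent.Kneser Pool.Agent.KneserRank Pool.Agent.KneserCentre

variable {D n : ℕ}

private theorem wr_nonneg_abel (D : ℕ) {Λ r : ℝ} (hΛ : 0 ≤ Λ) (hr : 0 ≤ r) :
    0 ≤ wr D Λ r := by
  unfold wr
  exact Real.rpow_nonneg (by positivity) _

private theorem wr_le_abel {Λ r : ℝ} (hΛ : 1 ≤ Λ) (hr : 0 < r) :
    wr D Λ r ≤ (1 + r) ^ (-(((D : ℝ) + 1) / 2)) := by
  unfold wr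
  apply Real.rpow_le_rpow_of_nonpos (by positivity)
  · nlinarith
  · have : (0 : ℝ) ≤ D := Nat.cast_nonneg D
    linarith

private theorem prod_abel {r : ℝ} (hr : 0 < r) :
    (1 + r) ^ (-(((D : ℝ) + 1) / 2)) * (1 + r) ^ (((D : ℝ) - 3) / 2) = (r + 1) ^ (-2 : ℝ) := by
  rw [← Real.rpow_add (by positivity), add_comm r 1]
  congr 1
  ring

private theorem meas_wr_abel (D : ℕ) {Λ : ℝ} (hΛ : 0 ≤ Λ) :
    AEStronglyMeasurable (fun r => wr D Λ r) (volume.restrict (Ioi (0 : ℝ))) := by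
  apply ContinuousOn.aestronglyMeasurable _ measurableSet_Ioi
  unfold wr
  apply ContinuousOn.rpow_const
  · fun_prop
  · intro r hr
    left
    have : (0 : ℝ) < r := hr
    positivity

private theorem int_bound_abel (C : ℝ) :
    IntegrableOn (fun r : ℝ => C * (r + 1) ^ (-2 : ℝ)) (Ioi (0 : ℝ)) :=
  (integrableOn_add_rpow_Ioi_of_lt (by norm_num) (by norm_num)).const_mul C

private theorem bd_abel {C : ℝ} {Λ r x : ℝ} (hΛ : 1 ≤ Λ) (hr : 0 < r)
    (hx : |x| ≤ C * (1 + r) ^ (((D : ℝ) - 3) / 2)) :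
    |wr D Λ r * x| ≤ C * (r + 1) ^ (-2 : ℝ) := by
  have h0 := wr_nonneg_abel D (zero_le_one.trans hΛ) hr.le
  rw [abs_mul, abs_of_nonneg h0, ← prod_abel (D := D) hr]
  have h1 := wr_le_abel (D := D) hΛ hr
  have h2 : 0 ≤ C * (1 + r) ^ (((D : ℝ) - 3) / 2) := (abs_nonneg x).trans hx
  calc wr D Λ r * |x| ≤ (1 + r) ^ (-(((D : ℝ) + 1) / 2)) * (C * (1 + r) ^ (((D : ℝ) - 3) / 2)) :=
        mul_le_mul h1 hx (abs_nonneg x) (h0.trans h1)
    _ = C * ((1 + r) ^ (-(((D : ℝ) + 1) / 2)) * (1 + r) ^ (((D : ℝ) - 3) / 2)) := by ring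

theorem integrableOn_wr_mul (hD : 3 ≤ D) {A : ℝ → ℝ}
    (hm : AEStronglyMeasurable A (volume.restrict (Ioi (0 : ℝ)))) {C : ℝ}
    (hb : ∀ r : ℝ, 0 < r → |A r| ≤ C * (1 + r) ^ (((D : ℝ) - 3) / 2)) {Λ : ℝ} (hΛ : 1 ≤ Λ) :
    IntegrableOn (fun r => wr D Λ r * A r) (Ioi (0 : ℝ)) := by
  apply Integrable.mono' (int_bound_abel C) ((meas_wr_abel D (zero_le_one.trans hΛ)).mul hm)
  rw [ae_restrict_iff' measurableSet_Ioi]
  refine Eventually.of_forall fun r hr => ?_
  rw [Real.norm_eq_abs]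
  exact bd_abel hΛ hr (hb r hr)

theorem integral_wr_pos (hD : 3 ≤ D) : 0 < ∫ r in Ioi (0 : ℝ), wr D 1 r := by
  have hi : IntegrableOn (fun r => wr D 1 r) (Ioi (0 : ℝ)) := by
    have h := integrableOn_wr_mul (D := D) hD (A := fun _ => (1 : ℝ)) aestronglyMeasurable_const
      (C := 1) (fun r hr => by
        rw [abs_one, one_mul]
        apply Real.one_le_rpow (by linarith)
        have : (3 : ℝ) ≤ D := by exact_mod_cast hD
        linarith) le_rfl
    simpa using h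
  rw [setIntegral_pos_iff_support_of_nonneg_ae _ hi]
  · have hs : Ioi (0 : ℝ) ⊆ Function.support (fun r => wr D 1 r) ∩ Ioi 0 := by
      intro r hr
      have hr' : (0 : ℝ) < r := hr
      refine ⟨?_, hr⟩
      rw [Function.mem_support]
      unfold wr
      exact (Real.rpow_pos_of_pos (by positivity) _).ne'
    refine lt_of_lt_of_le ?_ (measure_mono hs)
    rw [Real.volume_Ioi]
    exact ENNReal.zero_lt_top
  · rw [EventuallyLE, ae_restrict_iff' measurableSet_Ioi]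
    refine Eventually.of_forall fun r hr => ?_
    have hr' : (0 : ℝ) < r := hr
    exact wr_nonneg_abel D zero_le_one hr'.le

theorem tendsto_abel (hD : 3 ≤ D) {A : ℝ → ℝ}
    (hm : AEStronglyMeasurable A (volume.restrict (Ioi (0 : ℝ)))) {C : ℝ}
    (hb : ∀ r : ℝ, 0 < r → |A r| ≤ C * (1 + r) ^ (((D : ℝ) - 3) / 2)) {A0 : ℝ}
    (hA : Tendsto A (𝓝[>] 0) (𝓝 A0)) :
    Tendsto (fun k : ℕ => ((k : ℝ) + 1) * ∫ r in Ioi (0 : ℝ), wr D ((k : ℝ) + 1) r * A r) atTop
      (𝓝 (A0 * ∫ r in Ioi (0 : ℝ), wr D 1 r)) := by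
  have hk : ∀ k : ℕ, (0 : ℝ) < (k : ℝ) + 1 := fun k => by positivity
  have hk1 : ∀ k : ℕ, (1 : ℝ) ≤ (k : ℝ) + 1 := fun k => by
    have : (0 : ℝ) ≤ k := Nat.cast_nonneg k
    linarith
  have hg : ∀ (k : ℕ) (r : ℝ), wr D 1 (((k : ℝ) + 1) * r) *
      A ((((k : ℝ) + 1) * r) / ((k : ℝ) + 1)) = wr D ((k : ℝ) + 1) r * A r := by
    intro k r
    rw [mul_div_cancel_left₀ _ (hk k).ne']
    unfold wr
    rw [one_mul]
  have hint : ∀ k : ℕ, IntegrableOn (fun s => wr D 1 s * A (s / ((k : ℝ) + 1)))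
      (Ioi (0 : ℝ)) := by
    intro k
    have h := integrableOn_Ioi_comp_mul_left_iff
      (fun s => wr D 1 s * A (s / ((k : ℝ) + 1))) 0 (hk k)
    rw [mul_zero] at h
    rw [← h]
    simp only [hg]
    exact integrableOn_wr_mul hD hm hb (hk1 k)
  have heq : ∀ k : ℕ, ((k : ℝ) + 1) * ∫ r in Ioi (0 : ℝ), wr D ((k : ℝ) + 1) r * A r =
      ∫ s in Ioi (0 : ℝ), wr D 1 s * A (s / ((k : ℝ) + 1)) := by
    intro k
    have h := integral_comp_mul_left_Ioi'
      (fun s => wr D 1 s * A (s / ((k : ℝ) + 1))) 0 (hk k)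
    rw [mul_zero] at h
    simp only [hg] at h
    rw [← h, smul_eq_mul]
  simp only [heq]
  have hlim : A0 * ∫ r in Ioi (0 : ℝ), wr D 1 r = ∫ s in Ioi (0 : ℝ), wr D 1 s * A0 := by
    rw [integral_mul_const, mul_comm]
  rw [hlim]
  apply tendsto_integral_of_dominated_convergence (fun s => C * (s + 1) ^ (-2 : ℝ))
  · intro k
    exact (hint k).aestronglyMeasurable
  · exact int_bound_abel C
  · intro k
    rw [ae_restrict_iff' measurableSet_Ioi]
    refine Eventually.of_forall fun s hs => ?_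
    have hs' : (0 : ℝ) < s := hs
    rw [Real.norm_eq_abs]
    apply bd_abel le_rfl hs'
    have h1 := hb (s / ((k : ℝ) + 1)) (div_pos hs' (hk k))
    have hC : 0 ≤ C := by
      have h2 := (abs_nonneg _).trans (hb 1 one_pos)
      have h3 : (0 : ℝ) < (1 + 1) ^ (((D : ℝ) - 3) / 2) := by positivity
      exact nonneg_of_mul_nonneg_left h2 h3
    refine h1.trans (mul_le_mul_of_nonneg_left ?_ hC)
    apply Real.rpow_le_rpow
    · have := div_pos hs' (hk k)
      positivity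
    · have : s / ((k : ℝ) + 1) ≤ s := div_le_self hs'.le (hk1 k)
      linarith
    · have : (3 : ℝ) ≤ D := by exact_mod_cast hD
      linarith
  · rw [ae_restrict_iff' measurableSet_Ioi]
    refine Eventually.of_forall fun s hs => ?_
    have hs' : (0 : ℝ) < s := hs
    apply Tendsto.const_mul
    apply hA.comp
    rw [tendsto_nhdsWithin_iff]
    constructor
    · have h1 : Tendsto (fun k : ℕ => (k : ℝ) + 1) atTop atTop :=
        tendsto_atTop_add_const_right _ _ tendsto_natCast_atTop_atTop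
      exact h1.const_div_atTop s
    · exact Eventually.of_forall fun k => div_pos hs' (hk k)

end Pool.Agent.KneserCone
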