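import Pool.Agent.KneserCone.Defs

/-!
# Absorbing an affine term

PROOF. Let `β < 0`. Let `A = {k | a k = 1}`, `#A ≥ 3`, so there is `ν ≠ 0` supported on `A` with
`∑ ν k w k = 0`, `∑ ν k e k = 0` (the linear map `(A → ℝ) → ℝ²` has a nontrivial kernel), and after
scaling `∑ ν k ^ 2 = -4 β`. Take `e' = e + ν`, `w' = w`, `γ = 0`: for `k ∈ A`, `ll a k t = t`, so
`HH a e' w' t = HH a e w t + t² ∑ ν² / (4 t)`. Let `β > 0`. Let `B = {k | a k = 0}`, `#B ≥ 3`,
`ν ≠ 0` supported on `B` with `∑ ν k (w k + e k) = 0`, `∑ ν k e k = 0`, `∑ ν k ^ 2 = 4 β`. Take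
`e' = e + ν`, `w' = w - ν`, `γ = β`: for `k ∈ B`, `ll a k t = 1 - t`,
`w' k + t e' k = (w k + e k) - (1 - t) (e k + ν k)`, so `HH a e' w' t = HH a e w t + (1 - t) β`.
`β = 0` is trivial. `Generic` is preserved: on `A` the vector `w` and on `B` the vector `w + e` do not
change.
-/

set_option autoImplicit false
set_option linter.unusedSectionVars false

namespace Pool.Agent.KneserCone

open MeasureTheory Set Filter Topology Module
open scoped ENNReal
open Pool.Agent.Kneser Pool.Agent.KneserRank Pool.Agent.KneserCentre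

variable {D n : ℕ}

private theorem absorb_exists {A : Finset (Fin D)} (hA : 3 ≤ A.card) (u v : Fin D → ℝ) {s : ℝ}
    (hs : 0 < s) :
    ∃ ν : Fin D → ℝ, (∀ k, k ∉ A → ν k = 0) ∧ ∑ k ∈ A, ν k * u k = 0 ∧ ∑ k ∈ A, ν k * v k = 0 ∧
      ∑ k ∈ A, ν k ^ 2 = s := by
  classical
  let f : (A → ℝ) →ₗ[ℝ] (Fin 2 → ℝ) :=
    { toFun := fun x => ![∑ k : A, x k * u k, ∑ k : A, x k * v k]
      map_add' := by
        intro x y
        ext i
        fin_cases i <;> simp [add_mul, Finset.sum_add_distrib]
      map_smul' := by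
        intro c x
        ext i
        fin_cases i <;> simp [mul_assoc, Finset.mul_sum] }
  have hker : LinearMap.ker f ≠ ⊥ := by
    apply LinearMap.ker_ne_bot_of_finrank_lt
    simp only [finrank_pi, Fintype.card_fin, Fintype.card_coe]
    omega
  obtain ⟨x, hx, hx0⟩ := (Submodule.ne_bot_iff _).mp hker
  have hfx : f x = 0 := hx
  have h1 : ∑ k : A, x k * u k = 0 := by simpa [f] using congrFun hfx 0
  have h2 : ∑ k : A, x k * v k = 0 := by simpa [f] using congrFun hfx 1
  have hpos : 0 < ∑ k : A, x k ^ 2 := by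
    obtain ⟨i, hi⟩ := Function.ne_iff.mp hx0
    exact Finset.sum_pos' (fun j _ => sq_nonneg _) ⟨i, Finset.mem_univ i, by
      have : x i ≠ 0 := hi
      positivity⟩
  set c : ℝ := √(s / ∑ k : A, x k ^ 2) with hc
  have hc2 : c ^ 2 * ∑ k : A, x k ^ 2 = s := by
    rw [hc, Real.sq_sqrt (by positivity)]
    field_simp
  refine ⟨fun k => if h : k ∈ A then c * x ⟨k, h⟩ else 0, ?_, ?_, ?_, ?_⟩
  · intro k hk
    simp [hk]
  · rw [← Finset.sum_coe_sort]
    calc ∑ i : A, (if h : (i : Fin D) ∈ A then c * x ⟨i, h⟩ else 0) * u i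
        = ∑ i : A, c * (x i * u i) := by
          refine Finset.sum_congr rfl fun i _ => ?_
          rw [dif_pos i.2]
          ring
      _ = 0 := by rw [← Finset.mul_sum, h1, mul_zero]
  · rw [← Finset.sum_coe_sort]
    calc ∑ i : A, (if h : (i : Fin D) ∈ A then c * x ⟨i, h⟩ else 0) * v i
        = ∑ i : A, c * (x i * v i) := by
          refine Finset.sum_congr rfl fun i _ => ?_
          rw [dif_pos i.2]
          ring
      _ = 0 := by rw [← Finset.mul_sum, h2, mul_zero]
  · rw [← Finset.sum_coe_sort, ← hc2, Finset.mul_sum]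
    refine Finset.sum_congr rfl fun i _ => ?_
    show (if h : (i : Fin D) ∈ A then c * x ⟨i, h⟩ else 0) ^ 2 = c ^ 2 * x i ^ 2
    rw [dif_pos i.2]
    ring

private theorem absorb_sum {A : Finset (Fin D)} {f g : Fin D → ℝ} (h : ∀ k, k ∉ A → f k = g k) :
    ∑ k, f k = ∑ k, g k + ∑ k ∈ A, (f k - g k) := by
  have h1 : ∑ k, (f k - g k) = ∑ k ∈ A, (f k - g k) := by
    symm
    refine Finset.sum_subset (Finset.subset_univ A) fun k _ hk => ?_
    rw [h k hk, sub_self]
  rw [← h1, Finset.sum_sub_distrib]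
  ring

theorem exists_absorb {a e w : Fin D → ℝ} (ha : Pencil a) (hg : Generic a e w) (β : ℝ) :
    ∃ (e' w' : Fin D → ℝ) (γ : ℝ), Generic a e' w' ∧
      ∀ t ∈ Ioo (0 : ℝ) 1, HH a e w t - β * t = HH a e' w' t - γ := by
  rcases lt_trichotomy β 0 with hβ | hβ | hβ
  · obtain ⟨ν, h0, hw, he, hs⟩ := absorb_exists ha.ones w e (s := -4 * β) (by linarith)
    refine ⟨fun k => e k + ν k, w, 0, ⟨hg.left, ?_⟩, ?_⟩
    · obtain ⟨k, hk, hne⟩ := hg.right
      refine ⟨k, hk, ?_⟩
      have : ν k = 0 := by
        apply h0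
        simp [hk]
      simpa [this] using hne
    · intro t ht
      have ht0 : t ≠ 0 := ht.1.ne'
      have key : HH a (fun k => e k + ν k) w t = HH a e w t +
          ∑ k ∈ Finset.univ.filter (fun k => a k = 1),
            ((w k + t * (e k + ν k)) ^ 2 / (4 * ll a k t) -
              (w k + t * e k) ^ 2 / (4 * ll a k t)) := by
        unfold HH
        apply absorb_sum
        intro k hk
        show (w k + t * (e k + ν k)) ^ 2 / (4 * ll a k t) = _
        rw [h0 k hk, add_zero]
      have h2 : ∑ k ∈ Finset.univ.filter (fun k => a k = 1),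
            ((w k + t * (e k + ν k)) ^ 2 / (4 * ll a k t) -
              (w k + t * e k) ^ 2 / (4 * ll a k t)) =
          ∑ k ∈ Finset.univ.filter (fun k => a k = 1),
            (ν k * w k / 2 + t * (ν k * e k) / 2 + t * ν k ^ 2 / 4) := by
        refine Finset.sum_congr rfl fun k hk => ?_
        have hk1 : a k = 1 := (Finset.mem_filter.mp hk).2
        have hl : ll a k t = t := by
          unfold ll
          rw [hk1]
          ring
        rw [hl]
        field_simp
        ring
      rw [key, h2, Finset.sum_add_distrib, Finset.sum_add_distrib, ← Finset.sum_div,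
        ← Finset.sum_div, ← Finset.sum_div, ← Finset.mul_sum, ← Finset.mul_sum, hw, he, hs]
      ring
  · exact ⟨e, w, 0, hg, fun t _ => by rw [hβ]; ring⟩
  · obtain ⟨ν, h0, hw, he, hs⟩ := absorb_exists ha.zeros w e (s := 4 * β) (by linarith)
    refine ⟨fun k => e k + ν k, fun k => w k - ν k, β, ⟨?_, ?_⟩, ?_⟩
    · obtain ⟨k, hk, hne⟩ := hg.left
      refine ⟨k, hk, ?_⟩
      have : ν k = 0 := by
        apply h0
        simp [hk]
      simpa [this] using hne
    · obtain ⟨k, hk, hne⟩ := hg.right
      refine ⟨k, hk, ?_⟩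
      have h3 : w k - ν k + (e k + ν k) = w k + e k := by ring
      rw [h3]
      exact hne
    · intro t ht
      have ht0 : 1 - t ≠ 0 := by
        have := ht.2
        linarith
      have key : HH a (fun k => e k + ν k) (fun k => w k - ν k) t = HH a e w t +
          ∑ k ∈ Finset.univ.filter (fun k => a k = 0),
            ((w k - ν k + t * (e k + ν k)) ^ 2 / (4 * ll a k t) -
              (w k + t * e k) ^ 2 / (4 * ll a k t)) := by
        unfold HH
        apply absorb_sum
        intro k hk
        show (w k - ν k + t * (e k + ν k)) ^ 2 / (4 * ll a k t) = _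
        rw [h0 k hk, add_zero, sub_zero]
      have h2 : ∑ k ∈ Finset.univ.filter (fun k => a k = 0),
            ((w k - ν k + t * (e k + ν k)) ^ 2 / (4 * ll a k t) -
              (w k + t * e k) ^ 2 / (4 * ll a k t)) =
          ∑ k ∈ Finset.univ.filter (fun k => a k = 0),
            (-(ν k * w k) / 2 + -(t * (ν k * e k)) / 2 + (1 - t) * ν k ^ 2 / 4) := by
        refine Finset.sum_congr rfl fun k hk => ?_
        have hk1 : a k = 0 := (Finset.mem_filter.mp hk).2
        have hl : ll a k t = 1 - t := by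
          unfold ll
          rw [hk1]
          ring
        rw [hl]
        field_simp
        ring
      rw [key, h2, Finset.sum_add_distrib, Finset.sum_add_distrib, ← Finset.sum_div,
        ← Finset.sum_div, ← Finset.sum_div, Finset.sum_neg_distrib, Finset.sum_neg_distrib,
        ← Finset.mul_sum, ← Finset.mul_sum, hw, he, hs]
      ring

end Pool.Agent.KneserCone
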