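import Pool.Agent.KneserCone.Scale

/-!
# The pair integrals: integrability, measurability, large scales, continuity

PROOF. `|gd| ≤ CC (r⁻¹)² eG (..) eG (..) ≤ CC (r⁻¹)² exp (-((y i - c i) / r))` by `abs_gd_le`,
`eG_le_exp`, `eG ≤ 1` (`eG_le_exp_max`); `integrable_single`, `integral_single`:
`|GI| ≤ CC (r⁻¹)² exp ((c i - ε) / r) 2 ^ D (π r) ^ ((D+1)/2)`, for `r ≥ 1` at most
`CC exp R 2 ^ D π ^ ((D+1)/2) r ^ ((D-3)/2)`. `measurable_GI`: the integrand is jointly measurable
(`measurable_gd`, `measurable_ya`, `measurable_om`), `StronglyMeasurable.integral_prod_right`.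
`tendsto_GI_c`: dominated convergence for fixed `r`, with the bound for `|c l| ≤ R`.
-/

set_option autoImplicit false
set_option linter.unusedSectionVars false

namespace Pool.Agent.KneserCone

open MeasureTheory Set Filter Topology Module
open scoped ENNReal
open Pool.Agent.Kneser Pool.Agent.KneserRank Pool.Agent.KneserCentre

variable {D n : ℕ}

private theorem gmeas_om_nonneg (a : Fin D → ℝ) (t : ℝ) : 0 ≤ om a t :=
  inv_nonneg.2 (Real.sqrt_nonneg _)

private theorem gmeas_joint (a : Fin D → ℝ) (z : Fin n → Fin D → ℝ) (φ : ℕ → ℝ)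
    (L : Finset (Fin n)) (i j : Fin n) (c : Fin n → ℝ) (ε : ℝ) :
    Measurable (fun x : ℝ × XS D =>
      om a x.2.1 * gd φ L i j c x.1 (fun l => ya a z x.2 l + ε)) := by
  have h1 : Measurable fun x : ℝ × XS D => om a x.2.1 :=
    (measurable_om a).comp (measurable_fst.comp measurable_snd)
  have h2 : Measurable fun x : ℝ × XS D =>
      ((x.1, fun l => ya a z x.2 l + ε) : ℝ × (Fin n → ℝ)) :=
    measurable_fst.prodMk (measurable_pi_iff.2 fun l =>
      ((measurable_ya a z l).comp measurable_snd).add_const ε)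
  exact h1.mul ((measurable_gd φ L i j c).comp h2)

private theorem gmeas_meas (a : Fin D → ℝ) (z : Fin n → Fin D → ℝ) (φ : ℕ → ℝ)
    (L : Finset (Fin n)) (i j : Fin n) (c : Fin n → ℝ) (r ε : ℝ) :
    Measurable (fun x : XS D => om a x.1 * gd φ L i j c r (fun l => ya a z x l + ε)) :=
  (gmeas_joint a z φ L i j c ε).comp (measurable_const.prodMk measurable_id)

private theorem gmeas_bound (a : Fin D → ℝ) (z : Fin n → Fin D → ℝ) (φ : ℕ → ℝ)
    (L : Finset (Fin n)) (i j : Fin n) (c : Fin n → ℝ) {r : ℝ} (hr : 0 < r) (ε : ℝ) {R : ℝ}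
    (hR : c i ≤ R) (x : XS D) :
    |om a x.1 * gd φ L i j c r (fun l => ya a z x l + ε)| ≤
      (CC n φ * (r⁻¹) ^ 2 * Real.exp ((R - ε) / r)) *
        (om a x.1 * Real.exp (-(ya a z x i / r))) := by
  rw [abs_mul, abs_of_nonneg (gmeas_om_nonneg a x.1)]
  have h1 := abs_gd_le φ L i j c r (fun l => ya a z x l + ε)
  have h2 : eG ((ya a z x i + ε - c i) / r) * eG ((ya a z x j + ε - c j) / r) ≤
      Real.exp ((R - ε) / r) * Real.exp (-(ya a z x i / r)) := by
    have h3 : eG ((ya a z x i + ε - c i) / r) ≤ Real.exp (-((ya a z x i + ε - c i) / r)) :=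
      eG_le_exp _
    have h4 : eG ((ya a z x j + ε - c j) / r) ≤ 1 := by
      refine (eG_le_exp_max _).trans ?_
      rw [Real.exp_le_one_iff]
      have := le_max_right ((ya a z x j + ε - c j) / r) 0
      linarith
    have h5 : eG ((ya a z x i + ε - c i) / r) * eG ((ya a z x j + ε - c j) / r) ≤
        Real.exp (-((ya a z x i + ε - c i) / r)) * 1 :=
      mul_le_mul h3 h4 (eG_nonneg _) (Real.exp_pos _).le
    refine h5.trans ?_
    rw [mul_one, ← Real.exp_add, Real.exp_le_exp]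
    have h6 : (R - ε) / r + -(ya a z x i / r) = (R - ε - ya a z x i) / r := by ring
    have h7 : -((ya a z x i + ε - c i) / r) = (c i - ε - ya a z x i) / r := by ring
    rw [h6, h7]
    exact div_le_div_of_nonneg_right (by linarith) hr.le
  have h3 : |gd φ L i j c r (fun l => ya a z x l + ε)| ≤ CC n φ * ((r⁻¹) ^ 2 *
      (Real.exp ((R - ε) / r) * Real.exp (-(ya a z x i / r)))) :=
    h1.trans (mul_le_mul_of_nonneg_left (mul_le_mul_of_nonneg_left h2 (sq_nonneg _))
      (CC_nonneg n φ))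
  calc om a x.1 * |gd φ L i j c r (fun l => ya a z x l + ε)|
      ≤ om a x.1 * (CC n φ * ((r⁻¹) ^ 2 *
        (Real.exp ((R - ε) / r) * Real.exp (-(ya a z x i / r))))) :=
        mul_le_mul_of_nonneg_left h3 (gmeas_om_nonneg a x.1)
    _ = _ := by ring

theorem integrable_gd {a : Fin D → ℝ} (ha : Pencil a) (z : Fin n → Fin D → ℝ) (φ : ℕ → ℝ)
    (L : Finset (Fin n)) (i j : Fin n) (c : Fin n → ℝ) {r : ℝ} (hr : 0 < r) (ε : ℝ) :
    Integrable (fun x => om a x.1 * gd φ L i j c r (fun l => ya a z x l + ε)) (mu D) := by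
  refine ((integrable_single ha z i hr).const_mul
    (CC n φ * (r⁻¹) ^ 2 * Real.exp ((c i - ε) / r))).mono'
    (gmeas_meas a z φ L i j c r ε).aestronglyMeasurable ?_
  refine Filter.Eventually.of_forall fun x => ?_
  rw [Real.norm_eq_abs]
  exact gmeas_bound a z φ L i j c hr ε le_rfl x

theorem measurable_GI (a : Fin D → ℝ) (z : Fin n → Fin D → ℝ) (φ : ℕ → ℝ)
    (L : Finset (Fin n)) (i j : Fin n) (c : Fin n → ℝ) (ε : ℝ) :
    StronglyMeasurable (fun r => GI a z φ L i j c r ε) := by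
  have : SFinite (mu D) := by
    unfold mu
    infer_instance
  exact (gmeas_joint a z φ L i j c ε).stronglyMeasurable.integral_prod_right

theorem abs_GI_le_large {a : Fin D → ℝ} (ha : Pencil a) (z : Fin n → Fin D → ℝ) (φ : ℕ → ℝ)
    (i j : Fin n) (R : ℝ) :
    ∃ C : ℝ, 0 ≤ C ∧ ∀ (L : Finset (Fin n)) (c : Fin n → ℝ), (∀ l, |c l| ≤ R) →
      ∀ r : ℝ, 1 ≤ r → ∀ ε : ℝ, 0 ≤ ε →
      |GI a z φ L i j c r ε| ≤ C * r ^ (((D : ℝ) - 3) / 2) := by
  refine ⟨CC n φ * Real.exp R * (2 ^ D * Real.pi ^ (((D : ℝ) + 1) / 2)), ?_, ?_⟩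
  · exact mul_nonneg (mul_nonneg (CC_nonneg n φ) (Real.exp_pos _).le)
      (mul_nonneg (by positivity) (Real.rpow_nonneg Real.pi_pos.le _))
  · intro L c hc r hr ε hε
    have hr0 : 0 < r := by linarith
    have hR0 : 0 ≤ R := (abs_nonneg _).trans (hc i)
    have hcR : c i ≤ R := (le_abs_self _).trans (hc i)
    have h1 : |GI a z φ L i j c r ε| ≤ ∫ x, (CC n φ * (r⁻¹) ^ 2 * Real.exp ((R - ε) / r)) *
        (om a x.1 * Real.exp (-(ya a z x i / r))) ∂(mu D) := by
      unfold GI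
      rw [← Real.norm_eq_abs]
      refine norm_integral_le_of_norm_le ((integrable_single ha z i hr0).const_mul _) ?_
      refine Filter.Eventually.of_forall fun x => ?_
      rw [Real.norm_eq_abs]
      exact gmeas_bound a z φ L i j c hr0 ε hcR x
    rw [integral_const_mul, integral_single ha z i hr0] at h1
    have h2 : Real.exp ((R - ε) / r) ≤ Real.exp R := by
      rw [Real.exp_le_exp, div_le_iff₀ hr0]
      nlinarith
    have h3 : (Real.pi * r) ^ (((D : ℝ) + 1) / 2) =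
        Real.pi ^ (((D : ℝ) + 1) / 2) * r ^ (((D : ℝ) + 1) / 2) :=
      Real.mul_rpow Real.pi_pos.le hr0.le
    have h4 : (r⁻¹) ^ 2 * r ^ (((D : ℝ) + 1) / 2) = r ^ (((D : ℝ) - 3) / 2) := by
      rw [inv_pow, ← Real.rpow_natCast r 2, ← Real.rpow_neg hr0.le, ← Real.rpow_add hr0]
      congr 1
      push_cast
      ring
    have h5 : 0 ≤ CC n φ * (r⁻¹) ^ 2 := mul_nonneg (CC_nonneg n φ) (sq_nonneg _)
    have h6 : 0 ≤ 2 ^ D * (Real.pi * r) ^ (((D : ℝ) + 1) / 2) :=
      mul_nonneg (by positivity) (Real.rpow_nonneg (mul_nonneg Real.pi_pos.le hr0.le) _)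
    calc |GI a z φ L i j c r ε| ≤ (CC n φ * (r⁻¹) ^ 2 * Real.exp ((R - ε) / r)) *
          (2 ^ D * (Real.pi * r) ^ (((D : ℝ) + 1) / 2)) := h1
      _ ≤ (CC n φ * (r⁻¹) ^ 2 * Real.exp R) *
          (2 ^ D * (Real.pi * r) ^ (((D : ℝ) + 1) / 2)) :=
          mul_le_mul_of_nonneg_right (mul_le_mul_of_nonneg_left h2 h5) h6
      _ = CC n φ * Real.exp R * (2 ^ D * Real.pi ^ (((D : ℝ) + 1) / 2)) *
          ((r⁻¹) ^ 2 * r ^ (((D : ℝ) + 1) / 2)) := by rw [h3]; ring
      _ = _ := by rw [h4]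

theorem tendsto_GI_c {a : Fin D → ℝ} (ha : Pencil a) (z : Fin n → Fin D → ℝ) (φ : ℕ → ℝ)
    (L : Finset (Fin n)) {i j : Fin n} (hi : i ∈ L) (hj : j ∈ L) {R : ℝ}
    (c : Fin n → ℝ) (cs : ℕ → Fin n → ℝ) (hcs : ∀ ν l, |cs ν l| ≤ R)
    (hlim : ∀ l ∈ L, Tendsto (fun ν => cs ν l) atTop (𝓝 (c l))) {r : ℝ} (hr : 0 < r) (ε : ℝ) :
    Tendsto (fun ν => GI a z φ L i j (cs ν) r ε) atTop (𝓝 (GI a z φ L i j c r ε)) := by
  unfold GI
  refine tendsto_integral_of_dominated_convergence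
    (fun x => (CC n φ * (r⁻¹) ^ 2 * Real.exp ((R - ε) / r)) *
      (om a x.1 * Real.exp (-(ya a z x i / r))))
    (fun ν => (gmeas_meas a z φ L i j (cs ν) r ε).aestronglyMeasurable)
    ((integrable_single ha z i hr).const_mul _) (fun ν => ?_) ?_
  · refine Filter.Eventually.of_forall fun x => ?_
    rw [Real.norm_eq_abs]
    exact gmeas_bound a z φ L i j (cs ν) hr ε ((le_abs_self _).trans (hcs ν i)) x
  · refine Filter.Eventually.of_forall fun x => ?_
    have h1 : ∀ l ∈ L, Tendsto (fun ν => (ya a z x l + ε - cs ν l) / r) atTop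
        (𝓝 ((ya a z x l + ε - c l) / r)) := fun l hl =>
      (tendsto_const_nhds.sub (hlim l hl)).div_const r
    have h2 : Tendsto (fun ν => (fun l => if l ∈ L then bG ((ya a z x l + ε - cs ν l) / r)
        else 0 : Fin n → ℝ)) atTop
        (𝓝 (fun l => if l ∈ L then bG ((ya a z x l + ε - c l) / r) else 0)) := by
      refine tendsto_pi_nhds.2 fun l => ?_
      by_cases hl : l ∈ L
      · simp only [if_pos hl]
        exact (continuous_bG.tendsto _).comp (h1 l hl)
      · simp only [if_neg hl]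
        exact tendsto_const_nhds
    have h3 := ((continuous_sd φ i j).tendsto _).comp h2
    have h4 := (continuous_eG.tendsto _).comp (h1 i hi)
    have h5 := (continuous_eG.tendsto _).comp (h1 j hj)
    exact tendsto_const_nhds.mul ((tendsto_const_nhds.mul (h4.mul h5)).mul h3)

end Pool.Agent.KneserCone
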