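import Pool.Agent.KneserCone.Space
import Pool.Agent.KneserCone.GMeas
import Pool.Agent.KneserCone.Abel

/-!
# Central configurations: centres with `t ∉ {0, 1}`

PROOF. `ya a z x l + ε = Yf a z (lft a ε x) l`. For `l ∈ L` and `X = lft a ε x`,
`(Yf a z X l - c l) / r = lam l (r⁻¹ • (X - O))` with the linear functional
`lam l V = V.2.2 - ∑ k, V.2.1 k * z l k + V.1 * zet a z l`. Hence
`gd φ L i j c r (ya + ε) = (r⁻¹) ^ 2 * g1 (r⁻¹ • (X - O))`,
`g1 V = eG (lam i V) * eG (lam j V) * sd φ i j (fun l => if l ∈ L then bG (lam l V) else 0) ≥ 0`,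
measurable. With `g V = ENNReal.ofReal (g1 V)`,
`ENNReal.ofReal (GI .. r ε) = ENNReal.ofReal ((r⁻¹) ^ 2) * ∫⁻ x, ofReal (om a x.1) * g (..) ∂(mu D)`
(`ofReal_integral_eq_lintegral_ofReal`, `integrable_gd`), so `space_le` says
`∫⁻ r in Ioi 0, ofReal (wr D Λ r * GI r ε) ≤ ∫⁻ r in Ioi 0, ofReal (wr D Λ r * GI r 0)`. Both are
finite: `integrableOn_wr_mul`, `measurable_GI`, `hb`. Convert to Bochner integrals.
-/

set_option autoImplicit false
set_option linter.unusedSectionVars false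

namespace Pool.Agent.KneserCone

open MeasureTheory Set Filter Topology Module
open scoped ENNReal
open Pool.Agent.Kneser Pool.Agent.KneserRank Pool.Agent.KneserCentre

variable {D n : ℕ}

/-- The linear part of `Yf · l`. -/
private noncomputable def lamC (a : Fin D → ℝ) (z : Fin n → Fin D → ℝ) (l : Fin n) (V : XS D) : ℝ :=
  V.2.2 - ∑ k, V.2.1 k * z l k + V.1 * zet a z l

private theorem measurable_lamC (a : Fin D → ℝ) (z : Fin n → Fin D → ℝ) (l : Fin n) :
    Measurable (lamC a z l) := by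
  have hc : Continuous (lamC a z l) := by
    unfold lamC
    fun_prop
  exact hc.measurable

/-- The homogeneous pair density. -/
private noncomputable def g1C (a : Fin D → ℝ) (z : Fin n → Fin D → ℝ) (φ : ℕ → ℝ)
    (L : Finset (Fin n)) (i j : Fin n) (V : XS D) : ℝ :=
  eG (lamC a z i V) * eG (lamC a z j V) *
    sd φ i j (fun l => if l ∈ L then bG (lamC a z l V) else 0)

private theorem measurable_g1C (a : Fin D → ℝ) (z : Fin n → Fin D → ℝ) (φ : ℕ → ℝ)
    (L : Finset (Fin n)) (i j : Fin n) : Measurable (g1C a z φ L i j) := by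
  unfold g1C
  refine ((continuous_eG.measurable.comp (measurable_lamC a z i)).mul
    (continuous_eG.measurable.comp (measurable_lamC a z j))).mul ?_
  refine (continuous_sd φ i j).measurable.comp ?_
  refine measurable_pi_lambda _ fun l => ?_
  by_cases h : l ∈ L
  · simp only [h, if_true]
    exact continuous_bG.measurable.comp (measurable_lamC a z l)
  · simp only [h, if_false]
    exact measurable_const

private theorem lamC_lft (a : Fin D → ℝ) (z : Fin n → Fin D → ℝ) (l : Fin n) (ε : ℝ) (x O : XS D)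
    (r : ℝ) :
    lamC a z l (r⁻¹ • (lft a ε x - O)) = (ya a z x l + ε - Yf a z O l) / r := by
  have e1 : LL a z x.2.1 l - LL a z O.2.1 l = - ∑ k, (x.2.1 k - O.2.1 k) * z l k := by
    unfold LL
    rw [← Finset.sum_sub_distrib, ← Finset.sum_neg_distrib]
    refine Finset.sum_congr rfl fun k _ => ?_
    ring
  have e2 : ∑ k, (r⁻¹ * (x.2.1 k - O.2.1 k)) * z l k =
      r⁻¹ * ∑ k, (x.2.1 k - O.2.1 k) * z l k := by
    rw [Finset.mul_sum]
    refine Finset.sum_congr rfl fun k _ => ?_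
    ring
  unfold lamC ya Yf lft
  simp only [Prod.smul_fst, Prod.smul_snd, Prod.fst_sub, Prod.snd_sub, Pi.smul_apply,
    Pi.sub_apply, smul_eq_mul]
  rw [e2, div_eq_inv_mul]
  linear_combination (-r⁻¹) * e1

private theorem gd_eq_g1C (a : Fin D → ℝ) (z : Fin n → Fin D → ℝ) (φ : ℕ → ℝ)
    {L : Finset (Fin n)} {i j : Fin n} (hi : i ∈ L) (hj : j ∈ L) {O : XS D} {c : Fin n → ℝ}
    (hc : ∀ l ∈ L, c l = Yf a z O l) (r ε : ℝ) (x : XS D) :
    gd φ L i j c r (fun l => ya a z x l + ε) =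
      (r⁻¹) ^ 2 * g1C a z φ L i j (r⁻¹ • (lft a ε x - O)) := by
  have hs : (fun l => if l ∈ L then bG ((ya a z x l + ε - c l) / r) else 0) =
      (fun l => if l ∈ L then bG (lamC a z l (r⁻¹ • (lft a ε x - O))) else 0) := by
    funext l
    by_cases h : l ∈ L
    · simp only [h, if_true]
      rw [lamC_lft, hc l h]
    · simp only [h, if_false]
  unfold gd g1C
  rw [hs, lamC_lft a z i, lamC_lft a z j, hc i hi, hc j hj]
  ring

private theorem g1C_nonneg (a : Fin D → ℝ) (z : Fin n → Fin D → ℝ) {φ : ℕ → ℝ}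
    (hφ : ∀ k, φ (k + 2) - 2 * φ (k + 1) + φ k ≤ 0) (L : Finset (Fin n)) {i j : Fin n}
    (hij : i ≠ j) (V : XS D) : 0 ≤ g1C a z φ L i j V := by
  unfold g1C
  refine mul_nonneg (mul_nonneg (eG_nonneg _) (eG_nonneg _)) (sd_nonneg hφ hij ?_ ?_)
  · intro l
    by_cases h : l ∈ L
    · simp only [h, if_true]; exact bG_nonneg _
    · simp only [h, if_false]; exact le_rfl
  · intro l
    by_cases h : l ∈ L
    · simp only [h, if_true]; exact bG_le_one _
    · simp only [h, if_false]; exact zero_le_one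

private theorem om_nonnegC (a : Fin D → ℝ) (t : ℝ) : 0 ≤ om a t := by
  unfold om
  positivity

private theorem wr_nonnegC {Λ : ℝ} (hΛ : 1 ≤ Λ) {r : ℝ} (hr : 0 < r) : 0 ≤ wr D Λ r := by
  unfold wr
  have h : 0 ≤ 1 + Λ * r := by
    have := mul_nonneg (zero_le_one.trans hΛ) hr.le
    linarith
  exact Real.rpow_nonneg h _

private theorem GI_nonnegC (a : Fin D → ℝ) (z : Fin n → Fin D → ℝ) {φ : ℕ → ℝ}
    (hφ : ∀ k, φ (k + 2) - 2 * φ (k + 1) + φ k ≤ 0) (L : Finset (Fin n)) {i j : Fin n}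
    (hij : i ≠ j) (c : Fin n → ℝ) (r ε : ℝ) : 0 ≤ GI a z φ L i j c r ε := by
  unfold GI
  exact integral_nonneg fun x => mul_nonneg (om_nonnegC _ _) (gd_nonneg hφ L hij c r _)

private theorem ofReal_wr_GI {a : Fin D → ℝ} (ha : Pencil a) (z : Fin n → Fin D → ℝ) {φ : ℕ → ℝ}
    (hφ : ∀ k, φ (k + 2) - 2 * φ (k + 1) + φ k ≤ 0) {L : Finset (Fin n)} {i j : Fin n}
    (hij : i ≠ j) (hi : i ∈ L) (hj : j ∈ L) {O : XS D}
    {c : Fin n → ℝ} (hc : ∀ l ∈ L, c l = Yf a z O l) {Λ : ℝ} (hΛ : 1 ≤ Λ) (ε : ℝ)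
    {r : ℝ} (hr : 0 < r) :
    ENNReal.ofReal (wr D Λ r * GI a z φ L i j c r ε) =
      ENNReal.ofReal (wr D Λ r * (r⁻¹) ^ 2) *
        ∫⁻ x, ENNReal.ofReal (om a x.1) *
          ENNReal.ofReal (g1C a z φ L i j (r⁻¹ • (lft a ε x - O))) ∂(mu D) := by
  have hw := wr_nonnegC (D := D) hΛ hr
  have hi2 := integrable_gd ha z φ L i j c hr ε
  have hnn : 0 ≤ᵐ[mu D] (fun x => om a x.1 * gd φ L i j c r (fun l => ya a z x l + ε)) :=
    Eventually.of_forall fun x => mul_nonneg (om_nonnegC _ _) (gd_nonneg hφ L hij c r _)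
  rw [ENNReal.ofReal_mul hw, GI, ofReal_integral_eq_lintegral_ofReal hi2 hnn,
    ENNReal.ofReal_mul hw, mul_assoc]
  congr 1
  rw [← lintegral_const_mul' _ _ ENNReal.ofReal_ne_top]
  refine lintegral_congr fun x => ?_
  rw [gd_eq_g1C a z φ hi hj hc, ENNReal.ofReal_mul (om_nonnegC _ _),
    ENNReal.ofReal_mul (by positivity)]
  ring

private theorem three_le_of_pencil {a : Fin D → ℝ} (ha : Pencil a) : 3 ≤ D := by
  have h := ha.zeros
  have h2 := Finset.card_filter_le (Finset.univ : Finset (Fin D)) (fun k => a k = 0)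
  rw [Finset.card_univ, Fintype.card_fin] at h2
  omega

theorem central_aux {a : Fin D → ℝ} (ha : Pencil a) (z : Fin n → Fin D → ℝ) {φ : ℕ → ℝ}
    (hφ : ∀ k, φ (k + 2) - 2 * φ (k + 1) + φ k ≤ 0) {L : Finset (Fin n)} {i j : Fin n}
    (hij : i ≠ j) (hi : i ∈ L) (hj : j ∈ L) {O : XS D} (h0 : O.1 ≠ 0) (h1 : O.1 ≠ 1)
    {c : Fin n → ℝ} (hc : ∀ l ∈ L, c l = Yf a z O l) {C : ℝ}
    (hb : ∀ r : ℝ, 0 < r → ∀ ε : ℝ, 0 ≤ ε →
      |GI a z φ L i j c r ε| ≤ C * (1 + r) ^ (((D : ℝ) - 3) / 2)) {Λ : ℝ} (hΛ : 1 ≤ Λ) {ε : ℝ}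
    (hε : 0 ≤ ε) :
    0 ≤ ∫ r in Ioi (0 : ℝ), wr D Λ r * (GI a z φ L i j c r 0 - GI a z φ L i j c r ε) := by
  have hD : 3 ≤ D := three_le_of_pencil ha
  have hint : ∀ δ : ℝ, 0 ≤ δ → IntegrableOn (fun r => wr D Λ r * GI a z φ L i j c r δ)
      (Ioi (0 : ℝ)) := fun δ hδ =>
    integrableOn_wr_mul hD (measurable_GI a z φ L i j c δ).aestronglyMeasurable
      (fun r hr => hb r hr δ hδ) hΛ
  have hnn : ∀ δ : ℝ, 0 ≤ᵐ[volume.restrict (Ioi (0 : ℝ))]
      (fun r => wr D Λ r * GI a z φ L i j c r δ) := by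
    intro δ
    refine (ae_restrict_iff' measurableSet_Ioi).2 (Eventually.of_forall fun r hr => ?_)
    exact mul_nonneg (wr_nonnegC hΛ hr) (GI_nonnegC a z hφ L hij c r δ)
  have hg : Measurable (fun V : XS D => ENNReal.ofReal (g1C a z φ L i j V)) :=
    (measurable_g1C a z φ L i j).ennreal_ofReal
  have hle := space_le ha h0 h1 (zero_le_one.trans hΛ) hε hg
  have hl : ∀ δ : ℝ, ∫⁻ r in Ioi (0 : ℝ), ENNReal.ofReal (wr D Λ r * (r⁻¹) ^ 2) *
        ∫⁻ x, ENNReal.ofReal (om a x.1) *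
          ENNReal.ofReal (g1C a z φ L i j (r⁻¹ • (lft a δ x - O))) ∂(mu D) =
      ENNReal.ofReal (∫ r in Ioi (0 : ℝ), wr D Λ r * GI a z φ L i j c r δ) ∨ ¬ 0 ≤ δ := by
    intro δ
    by_cases hδ : 0 ≤ δ
    · left
      rw [ofReal_integral_eq_lintegral_ofReal (hint δ hδ) (hnn δ)]
      refine setLIntegral_congr_fun measurableSet_Ioi fun r hr => ?_
      exact (ofReal_wr_GI ha z hφ hij hi hj hc hΛ δ hr).symm
    · right; exact hδ
  have e0 := (hl 0).resolve_right (not_not.2 le_rfl)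
  have e1 := (hl ε).resolve_right (not_not.2 hε)
  rw [e0, e1] at hle
  have hle2 := (ENNReal.ofReal_le_ofReal_iff (integral_nonneg_of_ae (hnn 0))).1 hle
  have hsub : ∫ r in Ioi (0 : ℝ), wr D Λ r * (GI a z φ L i j c r 0 - GI a z φ L i j c r ε) =
      (∫ r in Ioi (0 : ℝ), wr D Λ r * GI a z φ L i j c r 0) -
        ∫ r in Ioi (0 : ℝ), wr D Λ r * GI a z φ L i j c r ε := by
    rw [← integral_sub (hint 0 le_rfl) (hint ε hε)]
    refine integral_congr_ae (Eventually.of_forall fun r => ?_)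
    exact mul_sub _ _ _
  rw [hsub]
  exact sub_nonneg.2 hle2

end Pool.Agent.KneserCone
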