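import Pool.Agent.KneserCone.Central

/-!
# Central configurations

PROOF. If `O.1 ≠ 0, 1` this is `central_aux`. Otherwise let `O' ν = (O.1 + η / (ν + 1), O.2)` with a
small `η > 0`, `η ≤ 1/2`, so `(O' ν).1 ≠ 0, 1`, and `cs ν l = Yf a z (O' ν) l` for `l ∈ L`,
`cs ν l = c l` for `l ∉ L`. For `l ∈ L`, `cs ν l = c l + η / (ν + 1) * zet a z l`; choose `η` so small
that `|cs ν l| ≤ R` (possible since `|c l| < R`). `central_aux` for `cs ν` and dominated convergence
in `r` (`tendsto_GI_c`, bound `wr D Λ r * 2 C (1 + r) ^ ((D-3)/2)`, integrable by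
`integrableOn_wr_mul`).
-/

set_option autoImplicit false
set_option linter.unusedSectionVars false

namespace Pool.Agent.KneserCone

open MeasureTheory Set Filter Topology Module
open scoped ENNReal
open Pool.Agent.Kneser Pool.Agent.KneserRank Pool.Agent.KneserCentre

variable {D n : ℕ}

private theorem centralall_wr_nonneg (D : ℕ) {Λ r : ℝ} (hΛ : 1 ≤ Λ) (hr : 0 < r) :
    0 ≤ wr D Λ r := by
  unfold wr
  refine Real.rpow_nonneg ?_ _
  nlinarith

private theorem centralall_wr_meas (D : ℕ) (Λ : ℝ) : Measurable (wr D Λ) := by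
  unfold wr
  exact ((measurable_const.mul measurable_id).const_add 1).pow_const _

/-- The limit of a sequence of central configurations. -/
private theorem centralall_lim {a : Fin D → ℝ} (ha : Pencil a) (z : Fin n → Fin D → ℝ)
    (φ : ℕ → ℝ) {L : Finset (Fin n)} {i j : Fin n} (hi : i ∈ L) (hj : j ∈ L)
    {c : Fin n → ℝ} {R C : ℝ}
    (hb : ∀ c' : Fin n → ℝ, (∀ l, |c' l| ≤ R) → ∀ r : ℝ, 0 < r → ∀ ε : ℝ, 0 ≤ ε →
      |GI a z φ L i j c' r ε| ≤ C * (1 + r) ^ (((D : ℝ) - 3) / 2)) {Λ : ℝ} (hΛ : 1 ≤ Λ) {ε : ℝ}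
    (hε : 0 ≤ ε) (cs : ℕ → Fin n → ℝ) (hcs : ∀ ν l, |cs ν l| ≤ R)
    (hlim : ∀ l ∈ L, Tendsto (fun ν => cs ν l) atTop (𝓝 (c l)))
    (h : ∀ ν, 0 ≤ ∫ r in Ioi (0 : ℝ),
      wr D Λ r * (GI a z φ L i j (cs ν) r 0 - GI a z φ L i j (cs ν) r ε)) :
    0 ≤ ∫ r in Ioi (0 : ℝ), wr D Λ r * (GI a z φ L i j c r 0 - GI a z φ L i j c r ε) := by
  have hD : 3 ≤ D := by
    have h1 := ha.zeros
    have h2 := Finset.card_filter_le (Finset.univ : Finset (Fin D)) (fun k => a k = 0)
    rw [Finset.card_univ, Fintype.card_fin] at h2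
    omega
  have hC : 0 ≤ C := by
    have h1 := (abs_nonneg _).trans (hb (cs 0) (hcs 0) 1 one_pos 0 le_rfl)
    by_contra hneg
    push Not at hneg
    have h2 : 0 < (1 + (1 : ℝ)) ^ (((D : ℝ) - 3) / 2) := Real.rpow_pos_of_pos (by norm_num) _
    nlinarith
  have hint : Integrable (fun r => wr D Λ r * (2 * C * (1 + r) ^ (((D : ℝ) - 3) / 2)))
      (volume.restrict (Ioi (0 : ℝ))) := by
    refine integrableOn_wr_mul hD (A := fun r => 2 * C * (1 + r) ^ (((D : ℝ) - 3) / 2))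
      (C := 2 * C) ?_ ?_ hΛ
    · exact (((measurable_id.const_add (1 : ℝ)).pow_const _).const_mul
        (2 * C)).aestronglyMeasurable
    · intro r hr
      rw [abs_of_nonneg]
      exact mul_nonneg (by linarith) (Real.rpow_nonneg (by linarith) _)
  refine ge_of_tendsto' (tendsto_integral_of_dominated_convergence
    (fun r => wr D Λ r * (2 * C * (1 + r) ^ (((D : ℝ) - 3) / 2))) (fun ν => ?_) hint
    (fun ν => ?_) ?_) h
  · exact ((centralall_wr_meas D Λ).stronglyMeasurable.mul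
      ((measurable_GI a z φ L i j (cs ν) 0).sub
        (measurable_GI a z φ L i j (cs ν) ε))).aestronglyMeasurable
  · refine ae_restrict_of_forall_mem measurableSet_Ioi fun r hr => ?_
    have hr0 : (0 : ℝ) < r := hr
    rw [Real.norm_eq_abs, abs_mul, abs_of_nonneg (centralall_wr_nonneg D hΛ hr0)]
    refine mul_le_mul_of_nonneg_left ?_ (centralall_wr_nonneg D hΛ hr0)
    have h1 := hb (cs ν) (hcs ν) r hr0 0 le_rfl
    have h2 := hb (cs ν) (hcs ν) r hr0 ε hε
    have h3 := abs_sub (GI a z φ L i j (cs ν) r 0) (GI a z φ L i j (cs ν) r ε)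
    linarith
  · refine ae_restrict_of_forall_mem measurableSet_Ioi fun r hr => ?_
    have hr0 : (0 : ℝ) < r := hr
    exact tendsto_const_nhds.mul ((tendsto_GI_c ha z φ L hi hj c cs hcs hlim hr0 0).sub
      (tendsto_GI_c ha z φ L hi hj c cs hcs hlim hr0 ε))

theorem central_nonneg {a : Fin D → ℝ} (ha : Pencil a) (z : Fin n → Fin D → ℝ) {φ : ℕ → ℝ}
    (hφ : ∀ k, φ (k + 2) - 2 * φ (k + 1) + φ k ≤ 0) {L : Finset (Fin n)} {i j : Fin n}
    (hij : i ≠ j) (hi : i ∈ L) (hj : j ∈ L) {O : XS D}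
    {c : Fin n → ℝ} (hc : ∀ l ∈ L, c l = Yf a z O l) {R C : ℝ} (hR : ∀ l, |c l| < R)
    (hb : ∀ c' : Fin n → ℝ, (∀ l, |c' l| ≤ R) → ∀ r : ℝ, 0 < r → ∀ ε : ℝ, 0 ≤ ε →
      |GI a z φ L i j c' r ε| ≤ C * (1 + r) ^ (((D : ℝ) - 3) / 2)) {Λ : ℝ} (hΛ : 1 ≤ Λ) {ε : ℝ}
    (hε : 0 ≤ ε) :
    0 ≤ ∫ r in Ioi (0 : ℝ), wr D Λ r * (GI a z φ L i j c r 0 - GI a z φ L i j c r ε) := by
  by_cases h01 : O.1 ≠ 0 ∧ O.1 ≠ 1
  · exact central_aux ha z hφ hij hi hj h01.1 h01.2 hc (hb c fun l => (hR l).le) hΛ hε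
  · have hO : O.1 = 0 ∨ O.1 = 1 := by
      by_cases h0 : O.1 = 0
      · exact Or.inl h0
      · right
        by_contra h1
        exact h01 ⟨h0, h1⟩
    -- the perturbed configurations
    let δ : ℕ → ℝ := fun ν => 1 / ((ν : ℝ) + 2)
    have hδ0 : ∀ ν, 0 < δ ν := fun ν => by
      have : (0 : ℝ) ≤ ν := Nat.cast_nonneg ν
      exact one_div_pos.2 (by linarith)
    have hδ1 : ∀ ν, δ ν ≤ 1 / 2 := fun ν => by
      have : (0 : ℝ) ≤ ν := Nat.cast_nonneg ν
      exact one_div_le_one_div_of_le (by norm_num) (by linarith)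
    have hδ : Tendsto δ atTop (𝓝 0) := by
      have h1 : Tendsto (fun ν : ℕ => (ν : ℝ) + 2) atTop atTop :=
        tendsto_atTop_add_const_right _ _ tendsto_natCast_atTop_atTop
      exact (h1.inv_tendsto_atTop).congr fun ν => by
        change ((ν : ℝ) + 2)⁻¹ = 1 / ((ν : ℝ) + 2)
        rw [one_div]
    let cs : ℕ → Fin n → ℝ := fun ν l => if l ∈ L then Yf a z (O.1 + δ ν, O.2) l else c l
    have hlim : ∀ l, Tendsto (fun ν => cs ν l) atTop (𝓝 (c l)) := by
      intro l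
      by_cases hl : l ∈ L
      · have h1 : (fun ν => cs ν l) = fun ν => O.2.2 + LL a z O.2.1 l +
            (O.1 + δ ν) * zet a z l := by
          funext ν
          change (if l ∈ L then Yf a z (O.1 + δ ν, O.2) l else c l) = _
          rw [if_pos hl]
          rfl
        have h2 : c l = O.2.2 + LL a z O.2.1 l + (O.1 + 0) * zet a z l := by
          rw [hc l hl, add_zero]
          rfl
        rw [h1, h2]
        exact ((hδ.const_add O.1).mul_const (zet a z l)).const_add _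
      · have h1 : (fun ν => cs ν l) = fun _ => c l := by
          funext ν
          exact if_neg hl
        rw [h1]
        exact tendsto_const_nhds
    have hev : ∀ᶠ ν in atTop, ∀ l, |cs ν l| ≤ R := by
      rw [eventually_all]
      intro l
      have h1 : Tendsto (fun ν => |cs ν l|) atTop (𝓝 |c l|) := (hlim l).abs
      exact (h1.eventually (gt_mem_nhds (hR l))).mono fun ν hν => le_of_lt hν
    obtain ⟨N, hN⟩ := eventually_atTop.1 hev
    refine centralall_lim ha z φ hi hj hb hΛ hε (fun ν => cs (ν + N))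
      (fun ν l => hN (ν + N) (by omega) l)
      (fun l _ => (hlim l).comp (tendsto_add_atTop_nat N)) fun ν => ?_
    have hO' : O.1 + δ (ν + N) ≠ 0 ∧ O.1 + δ (ν + N) ≠ 1 := by
      have h1 := hδ0 (ν + N)
      have h2 := hδ1 (ν + N)
      rcases hO with h | h
      · rw [h]
        exact ⟨by linarith, by linarith⟩
      · rw [h]
        exact ⟨by linarith, by linarith⟩
    refine central_aux ha z hφ hij hi hj (O := (O.1 + δ (ν + N), O.2)) hO'.1 hO'.2
      (fun l hl => if_pos hl) (hb (cs (ν + N)) fun l => hN (ν + N) (by omega) l) hΛ hε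

end Pool.Agent.KneserCone
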