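import Pool.Agent.KneserCone.Defs

/-!
# Coordinates

PROOF. See `exists_coord` in `Pool/Agent/KneserRank/Coord.lean` (drop the last claim): with the
orthonormal eigenbasis `b` of `adjoint α ∘ α` on `W = span`, take
`P v = α (∑ k, v k • b k)`, `Q v = β (∑ k, v k • b k)`, `z i = b.repr (p i - p i₀, q i - q i₀)`.
-/

set_option autoImplicit false
set_option linter.unusedSectionVars false

namespace Pool.Agent.KneserCone

open MeasureTheory Set Filter Topology Module
open scoped ENNReal InnerProductSpace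
open Pool.Agent.Kneser Pool.Agent.KneserRank Pool.Agent.KneserCentre

variable {D n : ℕ}

variable {E : Type*} [NormedAddCommGroup E] [InnerProductSpace ℝ E] [FiniteDimensional ℝ E]
  [MeasurableSpace E] [BorelSpace E]

theorem exists_coord2 (p q : Fin n → E) (i₀ : Fin n) {D : ℕ}
    (hD : finrank ℝ (Submodule.span ℝ (Set.range fun i : Fin n =>
      (WithLp.toLp 2 (p i - p i₀, q i - q i₀) : WithLp 2 (E × E)))) = D) :
    ∃ (a : Fin D → ℝ) (P Q : (Fin D → ℝ) →ₗ[ℝ] E) (z : Fin n → Fin D → ℝ),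
      (∀ k, 0 ≤ a k) ∧ (∀ k, a k ≤ 1) ∧
      D ≤ finrank ℝ E + (Finset.univ.filter fun k => a k = 0).card ∧
      D ≤ finrank ℝ E + (Finset.univ.filter fun k => a k = 1).card ∧
      (∀ i, p i = p i₀ + P (z i)) ∧ (∀ i, q i = q i₀ + Q (z i)) ∧
      (∀ v, ‖P v‖ ^ 2 = ∑ k, a k * v k ^ 2) ∧ (∀ v, ‖Q v‖ ^ 2 = ∑ k, (1 - a k) * v k ^ 2) := by
  classical
  obtain ⟨W, hW⟩ : ∃ W : Submodule ℝ (WithLp 2 (E × E)), W = Submodule.span ℝ
    (Set.range fun i : Fin n => (WithLp.toLp 2 (p i - p i₀, q i - q i₀) : WithLp 2 (E × E))) :=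
    ⟨_, rfl⟩
  rw [← hW] at hD
  have hmem : ∀ i, WithLp.toLp 2 (p i - p i₀, q i - q i₀) ∈ W := fun i => by
    rw [hW]
    exact Submodule.subset_span ⟨i, rfl⟩
  -- the two coordinate maps
  let α : W →ₗ[ℝ] E :=
    { toFun := fun v => (v : WithLp 2 (E × E)).fst
      map_add' := fun x y => rfl
      map_smul' := fun c x => rfl }
  let β : W →ₗ[ℝ] E :=
    { toFun := fun v => (v : WithLp 2 (E × E)).snd
      map_add' := fun x y => rfl
      map_smul' := fun c x => rfl }
  have hinner : ∀ v w : W, ⟪v, w⟫_ℝ = ⟪α v, α w⟫_ℝ + ⟪β v, β w⟫_ℝ := by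
    intro v w
    rw [Submodule.coe_inner, WithLp.prod_inner_apply]
    rfl
  let T : W →ₗ[ℝ] W := LinearMap.adjoint α ∘ₗ α
  have hT : T.IsSymmetric := by
    intro x y
    simp only [T, LinearMap.comp_apply, LinearMap.adjoint_inner_left,
      LinearMap.adjoint_inner_right]
  have hTα : ∀ v w : W, ⟪T v, w⟫_ℝ = ⟪α v, α w⟫_ℝ := by
    intro v w
    simp only [T, LinearMap.comp_apply, LinearMap.adjoint_inner_left]
  let b := hT.eigenvectorBasis hD
  let a : Fin D → ℝ := hT.eigenvalues hD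
  have hTb : ∀ k, T (b k) = a k • b k := fun k => hT.apply_eigenvectorBasis hD k
  have hαb : ∀ k l, ⟪α (b k), α (b l)⟫_ℝ = a k * ⟪b k, b l⟫_ℝ := by
    intro k l
    rw [← hTα, hTb]
    exact real_inner_smul_left (F := W) (b k) (b l) (a k)
  have hββ : ∀ k l, ⟪β (b k), β (b l)⟫_ℝ = (1 - a k) * ⟪b k, b l⟫_ℝ := by
    intro k l
    have h := hinner (b k) (b l)
    rw [hαb] at h
    linarith
  have hbb : ∀ k, ⟪b k, b k⟫_ℝ = 1 := by
    intro k
    rw [real_inner_self_eq_norm_sq, b.orthonormal.1 k]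
    norm_num
  have hbo : ∀ k l, k ≠ l → ⟪b k, b l⟫_ℝ = 0 := fun k l h => b.orthonormal.2 h
  have hα2 : ∀ v : W, ‖α v‖ ^ 2 = ∑ k, a k * (b.repr v k) ^ 2 := by
    intro v
    rw [← real_inner_self_eq_norm_sq, ← hTα, ← b.sum_inner_mul_inner]
    refine Finset.sum_congr rfl fun k _ => ?_
    have e1 : ⟪T v, b k⟫_ℝ = a k * ⟪v, b k⟫_ℝ := by
      rw [hT v (b k), hTb]
      exact real_inner_smul_right (F := W) v (b k) (a k)
    rw [e1, b.repr_apply_apply, real_inner_comm v (b k)]
    ring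
  have hn2 : ∀ v : W, ‖v‖ ^ 2 = ∑ k, (b.repr v k) ^ 2 := by
    intro v
    rw [← real_inner_self_eq_norm_sq, ← b.sum_inner_mul_inner]
    refine Finset.sum_congr rfl fun k _ => ?_
    rw [b.repr_apply_apply, real_inner_comm v (b k)]
    ring
  have hβ2 : ∀ v : W, ‖β v‖ ^ 2 = ∑ k, (1 - a k) * (b.repr v k) ^ 2 := by
    intro v
    have h := hinner v v
    rw [real_inner_self_eq_norm_sq, real_inner_self_eq_norm_sq, real_inner_self_eq_norm_sq,
      hα2, hn2] at h
    have h2 : ∑ k, (1 - a k) * (b.repr v k) ^ 2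
        = ∑ k, (b.repr v k) ^ 2 - ∑ k, a k * (b.repr v k) ^ 2 := by
      rw [← Finset.sum_sub_distrib]
      refine Finset.sum_congr rfl fun k _ => ?_
      ring
    rw [h2]
    linarith
  have ha0 : ∀ k, 0 ≤ a k := by
    intro k
    have h := hαb k k
    rw [hbb, mul_one, real_inner_self_eq_norm_sq] at h
    rw [← h]
    positivity
  have ha1 : ∀ k, a k ≤ 1 := by
    intro k
    have h := hββ k k
    rw [hbb, mul_one, real_inner_self_eq_norm_sq] at h
    have h2 : 0 ≤ ‖β (b k)‖ ^ 2 := by positivity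
    linarith
  -- dimension counts
  have hcard0 : (Finset.univ.filter fun k => ¬ a k = 0).card ≤ finrank ℝ E := by
    have hli : LinearIndependent ℝ (fun k : {k // ¬ a k = 0} => α (b k)) := by
      refine linearIndependent_of_ne_zero_of_inner_eq_zero (𝕜 := ℝ) ?_ ?_
      · intro k h0
        have h := hαb k k
        rw [h0, inner_zero_left, hbb, mul_one] at h
        exact k.2 h.symm
      · intro k l hkl
        change ⟪α (b k), α (b l)⟫_ℝ = 0
        rw [hαb, hbo k l (fun h => hkl (Subtype.ext h)), mul_zero]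
    have h := hli.fintype_card_le_finrank
    rwa [Fintype.card_subtype] at h
  have hcard1 : (Finset.univ.filter fun k => ¬ a k = 1).card ≤ finrank ℝ E := by
    have hli : LinearIndependent ℝ (fun k : {k // ¬ a k = 1} => β (b k)) := by
      refine linearIndependent_of_ne_zero_of_inner_eq_zero (𝕜 := ℝ) ?_ ?_
      · intro k h0
        have h := hββ k k
        rw [h0, inner_zero_left, hbb, mul_one] at h
        exact k.2 (by linarith)
      · intro k l hkl
        change ⟪β (b k), β (b l)⟫_ℝ = 0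
        rw [hββ, hbo k l (fun h => hkl (Subtype.ext h)), mul_zero]
    have h := hli.fintype_card_le_finrank
    rwa [Fintype.card_subtype] at h
  have hsplit0 := Finset.card_filter_add_card_filter_not (s := (Finset.univ : Finset (Fin D)))
    (fun k => a k = 0)
  have hsplit1 := Finset.card_filter_add_card_filter_not (s := (Finset.univ : Finset (Fin D)))
    (fun k => a k = 1)
  rw [Finset.card_univ, Fintype.card_fin] at hsplit0 hsplit1
  -- the points
  let w : Fin n → W := fun i => ⟨WithLp.toLp 2 (p i - p i₀, q i - q i₀), hmem i⟩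
  have hαw : ∀ i, α (w i) = p i - p i₀ := fun i => rfl
  have hβw : ∀ i, β (w i) = q i - q i₀ := fun i => rfl
  let ψ : (Fin D → ℝ) →ₗ[ℝ] W :=
    b.repr.symm.toLinearEquiv.toLinearMap ∘ₗ (WithLp.linearEquiv 2 ℝ (Fin D → ℝ)).symm.toLinearMap
  have hψ : ∀ v k, b.repr (ψ v) k = v k := by
    intro v k
    have h1 : ψ v = b.repr.symm (WithLp.toLp 2 v) := rfl
    rw [h1, LinearIsometryEquiv.apply_symm_apply]
  have hψw : ∀ i, ψ (fun k => b.repr (w i) k) = w i := by
    intro i
    have h1 : ψ (fun k => b.repr (w i) k) = b.repr.symm (b.repr (w i)) := rfl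
    rw [h1, LinearIsometryEquiv.symm_apply_apply]
  refine ⟨a, α ∘ₗ ψ, β ∘ₗ ψ, fun i k => b.repr (w i) k, ha0, ha1, by omega, by omega,
    fun i => ?_, fun i => ?_, fun v => ?_, fun v => ?_⟩
  · rw [LinearMap.comp_apply, hψw, hαw]
    abel
  · rw [LinearMap.comp_apply, hψw, hβw]
    abel
  · rw [LinearMap.comp_apply, hα2]
    exact Finset.sum_congr rfl fun k _ => by rw [hψ]
  · rw [LinearMap.comp_apply, hβ2]
    exact Finset.sum_congr rfl fun k _ => by rw [hψ]

end Pool.Agent.KneserCone
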