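import Pool.Agent.KneserCone.Defs

/-!
# The weight is `C¹`

PROOF. `Pencil a` gives `6 ≤ D`. `cut D Λ` has derivative `cut' D Λ x` at every `x` (for `x > 0` and
`x < 0` compute, at `x = 0` use `|cut D Λ x| ≤ |x| ^ D`, `D ≥ 2`), `cut' D Λ` is continuous, then
`hasDerivAt_om`, the chain rule for `x0 + x1 * t` and the product rule. For the continuity of the
derivative one needs the continuity of `omt a` on `(0, 1)` (`continuousOn_omt_Smooth` in
`Pool/Agent/KneserRank/Smooth.lean` is private, copy it).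
-/

set_option autoImplicit false
set_option linter.unusedSectionVars false

namespace Pool.Agent.KneserCone

open MeasureTheory Set Filter Topology Module
open scoped ENNReal
open Pool.Agent.Kneser Pool.Agent.KneserRank Pool.Agent.KneserCentre

variable {D n : ℕ}

private theorem hasDerivAt_aux_CutWt {Λ y : ℝ} (hy : 0 < 1 + Λ * y) :
    HasDerivAt (fun y : ℝ => y ^ D * (1 + Λ * y) ^ (-(((D : ℝ) + 1) / 2)))
      ((D : ℝ) * y ^ (D - 1) * (1 + Λ * y) ^ (-(((D : ℝ) + 1) / 2)) -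
        (((D : ℝ) + 1) / 2) * Λ * (y ^ D * (1 + Λ * y) ^ (-(((D : ℝ) + 1) / 2) - 1))) y := by
  have h1 : HasDerivAt (fun y : ℝ => 1 + Λ * y) Λ y := by
    simpa using ((hasDerivAt_id y).const_mul Λ).const_add 1
  have h2 := h1.rpow_const (p := -(((D : ℝ) + 1) / 2)) (Or.inl hy.ne')
  refine ((hasDerivAt_pow D y).mul h2).congr_deriv ?_
  ring

private theorem pos_CutWt {Λ : ℝ} (hΛ : 0 ≤ Λ) (x : ℝ) : 0 < 1 + Λ * max x 0 := by
  have := mul_nonneg hΛ (le_max_right x 0)
  linarith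

private theorem cut_of_nonpos_CutWt (hD : 2 ≤ D) {Λ x : ℝ} (hx : x ≤ 0) : cut D Λ x = 0 := by
  unfold cut
  rw [max_eq_right hx, zero_pow (by omega), zero_mul]

private theorem cut'_of_nonpos_CutWt (hD : 2 ≤ D) {Λ x : ℝ} (hx : x ≤ 0) :
    cut' D Λ x = 0 := by
  unfold cut'
  rw [max_eq_right hx, zero_pow (by omega), zero_pow (by omega)]
  ring

private theorem cut_nonneg_CutWt {Λ : ℝ} (hΛ : 0 ≤ Λ) (x : ℝ) : 0 ≤ cut D Λ x := by
  unfold cut
  exact mul_nonneg (pow_nonneg (le_max_right x 0) _)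
    (Real.rpow_nonneg (pos_CutWt hΛ x).le _)

theorem hasDerivAt_cut (hD : 2 ≤ D) {Λ : ℝ} (hΛ : 0 ≤ Λ) (x : ℝ) :
    HasDerivAt (cut D Λ) (cut' D Λ x) x := by
  have hr : ∀ x : ℝ, 0 ≤ x → HasDerivWithinAt (cut D Λ) (cut' D Λ x) (Ici 0) x := by
    intro x hx
    have h1 : 0 < 1 + Λ * x := by
      have := pos_CutWt hΛ x
      rwa [max_eq_left hx] at this
    have h2 := (hasDerivAt_aux_CutWt (D := D) h1).hasDerivWithinAt (s := Ici 0)
    have h3 : cut' D Λ x = (D : ℝ) * x ^ (D - 1) * (1 + Λ * x) ^ (-(((D : ℝ) + 1) / 2)) -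
        (((D : ℝ) + 1) / 2) * Λ * (x ^ D * (1 + Λ * x) ^ (-(((D : ℝ) + 1) / 2) - 1)) := by
      unfold cut'
      rw [max_eq_left hx]
    rw [h3]
    refine h2.congr (fun y hy => ?_) ?_
    · unfold cut
      rw [max_eq_left (show (0 : ℝ) ≤ y from hy)]
    · unfold cut
      rw [max_eq_left hx]
  have hl : ∀ x : ℝ, x ≤ 0 → HasDerivWithinAt (cut D Λ) (cut' D Λ x) (Iic 0) x := by
    intro x hx
    rw [cut'_of_nonpos_CutWt hD hx]
    exact (hasDerivWithinAt_const x (Iic 0) (0 : ℝ)).congr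
      (fun y hy => cut_of_nonpos_CutWt hD hy) (cut_of_nonpos_CutWt hD hx)
  rcases lt_trichotomy x 0 with hx | hx | hx
  · exact (hl x hx.le).hasDerivAt (Iic_mem_nhds hx)
  · subst hx
    have h := (hl 0 le_rfl).union (hr 0 le_rfl)
    rw [Iic_union_Ici] at h
    exact hasDerivWithinAt_univ.1 h
  · exact (hr x hx.le).hasDerivAt (Ici_mem_nhds hx)

theorem continuous_cut' (hD : 2 ≤ D) {Λ : ℝ} (hΛ : 0 ≤ Λ) : Continuous (cut' D Λ) := by
  have _ := hD
  have h0 : Continuous fun x : ℝ => max x 0 := continuous_id.max continuous_const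
  have h1 : Continuous fun x : ℝ => 1 + Λ * max x 0 := continuous_const.add (h0.const_mul Λ)
  have h2 : ∀ p : ℝ, Continuous fun x : ℝ => (1 + Λ * max x 0) ^ p := fun p =>
    h1.rpow_const fun x => Or.inl (pos_CutWt hΛ x).ne'
  unfold cut'
  exact ((continuous_const.mul (h0.pow _)).mul (h2 _)).sub
    (continuous_const.mul ((h0.pow _).mul (h2 _)))

private theorem continuous_ll_CutWt (a : Fin D → ℝ) (k : Fin D) : Continuous (ll a k) := by
  unfold ll
  fun_prop

private theorem continuousOn_omt_CutWt {a : Fin D → ℝ} (ha : Pencil a) :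
    ContinuousOn (omt a) (Ioo (0 : ℝ) 1) := by
  unfold omt
  refine (((continuousOn_om ha).mul (continuousOn_finsetSum _ fun k _ => ?_)).neg).div_const 2
  exact ContinuousOn.div continuousOn_const (continuous_ll_CutWt a k).continuousOn
    fun t ht => (ll_pos ha ht k).ne'

private theorem two_le_CutWt {a : Fin D → ℝ} (ha : Pencil a) : 2 ≤ D := by
  have h := ha.zeros.trans (Finset.card_filter_le _ _)
  rw [Finset.card_univ, Fintype.card_fin] at h
  omega

theorem wt_cut {a : Fin D → ℝ} (ha : Pencil a) {Λ : ℝ} (hΛ : 0 ≤ Λ) (x0 x1 : ℝ) :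
    Wt (fun t => om a t * cut D Λ (x0 + x1 * t))
      (fun t => omt a t * cut D Λ (x0 + x1 * t) + om a t * (cut' D Λ (x0 + x1 * t) * x1)) := by
  have hD := two_le_CutWt ha
  have hc : Continuous (cut D Λ) :=
    continuous_iff_continuousAt.2 fun x => (hasDerivAt_cut hD hΛ x).continuousAt
  have hl : Continuous fun t : ℝ => x0 + x1 * t := by fun_prop
  refine ⟨fun t ht => mul_nonneg (om_pos ha ht).le (cut_nonneg_CutWt hΛ _), fun t ht => ?_, ?_⟩
  · have h1 : HasDerivAt (fun t : ℝ => x0 + x1 * t) x1 t := by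
      simpa using ((hasDerivAt_id t).const_mul x1).const_add x0
    have h2 : HasDerivAt (fun t : ℝ => cut D Λ (x0 + x1 * t)) (cut' D Λ (x0 + x1 * t) * x1) t :=
      HasDerivAt.comp (h₂ := cut D Λ) (h := fun t : ℝ => x0 + x1 * t)
        (h₂' := cut' D Λ (x0 + x1 * t)) t (hasDerivAt_cut hD hΛ (x0 + x1 * t)) h1
    exact (hasDerivAt_om ha ht).mul h2
  · exact ((continuousOn_omt_CutWt ha).mul (hc.comp hl).continuousOn).add
      ((continuousOn_om ha).mul
        (((continuous_cut' hD hΛ).comp hl).mul continuous_const).continuousOn)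

end Pool.Agent.KneserCone
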