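import Pool.Agent.KneserRank.Final

/-!
# A local rank condition for Kneser's inequality: definitions

THEOREM C. Let `p, q : Fin n → E`, `d = finrank E`, be a contraction such that the vectors
`(1, p i, q i)` span a space of dimension `≤ d + 4` (automatic for `d = 3`). Assume that for every
pair `i, j` with `dist (q i) (q j) < dist (p i) (p j)` the vectors
`(1, p k, q k, ‖p k‖² - ρ k², ‖q k‖² - ρ k²)`, where `k` runs over the indices such that the three
balls with centres `q i`, `q j`, `q k` have a common point, span a space of dimension `≤ d + 5`.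
Then the weighted inequality holds.

OVERVIEW OF THE PROOF. `D = d + 3`, coordinates `z i ∈ ℝ ^ D` with
`‖p i - p j‖² = ∑ a k (z i k - z j k)²`, `‖q i - q j‖² = ∑ (1 - a k) (z i k - z j k)²`. Points of
`XS D = ℝ × (ℝ ^ D × ℝ)` are `X = (t, (w, h))`; the functions
`Yf a z X l = h + LL a z w l + t * zet a z l` are affine in `X`; `ya a z (t, (w, η)) l =
Yf a z (lft a 0 (t, (w, η))) l` with `lft a ε (t, (w, η)) = (t, (w, HH a 0 w t + η² + ε))`, and
`ya a z (t, (w, η)) l = ∑ k, ll a k t * (w k / (2 * ll a k t) - z l k)² + η²`.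
All walls `Yf · l = c l`, `l ∈ L`, pass through a common point `O` (a central configuration) if
`c l = Yf a z O l` for `l ∈ L`. Radial integration from `O` gives the positivity of the pair
terms, see `Ray`, `Space`, `Central`.
-/

set_option autoImplicit false
set_option linter.unusedSectionVars false

namespace Pool.Agent.KneserCone

open MeasureTheory Set Filter Topology
open scoped ENNReal
open Pool.Agent.KneserRank Pool.Agent.KneserCentre

variable {D n : ℕ}

/-! ### Weights -/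

/-- A `C¹` weight on `(0, 1)`. -/
structure Wt (v v' : ℝ → ℝ) : Prop where
  nonneg : ∀ t ∈ Ioo (0 : ℝ) 1, 0 ≤ v t
  deriv : ∀ t ∈ Ioo (0 : ℝ) 1, HasDerivAt v (v' t) t
  cont : ContinuousOn v' (Ioo (0 : ℝ) 1)

/-- The function `F` with a general weight. -/
noncomputable def FlinW (a e w : Fin D → ℝ) (v : ℝ → ℝ) (h : ℝ) : ℝ≥0∞ :=
  ∫⁻ t in Ioo (0 : ℝ) 1,
    ENNReal.ofReal (if HH a e w t < h then v t / √(h - HH a e w t) else 0)

/-- The radial weight `x₊ ^ D * (1 + Λ x₊) ^ (-(D + 1) / 2)`. -/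
noncomputable def cut (D : ℕ) (Λ x : ℝ) : ℝ :=
  (max x 0) ^ D * (1 + Λ * max x 0) ^ (-(((D : ℝ) + 1) / 2))

/-- The derivative of `cut D Λ`. -/
noncomputable def cut' (D : ℕ) (Λ x : ℝ) : ℝ :=
  (D : ℝ) * (max x 0) ^ (D - 1) * (1 + Λ * max x 0) ^ (-(((D : ℝ) + 1) / 2)) -
    (((D : ℝ) + 1) / 2) * Λ * ((max x 0) ^ D * (1 + Λ * max x 0) ^ (-(((D : ℝ) + 1) / 2) - 1))

/-- The weight of the smoothing scales. -/
noncomputable def wr (D : ℕ) (Λ r : ℝ) : ℝ := (1 + Λ * r) ^ (-(((D : ℝ) + 1) / 2))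

/-! ### The affine space -/

/-- The space of all `(t, (w, h))` or `(t, (w, η))`. -/
abbrev XS (D : ℕ) : Type := ℝ × ((Fin D → ℝ) × ℝ)

/-- The coefficient of `t`. -/
noncomputable def zet (a : Fin D → ℝ) (z : Fin n → Fin D → ℝ) (l : Fin n) : ℝ :=
  ∑ k, (2 * a k - 1) * z l k ^ 2

/-- The affine functions. -/
noncomputable def Yf (a : Fin D → ℝ) (z : Fin n → Fin D → ℝ) (X : XS D) (l : Fin n) : ℝ :=
  X.2.2 + LL a z X.2.1 l + X.1 * zet a z l

/-- The map `(t, (w, η)) ↦ (t, (w, HH a 0 w t + η² + ε))`. -/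
noncomputable def lft (a : Fin D → ℝ) (ε : ℝ) (x : XS D) : XS D :=
  (x.1, (x.2.1, HH a 0 x.2.1 x.1 + x.2.2 ^ 2 + ε))

/-- The arguments `y l` at the point `(t, (w, η))`. -/
noncomputable def ya (a : Fin D → ℝ) (z : Fin n → Fin D → ℝ) (x : XS D) (l : Fin n) : ℝ :=
  HH a 0 x.2.1 x.1 + x.2.2 ^ 2 + LL a z x.2.1 l + x.1 * zet a z l

/-- The density on `XS D` (shifted by `ε`). -/
noncomputable def dens (a : Fin D → ℝ) (ε : ℝ) (X : XS D) : ℝ≥0∞ :=
  ENNReal.ofReal (if X.1 ∈ Ioo (0 : ℝ) 1 ∧ HH a 0 X.2.1 X.1 < X.2.2 - ε then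
    om a X.1 / √(X.2.2 - ε - HH a 0 X.2.1 X.1) else 0)

/-- Directions `U` which are generic with respect to the centre `O`. -/
structure GenU (a : Fin D → ℝ) (O U : XS D) : Prop where
  ne : U.1 ≠ 0
  left : ∃ k, a k = 1 ∧ O.2.1 k * U.1 - O.1 * U.2.1 k ≠ 0
  right : ∃ k, a k = 0 ∧ O.2.1 k * U.1 + (1 - O.1) * U.2.1 k ≠ 0

/-! ### The smoothed counting function -/

/-- A constant depending on `φ` and `n`. -/
noncomputable def CC (n : ℕ) (φ : ℕ → ℝ) : ℝ := ∑ S : Finset (Fin n), |φ S.card|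

/-- The Gumbel function `1 - exp (-exp (-x))`. -/
noncomputable def bG (x : ℝ) : ℝ := 1 - Real.exp (-Real.exp (-x))

/-- Minus the derivative of `bG`. -/
noncomputable def eG (x : ℝ) : ℝ := Real.exp (-x) * Real.exp (-Real.exp (-x))

/-- Minus the second difference of `mul φ` in the directions `i`, `j`. -/
noncomputable def sd (φ : ℕ → ℝ) (i j : Fin n) (w : Fin n → ℝ) : ℝ :=
  -∑ S : Finset (Fin n), φ S.card *
    ((if i ∈ S then (1 : ℝ) else -1) * (if j ∈ S then (1 : ℝ) else -1) *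
      ∏ l ∈ (Finset.univ.erase i).erase j, (if l ∈ S then w l else 1 - w l))

/-- The smoothed pair density at scale `r`, where only the walls `l ∈ L` are taken into account. -/
noncomputable def gd (φ : ℕ → ℝ) (L : Finset (Fin n)) (i j : Fin n) (c : Fin n → ℝ) (r : ℝ)
    (y : Fin n → ℝ) : ℝ :=
  (r⁻¹) ^ 2 * (eG ((y i - c i) / r) * eG ((y j - c j) / r)) *
    sd φ i j (fun l => if l ∈ L then bG ((y l - c l) / r) else 0)

/-- The pair integral. -/
noncomputable def GI (a : Fin D → ℝ) (z : Fin n → Fin D → ℝ) (φ : ℕ → ℝ) (L : Finset (Fin n))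
    (i j : Fin n) (c : Fin n → ℝ) (r ε : ℝ) : ℝ :=
  ∫ x, om a x.1 * gd φ L i j c r (fun l => ya a z x l + ε) ∂(mu D)

variable {E : Type*} [NormedAddCommGroup E] [InnerProductSpace ℝ E] [FiniteDimensional ℝ E]
  [MeasurableSpace E] [BorelSpace E]

/-- The smoothed volume functional, shifted by `s`. -/
noncomputable def VI (p : Fin n → E) (φ : ℕ → ℝ) (c : Fin n → ℝ) (r s : ℝ) : ℝ :=
  ∫ x : E, mul φ (fun l => bG ((‖x - p l‖ ^ 2 + s - c l) / r))

/-- The volume functional, shifted by `s`. -/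
noncomputable def V0 (p : Fin n → E) (φ : ℕ → ℝ) (c : Fin n → ℝ) (s : ℝ) : ℝ :=
  ∫ x : E, φ (cnt2 p (fun l => c l - s) x)

end Pool.Agent.KneserCone
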