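import Pool.Agent.KneserCone.Defs

/-!
# The Gaussian integral without the linear relation

PROOF. Copy `Pool/Agent/KneserRank/Triple.lean` with `e = 0` and `yv` replaced by `ya`: the relation
`hrel` is only used there to get `yv_eq`, and for `ya` the term `t * zet a z i` makes the identity
`ya_eq` hold without it (`ll a k t = (1 - a k) + t * (2 * a k - 1)`).
-/

set_option autoImplicit false
set_option linter.unusedSectionVars false

namespace Pool.Agent.KneserCone

open MeasureTheory Set Filter Topology Module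
open scoped ENNReal
open Pool.Agent.Kneser Pool.Agent.KneserRank Pool.Agent.KneserCentre

variable {D n : ℕ}

theorem ya_eq {a : Fin D → ℝ} (ha : Pencil a) (z : Fin n → Fin D → ℝ) {t : ℝ}
    (ht : t ∈ Ioo (0 : ℝ) 1) (w : Fin D → ℝ) (η : ℝ) (i : Fin n) :
    ya a z (t, (w, η)) i = ∑ k, ll a k t * (w k / (2 * ll a k t) - z i k) ^ 2 + η ^ 2 := by
  have h1 : ∀ k, ll a k t * (w k / (2 * ll a k t) - z i k) ^ 2 =
      (w k + t * 0) ^ 2 / (4 * ll a k t) + ((1 - a k) * z i k ^ 2 - w k * z i k) +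
        t * ((2 * a k - 1) * z i k ^ 2) := by
    intro k
    have hl := ll_pos ha ht k
    have h2 : ll a k t * (w k / (2 * ll a k t) - z i k) ^ 2 =
        (w k + t * 0) ^ 2 / (4 * ll a k t) - w k * z i k + ll a k t * z i k ^ 2 := by
      rw [mul_zero, add_zero]
      field_simp
      ring
    rw [h2]
    have h3 : ll a k t = (1 - a k) + t * (2 * a k - 1) := by unfold ll; ring
    have h4 : ll a k t * z i k ^ 2 = ((1 - a k) + t * (2 * a k - 1)) * z i k ^ 2 := by rw [h3]
    rw [h4]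
    ring
  rw [Finset.sum_congr rfl fun k _ => h1 k, Finset.sum_add_distrib, Finset.sum_add_distrib,
    ← Finset.mul_sum]
  unfold ya HH LL zet
  simp only [Pi.zero_apply]
  ring

theorem ya_nonneg {a : Fin D → ℝ} (ha : Pencil a) (z : Fin n → Fin D → ℝ) {x : XS D}
    (hx : x.1 ∈ Ioo (0 : ℝ) 1) (i : Fin n) : 0 ≤ ya a z x i := by
  obtain ⟨t, w, η⟩ := x
  rw [ya_eq ha z hx w η i]
  refine add_nonneg (Finset.sum_nonneg fun k _ => ?_) (sq_nonneg η)
  exact mul_nonneg (ll_pos ha hx k).le (sq_nonneg _)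

theorem ae_mem_Ioo : ∀ᵐ x ∂(mu D), x.1 ∈ Ioo (0 : ℝ) 1 := by
  unfold mu
  have h1 : ∀ᵐ t ∂((volume : Measure ℝ).restrict (Ioo (0 : ℝ) 1)), t ∈ Ioo (0 : ℝ) 1 :=
    ae_restrict_mem measurableSet_Ioo
  exact Measure.quasiMeasurePreserving_fst.ae h1

theorem measurable_ya (a : Fin D → ℝ) (z : Fin n → Fin D → ℝ) (l : Fin n) :
    Measurable (fun x : XS D => ya a z x l) := by
  unfold ya HH LL ll
  fun_prop

theorem measurable_om (a : Fin D → ℝ) : Measurable (om a) := by
  unfold om ll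
  fun_prop

private theorem trip_ee {a : Fin D → ℝ} (ha : Pencil a) (z : Fin n → Fin D → ℝ)
    (k : Fin n → ℕ) {t : ℝ} (ht : t ∈ Ioo (0 : ℝ) 1) (w : Fin D → ℝ) (η : ℝ) :
    ee k (ya a z (t, (w, η))) =
      (∏ m, ee k (fun i => ‖w m / (2 * √(ll a m t)) -
        √(ll a m t) * z i m‖ ^ 2)) * Real.exp (-tot k * η ^ 2) := by
  unfold ee
  rw [← Real.exp_sum, ← Real.exp_add]
  congr 1
  simp_rw [ya_eq ha z ht w η, mul_add, Finset.sum_add_distrib, Finset.mul_sum]
  rw [Finset.sum_neg_distrib, Finset.sum_comm, ← Finset.sum_mul, neg_add, neg_mul]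
  unfold tot
  congr 1
  congr 1
  refine Finset.sum_congr rfl fun m _ => Finset.sum_congr rfl fun i _ => ?_
  have hl := ll_pos ha ht m
  have hs : 0 < √(ll a m t) := Real.sqrt_pos.mpr hl
  rw [Real.norm_eq_abs, sq_abs]
  have h1 : w m / (2 * √(ll a m t)) = √(ll a m t) * (w m / (2 * ll a m t)) := by
    have h2 : ll a m t = √(ll a m t) * √(ll a m t) := (Real.mul_self_sqrt hl.le).symm
    conv_rhs => rw [h2]
    rw [Real.sqrt_mul_self hs.le]
    field_simp
  rw [h1, ← mul_sub, mul_pow, Real.sq_sqrt hl.le]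

private theorem trip_one {k : Fin n → ℕ} (hk : k ≠ 0) {l : ℝ} (hl : 0 < l) (y : Fin n → ℝ) :
    ∫ u : ℝ, ee k (fun i => ‖u / (2 * √l) - √l * y i‖ ^ 2) =
      2 * √l * ((Real.pi / tot k) ^ ((1 : ℝ) / 2) *
        Real.exp (-(l * quad k (fun i j => (y i - y j) ^ 2) / tot k))) := by
  have hs : 0 < √l := Real.sqrt_pos.mpr hl
  rw [Measure.integral_comp_div (fun u : ℝ => ee k (fun i => ‖u - √l * y i‖ ^ 2)) (2 * √l),
    integral_ee hk, abs_of_pos (by positivity), smul_eq_mul]
  congr 2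
  · simp
  · congr 3
    unfold quad
    rw [← mul_div_assoc, Finset.mul_sum]
    congr 1
    refine Finset.sum_congr rfl fun i _ => ?_
    rw [Finset.mul_sum]
    refine Finset.sum_congr rfl fun j _ => ?_
    simp only
    rw [← mul_sub, Real.norm_eq_abs, sq_abs, mul_pow, Real.sq_sqrt hl.le]
    ring

private theorem trip_fix {a : Fin D → ℝ} (ha : Pencil a) (z : Fin n → Fin D → ℝ)
    {k : Fin n → ℕ} (hk : k ≠ 0) {t : ℝ} (ht : t ∈ Ioo (0 : ℝ) 1) :
    ∫ y : (Fin D → ℝ) × ℝ, om a t * ee k (ya a z (t, y))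
        ∂((volume : Measure (Fin D → ℝ)).prod (volume : Measure ℝ)) =
      2 ^ D * (Real.pi / tot k) ^ (((D : ℝ) + 1) / 2) *
        Real.exp (-((t * quad k (fun i j => ∑ m, a m * (z i m - z j m) ^ 2) +
          (1 - t) * quad k (fun i j => ∑ m, (1 - a m) * (z i m - z j m) ^ 2)) / tot k)) := by
  have hK := tot_pos hk
  have h1 : ∀ y : (Fin D → ℝ) × ℝ, om a t * ee k (ya a z (t, y)) =
      om a t * ((∏ m, ee k (fun i => ‖y.1 m / (2 * √(ll a m t)) -
        √(ll a m t) * z i m‖ ^ 2)) * Real.exp (-tot k * y.2 ^ 2)) := fun y => by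
    rw [← trip_ee ha z k ht]
  simp_rw [h1]
  rw [integral_const_mul, integral_prod_mul
    (fun w : Fin D → ℝ => ∏ m, ee k (fun i => ‖w m / (2 * √(ll a m t)) -
        √(ll a m t) * z i m‖ ^ 2)) (fun η : ℝ => Real.exp (-tot k * η ^ 2)),
    integral_gaussian]
  have h2 : ∫ w : Fin D → ℝ, ∏ m, ee k (fun i => ‖w m / (2 * √(ll a m t)) -
        √(ll a m t) * z i m‖ ^ 2) =
      ∏ m, ∫ u : ℝ, ee k (fun i => ‖u / (2 * √(ll a m t)) -
        √(ll a m t) * z i m‖ ^ 2) :=
    integral_fintype_prod_volume_eq_prod (fun m (u : ℝ) =>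
      ee k (fun i => ‖u / (2 * √(ll a m t)) - √(ll a m t) * z i m‖ ^ 2))
  rw [h2]
  simp_rw [fun m => trip_one hk (ll_pos ha ht m) (fun i => z i m)]
  rw [Finset.prod_mul_distrib, Finset.prod_mul_distrib, Finset.prod_mul_distrib,
    Finset.prod_const, Finset.prod_const, Finset.card_univ, Fintype.card_fin,
    ← Real.exp_sum]
  have h3 : om a t * ∏ m, √(ll a m t) = 1 := by
    unfold om
    rw [Real.sqrt_prod _ fun m _ => (ll_pos ha ht m).le]
    exact inv_mul_cancel₀ (Finset.prod_ne_zero_iff.mpr fun m _ =>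
      (Real.sqrt_pos.mpr (ll_pos ha ht m)).ne')
  have h4 : ∑ m, -(ll a m t * quad k (fun i j => (z i m - z j m) ^ 2) / tot k) =
      -((t * quad k (fun i j => ∑ m, a m * (z i m - z j m) ^ 2) +
          (1 - t) * quad k (fun i j => ∑ m, (1 - a m) * (z i m - z j m) ^ 2)) / tot k) := by
    rw [Finset.sum_neg_distrib, ← Finset.sum_div]
    congr 2
    have h5 : ∀ c : Fin D → ℝ, quad k (fun i j => ∑ m, c m * (z i m - z j m) ^ 2) =
        ∑ m, c m * quad k (fun i j => (z i m - z j m) ^ 2) := by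
      intro c
      unfold quad
      have h7 : ∑ i, ∑ j, (k i : ℝ) * (k j : ℝ) * ∑ m, c m * (z i m - z j m) ^ 2 =
          ∑ m, c m * ∑ i, ∑ j, (k i : ℝ) * (k j : ℝ) * (z i m - z j m) ^ 2 := by
        simp_rw [Finset.mul_sum]
        have h8 : ∀ i : Fin n, ∑ j, ∑ m, (k i : ℝ) * (k j : ℝ) * (c m * (z i m - z j m) ^ 2) =
            ∑ m, ∑ j, (k i : ℝ) * (k j : ℝ) * (c m * (z i m - z j m) ^ 2) :=
          fun i => Finset.sum_comm
        rw [Finset.sum_congr rfl fun i _ => h8 i, Finset.sum_comm]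
        refine Finset.sum_congr rfl fun m _ => Finset.sum_congr rfl fun i _ =>
          Finset.sum_congr rfl fun j _ => ?_
        ring
      rw [h7, Finset.sum_div]
      refine Finset.sum_congr rfl fun m _ => ?_
      rw [mul_div_assoc]
    rw [h5, h5 (fun m => 1 - a m), Finset.mul_sum, Finset.mul_sum, ← Finset.sum_add_distrib]
    refine Finset.sum_congr rfl fun m _ => ?_
    unfold ll
    ring
  rw [h4]
  have h6 : ((Real.pi / tot k) ^ ((1 : ℝ) / 2)) ^ D * √(Real.pi / tot k) =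
      (Real.pi / tot k) ^ (((D : ℝ) + 1) / 2) := by
    have hp : 0 < Real.pi / tot k := div_pos Real.pi_pos hK
    rw [Real.sqrt_eq_rpow, ← Real.rpow_natCast, ← Real.rpow_mul hp.le, ← Real.rpow_add hp]
    congr 1
    ring
  rw [← h6]
  linear_combination (2 ^ D * (((Real.pi / tot k) ^ ((1 : ℝ) / 2)) ^ D *
    √(Real.pi / tot k)) * Real.exp (-((t * quad k (fun i j => ∑ m, a m * (z i m - z j m) ^ 2) +
          (1 - t) * quad k (fun i j => ∑ m, (1 - a m) * (z i m - z j m) ^ 2)) / tot k))) * h3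

private theorem trip_meas (a : Fin D → ℝ) (z : Fin n → Fin D → ℝ) (k : Fin n → ℕ) :
    Measurable (fun x : ℝ × ((Fin D → ℝ) × ℝ) => om a x.1 * ee k (ya a z x)) := by
  refine Measurable.mul ((measurable_om a).comp measurable_fst) ?_
  unfold ee
  refine Real.measurable_exp.comp (Measurable.neg ?_)
  exact Finset.measurable_sum _ fun i _ => (measurable_ya a z i).const_mul _

private theorem trip_pos (a : Fin D → ℝ) (z : Fin n → Fin D → ℝ) (k : Fin n → ℕ)
    (x : ℝ × ((Fin D → ℝ) × ℝ)) : 0 ≤ om a x.1 * ee k (ya a z x) := by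
  unfold om ee
  positivity

private theorem trip_cont (A B K : ℝ) :
    Continuous (fun t : ℝ => Real.exp (-((t * A + (1 - t) * B) / K))) := by
  fun_prop

theorem integrable_trip {a : Fin D → ℝ} (ha : Pencil a) (z : Fin n → Fin D → ℝ) {k : Fin n → ℕ}
    (hk : k ≠ 0) : Integrable (fun x => om a x.1 * ee k (ya a z x)) (mu D) := by
  unfold mu
  rw [integrable_prod_iff (trip_meas a z k).aestronglyMeasurable]
  have hp : 0 < Real.pi / tot k := div_pos Real.pi_pos (tot_pos hk)
  constructor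
  · rw [ae_restrict_iff' measurableSet_Ioo]
    refine ae_of_all _ fun t ht => ?_
    by_contra h
    have h1 := trip_fix ha z hk ht
    rw [integral_undef h] at h1
    have h2 := mul_pos (mul_pos (pow_pos (zero_lt_two' ℝ) D)
      (Real.rpow_pos_of_pos hp (((D : ℝ) + 1) / 2)))
      (Real.exp_pos (-((t * quad k (fun i j => ∑ m, a m * (z i m - z j m) ^ 2) +
          (1 - t) * quad k (fun i j => ∑ m, (1 - a m) * (z i m - z j m) ^ 2)) / tot k)))
    exact h2.ne h1
  · have h1 : IntegrableOn (fun t : ℝ => 2 ^ D * (Real.pi / tot k) ^ (((D : ℝ) + 1) / 2) *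
        Real.exp (-((t * quad k (fun i j => ∑ m, a m * (z i m - z j m) ^ 2) +
          (1 - t) * quad k (fun i j => ∑ m, (1 - a m) * (z i m - z j m) ^ 2)) / tot k)))
        (Ioo 0 1) volume :=
      ((continuous_const.mul (trip_cont _ _ _)).continuousOn.integrableOn_Icc).mono_set
        Ioo_subset_Icc_self
    refine Integrable.congr h1 ?_
    rw [Filter.EventuallyEq, ae_restrict_iff' measurableSet_Ioo]
    refine ae_of_all _ fun t ht => ?_
    rw [← trip_fix ha z hk ht]
    refine integral_congr_ae (ae_of_all _ fun y => ?_)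
    exact (Real.norm_of_nonneg (trip_pos a z k (t, y))).symm

theorem integral_trip {a : Fin D → ℝ} (ha : Pencil a) (z : Fin n → Fin D → ℝ) {k : Fin n → ℕ}
    (hk : k ≠ 0) :
    ∫ x, om a x.1 * ee k (ya a z x) ∂(mu D) =
      2 ^ D * (Real.pi / tot k) ^ (((D : ℝ) + 1) / 2) *
        ∫ t in (0 : ℝ)..1, Real.exp (-((t * quad k (fun i j => ∑ m, a m * (z i m - z j m) ^ 2) +
          (1 - t) * quad k (fun i j => ∑ m, (1 - a m) * (z i m - z j m) ^ 2)) / tot k)) := by
  have h := integrable_trip ha z hk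
  unfold mu at h ⊢
  rw [integral_prod _ h, intervalIntegral.integral_of_le zero_le_one,
    integral_Ioc_eq_integral_Ioo, ← integral_const_mul]
  refine setIntegral_congr_fun measurableSet_Ioo fun t ht => ?_
  exact trip_fix ha z hk ht

end Pool.Agent.KneserCone
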