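import Pool.Agent.KneserCone.Kirs
import Pool.Agent.KneserCone.Trip

/-!
# Disjoint triples

PROOF. Suppose not. For every `m : ℕ` there is `x = (t, (w, η))`, `t ∈ (0, 1)`, with
`ya a z x l - c l < 1 / (m + 1)` for `l ∈ {i, j, k}`. In `F = EuclideanSpace ℝ (Fin D ⊕ Fin 1)` (or
`WithLp 2 (EuclideanSpace ℝ (Fin D) × ℝ)`) let `u l` be the point with coordinates
`√(ll a k t) * z l k` and `0`, and `Ξ` the point with coordinates `w k / (2 √(ll a k t))` and `η`;
then
`‖Ξ - u l‖² = ya a z x l` (`ya_eq`) and `‖u l - u m‖² = ∑ ll a k t (z l k - z m k)² =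
t ‖p l - p m‖² + (1 - t) ‖q l - q m‖² ≥ ‖q l - q m‖²`. By `kirs_three` there is `y m : E` with
`‖y m - q l‖² ≤ c l + 1 / (m + 1)` for the three `l`. The sequence is bounded, a subsequence
converges to a point contradicting `hne`.
-/

set_option autoImplicit false
set_option linter.unusedSectionVars false

namespace Pool.Agent.KneserCone

open MeasureTheory Set Filter Topology Module
open scoped ENNReal
open Pool.Agent.Kneser Pool.Agent.KneserRank Pool.Agent.KneserCentre

variable {D n : ℕ}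

variable {E : Type*} [NormedAddCommGroup E] [InnerProductSpace ℝ E] [FiniteDimensional ℝ E]
  [MeasurableSpace E] [BorelSpace E]

/-- the point with the coordinates `f` and `e` -/
private noncomputable def ptDisj (f : Fin D → ℝ) (e : ℝ) : EuclideanSpace ℝ (Option (Fin D)) :=
  WithLp.toLp 2 (fun o => o.elim e f)

private theorem norm_ptDisj (f g : Fin D → ℝ) (e h : ℝ) :
    ‖ptDisj f e - ptDisj g h‖ ^ 2 = ∑ k, (f k - g k) ^ 2 + (e - h) ^ 2 := by
  rw [EuclideanSpace.norm_sq_eq, Fintype.sum_option, add_comm]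
  simp only [ptDisj, PiLp.sub_apply, Option.elim_some, Option.elim_none, Real.norm_eq_abs, sq_abs]

private theorem step_Disj {a : Fin D → ℝ} (ha : Pencil a) (hD : D = finrank ℝ E + 3)
    (p q : Fin n → E) (z : Fin n → Fin D → ℝ)
    (hp : ∀ i j, ‖p i - p j‖ ^ 2 = ∑ k, a k * (z i k - z j k) ^ 2)
    (hq : ∀ i j, ‖q i - q j‖ ^ 2 = ∑ k, (1 - a k) * (z i k - z j k) ^ 2)
    (hpq : ∀ i j, dist (q i) (q j) ≤ dist (p i) (p j)) (c : Fin n → ℝ) (idx : Fin 3 → Fin n)
    {δ t η : ℝ} {w : Fin D → ℝ} (ht : t ∈ Ioo (0 : ℝ) 1)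
    (hlt : ∀ s, ya a z (t, (w, η)) (idx s) - c (idx s) < δ) :
    ∃ y : E, ∀ s, ‖y - q (idx s)‖ ^ 2 ≤ c (idx s) + δ := by
  have hll : ∀ k, 0 < ll a k t := ll_pos ha ht
  refine kirs_three (E := E) (F := EuclideanSpace ℝ (Option (Fin D))) ?_
    (fun s => ptDisj (fun k => √(ll a k t) * z (idx s) k) 0) (fun s => q (idx s)) ?_
    (fun s => c (idx s) + δ) (ptDisj (fun k => w k / (2 * √(ll a k t))) η) ?_
  · rw [finrank_euclideanSpace, Fintype.card_option, Fintype.card_fin]
    omega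
  · intro l m
    rw [dist_eq_norm, dist_eq_norm]
    refine le_of_sq_le_sq ?_ (norm_nonneg _)
    rw [norm_ptDisj]
    have h1 : ‖q (idx l) - q (idx m)‖ ^ 2 ≤ ‖p (idx l) - p (idx m)‖ ^ 2 := by
      have h2 := hpq (idx l) (idx m)
      rw [dist_eq_norm, dist_eq_norm] at h2
      exact pow_le_pow_left₀ (norm_nonneg _) h2 2
    have h3 : ∑ k, (√(ll a k t) * z (idx l) k - √(ll a k t) * z (idx m) k) ^ 2 + (0 - 0) ^ 2 =
        t * ‖p (idx l) - p (idx m)‖ ^ 2 + (1 - t) * ‖q (idx l) - q (idx m)‖ ^ 2 := by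
      rw [hp, hq, Finset.mul_sum, Finset.mul_sum, ← Finset.sum_add_distrib, sub_zero,
        zero_pow two_ne_zero, add_zero]
      refine Finset.sum_congr rfl fun k _ => ?_
      rw [← mul_sub, mul_pow, Real.sq_sqrt (hll k).le]
      unfold ll
      ring
    rw [h3]
    have h4 : 0 ≤ t := ht.1.le
    nlinarith
  · intro s
    rw [norm_ptDisj]
    have h1 := hlt s
    rw [ya_eq ha z ht] at h1
    have h2 : ∑ k, (w k / (2 * √(ll a k t)) - √(ll a k t) * z (idx s) k) ^ 2 =
        ∑ k, ll a k t * (w k / (2 * ll a k t) - z (idx s) k) ^ 2 := by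
      refine Finset.sum_congr rfl fun k _ => ?_
      have h3 := hll k
      have h4 := Real.sqrt_pos.2 h3
      have h5 : w k / (2 * √(ll a k t)) - √(ll a k t) * z (idx s) k =
          √(ll a k t) * (w k / (2 * ll a k t) - z (idx s) k) := by
        have h6 : w k / (2 * √(ll a k t)) = √(ll a k t) * (w k / (2 * ll a k t)) := by
          have h7 : √(ll a k t) * √(ll a k t) = ll a k t := Real.mul_self_sqrt h3.le
          field_simp
          rw [sq, h7]
        rw [h6]
        ring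
      rw [h5, mul_pow, Real.sq_sqrt h3.le]
    rw [h2, sub_zero]
    linarith

theorem exists_disj {a : Fin D → ℝ} (ha : Pencil a) (hD : D = finrank ℝ E + 3) (p q : Fin n → E)
    (z : Fin n → Fin D → ℝ) (hp : ∀ i j, ‖p i - p j‖ ^ 2 = ∑ k, a k * (z i k - z j k) ^ 2)
    (hq : ∀ i j, ‖q i - q j‖ ^ 2 = ∑ k, (1 - a k) * (z i k - z j k) ^ 2)
    (hpq : ∀ i j, dist (q i) (q j) ≤ dist (p i) (p j)) (c : Fin n → ℝ) {i j k : Fin n}
    (hne : ¬ ∃ y : E, ‖y - q i‖ ^ 2 ≤ c i ∧ ‖y - q j‖ ^ 2 ≤ c j ∧ ‖y - q k‖ ^ 2 ≤ c k) :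
    ∃ δ : ℝ, 0 < δ ∧ ∀ x : XS D, x.1 ∈ Ioo (0 : ℝ) 1 →
      δ ≤ max (ya a z x i - c i) (max (ya a z x j - c j) (ya a z x k - c k)) := by
  by_contra hcon
  push Not at hcon
  have key : ∀ m : ℕ, ∃ y : E, ∀ s, ‖y - q (![i, j, k] s)‖ ^ 2 ≤
      c (![i, j, k] s) + 1 / ((m : ℝ) + 1) := by
    intro m
    obtain ⟨x, hx, hlt⟩ := hcon (1 / ((m : ℝ) + 1)) (by positivity)
    obtain ⟨t, w, η⟩ := x
    have h1 := (le_max_left _ _).trans_lt hlt
    have h2 := ((le_max_left _ _).trans (le_max_right _ _)).trans_lt hlt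
    have h3 := ((le_max_right _ _).trans (le_max_right _ _)).trans_lt hlt
    refine step_Disj ha hD p q z hp hq hpq c ![i, j, k] (t := t) (η := η) (w := w) hx ?_
    intro s
    fin_cases s
    · exact h1
    · exact h2
    · exact h3
  let K : ℕ → Set E := fun m => {y | ∀ s, ‖y - q (![i, j, k] s)‖ ^ 2 ≤
      c (![i, j, k] s) + 1 / ((m : ℝ) + 1)}
  have hcl : ∀ m, IsClosed (K m) := by
    intro m
    have h1 : K m = ⋂ s, {y | ‖y - q (![i, j, k] s)‖ ^ 2 ≤
        c (![i, j, k] s) + 1 / ((m : ℝ) + 1)} := by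
      ext y
      simp only [K, mem_iInter]
      rfl
    rw [h1]
    exact isClosed_iInter fun s => isClosed_le (by fun_prop) continuous_const
  have hK0 : IsCompact (K 0) := by
    refine Metric.isCompact_of_isClosed_isBounded (hcl 0) ?_
    refine (Metric.isBounded_closedBall (x := q i) (r := √(c i + 1))).subset ?_
    intro y hy
    have h1 := hy 0
    simp only [Matrix.cons_val_zero, Nat.cast_zero, zero_add, div_one] at h1
    rw [Metric.mem_closedBall, dist_eq_norm]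
    exact Real.le_sqrt_of_sq_le h1
  have hmono : ∀ m, K (m + 1) ⊆ K m := by
    intro m y hy s
    refine (hy s).trans ?_
    have h1 : (1 : ℝ) / (((m + 1 : ℕ) : ℝ) + 1) ≤ 1 / ((m : ℝ) + 1) := by
      push_cast
      exact one_div_le_one_div_of_le (by positivity) (by linarith)
    linarith
  obtain ⟨y, hy⟩ := IsCompact.nonempty_iInter_of_sequence_nonempty_isCompact_isClosed K hmono
    (fun m => key m) hK0 hcl
  rw [mem_iInter] at hy
  have hle : ∀ s, ‖y - q (![i, j, k] s)‖ ^ 2 ≤ c (![i, j, k] s) := by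
    intro s
    refine le_of_forall_pos_le_add fun ε hε => ?_
    obtain ⟨m, hm⟩ := exists_nat_one_div_lt hε
    exact (hy m s).trans (by linarith)
  exact hne ⟨y, hle 0, hle 1, hle 2⟩

end Pool.Agent.KneserCone
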