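import Pool.Agent.KneserCone.GMeas

/-!
# The error of the localisation

PROOF. By `sd_sub_le` and `bG_le_exp_max`, for `x.1 ∈ (0, 1)`, with `v l = ya a z x l + ε - c l`,
`|gd φ univ - gd φ L| ≤ (r⁻¹)² CC ∑ k ∉ L, eG (v i / r) eG (v j / r) bG (v k / r) ≤
(r⁻¹)² CC ∑ k ∉ L, exp (-m k / r)` with `m k = max (v i) (max (v j) (v k)) ≥ δ + ε ≥ δ > 0`
(each factor is `≤ exp (-max (v / r) 0)`, the largest of the three numbers `max (v / r) 0` is
`m k / r`).
For `0 < r ≤ 1`: `exp (-m / r) = exp (-m / (2 r)) exp (-m / (2 r)) ≤ exp (-δ / (2 r)) exp (-m / 2) ≤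
exp (-δ / (2 r)) exp (-(ya a z x i - c i) / 2)`. Integrate (`integrable_single`, `integral_single`
with `r = 2`). `tendsto_err`: `(r⁻¹)² exp (-δ / (2 r)) → 0` as `r → 0+`.
-/

set_option autoImplicit false
set_option linter.unusedSectionVars false

namespace Pool.Agent.KneserCone

open MeasureTheory Set Filter Topology Module
open scoped ENNReal
open Pool.Agent.Kneser Pool.Agent.KneserRank Pool.Agent.KneserCentre

variable {D n : ℕ}

private theorem err_three {u v w r δ : ℝ} (hr : 0 < r) (hr1 : r ≤ 1) (hδ : 0 < δ)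
    (h : δ ≤ max u (max v w)) :
    eG (u / r) * eG (v / r) * bG (w / r) ≤
      Real.exp (-(δ / (2 * r))) * Real.exp (-(u / 2)) := by
  have h1 : eG (u / r) * eG (v / r) * bG (w / r) ≤
      Real.exp (-max (u / r) 0) * Real.exp (-max (v / r) 0) * Real.exp (-max (w / r) 0) :=
    mul_le_mul (mul_le_mul (eG_le_exp_max _) (eG_le_exp_max _) (eG_nonneg _)
      (Real.exp_pos _).le) (bG_le_exp_max _) (bG_nonneg _)
      (mul_nonneg (Real.exp_pos _).le (Real.exp_pos _).le)
  refine h1.trans ?_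
  rw [← Real.exp_add, ← Real.exp_add, ← Real.exp_add, Real.exp_le_exp]
  set m := max u (max v w) with hm
  have hmpos : 0 < m := lt_of_lt_of_le hδ h
  have h2 : m / r ≤ max (u / r) 0 + max (v / r) 0 + max (w / r) 0 := by
    have a1 := le_max_left (u / r) 0
    have a2 := le_max_left (v / r) 0
    have a3 := le_max_left (w / r) 0
    have b1 := le_max_right (u / r) 0
    have b2 := le_max_right (v / r) 0
    have b3 := le_max_right (w / r) 0
    have h3 : m = u ∨ m = v ∨ m = w := by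
      rcases max_choice u (max v w) with h4 | h4
      · exact Or.inl h4
      · rcases max_choice v w with h5 | h5
        · exact Or.inr (Or.inl (h4.trans h5))
        · exact Or.inr (Or.inr (h4.trans h5))
    rcases h3 with h4 | h4 | h4 <;> rw [h4] <;> linarith
  have h3 : δ / (2 * r) + m / 2 ≤ m / r := by
    have h4 : m / r = m / (2 * r) + m / (2 * r) := by
      field_simp
      ring
    have h5 : δ / (2 * r) ≤ m / (2 * r) := div_le_div_of_nonneg_right h (by positivity)
    have h6 : m / 2 ≤ m / (2 * r) :=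
      div_le_div_of_nonneg_left hmpos.le (by positivity) (by linarith)
    linarith
  have h4 : u / 2 ≤ m / 2 := by
    have := le_max_left u (max v w)
    linarith
  linarith

private theorem err_om_nonneg (a : Fin D → ℝ) (t : ℝ) : 0 ≤ om a t :=
  inv_nonneg.2 (Real.sqrt_nonneg _)

private theorem err_pt (φ : ℕ → ℝ) {L : Finset (Fin n)} {i j : Fin n} {c : Fin n → ℝ} {δ r : ℝ}
    (hδ : 0 < δ) (hr : 0 < r) (hr1 : r ≤ 1) (y : Fin n → ℝ)
    (h : ∀ k, k ∉ L → δ ≤ max (y i - c i) (max (y j - c j) (y k - c k))) :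
    |gd φ Finset.univ i j c r y - gd φ L i j c r y| ≤
      (r⁻¹) ^ 2 * (CC n φ * (n * (Real.exp (-(δ / (2 * r))) *
        Real.exp (-((y i - c i) / 2))))) := by
  unfold gd
  have h0 : 0 ≤ eG ((y i - c i) / r) * eG ((y j - c j) / r) :=
    mul_nonneg (eG_nonneg _) (eG_nonneg _)
  have hr2 : 0 ≤ (r⁻¹) ^ 2 := sq_nonneg _
  rw [← mul_sub, abs_mul, abs_of_nonneg (mul_nonneg hr2 h0), mul_assoc]
  refine mul_le_mul_of_nonneg_left ?_ hr2
  have h1 := sd_sub_le φ i j
    (w := fun l => if l ∈ (Finset.univ : Finset (Fin n)) then bG ((y l - c l) / r) else 0)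
    (w' := fun l => if l ∈ L then bG ((y l - c l) / r) else 0)
    (fun l => by
      split_ifs
      · exact bG_nonneg _
      · exact le_refl _)
    (fun l => by
      split_ifs
      · exact bG_le_one _
      · exact zero_le_one)
    (fun l => by
      split_ifs
      · exact bG_nonneg _
      · exact le_refl _)
    (fun l => by
      split_ifs
      · exact bG_le_one _
      · exact zero_le_one)
  refine (mul_le_mul_of_nonneg_left h1 h0).trans ?_
  rw [← mul_assoc, mul_comm _ (CC n φ), mul_assoc]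
  refine mul_le_mul_of_nonneg_left ?_ (CC_nonneg n φ)
  rw [Finset.mul_sum]
  have h2 : ∀ l ∈ (Finset.univ : Finset (Fin n)),
      eG ((y i - c i) / r) * eG ((y j - c j) / r) *
        |(if l ∈ (Finset.univ : Finset (Fin n)) then bG ((y l - c l) / r) else 0) -
          (if l ∈ L then bG ((y l - c l) / r) else 0)| ≤
      Real.exp (-(δ / (2 * r))) * Real.exp (-((y i - c i) / 2)) := by
    intro l _
    rw [if_pos (Finset.mem_univ l)]
    by_cases hl : l ∈ L
    · rw [if_pos hl, sub_self, abs_zero, mul_zero]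
      exact mul_nonneg (Real.exp_pos _).le (Real.exp_pos _).le
    · rw [if_neg hl, sub_zero, abs_of_nonneg (bG_nonneg _)]
      exact err_three hr hr1 hδ (h l hl)
  refine (Finset.sum_le_sum h2).trans ?_
  rw [Finset.sum_const, Finset.card_univ, Fintype.card_fin, nsmul_eq_mul]

theorem exists_err {a : Fin D → ℝ} (ha : Pencil a) (z : Fin n → Fin D → ℝ) (φ : ℕ → ℝ)
    {L : Finset (Fin n)} {i j : Fin n} (hi : i ∈ L) (hj : j ∈ L) {c : Fin n → ℝ} {δ : ℝ}
    (hδ : 0 < δ) (h : ∀ k, k ∉ L → ∀ x : XS D, x.1 ∈ Ioo (0 : ℝ) 1 →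
      δ ≤ max (ya a z x i - c i) (max (ya a z x j - c j) (ya a z x k - c k))) :
    ∃ C : ℝ, 0 ≤ C ∧ ∀ r : ℝ, 0 < r → r ≤ 1 → ∀ ε : ℝ, 0 ≤ ε →
      |GI a z φ Finset.univ i j c r ε - GI a z φ L i j c r ε| ≤
        C * ((r⁻¹) ^ 2 * Real.exp (-(δ / (2 * r)))) := by
  refine ⟨CC n φ * (n * (Real.exp (c i / 2) *
    (2 ^ D * (Real.pi * 2) ^ (((D : ℝ) + 1) / 2)))), ?_, ?_⟩
  · exact mul_nonneg (CC_nonneg n φ) (by positivity)
  · intro r hr hr1 ε hε
    unfold GI
    rw [← integral_sub (integrable_gd ha z φ Finset.univ i j c hr ε)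
      (integrable_gd ha z φ L i j c hr ε)]
    set K : ℝ := (r⁻¹) ^ 2 * (CC n φ * (n * (Real.exp (-(δ / (2 * r))) *
      Real.exp (c i / 2)))) with hK
    have hK0 : 0 ≤ K := mul_nonneg (sq_nonneg _) (mul_nonneg (CC_nonneg n φ) (by positivity))
    have hint : Integrable (fun x => K * (om a x.1 * Real.exp (-(ya a z x i / 2)))) (mu D) :=
      (integrable_single ha z i (by norm_num : (0 : ℝ) < 2)).const_mul K
    have hb := norm_integral_le_of_norm_le
      (f := fun x => om a x.1 * gd φ Finset.univ i j c r (fun l => ya a z x l + ε) -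
        om a x.1 * gd φ L i j c r (fun l => ya a z x l + ε)) hint ?_
    · rw [Real.norm_eq_abs, integral_const_mul,
        integral_single ha z i (by norm_num : (0 : ℝ) < 2)] at hb
      refine hb.trans (le_of_eq ?_)
      rw [hK]
      ring
    · filter_upwards [ae_mem_Ioo (D := D)] with x hx
      rw [← mul_sub, Real.norm_eq_abs, abs_mul, abs_of_nonneg (err_om_nonneg a x.1)]
      have h1 := err_pt φ (L := L) (i := i) (j := j) (c := c) hδ hr hr1
        (fun l => ya a z x l + ε) (fun k hk => by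
          refine (h k hk x hx).trans ?_
          exact max_le_max (by linarith) (max_le_max (by linarith) (by linarith)))
      refine (mul_le_mul_of_nonneg_left h1 (err_om_nonneg a x.1)).trans ?_
      have h2 : Real.exp (-((ya a z x i + ε - c i) / 2)) ≤
          Real.exp (c i / 2) * Real.exp (-(ya a z x i / 2)) := by
        rw [← Real.exp_add, Real.exp_le_exp]
        linarith
      have h3 : om a x.1 * ((r⁻¹) ^ 2 * (CC n φ * (n * (Real.exp (-(δ / (2 * r))) *
          (Real.exp (c i / 2) * Real.exp (-(ya a z x i / 2))))))) =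
          K * (om a x.1 * Real.exp (-(ya a z x i / 2))) := by
        rw [hK]
        ring
      rw [← h3]
      refine mul_le_mul_of_nonneg_left ?_ (err_om_nonneg a x.1)
      refine mul_le_mul_of_nonneg_left ?_ (sq_nonneg _)
      refine mul_le_mul_of_nonneg_left ?_ (CC_nonneg n φ)
      refine mul_le_mul_of_nonneg_left ?_ (Nat.cast_nonneg n)
      exact mul_le_mul_of_nonneg_left h2 (Real.exp_pos _).le

private theorem err_tendsto {δ : ℝ} (hδ : 0 < δ) :
    Tendsto (fun r : ℝ => (r⁻¹) ^ 2 * Real.exp (-(δ / (2 * r)))) (𝓝[>] 0) (𝓝 0) := by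
  have h1 : Tendsto (fun r : ℝ => δ / 2 * r⁻¹) (𝓝[>] 0) atTop :=
    Tendsto.const_mul_atTop (by positivity) tendsto_inv_nhdsGT_zero
  have h2 := (Real.tendsto_pow_mul_exp_neg_atTop_nhds_zero 2).comp h1
  have h3 := h2.const_mul ((2 / δ) ^ 2)
  rw [mul_zero] at h3
  refine h3.congr' ?_
  filter_upwards [self_mem_nhdsWithin] with r hr
  have hr' : (0 : ℝ) < r := hr
  have h4 : δ / 2 * r⁻¹ = δ / (2 * r) := by
    field_simp
  simp only [Function.comp_apply]
  rw [← mul_assoc, h4]
  congr 1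
  field_simp

theorem tendsto_err {a : Fin D → ℝ} (ha : Pencil a) (z : Fin n → Fin D → ℝ) (φ : ℕ → ℝ)
    {L : Finset (Fin n)} {i j : Fin n} (hi : i ∈ L) (hj : j ∈ L) {c : Fin n → ℝ} {δ : ℝ}
    (hδ : 0 < δ) (h : ∀ k, k ∉ L → ∀ x : XS D, x.1 ∈ Ioo (0 : ℝ) 1 →
      δ ≤ max (ya a z x i - c i) (max (ya a z x j - c j) (ya a z x k - c k))) {ε : ℝ}
    (hε : 0 ≤ ε) :
    Tendsto (fun r => GI a z φ Finset.univ i j c r ε - GI a z φ L i j c r ε) (𝓝[>] 0) (𝓝 0) := by
  obtain ⟨C, _, hC⟩ := exists_err ha z φ hi hj hδ h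
  have h1 := (err_tendsto hδ).const_mul C
  rw [mul_zero] at h1
  refine squeeze_zero_norm' ?_ h1
  have h2 : Ioc (0 : ℝ) 1 ∈ 𝓝[>] (0 : ℝ) := Ioc_mem_nhdsGT zero_lt_one
  filter_upwards [h2] with r hr
  rw [Real.norm_eq_abs]
  exact hC r hr.1 hr.2 ε hε

end Pool.Agent.KneserCone
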