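import Pool.Agent.KneserCone.Main

/-!
# The local rank condition: the theorem
-/

set_option autoImplicit false
set_option linter.unusedSectionVars false

namespace Pool.Agent.KneserCone

open MeasureTheory Set Filter Topology Module Metric
open Pool.Agent.Kneser Pool.Agent.KneserRank Pool.Agent.KneserCentre

variable {n : ℕ}

variable {E : Type*} [NormedAddCommGroup E] [InnerProductSpace ℝ E] [FiniteDimensional ℝ E]
  [MeasurableSpace E] [BorelSpace E]

/-- The weighted inequality from the inequality for concave functions of the counting function. -/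
theorem weighted_of_num (p q : Fin n → E) (ρ τ : Fin n → ℝ) (hρ : ∀ i, 0 ≤ ρ i)
    (hτ : Antitone τ)
    (H : ∀ φ : ℕ → ℝ, φ 0 = 0 → (∀ k, φ (k + 2) - 2 * φ (k + 1) + φ k ≤ 0) →
      ∫ x, φ (num q ρ x) ≤ ∫ x, φ (num p ρ x)) :
    ∑ k : Fin n, τ k * (volume {x : E | k.val + 1 ≤ num q ρ x}).toReal ≤
      ∑ k : Fin n, τ k * (volume {x : E | k.val + 1 ≤ num p ρ x}).toReal := by
  rcases subsingleton_or_nontrivial E with hX | hX
  · have : q = p := funext fun i => Subsingleton.elim _ _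
    rw [this]
  have h1 : ∀ m : ℕ, ∑ k ∈ Finset.range m, lev q ρ k ≤ ∑ k ∈ Finset.range m, lev p ρ k := by
    intro m
    rw [← integral_min_num, ← integral_min_num]
    refine H (fun k => ((min k m : ℕ) : ℝ)) (by simp) (fun k => ?_)
    have h : min (k + 2) m + min k m ≤ 2 * min (k + 1) m := by omega
    have h' : ((min (k + 2) m : ℕ) : ℝ) + ((min k m : ℕ) : ℝ) ≤
        2 * ((min (k + 1) m : ℕ) : ℝ) := by
      exact_mod_cast h
    linarith
  have h2 : ∑ k ∈ Finset.range n, lev q ρ k = ∑ k ∈ Finset.range n, lev p ρ k := by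
    rw [sum_lev q ρ hρ, sum_lev p ρ hρ]
  have h3 := abel_sum (fun k => if h : k < n then τ ⟨k, h⟩ else 0) (lev p ρ) (lev q ρ) n
    (fun k hk => by
      have hk' : k < n := by omega
      simp only [hk, hk', dif_pos]
      exact hτ (by simp [Fin.le_def])) h1 h2
  rw [Finset.sum_range, Finset.sum_range] at h3
  simpa [lev] using h3

theorem V0_eq_num (p : Fin n → E) (φ : ℕ → ℝ) (ρ : Fin n → ℝ) (hρ : ∀ i, 0 ≤ ρ i) :
    V0 p φ (fun l => ρ l ^ 2) 0 = ∫ x, φ (num p ρ x) := by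
  unfold V0
  refine integral_congr_ae (Eventually.of_forall fun x => ?_)
  simp only
  congr 1
  unfold cnt2 num
  congr 1
  ext l
  rw [Finset.mem_filter, Finset.mem_filter]
  simp only
  rw [sub_zero, dist_eq_norm, sq_le_sq₀ (norm_nonneg _) (hρ l)]

theorem finrank_span_le (p q : Fin n → E) (i₀ : Fin n)
    (h : finrank ℝ (Submodule.span ℝ (Set.range fun i : Fin n => ((1 : ℝ), p i, q i))) ≤
      finrank ℝ E + 4) :
    finrank ℝ (Submodule.span ℝ (Set.range fun i : Fin n =>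
        (WithLp.toLp 2 (p i - p i₀, q i - q i₀) : WithLp 2 (E × E)))) ≤ finrank ℝ E + 3 := by
  set S' := Submodule.span ℝ (Set.range fun i : Fin n => ((1 : ℝ), p i, q i)) with hS'
  set W := Submodule.span ℝ (Set.range fun i : Fin n =>
        (WithLp.toLp 2 (p i - p i₀, q i - q i₀) : WithLp 2 (E × E))) with hW
  let ψ : WithLp 2 (E × E) →ₗ[ℝ] (ℝ × E × E) :=
    (LinearMap.inr ℝ ℝ (E × E)).comp (WithLp.linearEquiv 2 ℝ (E × E)).toLinearMap
  have hψ : ∀ u v : E, ψ (WithLp.toLp 2 (u, v)) = ((0 : ℝ), u, v) := fun u v => rfl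
  have hψi : Function.Injective ψ := by
    intro x y hxy
    have h1 := LinearMap.inr_injective (R := ℝ) (M := ℝ) (M₂ := E × E) hxy
    exact (WithLp.linearEquiv 2 ℝ (E × E)).injective h1
  have hWS : W.map ψ < S' := by
    refine lt_of_le_of_ne ?_ ?_
    · rw [hW, Submodule.map_span, Submodule.span_le]
      rintro _ ⟨_, ⟨i, rfl⟩, rfl⟩
      have e1 : ψ (WithLp.toLp 2 (p i - p i₀, q i - q i₀)) =
          ((1 : ℝ), p i, q i) - ((1 : ℝ), p i₀, q i₀) := by
        rw [hψ]; simp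
      change ψ (WithLp.toLp 2 (p i - p i₀, q i - q i₀)) ∈ S'
      rw [e1]
      exact S'.sub_mem (Submodule.subset_span ⟨i, rfl⟩) (Submodule.subset_span ⟨i₀, rfl⟩)
    · intro heq
      have h1 : ((1 : ℝ), p i₀, q i₀) ∈ S' := Submodule.subset_span ⟨i₀, rfl⟩
      rw [← heq] at h1
      obtain ⟨x, _, hx⟩ := h1
      have h2 : (ψ x).1 = 0 := rfl
      rw [hx] at h2
      exact one_ne_zero h2
  have hlt : finrank ℝ W < finrank ℝ S' := by
    have h1 := Submodule.finrank_lt_finrank_of_lt hWS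
    rwa [← LinearEquiv.finrank_eq (Submodule.equivMapOfInjective ψ hψi W)] at h1
  omega

/-- The theorem. -/
theorem weighted_local (p q : Fin n → E) (ρ τ : Fin n → ℝ)
    (hr : finrank ℝ (Submodule.span ℝ (Set.range fun i : Fin n => ((1 : ℝ), p i, q i))) ≤
      finrank ℝ E + 4)
    (h : ∀ i j, dist (q i) (q j) ≤ dist (p i) (p j)) (hρ : ∀ i, 0 ≤ ρ i)
    (hloc : ∀ i j, dist (q i) (q j) < dist (p i) (p j) →
      finrank ℝ (Submodule.span ℝ ((fun k : Fin n =>
        ((1 : ℝ), p k, q k, ‖p k‖ ^ 2 - ρ k ^ 2, ‖q k‖ ^ 2 - ρ k ^ 2)) ''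
        {k | (closedBall (q i) (ρ i) ∩ closedBall (q j) (ρ j) ∩
          closedBall (q k) (ρ k)).Nonempty})) ≤ finrank ℝ E + 5)
    (hτ : Antitone τ) :
    ∑ k : Fin n, τ k * (volume {x : E | k.val + 1 ≤ num q ρ x}).toReal ≤
      ∑ k : Fin n, τ k * (volume {x : E | k.val + 1 ≤ num p ρ x}).toReal := by
  classical
  rcases Nat.eq_zero_or_pos n with hn | hn
  · subst hn
    simp
  set i₀ : Fin n := ⟨0, hn⟩
  rcases subsingleton_or_nontrivial E with hX | hX
  · have : q = p := funext fun i => Subsingleton.elim _ _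
    rw [this]
  have hW := finrank_span_le p q i₀ hr
  rcases Nat.lt_or_ge (finrank ℝ (Submodule.span ℝ (Set.range fun i : Fin n =>
        (WithLp.toLp 2 (p i - p i₀, q i - q i₀) : WithLp 2 (E × E))))) (finrank ℝ E + 3)
    with h1 | h1
  · exact weighted_of_pos p q ρ τ h hρ hτ (pos_of_conf _ _ (exists_conf p q i₀ _
      (Nat.lt_succ_iff.mp h1) fun i => Submodule.subset_span ⟨i, rfl⟩))
  obtain ⟨a, P, Q, z, ha0, ha1, hz, ho, hpz, hqz, hP, hQ⟩ :=
    exists_coord2 p q i₀ (le_antisymm hW h1)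
  have ha : Pencil a := ⟨ha0, ha1, by omega, by omega⟩
  have hp : ∀ i j, ‖p i - p j‖ ^ 2 = ∑ k, a k * (z i k - z j k) ^ 2 := by
    intro i j
    have e1 : p i - p j = P (z i - z j) := by
      rw [hpz i, hpz j, map_sub]; abel
    rw [e1, hP]
    rfl
  have hq : ∀ i j, ‖q i - q j‖ ^ 2 = ∑ k, (1 - a k) * (z i k - z j k) ^ 2 := by
    intro i j
    have e1 : q i - q j = Q (z i - z j) := by
      rw [hqz i, hqz j, map_sub]; abel
    rw [e1, hQ]
    rfl
  refine weighted_of_num p q ρ τ hρ hτ fun φ hφ0 hφ => ?_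
  rw [← V0_eq_num q φ ρ hρ, ← V0_eq_num p φ ρ hρ]
  refine V0_le_local ha rfl p q z hp hq h hφ0 hφ _ fun i j hij => ?_
  set N : Set (Fin n) := {k | (closedBall (q i) (ρ i) ∩ closedBall (q j) (ρ j) ∩
          closedBall (q k) (ρ k)).Nonempty} with hN
  have hmem : ∀ k, k ∈ N ↔ ∃ y : E, ‖y - q i‖ ^ 2 ≤ ρ i ^ 2 ∧ ‖y - q j‖ ^ 2 ≤ ρ j ^ 2 ∧
      ‖y - q k‖ ^ 2 ≤ ρ k ^ 2 := by
    intro k
    have e : ∀ (y : E) l, y ∈ closedBall (q l) (ρ l) ↔ ‖y - q l‖ ^ 2 ≤ ρ l ^ 2 := by
      intro y l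
      rw [mem_closedBall, dist_eq_norm, sq_le_sq₀ (norm_nonneg _) (hρ l)]
    constructor
    · rintro ⟨y, ⟨hy1, hy2⟩, hy3⟩
      exact ⟨y, (e y i).mp hy1, (e y j).mp hy2, (e y k).mp hy3⟩
    · rintro ⟨y, hy1, hy2, hy3⟩
      exact ⟨y, ⟨(e y i).mpr hy1, (e y j).mpr hy2⟩, (e y k).mpr hy3⟩
  refine ⟨insert i (insert j N.toFinset), by simp, by simp, ?_, ?_⟩
  · intro k hk hy
    refine hk ?_
    rw [Finset.mem_insert, Finset.mem_insert, Set.mem_toFinset]
    exact Or.inr (Or.inr ((hmem k).mpr hy))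
  · have hrk : finrank ℝ (Submodule.span ℝ ((fun k : Fin n =>
        ((1 : ℝ), p k, q k, ‖p k‖ ^ 2 - ρ k ^ 2, ‖q k‖ ^ 2 - ρ k ^ 2)) ''
        ((insert i (insert j N.toFinset) : Finset (Fin n)) : Set (Fin n)))) ≤
        finrank ℝ E + 5 := by
      rcases N.eq_empty_or_nonempty with h0 | ⟨k, hk⟩
      · have e1 : ((insert i (insert j N.toFinset) : Finset (Fin n)) : Set (Fin n)) =
            (({i, j} : Finset (Fin n)) : Set (Fin n)) := by
          simp [h0]
        rw [e1, ← Finset.coe_image]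
        refine (finrank_span_finset_le_card _).trans ?_
        refine Finset.card_image_le.trans (Finset.card_le_two.trans ?_)
        omega
      · obtain ⟨y, hy1, hy2, hy3⟩ := (hmem k).mp hk
        have hiN : i ∈ N := (hmem i).mpr ⟨y, hy1, hy2, hy1⟩
        have hjN : j ∈ N := (hmem j).mpr ⟨y, hy1, hy2, hy2⟩
        have e1 : ((insert i (insert j N.toFinset) : Finset (Fin n)) : Set (Fin n)) = N := by
          ext l
          simp only [Finset.coe_insert, Set.coe_toFinset, Set.mem_insert_iff]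
          constructor
          · rintro (rfl | rfl | hl)
            · exact hiN
            · exact hjN
            · exact hl
          · exact fun hl => Or.inr (Or.inr hl)
        rw [e1]
        exact hloc i j hij
    exact rank_dichotomy p q (p i₀) (q i₀) rfl P Q z hpz hqz hP hQ _ _ hrk

end Pool.Agent.KneserCone
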