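import Pool.Agent.KneserCone.Poly

/-!
# The smoothed volumes at scale one as limits

PROOF. Dominated convergence, first in `x` (for fixed `s ≥ 0`), then in `s ∈ [0, ε]`. Bound:
`abs_mul_le_sum` (`Pool/Agent/KneserRank/Weighted.lean`) and `AL_le_exp` give
`|mul φ ..| ≤ CC n φ * ∑ l, exp (c l - ‖x - p l‖ ^ 2 - s)` once `M ≥ exp (c l)` for all `l`;
`integrable_exp_norm` there. The limit: `AL_tendsto`, `continuous_mul`. For the outer integral the
integrands are bounded by a constant on `[0, ε]`, and are measurable in `s` (they are continuous in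
`s`, or use `StronglyMeasurable.integral_prod_right`).
-/

set_option autoImplicit false
set_option linter.unusedSectionVars false

namespace Pool.Agent.KneserCone

open MeasureTheory Set Filter Topology Module
open scoped ENNReal
open Pool.Agent.Kneser Pool.Agent.KneserRank Pool.Agent.KneserCentre

variable {D n : ℕ}

variable {E : Type*} [NormedAddCommGroup E] [InnerProductSpace ℝ E] [FiniteDimensional ℝ E]
  [MeasurableSpace E] [BorelSpace E]

private theorem pv_eventually (c : Fin n → ℝ) : ∀ᶠ M : ℕ in atTop, ∀ l, Real.exp (c l) ≤ M := by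
  rw [eventually_all]
  intro l
  exact tendsto_natCast_atTop_atTop.eventually (eventually_ge_atTop (Real.exp (c l)))

private noncomputable def pvB (p : Fin n → E) (φ : ℕ → ℝ) (c : Fin n → ℝ) (x : E) : ℝ :=
  (∑ S : Finset (Fin n), |φ S.card|) * ∑ l, Real.exp (-‖x - p l‖ ^ 2 + c l)

private theorem pvB_int (p : Fin n → E) (φ : ℕ → ℝ) (c : Fin n → ℝ) :
    Integrable (pvB p φ c) := by
  unfold pvB
  exact (integrable_finsetSum _ fun l _ => integrable_exp_norm (p l) (c l)).const_mul _

private theorem pv_bound (p : Fin n → E) {φ : ℕ → ℝ} (hφ0 : φ 0 = 0) (c : Fin n → ℝ) {s : ℝ}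
    (hs : 0 ≤ s) {M : ℕ} (hM : ∀ l, Real.exp (c l) ≤ M) (x : E) :
    ‖mul φ (fun l => (AL Finset.univ c M l).eval (Real.exp (-(‖x - p l‖ ^ 2 + s))))‖ ≤
      pvB p φ c x := by
  have hneg : ∀ l, -(‖x - p l‖ ^ 2 + s) ≤ 0 := fun l => neg_nonpos.mpr (by positivity)
  rw [Real.norm_eq_abs]
  refine (abs_mul_le_sum hφ0 (fun l => AL_nonneg _ c hM l (hneg l))
    (fun l => AL_le_one _ c hM l (hneg l))).trans ?_
  unfold pvB
  refine mul_le_mul_of_nonneg_left (Finset.sum_le_sum fun l _ => ?_)
    (Finset.sum_nonneg fun S _ => abs_nonneg _)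
  refine (AL_le_exp _ c hM l (hneg l)).trans (Real.exp_le_exp.mpr ?_)
  linarith

private theorem pv_cont (p : Fin n → E) (φ : ℕ → ℝ) (c : Fin n → ℝ) (M : ℕ) :
    Continuous (fun q : ℝ × E => mul φ (fun l => (AL Finset.univ c M l).eval
      (Real.exp (-(‖q.2 - p l‖ ^ 2 + q.1))))) := by
  refine (continuous_mul φ).comp (continuous_pi fun l => ?_)
  refine (AL Finset.univ c M l).continuous.comp (Real.continuous_exp.comp ?_)
  fun_prop

private theorem pv_cont' (p : Fin n → E) (φ : ℕ → ℝ) (c : Fin n → ℝ) (M : ℕ) (s : ℝ) :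
    Continuous (fun x : E => mul φ (fun l => (AL Finset.univ c M l).eval
      (Real.exp (-(‖x - p l‖ ^ 2 + s))))) := by
  refine (continuous_mul φ).comp (continuous_pi fun l => ?_)
  refine (AL Finset.univ c M l).continuous.comp (Real.continuous_exp.comp ?_)
  fun_prop

theorem tendsto_VI_one (p : Fin n → E) {φ : ℕ → ℝ} (hφ0 : φ 0 = 0) (c : Fin n → ℝ) {s : ℝ}
    (hs : 0 ≤ s) :
    Tendsto (fun M => ∫ x : E, mul φ (fun l => (AL Finset.univ c M l).eval
      (Real.exp (-(‖x - p l‖ ^ 2 + s))))) atTop (𝓝 (VI p φ c 1 s)) := by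
  unfold VI
  refine tendsto_integral_filter_of_dominated_convergence (pvB p φ c) ?_ ?_ (pvB_int p φ c) ?_
  · exact Eventually.of_forall fun M => (pv_cont' p φ c M s).aestronglyMeasurable
  · filter_upwards [pv_eventually c] with M hM
    exact Eventually.of_forall fun x => pv_bound p hφ0 c hs hM x
  · refine Eventually.of_forall fun x => ?_
    have h1 : Tendsto (fun M l => (AL Finset.univ c M l).eval
        (Real.exp (-(‖x - p l‖ ^ 2 + s)))) atTop
        (𝓝 (fun l => bG ((‖x - p l‖ ^ 2 + s - c l) / 1))) := by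
      rw [tendsto_pi_nhds]
      intro l
      have h2 := AL_tendsto Finset.univ c l (‖x - p l‖ ^ 2 + s)
      rw [if_pos (Finset.mem_univ l)] at h2
      rw [div_one]
      exact h2
    exact ((continuous_mul φ).tendsto _).comp h1

theorem tendsto_int_VI_one (p q : Fin n → E) {φ : ℕ → ℝ} (hφ0 : φ 0 = 0) (c : Fin n → ℝ) {ε : ℝ}
    (hε : 0 ≤ ε) :
    Tendsto (fun M => ∫ s in (0 : ℝ)..ε,
        ((∫ x : E, mul φ (fun l => (AL Finset.univ c M l).eval
          (Real.exp (-(‖x - p l‖ ^ 2 + s))))) -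
        ∫ x : E, mul φ (fun l => (AL Finset.univ c M l).eval
          (Real.exp (-(‖x - q l‖ ^ 2 + s)))))) atTop
      (𝓝 (∫ s in (0 : ℝ)..ε, (VI p φ c 1 s - VI q φ c 1 s))) := by
  have hmeas : ∀ (p : Fin n → E) (M : ℕ), StronglyMeasurable (fun s : ℝ =>
      ∫ x : E, mul φ (fun l => (AL Finset.univ c M l).eval
        (Real.exp (-(‖x - p l‖ ^ 2 + s))))) := by
    intro p M
    have h1 : StronglyMeasurable (Function.uncurry (fun (s : ℝ) (x : E) =>
        mul φ (fun l => (AL Finset.univ c M l).eval (Real.exp (-(‖x - p l‖ ^ 2 + s)))))) :=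
      (pv_cont p φ c M).stronglyMeasurable
    exact h1.integral_prod_right
  have hbd : ∀ (p : Fin n → E) (M : ℕ), (∀ l, Real.exp (c l) ≤ M) → ∀ s : ℝ, 0 ≤ s →
      ‖∫ x : E, mul φ (fun l => (AL Finset.univ c M l).eval
        (Real.exp (-(‖x - p l‖ ^ 2 + s))))‖ ≤ ∫ x, pvB p φ c x := by
    intro p M hM s hs
    exact norm_integral_le_of_norm_le (pvB_int p φ c)
      (Eventually.of_forall fun x => pv_bound p hφ0 c hs hM x)
  have hpos : ∀ s, s ∈ Set.uIoc (0 : ℝ) ε → 0 ≤ s := by
    intro s hs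
    rw [Set.uIoc_of_le hε] at hs
    exact hs.1.le
  refine intervalIntegral.tendsto_integral_filter_of_dominated_convergence
    (fun _ => (∫ x, pvB p φ c x) + ∫ x, pvB q φ c x) ?_ ?_ ?_ ?_
  · exact Eventually.of_forall fun M => ((hmeas p M).sub (hmeas q M)).aestronglyMeasurable
  · filter_upwards [pv_eventually c] with M hM
    refine Eventually.of_forall fun s hs => ?_
    refine (norm_sub_le _ _).trans (add_le_add ?_ ?_)
    · exact hbd p M hM s (hpos s hs)
    · exact hbd q M hM s (hpos s hs)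
  · exact intervalIntegrable_const
  · refine Eventually.of_forall fun s hs => ?_
    exact (tendsto_VI_one p hφ0 c (hpos s hs)).sub (tendsto_VI_one q hφ0 c (hpos s hs))

end Pool.Agent.KneserCone
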