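import Pool.Agent.KneserCone.Gumbel

/-!
# The second difference

PROOF. `sd_nonneg` is `sum_sign_nonpos` (`Pool/Agent/KneserCentre/Sign.lean`). `abs_sd_le`: every
factor has absolute value at most one. `sd_sub_le`: `|∏ x l - ∏ y l| ≤ ∑ |x l - y l|` if all factors
have absolute value at most one. `gd_congr`: `gd` depends only on `y i`, `y j` and the `y l`, `c l`
with `l ∈ L`.
-/

set_option autoImplicit false
set_option linter.unusedSectionVars false

namespace Pool.Agent.KneserCone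

open MeasureTheory Set Filter Topology Module
open scoped ENNReal
open Pool.Agent.Kneser Pool.Agent.KneserRank Pool.Agent.KneserCentre

variable {D n : ℕ}

private theorem sd_prod_abs {α : Type*} (s : Finset α) (x : α → ℝ) (hx : ∀ l ∈ s, |x l| ≤ 1) :
    |∏ l ∈ s, x l| ≤ 1 := by
  rw [Finset.abs_prod]
  exact Finset.prod_le_one (fun l _ => abs_nonneg _) hx

private theorem sd_prod_sub {α : Type*} [DecidableEq α] (s : Finset α) (x y : α → ℝ)
    (hx : ∀ l, |x l| ≤ 1) (hy : ∀ l, |y l| ≤ 1) :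
    |∏ l ∈ s, x l - ∏ l ∈ s, y l| ≤ ∑ l ∈ s, |x l - y l| := by
  induction s using Finset.induction_on with
  | empty => simp
  | insert a s ha ih =>
    rw [Finset.prod_insert ha, Finset.prod_insert ha, Finset.sum_insert ha]
    have h1 : x a * ∏ l ∈ s, x l - y a * ∏ l ∈ s, y l =
        (x a - y a) * ∏ l ∈ s, x l + y a * (∏ l ∈ s, x l - ∏ l ∈ s, y l) := by ring
    rw [h1]
    refine (abs_add_le _ _).trans ?_
    rw [abs_mul, abs_mul]
    have h2 := sd_prod_abs s x (fun l _ => hx l)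
    have h3 : |x a - y a| * |∏ l ∈ s, x l| ≤ |x a - y a| * 1 :=
      mul_le_mul_of_nonneg_left h2 (abs_nonneg _)
    have h4 : |y a| * |∏ l ∈ s, x l - ∏ l ∈ s, y l| ≤ 1 * |∏ l ∈ s, x l - ∏ l ∈ s, y l| :=
      mul_le_mul_of_nonneg_right (hy a) (abs_nonneg _)
    linarith

private theorem sd_fac {w : Fin n → ℝ} (h0 : ∀ l, 0 ≤ w l) (h1 : ∀ l, w l ≤ 1)
    (S : Finset (Fin n)) (l : Fin n) : |if l ∈ S then w l else 1 - w l| ≤ 1 := by
  have := h0 l
  have := h1 l
  rw [abs_le]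
  split_ifs <;> constructor <;> linarith

private theorem sd_sgn (S : Finset (Fin n)) (i j : Fin n) :
    |(if i ∈ S then (1 : ℝ) else -1) * (if j ∈ S then (1 : ℝ) else -1)| = 1 := by
  split_ifs <;> simp

theorem CC_nonneg (n : ℕ) (φ : ℕ → ℝ) : 0 ≤ CC n φ := by
  exact Finset.sum_nonneg fun S _ => abs_nonneg _

theorem sd_nonneg {φ : ℕ → ℝ} (hφ : ∀ k, φ (k + 2) - 2 * φ (k + 1) + φ k ≤ 0) {i j : Fin n}
    (hij : i ≠ j) {w : Fin n → ℝ} (h0 : ∀ l, 0 ≤ w l) (h1 : ∀ l, w l ≤ 1) :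
    0 ≤ sd φ i j w := by
  unfold sd
  exact neg_nonneg.2 (sum_sign_nonpos φ hφ w h0 h1 i j hij)

theorem abs_sd_le (φ : ℕ → ℝ) (i j : Fin n) {w : Fin n → ℝ} (h0 : ∀ l, 0 ≤ w l)
    (h1 : ∀ l, w l ≤ 1) : |sd φ i j w| ≤ CC n φ := by
  unfold sd CC
  rw [abs_neg]
  refine (Finset.abs_sum_le_sum_abs _ _).trans (Finset.sum_le_sum fun S _ => ?_)
  rw [abs_mul, abs_mul, sd_sgn, one_mul]
  exact mul_le_of_le_one_right (abs_nonneg _) (sd_prod_abs _ _ fun l _ => sd_fac h0 h1 S l)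

theorem sd_sub_le (φ : ℕ → ℝ) (i j : Fin n) {w w' : Fin n → ℝ} (h0 : ∀ l, 0 ≤ w l)
    (h1 : ∀ l, w l ≤ 1) (h0' : ∀ l, 0 ≤ w' l) (h1' : ∀ l, w' l ≤ 1) :
    |sd φ i j w - sd φ i j w'| ≤ CC n φ * ∑ l, |w l - w' l| := by
  unfold sd CC
  rw [neg_sub_neg, ← Finset.sum_sub_distrib, Finset.sum_mul]
  refine (Finset.abs_sum_le_sum_abs _ _).trans (Finset.sum_le_sum fun S _ => ?_)
  rw [← mul_sub, ← mul_sub, abs_mul, abs_mul, sd_sgn, one_mul]
  refine mul_le_mul_of_nonneg_left ?_ (abs_nonneg _)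
  refine (sd_prod_sub _ _ _ (sd_fac h0' h1' S) (sd_fac h0 h1 S)).trans ?_
  refine (Finset.sum_le_sum_of_subset_of_nonneg (Finset.subset_univ _)
    fun l _ _ => abs_nonneg _).trans (Finset.sum_le_sum fun l _ => le_of_eq ?_)
  split_ifs
  · exact abs_sub_comm _ _
  · congr 1
    ring

theorem continuous_sd (φ : ℕ → ℝ) (i j : Fin n) : Continuous (sd φ i j) := by
  unfold sd
  refine (continuous_finsetSum _ fun S _ => ?_).neg
  refine continuous_const.mul (continuous_const.mul (continuous_finsetProd _ fun l _ => ?_))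
  split_ifs
  · exact continuous_apply l
  · exact continuous_const.sub (continuous_apply l)

/-- `gd` is continuous in `(r, y)` for `r ≠ 0`, in particular measurable. -/
theorem measurable_gd (φ : ℕ → ℝ) (L : Finset (Fin n)) (i j : Fin n) (c : Fin n → ℝ) :
    Measurable (fun x : ℝ × (Fin n → ℝ) => gd φ L i j c x.1 x.2) := by
  unfold gd
  have h1 : ∀ l : Fin n, Measurable fun x : ℝ × (Fin n → ℝ) => (x.2 l - c l) / x.1 := fun l =>
    (((measurable_pi_apply l).comp measurable_snd).sub_const _).div measurable_fst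
  have h2 : Measurable fun x : ℝ × (Fin n → ℝ) =>
      (fun l => if l ∈ L then bG ((x.2 l - c l) / x.1) else 0 : Fin n → ℝ) := by
    refine measurable_pi_iff.2 fun l => ?_
    by_cases hl : l ∈ L
    · simp only [if_pos hl]
      exact continuous_bG.measurable.comp (h1 l)
    · simp only [if_neg hl]
      exact measurable_const
  exact ((measurable_fst.inv.pow_const 2).mul ((continuous_eG.measurable.comp (h1 i)).mul
    (continuous_eG.measurable.comp (h1 j)))).mul ((continuous_sd φ i j).measurable.comp h2)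

theorem gd_nonneg {φ : ℕ → ℝ} (hφ : ∀ k, φ (k + 2) - 2 * φ (k + 1) + φ k ≤ 0) (L : Finset (Fin n))
    {i j : Fin n} (hij : i ≠ j) (c : Fin n → ℝ) (r : ℝ) (y : Fin n → ℝ) :
    0 ≤ gd φ L i j c r y := by
  unfold gd
  refine mul_nonneg (mul_nonneg (sq_nonneg _) (mul_nonneg (eG_nonneg _) (eG_nonneg _)))
    (sd_nonneg hφ hij (fun l => ?_) fun l => ?_)
  · split_ifs
    · exact bG_nonneg _
    · exact le_refl _
  · split_ifs
    · exact bG_le_one _
    · exact zero_le_one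

theorem abs_gd_le (φ : ℕ → ℝ) (L : Finset (Fin n)) (i j : Fin n) (c : Fin n → ℝ) (r : ℝ)
    (y : Fin n → ℝ) :
    |gd φ L i j c r y| ≤
      CC n φ * ((r⁻¹) ^ 2 * (eG ((y i - c i) / r) * eG ((y j - c j) / r))) := by
  unfold gd
  have h1 : 0 ≤ (r⁻¹) ^ 2 * (eG ((y i - c i) / r) * eG ((y j - c j) / r)) :=
    mul_nonneg (sq_nonneg _) (mul_nonneg (eG_nonneg _) (eG_nonneg _))
  rw [abs_mul, abs_of_nonneg h1, mul_comm]
  refine mul_le_mul_of_nonneg_right (abs_sd_le φ i j (fun l => ?_) fun l => ?_) h1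
  · split_ifs
    · exact bG_nonneg _
    · exact le_refl _
  · split_ifs
    · exact bG_le_one _
    · exact zero_le_one

theorem gd_congr (φ : ℕ → ℝ) (L : Finset (Fin n)) {i j : Fin n} (hi : i ∈ L) (hj : j ∈ L)
    {c c' : Fin n → ℝ} (hc : ∀ l ∈ L, c l = c' l) (r : ℝ) {y y' : Fin n → ℝ}
    (hy : ∀ l ∈ L, y l = y' l) : gd φ L i j c r y = gd φ L i j c' r y' := by
  unfold gd
  rw [hy i hi, hy j hj, hc i hi, hc j hj]
  congr 2
  funext l
  split_ifs with hl
  · rw [hy l hl, hc l hl]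
  · rfl

end Pool.Agent.KneserCone
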