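import Pool.Agent.KneserCone.Trip
import Pool.Agent.KneserCone.Sd

/-!
# Scaling

PROOF. `measure_scale`: for `f : XS D → ℝ` and `σ > 0`, substitute `(w, η) ↦ (σ w, σ η)`: the map
`(t, y) ↦ (t, σ • y)` sends `mu D` to `ofReal (σ⁻¹ ^ (D + 1)) • mu D`
(`Measure.map_prod_map`, `Measure.map_addHaar_smul`, `finrank ((Fin D → ℝ) × ℝ) = D + 1`), and
it is a measurable embedding (homeomorphism). `ya_scale`: clear from the definitions
(`HH a 0 (σ • w) t = σ² HH a 0 w t`). `GI_scale`: take `σ = √r`;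
`gd φ L i j c r y = (r⁻¹) ^ 2 * gd φ L i j (c / r) 1 (y / r)`. `VI_scale`: the map `x ↦ √r • x`,
`Measure.integral_comp_smul`. `integral_single` is `integral_trip` for `k = Pi.single i 1`
(`quad = 0`, `tot = 1`) after scaling.
-/

set_option autoImplicit false
set_option linter.unusedSectionVars false

namespace Pool.Agent.KneserCone

open MeasureTheory Set Filter Topology Module
open scoped ENNReal
open Pool.Agent.Kneser Pool.Agent.KneserRank Pool.Agent.KneserCentre

variable {D n : ℕ}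

variable {E : Type*} [NormedAddCommGroup E] [InnerProductSpace ℝ E] [FiniteDimensional ℝ E]
  [MeasurableSpace E] [BorelSpace E]

/-- The homeomorphism `(t, y) ↦ (t, σ • y)`. -/
private noncomputable def scaleH (D : ℕ) {σ : ℝ} (hσ : σ ≠ 0) : XS D ≃ₜ XS D :=
  (Homeomorph.refl ℝ).prodCongr (Homeomorph.smulOfNeZero σ hσ)

private theorem scaleH_apply {σ : ℝ} (hσ : σ ≠ 0) (x : XS D) :
    scaleH D hσ x = (x.1, (σ • x.2.1, σ * x.2.2)) := rfl

private theorem scale_map {σ : ℝ} (hσ : 0 < σ) :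
    Measure.map (scaleH D hσ.ne') (mu D) =
      ENNReal.ofReal ((σ ^ (D + 1))⁻¹) • mu D := by
  have h1 : (scaleH D hσ.ne' : XS D → XS D) =
      Prod.map id (fun y : (Fin D → ℝ) × ℝ => σ • y) := rfl
  have h2 : Measure.map (fun y : (Fin D → ℝ) × ℝ => σ • y)
      ((volume : Measure (Fin D → ℝ)).prod (volume : Measure ℝ)) =
      ENNReal.ofReal ((σ ^ (D + 1))⁻¹) •
        ((volume : Measure (Fin D → ℝ)).prod (volume : Measure ℝ)) := by
    rw [Measure.map_addHaar_smul _ hσ.ne', Module.finrank_prod, Module.finrank_fin_fun,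
      Module.finrank_self, abs_of_pos (by positivity)]
  rw [h1]
  unfold mu
  rw [← Measure.map_prod_map _ _ measurable_id (measurable_const_smul σ), Measure.map_id, h2,
    Measure.prod_smul_right]

theorem measure_scale {σ : ℝ} (hσ : 0 < σ) (f : XS D → ℝ) :
    ∫ x, f x ∂(mu D) =
      σ ^ (D + 1) * ∫ x : XS D, f (x.1, (σ • x.2.1, σ * x.2.2)) ∂(mu D) := by
  have h1 := (scaleH D hσ.ne').measurableEmbedding.integral_map (μ := mu D) f
  rw [scale_map hσ, integral_smul_measure,
    ENNReal.toReal_ofReal (by positivity : (0 : ℝ) ≤ (σ ^ (D + 1))⁻¹), smul_eq_mul] at h1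
  have h2 : ∫ x : XS D, f (x.1, (σ • x.2.1, σ * x.2.2)) ∂(mu D) =
      (σ ^ (D + 1))⁻¹ * ∫ x, f x ∂(mu D) := h1.symm
  rw [h2, ← mul_assoc, mul_inv_cancel₀ (by positivity), one_mul]

theorem integrable_scale {σ : ℝ} (hσ : 0 < σ) {f : XS D → ℝ}
    (hf : Integrable (fun x : XS D => f (x.1, (σ • x.2.1, σ * x.2.2))) (mu D)) :
    Integrable f (mu D) := by
  have h1 := (scaleH D hσ.ne').measurableEmbedding.integrable_map_iff (μ := mu D) (g := f)
  rw [scale_map hσ, integrable_smul_measure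
    (by simp only [ne_eq, ENNReal.ofReal_eq_zero, not_le]; positivity)
    ENNReal.ofReal_ne_top] at h1
  exact h1.mpr hf

theorem ya_scale (a : Fin D → ℝ) (z : Fin n → Fin D → ℝ) {σ : ℝ} (hσ : 0 < σ) (x : XS D)
    (l : Fin n) :
    ya a z (x.1, (σ • x.2.1, σ * x.2.2)) l = σ ^ 2 * ya a (fun l k => z l k / σ) x l := by
  have h1 : HH a 0 (σ • x.2.1) x.1 = σ ^ 2 * HH a 0 x.2.1 x.1 := by
    unfold HH
    rw [Finset.mul_sum]
    refine Finset.sum_congr rfl fun k _ => ?_
    simp only [Pi.smul_apply, smul_eq_mul, Pi.zero_apply, mul_zero, add_zero]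
    rw [mul_pow, mul_div_assoc]
  have h2 : LL a z (σ • x.2.1) l = σ ^ 2 * LL a (fun l k => z l k / σ) x.2.1 l := by
    unfold LL
    rw [Finset.mul_sum]
    refine Finset.sum_congr rfl fun k _ => ?_
    simp only [Pi.smul_apply, smul_eq_mul]
    field_simp
  have h3 : zet a z l = σ ^ 2 * zet a (fun l k => z l k / σ) l := by
    unfold zet
    rw [Finset.mul_sum]
    refine Finset.sum_congr rfl fun k _ => ?_
    field_simp
  unfold ya
  simp only
  rw [h1, h2, h3]
  ring

private theorem gd_scale (φ : ℕ → ℝ) (L : Finset (Fin n)) (i j : Fin n) (c : Fin n → ℝ) {r : ℝ}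
    (hr : 0 < r) (ε : ℝ) (y : Fin n → ℝ) :
    gd φ L i j c r (fun l => r * y l + ε) =
      (r⁻¹) ^ 2 * gd φ L i j (fun l => c l / r) 1 (fun l => y l + ε / r) := by
  have h1 : ∀ l, (r * y l + ε - c l) / r = (y l + ε / r - c l / r) / 1 := by
    intro l
    field_simp
  unfold gd
  simp only [h1]
  rw [inv_one, one_pow, one_mul, mul_assoc]

private theorem sqrt_pow_eq {r : ℝ} (hr : 0 < r) (m : ℕ) : √r ^ m = r ^ ((m : ℝ) / 2) := by
  rw [Real.sqrt_eq_rpow, ← Real.rpow_natCast, ← Real.rpow_mul hr.le]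
  congr 1
  ring

theorem GI_scale (a : Fin D → ℝ) (z : Fin n → Fin D → ℝ) (φ : ℕ → ℝ) (L : Finset (Fin n))
    (i j : Fin n) (c : Fin n → ℝ) {r : ℝ} (hr : 0 < r) (ε : ℝ) :
    GI a z φ L i j c r ε = r ^ (((D : ℝ) - 3) / 2) *
      GI a (fun l k => z l k / √r) φ L i j (fun l => c l / r) 1 (ε / r) := by
  have hs : 0 < √r := Real.sqrt_pos.mpr hr
  unfold GI
  rw [measure_scale hs (fun x : XS D => om a x.1 * gd φ L i j c r (fun l => ya a z x l + ε))]
  have h1 : ∀ x : XS D, om a x.1 * gd φ L i j c r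
      (fun l => ya a z (x.1, (√r • x.2.1, √r * x.2.2)) l + ε) =
      (r⁻¹) ^ 2 * (om a x.1 * gd φ L i j (fun l => c l / r) 1
        (fun l => ya a (fun l k => z l k / √r) x l + ε / r)) := by
    intro x
    have h2 : (fun l => ya a z (x.1, (√r • x.2.1, √r * x.2.2)) l + ε) =
        fun l => r * ya a (fun l k => z l k / √r) x l + ε := by
      funext l
      rw [ya_scale a z hs x l, Real.sq_sqrt hr.le]
    rw [h2, gd_scale φ L i j c hr ε]
    ring
  have h3 : ∫ x : XS D, om a x.1 * gd φ L i j c r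
      (fun l => ya a z (x.1, (√r • x.2.1, √r * x.2.2)) l + ε) ∂(mu D) =
      (r⁻¹) ^ 2 * ∫ x : XS D, om a x.1 * gd φ L i j (fun l => c l / r) 1
        (fun l => ya a (fun l k => z l k / √r) x l + ε / r) ∂(mu D) := by
    rw [← integral_const_mul]
    exact integral_congr_ae (ae_of_all _ h1)
  have h4 : √r ^ (D + 1) * (r⁻¹) ^ 2 = r ^ (((D : ℝ) - 3) / 2) := by
    rw [sqrt_pow_eq hr, ← Real.rpow_neg_one, ← Real.rpow_natCast, ← Real.rpow_mul hr.le,
      ← Real.rpow_add hr]
    congr 1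
    push_cast
    ring
  refine Eq.trans (congrArg (fun u => √r ^ (D + 1) * u) h3) ?_
  rw [← mul_assoc, h4]

theorem VI_scale (p : Fin n → E) (φ : ℕ → ℝ) (c : Fin n → ℝ) {r : ℝ} (hr : 0 < r) (s : ℝ) :
    VI p φ c r s = r ^ ((finrank ℝ E : ℝ) / 2) *
      VI (fun l => (√r)⁻¹ • p l) φ (fun l => c l / r) 1 (s / r) := by
  have hs : 0 < √r := Real.sqrt_pos.mpr hr
  unfold VI
  have h1 := Measure.integral_comp_smul (volume : Measure E)
    (fun x : E => mul φ (fun l => bG ((‖x - p l‖ ^ 2 + s - c l) / r))) (√r)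
  have h2 : ∀ x : E, mul φ (fun l => bG ((‖√r • x - p l‖ ^ 2 + s - c l) / r)) =
      mul φ (fun l => bG ((‖x - (√r)⁻¹ • p l‖ ^ 2 + s / r - c l / r) / 1)) := by
    intro x
    congr 1
    funext l
    congr 1
    have h3 : √r • x - p l = √r • (x - (√r)⁻¹ • p l) := by
      rw [smul_sub, smul_smul, mul_inv_cancel₀ hs.ne', one_smul]
    rw [h3, norm_smul, mul_pow, Real.norm_eq_abs, sq_abs, Real.sq_sqrt hr.le]
    field_simp
  simp only [h2] at h1
  rw [h1, abs_of_pos (by positivity), smul_eq_mul, sqrt_pow_eq hr, ← mul_assoc,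
    mul_inv_cancel₀ (by positivity), one_mul]

private theorem ee_single (i : Fin n) (y : Fin n → ℝ) :
    ee (Pi.single i 1) y = Real.exp (-y i) := by
  unfold ee
  congr 2
  rw [Finset.sum_eq_single i]
  · simp
  · intro j _ hj
    rw [Pi.single_eq_of_ne hj]
    simp
  · intro h
    exact absurd (Finset.mem_univ i) h

private theorem single_ne (i : Fin n) : (Pi.single i 1 : Fin n → ℕ) ≠ 0 := by
  intro h
  have := congrFun h i
  simp at this

private theorem tot_single (i : Fin n) : tot (Pi.single i 1 : Fin n → ℕ) = 1 := by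
  unfold tot
  rw [Finset.sum_eq_single i]
  · simp
  · intro j _ hj
    rw [Pi.single_eq_of_ne hj]
    simp
  · intro h
    exact absurd (Finset.mem_univ i) h

private theorem quad_single (i : Fin n) {s : Fin n → Fin n → ℝ} (hs : s i i = 0) :
    quad (Pi.single i 1 : Fin n → ℕ) s = 0 := by
  unfold quad
  rw [Finset.sum_eq_zero, zero_div]
  intro j _
  refine Finset.sum_eq_zero fun m _ => ?_
  by_cases hj : j = i
  · by_cases hm : m = i
    · rw [hj, hm, hs, mul_zero]
    · rw [Pi.single_eq_of_ne hm]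
      simp
  · rw [Pi.single_eq_of_ne hj]
    simp

private theorem single_scaled {a : Fin D → ℝ} (z : Fin n → Fin D → ℝ) (i : Fin n) {r : ℝ}
    (hr : 0 < r) (x : XS D) :
    om a x.1 * Real.exp (-(ya a z (x.1, (√r • x.2.1, √r * x.2.2)) i / r)) =
      om a x.1 * ee (Pi.single i 1) (ya a (fun l k => z l k / √r) x) := by
  have hs : 0 < √r := Real.sqrt_pos.mpr hr
  rw [ee_single, ya_scale a z hs x i, Real.sq_sqrt hr.le, mul_div_cancel_left₀ _ hr.ne']

theorem integrable_single {a : Fin D → ℝ} (ha : Pencil a) (z : Fin n → Fin D → ℝ) (i : Fin n)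
    {r : ℝ} (hr : 0 < r) :
    Integrable (fun x => om a x.1 * Real.exp (-(ya a z x i / r))) (mu D) := by
  have hs : 0 < √r := Real.sqrt_pos.mpr hr
  refine integrable_scale hs ?_
  have h1 := integrable_trip ha (fun l k => z l k / √r) (single_ne i)
  refine h1.congr (ae_of_all _ fun x => ?_)
  exact (single_scaled z i hr x).symm

theorem integral_single {a : Fin D → ℝ} (ha : Pencil a) (z : Fin n → Fin D → ℝ) (i : Fin n)
    {r : ℝ} (hr : 0 < r) :
    ∫ x, om a x.1 * Real.exp (-(ya a z x i / r)) ∂(mu D) =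
      2 ^ D * (Real.pi * r) ^ (((D : ℝ) + 1) / 2) := by
  have hs : 0 < √r := Real.sqrt_pos.mpr hr
  rw [measure_scale hs (fun x : XS D => om a x.1 * Real.exp (-(ya a z x i / r)))]
  have h3 : ∫ x : XS D, om a x.1 *
      Real.exp (-(ya a z (x.1, (√r • x.2.1, √r * x.2.2)) i / r)) ∂(mu D) =
      ∫ x : XS D, om a x.1 * ee (Pi.single i 1) (ya a (fun l k => z l k / √r) x) ∂(mu D) :=
    integral_congr_ae (ae_of_all _ fun x => single_scaled z i hr x)
  have h4 := integral_trip ha (fun l k => z l k / √r) (single_ne i)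
  rw [tot_single, quad_single i (by simp), quad_single i (by simp)] at h4
  simp only [mul_zero, add_zero, neg_zero, Real.exp_zero, div_one,
    intervalIntegral.integral_const, sub_zero, smul_eq_mul, mul_one] at h4
  refine Eq.trans (congrArg (fun u => √r ^ (D + 1) * u) (h3.trans h4)) ?_
  rw [sqrt_pow_eq hr, Real.mul_rpow Real.pi_pos.le hr.le]
  push_cast
  ring

end Pool.Agent.KneserCone
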