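import Pool.Agent.KneserCone.PolyId
import Pool.Agent.KneserCone.PolyV
import Pool.Agent.KneserCone.Scale

/-!
# The identity

PROOF. `ident_one` is the limit `M → ∞` of `poly_ident`, by `tendsto_int_VI_one` and
`tendsto_GI_one` (with `ε` and `0`; the terms with `i = j` vanish identically). `ident`: apply
`ident_one` to `(√r)⁻¹ • p`, `(√r)⁻¹ • q`, `z / √r`, `c / r`, `ε / r` and use `VI_scale`,
`GI_scale`,
`∫ s in 0..ε, f (s / r) = r * ∫ s in 0..ε/r, f s`; `(D - 3) / 2 = finrank E / 2`,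
`‖(√r)⁻¹ • (p i - p j)‖² = ‖p i - p j‖² / r`.
-/

set_option autoImplicit false
set_option linter.unusedSectionVars false

namespace Pool.Agent.KneserCone

open MeasureTheory Set Filter Topology Module
open scoped ENNReal
open Pool.Agent.Kneser Pool.Agent.KneserRank Pool.Agent.KneserCentre

variable {D n : ℕ}

variable {E : Type*} [NormedAddCommGroup E] [InnerProductSpace ℝ E] [FiniteDimensional ℝ E]
  [MeasurableSpace E] [BorelSpace E]

theorem ident_one {a : Fin D → ℝ} (ha : Pencil a) (hD : D = finrank ℝ E + 3) (p q : Fin n → E)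
    (z : Fin n → Fin D → ℝ) (hp : ∀ i j, ‖p i - p j‖ ^ 2 = ∑ k, a k * (z i k - z j k) ^ 2)
    (hq : ∀ i j, ‖q i - q j‖ ^ 2 = ∑ k, (1 - a k) * (z i k - z j k) ^ 2) {φ : ℕ → ℝ}
    (hφ0 : φ 0 = 0) (c : Fin n → ℝ) {ε : ℝ} (hε : 0 ≤ ε) :
    2 ^ D * Real.pi ^ 2 * ∫ s in (0 : ℝ)..ε, (VI p φ c 1 s - VI q φ c 1 s) =
      ∑ i, ∑ j, (‖p i - p j‖ ^ 2 - ‖q i - q j‖ ^ 2) / 2 *
        (GI a z φ Finset.univ i j c 1 0 - GI a z φ Finset.univ i j c 1 ε) := by
  have hL := (tendsto_int_VI_one p q hφ0 c hε).const_mul (2 ^ D * Real.pi ^ 2)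
  have hR : Tendsto (fun M : ℕ => ∑ i, ∑ j, (‖p i - p j‖ ^ 2 - ‖q i - q j‖ ^ 2) / 2 *
        ((∫ x, om a x.1 * pg φ Finset.univ c M i j (ya a z x) ∂(mu D)) -
        ∫ x, om a x.1 * pg φ Finset.univ c M i j (fun l => ya a z x l + ε) ∂(mu D))) atTop
      (𝓝 (∑ i, ∑ j, (‖p i - p j‖ ^ 2 - ‖q i - q j‖ ^ 2) / 2 *
        (GI a z φ Finset.univ i j c 1 0 - GI a z φ Finset.univ i j c 1 ε))) := by
    refine tendsto_finset_sum _ fun i _ => tendsto_finset_sum _ fun j _ => ?_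
    by_cases hij : i = j
    · subst hij
      simp only [sub_self, norm_zero, zero_div, zero_mul]
      norm_num
    · refine Tendsto.const_mul _ (Tendsto.sub ?_ ?_)
      · have h1 := tendsto_GI_one ha z φ Finset.univ hij (Finset.mem_univ i) (Finset.mem_univ j) c
          le_rfl
        simpa only [add_zero] using h1
      · exact tendsto_GI_one ha z φ Finset.univ hij (Finset.mem_univ i) (Finset.mem_univ j) c hε
  exact tendsto_nhds_unique hL (hR.congr fun M => (poly_ident ha hD p q z hp hq hφ0 c M hε).symm)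

theorem ident {a : Fin D → ℝ} (ha : Pencil a) (hD : D = finrank ℝ E + 3) (p q : Fin n → E)
    (z : Fin n → Fin D → ℝ) (hp : ∀ i j, ‖p i - p j‖ ^ 2 = ∑ k, a k * (z i k - z j k) ^ 2)
    (hq : ∀ i j, ‖q i - q j‖ ^ 2 = ∑ k, (1 - a k) * (z i k - z j k) ^ 2) {φ : ℕ → ℝ}
    (hφ0 : φ 0 = 0) (c : Fin n → ℝ) {r : ℝ} (hr : 0 < r) {ε : ℝ} (hε : 0 ≤ ε) :
    2 ^ D * Real.pi ^ 2 * ∫ s in (0 : ℝ)..ε, (VI p φ c r s - VI q φ c r s) =
      ∑ i, ∑ j, (‖p i - p j‖ ^ 2 - ‖q i - q j‖ ^ 2) / 2 *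
        (GI a z φ Finset.univ i j c r 0 - GI a z φ Finset.univ i j c r ε) := by
  have hs : 0 < √r := Real.sqrt_pos.2 hr
  have hsr : (√r) ^ 2 = r := Real.sq_sqrt hr.le
  have hnorm : ∀ f : Fin n → E, ∀ i j, ‖(√r)⁻¹ • f i - (√r)⁻¹ • f j‖ ^ 2 =
      ‖f i - f j‖ ^ 2 / r := by
    intro f i j
    rw [← smul_sub, norm_smul, mul_pow, norm_inv, Real.norm_of_nonneg hs.le, inv_pow, hsr]
    ring
  have hz : ∀ (b : Fin D → ℝ) (i j : Fin n),
      ∑ k, b k * (z i k / √r - z j k / √r) ^ 2 = (∑ k, b k * (z i k - z j k) ^ 2) / r := by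
    intro b i j
    rw [Finset.sum_div]
    refine Finset.sum_congr rfl fun k _ => ?_
    rw [← sub_div, div_pow, hsr]
    ring
  have h1 := ident_one ha hD (fun l => (√r)⁻¹ • p l) (fun l => (√r)⁻¹ • q l)
    (fun l k => z l k / √r)
    (fun i j => by rw [hnorm p i j, hz a i j, hp i j])
    (fun i j => by rw [hnorm q i j, hz (fun k => 1 - a k) i j, hq i j])
    hφ0 (fun l => c l / r) (div_nonneg hε hr.le)
  have hfin : ((D : ℝ) - 3) / 2 = (finrank ℝ E : ℝ) / 2 := by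
    rw [hD]
    push_cast
    ring
  have hleft : ∫ s in (0 : ℝ)..ε, (VI p φ c r s - VI q φ c r s) =
      r ^ ((finrank ℝ E : ℝ) / 2) * (r * ∫ s in (0 : ℝ)..(ε / r),
        (VI (fun l => (√r)⁻¹ • p l) φ (fun l => c l / r) 1 s -
          VI (fun l => (√r)⁻¹ • q l) φ (fun l => c l / r) 1 s)) := by
    have h2 : ∀ s, VI p φ c r s - VI q φ c r s = r ^ ((finrank ℝ E : ℝ) / 2) *
        (fun s => VI (fun l => (√r)⁻¹ • p l) φ (fun l => c l / r) 1 s -
          VI (fun l => (√r)⁻¹ • q l) φ (fun l => c l / r) 1 s) (s / r) := by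
      intro s
      rw [VI_scale p φ c hr s, VI_scale q φ c hr s]
      ring
    simp only [h2]
    rw [intervalIntegral.integral_const_mul]
    congr 1
    have h3 := intervalIntegral.integral_comp_div (a := 0) (b := ε)
      (fun s => VI (fun l => (√r)⁻¹ • p l) φ (fun l => c l / r) 1 s -
          VI (fun l => (√r)⁻¹ • q l) φ (fun l => c l / r) 1 s) hr.ne'
    rw [zero_div, smul_eq_mul] at h3
    exact h3
  have hright : ∀ i j, (‖p i - p j‖ ^ 2 - ‖q i - q j‖ ^ 2) / 2 *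
        (GI a z φ Finset.univ i j c r 0 - GI a z φ Finset.univ i j c r ε) =
      r ^ ((finrank ℝ E : ℝ) / 2) * (r * ((‖(√r)⁻¹ • p i - (√r)⁻¹ • p j‖ ^ 2 -
        ‖(√r)⁻¹ • q i - (√r)⁻¹ • q j‖ ^ 2) / 2 *
          (GI a (fun l k => z l k / √r) φ Finset.univ i j (fun l => c l / r) 1 0 -
            GI a (fun l k => z l k / √r) φ Finset.univ i j (fun l => c l / r) 1 (ε / r)))) := by
    intro i j
    rw [GI_scale a z φ Finset.univ i j c hr 0, GI_scale a z φ Finset.univ i j c hr ε, hfin,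
      zero_div, hnorm p i j, hnorm q i j]
    field_simp
  simp only [hright]
  rw [hleft]
  simp only [← Finset.mul_sum]
  rw [← h1]
  ring

end Pool.Agent.KneserCone
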