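import Pool.Agent.KneserCone.Sd

/-!
# Bounds for the smoothed volumes

PROOF. `abs_mul_le_sum` and `bG_le_exp_max`: the integrand is at most
`CC n φ * ∑ l, exp (-max ((‖x - p l‖² + s - c l) / r) 0)`. For `0 < r ≤ 1`,
`max (v / r) 0 ≥ max v 0 ≥ v`, so `≤ CC * ∑ exp (c l) exp (-s) exp (-‖x - p l‖²)`. For `r ≥ 1` use
`exp (-max (v / r) 0) ≤ exp (-v / r)`, `exp ((c l - s) / r) ≤ exp |c l|`, and
`∫ exp (-‖x - p l‖² / r) = (π r) ^ (d / 2)` (`GaussianFourier.integral_rexp_neg_mul_sq_norm`).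
-/

set_option autoImplicit false
set_option linter.unusedSectionVars false

namespace Pool.Agent.KneserCone

open MeasureTheory Set Filter Topology Module
open scoped ENNReal
open Pool.Agent.Kneser Pool.Agent.KneserRank Pool.Agent.KneserCentre

variable {D n : ℕ}

variable {E : Type*} [NormedAddCommGroup E] [InnerProductSpace ℝ E] [FiniteDimensional ℝ E]
  [MeasurableSpace E] [BorelSpace E]

private theorem gauss_VBound {c : ℝ} (hc : 0 < c) (p : E) :
    Integrable (fun x : E => Real.exp (-c * ‖x - p‖ ^ 2)) := by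
  have h0 : Integrable (fun x : E => Real.exp (-c * ‖x‖ ^ 2)) := by
    by_contra h
    have h1 := GaussianFourier.integral_rexp_neg_mul_sq_norm (V := E) hc
    rw [integral_undef h] at h1
    have h2 : 0 < (Real.pi / c) ^ ((finrank ℝ E : ℝ) / 2) :=
      Real.rpow_pos_of_pos (div_pos Real.pi_pos hc) _
    exact h2.ne h1
  exact h0.comp_sub_right p

private theorem gauss_int_VBound {c : ℝ} (hc : 0 < c) (p : E) :
    ∫ x : E, Real.exp (-c * ‖x - p‖ ^ 2) = (Real.pi / c) ^ ((finrank ℝ E : ℝ) / 2) := by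
  rw [← GaussianFourier.integral_rexp_neg_mul_sq_norm (V := E) hc]
  exact integral_sub_right_eq_self (fun x : E => Real.exp (-c * ‖x‖ ^ 2)) p

private theorem cont_VBound (p : Fin n → E) (φ : ℕ → ℝ) (c : Fin n → ℝ) (r s : ℝ) :
    Continuous (fun x : E => mul φ (fun l => bG ((‖x - p l‖ ^ 2 + s - c l) / r))) := by
  refine (continuous_mul φ).comp (continuous_pi fun l => continuous_bG.comp ?_)
  fun_prop

private theorem abs_le_VBound (p : Fin n → E) {φ : ℕ → ℝ} (hφ0 : φ 0 = 0) (c : Fin n → ℝ)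
    (r s : ℝ) {M a : ℝ}
    (hM : ∀ x l, bG ((‖x - p l‖ ^ 2 + s - c l) / r) ≤ M * Real.exp (-a * ‖x - p l‖ ^ 2)) (x : E) :
    ‖mul φ (fun l => bG ((‖x - p l‖ ^ 2 + s - c l) / r))‖ ≤
      CC n φ * ∑ l, M * Real.exp (-a * ‖x - p l‖ ^ 2) := by
  rw [Real.norm_eq_abs]
  refine (abs_mul_le_sum hφ0 (fun l => bG_nonneg _) fun l => bG_le_one _).trans ?_
  exact mul_le_mul_of_nonneg_left (Finset.sum_le_sum fun l _ => hM x l) (CC_nonneg n φ)

private theorem integrable_bd_VBound (p : Fin n → E) (φ : ℕ → ℝ) {a : ℝ} (ha : 0 < a) (M : ℝ) :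
    Integrable (fun x : E => CC n φ * ∑ l, M * Real.exp (-a * ‖x - p l‖ ^ 2)) :=
  (integrable_finsetSum _ fun l _ => (gauss_VBound ha (p l)).const_mul M).const_mul _

private theorem VI_le_VBound (p : Fin n → E) {φ : ℕ → ℝ} (hφ0 : φ 0 = 0) (c : Fin n → ℝ)
    (r s : ℝ) {M a : ℝ} (ha : 0 < a)
    (hM : ∀ x l, bG ((‖x - p l‖ ^ 2 + s - c l) / r) ≤ M * Real.exp (-a * ‖x - p l‖ ^ 2)) :
    |VI p φ c r s| ≤ CC n φ * (n * (M * (Real.pi / a) ^ ((finrank ℝ E : ℝ) / 2))) := by
  unfold VI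
  rw [← Real.norm_eq_abs]
  refine (norm_integral_le_of_norm_le (integrable_bd_VBound p φ ha M)
    (Eventually.of_forall fun x => abs_le_VBound p hφ0 c r s hM x)).trans (le_of_eq ?_)
  rw [integral_const_mul, integral_finsetSum _ fun l _ => (gauss_VBound ha (p l)).const_mul M]
  congr 1
  simp only [integral_const_mul, gauss_int_VBound ha, Finset.sum_const, Finset.card_univ,
    Fintype.card_fin, nsmul_eq_mul]

theorem integrable_VI (p : Fin n → E) {φ : ℕ → ℝ} (hφ0 : φ 0 = 0) (c : Fin n → ℝ) {r : ℝ}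
    (hr : 0 < r) (s : ℝ) :
    Integrable (fun x : E => mul φ (fun l => bG ((‖x - p l‖ ^ 2 + s - c l) / r))) := by
  have hM : ∀ (x : E) l, bG ((‖x - p l‖ ^ 2 + s - c l) / r) ≤
      (∑ l, Real.exp ((c l - s) / r)) * Real.exp (-r⁻¹ * ‖x - p l‖ ^ 2) := by
    intro x l
    have h1 : Real.exp (-((‖x - p l‖ ^ 2 + s - c l) / r)) =
        Real.exp ((c l - s) / r) * Real.exp (-r⁻¹ * ‖x - p l‖ ^ 2) := by
      rw [← Real.exp_add]
      congr 1
      field_simp
      ring
    refine (bG_le_exp _).trans (h1.le.trans ?_)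
    refine mul_le_mul_of_nonneg_right ?_ (Real.exp_pos _).le
    exact Finset.single_le_sum (f := fun l => Real.exp ((c l - s) / r))
      (fun l _ => (Real.exp_pos _).le) (Finset.mem_univ l)
  exact (integrable_bd_VBound p φ (inv_pos.2 hr) _).mono'
    (cont_VBound p φ c r s).aestronglyMeasurable
    (Eventually.of_forall fun x => abs_le_VBound p hφ0 c r s hM x)

theorem exists_VI_small (p : Fin n → E) {φ : ℕ → ℝ} (hφ0 : φ 0 = 0) (R : ℝ) :
    ∃ C : ℝ, 0 ≤ C ∧ ∀ c : Fin n → ℝ, (∀ l, |c l| ≤ R) → ∀ r : ℝ, 0 < r → r ≤ 1 → ∀ s : ℝ,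
      |VI p φ c r s| ≤ C * Real.exp (-s) := by
  refine ⟨CC n φ * (n * (Real.exp R * (Real.pi / 1) ^ ((finrank ℝ E : ℝ) / 2))),
    mul_nonneg (CC_nonneg n φ) (by positivity), fun c hc r hr hr1 s => ?_⟩
  refine (VI_le_VBound p hφ0 c r s (M := Real.exp R * Real.exp (-s)) one_pos
    fun x l => ?_).trans (le_of_eq (by ring))
  refine (bG_le_exp_max _).trans ?_
  rw [← Real.exp_add, ← Real.exp_add, Real.exp_le_exp]
  set v := ‖x - p l‖ ^ 2 + s - c l with hv
  have h1 : v ≤ max (v / r) 0 := by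
    rcases le_or_gt v 0 with h | h
    · exact h.trans (le_max_right _ _)
    · refine le_trans ?_ (le_max_left _ _)
      rw [le_div_iff₀ hr]
      nlinarith
  have h2 := le_abs_self (c l)
  have h3 := hc l
  linarith

theorem exists_VI_bound (p : Fin n → E) {φ : ℕ → ℝ} (hφ0 : φ 0 = 0) (R : ℝ) :
    ∃ C : ℝ, 0 ≤ C ∧ ∀ c : Fin n → ℝ, (∀ l, |c l| ≤ R) → ∀ r : ℝ, 0 < r → ∀ s : ℝ, 0 ≤ s →
      |VI p φ c r s| ≤ C * (1 + r) ^ ((finrank ℝ E : ℝ) / 2) := by
  obtain ⟨C, hC, h⟩ := exists_VI_small p hφ0 R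
  set C' := CC n φ * (n * (Real.exp R * Real.pi ^ ((finrank ℝ E : ℝ) / 2))) with hC'
  have hC'0 : 0 ≤ C' := mul_nonneg (CC_nonneg n φ) (by positivity)
  refine ⟨C + C', by positivity, fun c hc r hr s hs => ?_⟩
  have hd : (0 : ℝ) ≤ (finrank ℝ E : ℝ) / 2 := by positivity
  have hp : (1 : ℝ) ≤ (1 + r) ^ ((finrank ℝ E : ℝ) / 2) :=
    Real.one_le_rpow (by linarith) hd
  rcases le_or_gt r 1 with hr1 | hr1
  · have h1 := h c hc r hr hr1 s
    have h2 : Real.exp (-s) ≤ 1 := Real.exp_le_one_iff.2 (by linarith)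
    have h3 : C * Real.exp (-s) ≤ C := mul_le_of_le_one_right hC h2
    have h4 : C ≤ (C + C') * (1 + r) ^ ((finrank ℝ E : ℝ) / 2) := by nlinarith
    linarith
  · have h1 := VI_le_VBound p hφ0 c r s (M := Real.exp R) (a := r⁻¹) (inv_pos.2 hr)
      fun x l => by
        refine (bG_le_exp _).trans ?_
        rw [← Real.exp_add, Real.exp_le_exp]
        have h2 := le_abs_self (c l)
        have h3 := hc l
        have h4 : (c l - s) / r ≤ R := by
          rw [div_le_iff₀ hr]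
          nlinarith [abs_nonneg (c l)]
        have h5 : -((‖x - p l‖ ^ 2 + s - c l) / r) = (c l - s) / r + -r⁻¹ * ‖x - p l‖ ^ 2 := by
          field_simp
          ring
        rw [h5]
        linarith
    have h2 : (Real.pi / r⁻¹) ^ ((finrank ℝ E : ℝ) / 2) ≤
        Real.pi ^ ((finrank ℝ E : ℝ) / 2) * (1 + r) ^ ((finrank ℝ E : ℝ) / 2) := by
      rw [← Real.mul_rpow Real.pi_pos.le (by linarith), div_inv_eq_mul]
      refine Real.rpow_le_rpow (by positivity) ?_ hd
      have := Real.pi_pos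
      nlinarith
    have h3 : CC n φ * (n * (Real.exp R * (Real.pi / r⁻¹) ^ ((finrank ℝ E : ℝ) / 2))) ≤
        CC n φ * (n * (Real.exp R * (Real.pi ^ ((finrank ℝ E : ℝ) / 2) *
          (1 + r) ^ ((finrank ℝ E : ℝ) / 2)))) := by
      refine mul_le_mul_of_nonneg_left ?_ (CC_nonneg n φ)
      refine mul_le_mul_of_nonneg_left ?_ (by positivity)
      exact mul_le_mul_of_nonneg_left h2 (Real.exp_pos _).le
    have h4 : CC n φ * (n * (Real.exp R * (Real.pi ^ ((finrank ℝ E : ℝ) / 2) *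
          (1 + r) ^ ((finrank ℝ E : ℝ) / 2)))) = C' * (1 + r) ^ ((finrank ℝ E : ℝ) / 2) := by
      rw [hC']
      ring
    have h5 : 0 ≤ C * (1 + r) ^ ((finrank ℝ E : ℝ) / 2) := by positivity
    rw [add_mul]
    linarith

theorem measurable_VI (p : Fin n → E) (φ : ℕ → ℝ) (c : Fin n → ℝ) :
    StronglyMeasurable (fun x : ℝ × ℝ => VI p φ c x.1 x.2) := by
  unfold VI
  have h : StronglyMeasurable (fun y : (ℝ × ℝ) × E =>
      mul φ (fun l => bG ((‖y.2 - p l‖ ^ 2 + y.1.2 - c l) / y.1.1))) := by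
    refine Measurable.stronglyMeasurable ?_
    refine (continuous_mul φ).measurable.comp (measurable_pi_lambda _ fun l => ?_)
    refine continuous_bG.measurable.comp ?_
    have h1 : Measurable fun y : (ℝ × ℝ) × E => ‖y.2 - p l‖ := by
      have h2 : Measurable fun x : E => ‖x - p l‖ :=
        (continuous_norm.comp (continuous_id.sub continuous_const)).measurable
      exact h2.comp measurable_snd
    have h3 : Measurable fun y : (ℝ × ℝ) × E => y.1.2 := measurable_snd.comp measurable_fst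
    have h4 : Measurable fun y : (ℝ × ℝ) × E => y.1.1 := measurable_fst.comp measurable_fst
    exact (((h1.pow_const 2).add h3).sub_const _).div h4
  exact h.integral_prod_right'

theorem intervalIntegrable_VI (p : Fin n → E) {φ : ℕ → ℝ} (hφ0 : φ 0 = 0) (c : Fin n → ℝ)
    {r : ℝ} (hr : 0 < r) {ε : ℝ} (hε : 0 ≤ ε) :
    IntervalIntegrable (fun s => VI p φ c r s) volume 0 ε := by
  obtain ⟨C, hC, h⟩ := exists_VI_bound p hφ0 (∑ l, |c l|)
  have hc : ∀ l, |c l| ≤ ∑ l, |c l| := fun l =>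
    Finset.single_le_sum (f := fun l => |c l|) (fun l _ => abs_nonneg _) (Finset.mem_univ l)
  rw [intervalIntegrable_iff_integrableOn_Ioc_of_le hε]
  refine Measure.integrableOn_of_bounded
    (M := C * (1 + r) ^ ((finrank ℝ E : ℝ) / 2)) (by simp) ?_ ?_
  · exact ((measurable_VI p φ c).measurable.comp
      (measurable_const.prodMk measurable_id)).aestronglyMeasurable
  · refine (ae_restrict_iff' measurableSet_Ioc).2 (Eventually.of_forall fun s hs => ?_)
    rw [Real.norm_eq_abs]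
    exact h c hc r hr s hs.1.le

end Pool.Agent.KneserCone
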