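import Pool.Agent.KneserCone.GMeas
import Pool.Agent.KneserCone.Ident
import Pool.Agent.KneserCone.VBound

/-!
# The pair integrals: small scales

PROOF of `exists_small`. Apply `ident` to the two point configurations `p' = ![p i, p j]`,
`q' = ![q i, q j]`, `z' = ![z i, z j]`, `c' = ![c i, c j]` and `φ' k = min k 1`, for which
`sd φ' 0 1 w = 1` (for all `w : Fin 2 → ℝ`), so with `f v = (r⁻¹)² * (eG ((ya i + v - c i) / r) *
eG ((ya j + v - c j) / r))`, `G v = ∫ om * f v`: for `0 ≤ v ≤ v'`, (apply `ident` with `ε = v` and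
`ε = v'` and subtract) `σ * (G v - G v') = 2 ^ D π² ∫ s in v..v', (VI p' - VI q')`,
`σ = ‖p i - p j‖² - ‖q i - q j‖² > 0`. By `exists_VI_small` the right side is at most
`2 ^ D π² * 2 C ∫ s in 0..∞, exp (-s) = 2 ^ D π² * 2 C`, and `G v' → 0` as `v' → ∞`
(`G v' ≤ (r⁻¹)² exp (-v'/r) * ..` by `integral_single`). So `G v ≤ C'` uniformly.
`exists_bound`: `|GI| ≤ CC n φ * G ε` for `r ≤ 1` (`abs_gd_le`, `integrable_gd`), `abs_GI_le_large` for
`r ≥ 1`.
-/

set_option autoImplicit false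
set_option linter.unusedSectionVars false

namespace Pool.Agent.KneserCone

open MeasureTheory Set Filter Topology Module
open scoped ENNReal
open Pool.Agent.Kneser Pool.Agent.KneserRank Pool.Agent.KneserCentre

variable {D n : ℕ}

variable {E : Type*} [NormedAddCommGroup E] [InnerProductSpace ℝ E] [FiniteDimensional ℝ E]
  [MeasurableSpace E] [BorelSpace E]

/-- `min k 1` -/
private noncomputable def ph (k : ℕ) : ℝ := ((min k 1 : ℕ) : ℝ)

private theorem sd_ph (w : Fin 2 → ℝ) : sd ph 0 1 w = 1 ∧ sd ph 1 0 w = 1 := by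
  have hu : (Finset.univ : Finset (Finset (Fin 2))) = {∅, {0}, {1}, {0, 1}} := by decide
  have h01 : ((Finset.univ : Finset (Fin 2)).erase 0).erase 1 = ∅ := by decide
  have h10 : ((Finset.univ : Finset (Fin 2)).erase 1).erase 0 = ∅ := by decide
  have n1 : (∅ : Finset (Fin 2)) ∉ ({{0}, {1}, {0, 1}} : Finset (Finset (Fin 2))) := by decide
  have n2 : ({0} : Finset (Fin 2)) ∉ ({{1}, {0, 1}} : Finset (Finset (Fin 2))) := by decide
  have n3 : ({1} : Finset (Fin 2)) ∉ ({{0, 1}} : Finset (Finset (Fin 2))) := by decide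
  have c2 : ({0, 1} : Finset (Fin 2)).card = 2 := by decide
  constructor
  · unfold sd
    rw [hu, h01, Finset.sum_insert n1, Finset.sum_insert n2, Finset.sum_insert n3,
      Finset.sum_singleton]
    simp only [Finset.prod_empty, Finset.card_empty, Finset.card_singleton, c2, ph]
    norm_num
  · unfold sd
    rw [hu, h10, Finset.sum_insert n1, Finset.sum_insert n2, Finset.sum_insert n3,
      Finset.sum_singleton]
    simp only [Finset.prod_empty, Finset.card_empty, Finset.card_singleton, c2, ph]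
    norm_num

/-- the integrand of the pair bound -/
private noncomputable def Fs (a : Fin D → ℝ) (z : Fin n → Fin D → ℝ) (i j : Fin n)
    (c : Fin n → ℝ) (r v : ℝ) (x : XS D) : ℝ :=
  om a x.1 * ((r⁻¹) ^ 2 * (eG ((ya a z x i + v - c i) / r) * eG ((ya a z x j + v - c j) / r)))

/-- the two indices -/
private def two (i j : Fin n) : Fin 2 → Fin n := ![i, j]

private theorem gd_ph (a : Fin D → ℝ) (z : Fin n → Fin D → ℝ) (i j : Fin n) (c : Fin n → ℝ)
    (r v : ℝ) (x : XS D) :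
    om a x.1 * gd ph Finset.univ 0 1 (fun l => c (two i j l)) r
      (fun l => ya a (fun l => z (two i j l)) x l + v) = Fs a z i j c r v x ∧
    om a x.1 * gd ph Finset.univ 1 0 (fun l => c (two i j l)) r
      (fun l => ya a (fun l => z (two i j l)) x l + v) = Fs a z i j c r v x := by
  unfold gd Fs
  constructor
  · rw [(sd_ph _).1, mul_one]
    rfl
  · rw [(sd_ph _).2, mul_one, mul_comm (eG _) (eG _)]
    rfl

private theorem GI_ph (a : Fin D → ℝ) (z : Fin n → Fin D → ℝ) (i j : Fin n) (c : Fin n → ℝ)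
    (r v : ℝ) :
    GI a (fun l => z (two i j l)) ph Finset.univ 0 1 (fun l => c (two i j l)) r v =
        ∫ x, Fs a z i j c r v x ∂(mu D) ∧
      GI a (fun l => z (two i j l)) ph Finset.univ 1 0 (fun l => c (two i j l)) r v =
        ∫ x, Fs a z i j c r v x ∂(mu D) := by
  unfold GI
  constructor
  · exact integral_congr_ae (Eventually.of_forall fun x => (gd_ph a z i j c r v x).1)
  · exact integral_congr_ae (Eventually.of_forall fun x => (gd_ph a z i j c r v x).2)

private theorem integrable_Fs {a : Fin D → ℝ} (ha : Pencil a) (z : Fin n → Fin D → ℝ)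
    (i j : Fin n) (c : Fin n → ℝ) {r : ℝ} (hr : 0 < r) (v : ℝ) :
    Integrable (Fs a z i j c r v) (mu D) := by
  have h := integrable_gd ha (fun l => z (two i j l)) ph Finset.univ 0 1
    (fun l => c (two i j l)) hr v
  exact h.congr (Eventually.of_forall fun x => (gd_ph a z i j c r v x).1)

private theorem om_nn (a : Fin D → ℝ) (t : ℝ) : 0 ≤ om a t := by
  unfold om
  positivity

private theorem Fs_nonneg (a : Fin D → ℝ) (z : Fin n → Fin D → ℝ) (i j : Fin n)
    (c : Fin n → ℝ) (r v : ℝ) (x : XS D) : 0 ≤ Fs a z i j c r v x :=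
  mul_nonneg (om_nn a _) (mul_nonneg (sq_nonneg _) (mul_nonneg (eG_nonneg _) (eG_nonneg _)))

private theorem eG_le_one (x : ℝ) : eG x ≤ 1 := by
  refine (eG_le_exp_max x).trans ?_
  rw [Real.exp_le_one_iff]
  have := le_max_right x 0
  linarith

/-- `G v` tends to zero. -/
private theorem Fs_decay {a : Fin D → ℝ} (ha : Pencil a) (z : Fin n → Fin D → ℝ)
    (i j : Fin n) (c : Fin n → ℝ) {r : ℝ} (hr : 0 < r) :
    ∃ A : ℝ, ∀ v : ℝ, ∫ x, Fs a z i j c r v x ∂(mu D) ≤ A * Real.exp (-(v / r)) := by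
  refine ⟨(r⁻¹) ^ 2 * Real.exp (c i / r) * (2 ^ D * (Real.pi * r) ^ (((D : ℝ) + 1) / 2)),
    fun v => ?_⟩
  have h1 : ∫ x, Fs a z i j c r v x ∂(mu D) ≤
      ∫ x, ((r⁻¹) ^ 2 * Real.exp (c i / r) * Real.exp (-(v / r))) *
        (om a x.1 * Real.exp (-(ya a z x i / r))) ∂(mu D) := by
    refine integral_mono_of_nonneg (Eventually.of_forall fun x => Fs_nonneg a z i j c r v x)
      ((integrable_single ha z i hr).const_mul _) (Eventually.of_forall fun x => ?_)
    change om a x.1 * ((r⁻¹) ^ 2 * (eG ((ya a z x i + v - c i) / r) *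
      eG ((ya a z x j + v - c j) / r))) ≤ _
    have h2 : eG ((ya a z x i + v - c i) / r) * eG ((ya a z x j + v - c j) / r) ≤
        Real.exp (-((ya a z x i + v - c i) / r)) * 1 :=
      mul_le_mul (eG_le_exp _) (eG_le_one _) (eG_nonneg _) (Real.exp_pos _).le
    have h3 : Real.exp (-((ya a z x i + v - c i) / r)) =
        Real.exp (c i / r) * Real.exp (-(v / r)) * Real.exp (-(ya a z x i / r)) := by
      rw [← Real.exp_add, ← Real.exp_add]
      congr 1
      field_simp
      ring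
    rw [mul_one, h3] at h2
    have h4 := mul_le_mul_of_nonneg_left (mul_le_mul_of_nonneg_left h2 (sq_nonneg (r⁻¹)))
      (om_nn a x.1)
    refine h4.trans (le_of_eq ?_)
    ring
  refine h1.trans (le_of_eq ?_)
  rw [integral_const_mul, integral_single ha z i hr]
  ring

private theorem int_exp_le {v : ℝ} : ∫ s in (0 : ℝ)..v, Real.exp (-s) ≤ 1 := by
  rw [intervalIntegral.integral_comp_neg (fun s => Real.exp s), integral_exp, neg_zero,
    Real.exp_zero]
  have := Real.exp_pos (-v)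
  linarith

private theorem int_le {f : ℝ → ℝ} {C : ℝ} (hC : 0 ≤ C) (hf : ∀ s, |f s| ≤ C * Real.exp (-s))
    {v : ℝ} (hv : 0 ≤ v) : |∫ s in (0 : ℝ)..v, f s| ≤ C := by
  have h1 : ‖∫ s in (0 : ℝ)..v, f s‖ ≤ ∫ s in (0 : ℝ)..v, C * Real.exp (-s) := by
    refine intervalIntegral.norm_integral_le_of_norm_le hv
      (Eventually.of_forall fun s _ => hf s) ?_
    exact (Continuous.intervalIntegrable (by fun_prop) _ _)
  rw [intervalIntegral.integral_const_mul, Real.norm_eq_abs] at h1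
  refine h1.trans ?_
  calc C * ∫ s in (0 : ℝ)..v, Real.exp (-s) ≤ C * 1 :=
        mul_le_mul_of_nonneg_left int_exp_le hC
    _ = C := mul_one C

theorem exists_small {a : Fin D → ℝ} (ha : Pencil a) (hD : D = finrank ℝ E + 3) (p q : Fin n → E)
    (z : Fin n → Fin D → ℝ) (hp : ∀ i j, ‖p i - p j‖ ^ 2 = ∑ k, a k * (z i k - z j k) ^ 2)
    (hq : ∀ i j, ‖q i - q j‖ ^ 2 = ∑ k, (1 - a k) * (z i k - z j k) ^ 2) {i j : Fin n}
    (hlt : ‖q i - q j‖ < ‖p i - p j‖) (R : ℝ) :
    ∃ C : ℝ, 0 ≤ C ∧ ∀ c : Fin n → ℝ, (∀ l, |c l| ≤ R) → ∀ r : ℝ, 0 < r → r ≤ 1 →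
      ∀ ε : ℝ, 0 ≤ ε →
      ∫ x, om a x.1 * ((r⁻¹) ^ 2 * (eG ((ya a z x i + ε - c i) / r) *
        eG ((ya a z x j + ε - c j) / r))) ∂(mu D) ≤ C := by
  have hφ0 : ph 0 = 0 := by simp [ph]
  obtain ⟨C1, hC1, h1⟩ := exists_VI_small (fun l => p (two i j l)) hφ0 R
  obtain ⟨C2, hC2, h2⟩ := exists_VI_small (fun l => q (two i j l)) hφ0 R
  have hσ : 0 < ‖p i - p j‖ ^ 2 - ‖q i - q j‖ ^ 2 := by
    have := norm_nonneg (q i - q j)
    nlinarith
  set σ := ‖p i - p j‖ ^ 2 - ‖q i - q j‖ ^ 2 with hσd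
  set K : ℝ := 2 ^ D * Real.pi ^ 2 * (C1 + C2) / σ with hK
  have hK0 : 0 ≤ K := by positivity
  refine ⟨2 * K, by positivity, fun c hc r hr hr1 ε hε => ?_⟩
  have hid : ∀ v : ℝ, 0 ≤ v → |σ * ((∫ x, Fs a z i j c r 0 x ∂(mu D)) -
      ∫ x, Fs a z i j c r v x ∂(mu D))| ≤ σ * K := by
    intro v hv
    have h3 := ident ha hD (fun l => p (two i j l)) (fun l => q (two i j l))
      (fun l => z (two i j l)) (fun i' j' => hp _ _) (fun i' j' => hq _ _) hφ0
      (fun l => c (two i j l)) hr hv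
    rw [Fin.sum_univ_two, Fin.sum_univ_two, Fin.sum_univ_two, (GI_ph a z i j c r 0).1,
      (GI_ph a z i j c r 0).2, (GI_ph a z i j c r v).1, (GI_ph a z i j c r v).2] at h3
    have e0 : two i j 0 = i := rfl
    have e1 : two i j 1 = j := rfl
    simp only [e0, e1, sub_self, norm_zero] at h3
    have h4 : σ * ((∫ x, Fs a z i j c r 0 x ∂(mu D)) - ∫ x, Fs a z i j c r v x ∂(mu D)) =
        2 ^ D * Real.pi ^ 2 * ∫ s in (0 : ℝ)..v,
          (VI (fun l => p (two i j l)) ph (fun l => c (two i j l)) r s -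
            VI (fun l => q (two i j l)) ph (fun l => c (two i j l)) r s) := by
      rw [h3, norm_sub_rev (p j) (p i), norm_sub_rev (q j) (q i)]
      ring
    rw [h4, abs_mul, abs_of_nonneg (by positivity : (0 : ℝ) ≤ 2 ^ D * Real.pi ^ 2)]
    have h5 := int_le (add_nonneg hC1 hC2) (f := fun s =>
      VI (fun l => p (two i j l)) ph (fun l => c (two i j l)) r s -
        VI (fun l => q (two i j l)) ph (fun l => c (two i j l)) r s) (fun s => by
        have g1 := h1 (fun l => c (two i j l)) (fun l => hc _) r hr hr1 s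
        have g2 := h2 (fun l => c (two i j l)) (fun l => hc _) r hr hr1 s
        refine (abs_sub _ _).trans ?_
        rw [add_mul]
        exact add_le_add g1 g2) hv
    calc 2 ^ D * Real.pi ^ 2 * |∫ s in (0 : ℝ)..v,
          (VI (fun l => p (two i j l)) ph (fun l => c (two i j l)) r s -
            VI (fun l => q (two i j l)) ph (fun l => c (two i j l)) r s)|
        ≤ 2 ^ D * Real.pi ^ 2 * (C1 + C2) := mul_le_mul_of_nonneg_left h5 (by positivity)
      _ = σ * K := by
          rw [hK]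
          field_simp
  have hid' : ∀ v : ℝ, 0 ≤ v → |(∫ x, Fs a z i j c r 0 x ∂(mu D)) -
      ∫ x, Fs a z i j c r v x ∂(mu D)| ≤ K := by
    intro v hv
    have h3 := hid v hv
    rw [abs_mul, abs_of_pos hσ] at h3
    exact le_of_mul_le_mul_left h3 hσ
  obtain ⟨A, hA⟩ := Fs_decay ha z i j c hr
  have h0 : ∫ x, Fs a z i j c r 0 x ∂(mu D) ≤ K := by
    have hlim : Tendsto (fun v : ℝ => A * Real.exp (-(v / r)) + K) atTop (𝓝 (A * 0 + K)) := by
      refine ((Real.tendsto_exp_neg_atTop_nhds_zero.comp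
        (tendsto_id.atTop_div_const hr)).const_mul A).add_const K
    rw [mul_zero, zero_add] at hlim
    refine ge_of_tendsto hlim ?_
    filter_upwards [eventually_ge_atTop (0 : ℝ)] with v hv
    have h3 := (abs_le.1 (hid' v hv)).2
    have h4 := hA v
    linarith
  have h5 := (abs_le.1 (hid' ε hε)).1
  change ∫ x, Fs a z i j c r ε x ∂(mu D) ≤ 2 * K
  linarith

theorem exists_bound {a : Fin D → ℝ} (ha : Pencil a) (hD : D = finrank ℝ E + 3) (p q : Fin n → E)
    (z : Fin n → Fin D → ℝ) (hp : ∀ i j, ‖p i - p j‖ ^ 2 = ∑ k, a k * (z i k - z j k) ^ 2)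
    (hq : ∀ i j, ‖q i - q j‖ ^ 2 = ∑ k, (1 - a k) * (z i k - z j k) ^ 2) {i j : Fin n}
    (hlt : ‖q i - q j‖ < ‖p i - p j‖) (φ : ℕ → ℝ) (R : ℝ) :
    ∃ C : ℝ, 0 ≤ C ∧ ∀ (L : Finset (Fin n)) (c : Fin n → ℝ), (∀ l, |c l| ≤ R) →
      ∀ r : ℝ, 0 < r → ∀ ε : ℝ, 0 ≤ ε →
      |GI a z φ L i j c r ε| ≤ C * (1 + r) ^ (((D : ℝ) - 3) / 2) := by
  obtain ⟨C1, hC1, h1⟩ := exists_small ha hD p q z hp hq hlt R
  obtain ⟨C2, hC2, h2⟩ := abs_GI_le_large ha z φ i j R
  have hCC := CC_nonneg n φ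
  have hexp : 0 ≤ ((D : ℝ) - 3) / 2 := by
    have : (3 : ℝ) ≤ D := by
      rw [hD]
      push_cast
      have : (0 : ℝ) ≤ finrank ℝ E := Nat.cast_nonneg _
      linarith
    linarith
  refine ⟨CC n φ * C1 + C2, by positivity, fun L c hc r hr ε hε => ?_⟩
  have hr0 : (0 : ℝ) ≤ (1 + r) ^ (((D : ℝ) - 3) / 2) := by positivity
  rcases le_total r 1 with hr1 | hr1
  · have h3 : |GI a z φ L i j c r ε| ≤ CC n φ * C1 := by
      unfold GI
      rw [← Real.norm_eq_abs]
      refine (norm_integral_le_of_norm_le ((integrable_Fs ha z i j c hr ε).const_mul (CC n φ))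
        (Eventually.of_forall fun x => ?_)).trans ?_
      · rw [Real.norm_eq_abs, abs_mul, abs_of_nonneg (om_nn a _)]
        refine (mul_le_mul_of_nonneg_left (abs_gd_le φ L i j c r _) (om_nn a _)).trans
          (le_of_eq ?_)
        unfold Fs
        ring
      · rw [integral_const_mul]
        exact mul_le_mul_of_nonneg_left (h1 c hc r hr hr1 ε hε) hCC
    have h4 : (1 : ℝ) ≤ (1 + r) ^ (((D : ℝ) - 3) / 2) :=
      Real.one_le_rpow (by linarith) hexp
    calc |GI a z φ L i j c r ε| ≤ CC n φ * C1 := h3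
      _ ≤ CC n φ * C1 + C2 := by linarith
      _ = (CC n φ * C1 + C2) * 1 := (mul_one _).symm
      _ ≤ _ := mul_le_mul_of_nonneg_left h4 (by positivity)
  · calc |GI a z φ L i j c r ε| ≤ C2 * r ^ (((D : ℝ) - 3) / 2) := h2 L c hc r hr1 ε hε
      _ ≤ C2 * (1 + r) ^ (((D : ℝ) - 3) / 2) :=
          mul_le_mul_of_nonneg_left (Real.rpow_le_rpow hr.le (by linarith) hexp) hC2
      _ ≤ _ := mul_le_mul_of_nonneg_right (by
          have : 0 ≤ CC n φ * C1 := mul_nonneg hCC hC1
          linarith) hr0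

end Pool.Agent.KneserCone
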