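import Pool.Agent.KneserCone.Defs

/-!
# Almost all directions are generic

PROOF. Each of the three conditions fails only on a null set: choose `i` with `a i = 1` and `j` with
`a j = 0` (`Pencil`). `{U | U.1 = 0}`, and, for fixed `U.1`, the conditions
`O.2.1 i * U.1 - O.1 * U.2.1 i ≠ 0` and `O.2.1 j * U.1 + (1 - O.1) * U.2.1 j ≠ 0` fail only if
`U.2.1 i`, resp. `U.2.1 j`, has one particular value (`O.1 ≠ 0`, `O.1 ≠ 1`). Use
`Measure.measure_prod_null` or `Measure.ae_prod..` with `Measure.pi_hyperplane` (see `ae_generic` in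
`Pool/Agent/KneserRank/Shift.lean`), or `Measure.addHaar_submodule` for the kernels of the linear
functionals of `XS D`.
-/

set_option autoImplicit false
set_option linter.unusedSectionVars false

namespace Pool.Agent.KneserCone

open MeasureTheory Set Filter Topology Module
open scoped ENNReal
open Pool.Agent.Kneser Pool.Agent.KneserRank Pool.Agent.KneserCentre

variable {D n : ℕ}

private theorem ae_lin_GenAe {α β : ℝ} (k : Fin D) (h : α ≠ 0 ∨ β ≠ 0) :
    ∀ᵐ U : XS D, α * U.1 + β * U.2.1 k ≠ 0 := by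
  let L : XS D →ₗ[ℝ] ℝ :=
    { toFun := fun U => α * U.1 + β * U.2.1 k
      map_add' := by
        intro U V
        simp only [Prod.fst_add, Prod.snd_add, Pi.add_apply]
        ring
      map_smul' := by
        intro c U
        simp only [Prod.smul_fst, Prod.smul_snd, Pi.smul_apply, smul_eq_mul, RingHom.id_apply]
        ring }
  have hL : LinearMap.ker L ≠ ⊤ := by
    intro htop
    have hall : ∀ U : XS D, α * U.1 + β * U.2.1 k = 0 := by
      intro U
      have h1 : U ∈ LinearMap.ker L := by
        rw [htop]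
        exact Submodule.mem_top
      exact LinearMap.mem_ker.1 h1
    rcases h with h | h
    · have h1 := hall (1, (0, 0))
      simp at h1
      exact h h1
    · have h1 := hall (0, (Pi.single k 1, 0))
      simp at h1
      exact h h1
  have hp : ((volume : Measure (Fin D → ℝ)).prod (volume : Measure ℝ)).IsAddHaarMeasure :=
    Measure.prod.instIsAddHaarMeasure _ _
  have hm : (volume : Measure (XS D)).IsAddHaarMeasure :=
    Measure.prod.instIsAddHaarMeasure (volume : Measure ℝ)
      ((volume : Measure (Fin D → ℝ)).prod (volume : Measure ℝ))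
  have h1 := Measure.addHaar_submodule (volume : Measure (XS D)) (LinearMap.ker L) hL
  rw [ae_iff]
  refine (congrArg (volume : Measure (XS D)) (Set.ext fun U => ?_)).trans h1
  simp only [ne_eq, not_not, mem_ofPred_eq, SetLike.mem_coe, LinearMap.mem_ker]
  exact Iff.rfl

theorem ae_genU {a : Fin D → ℝ} (ha : Pencil a) {O : XS D} (h0 : O.1 ≠ 0) (h1 : O.1 ≠ 1) :
    ∀ᵐ U : XS D, GenU a O U := by
  have e1 : ∃ k, a k = 1 := by
    have h := ha.ones
    obtain ⟨k, hk⟩ := Finset.card_pos.mp (by omega :
      0 < (Finset.univ.filter fun k => a k = 1).card)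
    exact ⟨k, (Finset.mem_filter.mp hk).2⟩
  have e0 : ∃ k, a k = 0 := by
    have h := ha.zeros
    obtain ⟨k, hk⟩ := Finset.card_pos.mp (by omega :
      0 < (Finset.univ.filter fun k => a k = 0).card)
    exact ⟨k, (Finset.mem_filter.mp hk).2⟩
  obtain ⟨i, hi⟩ := e1
  obtain ⟨j, hj⟩ := e0
  filter_upwards [ae_lin_GenAe (α := 1) (β := 0) i (Or.inl one_ne_zero),
    ae_lin_GenAe (α := O.2.1 i) (β := -O.1) i (Or.inr (neg_ne_zero.2 h0)),
    ae_lin_GenAe (α := O.2.1 j) (β := 1 - O.1) j (Or.inr (sub_ne_zero.2 (Ne.symm h1)))]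
    with U h2 h3 h4
  refine ⟨fun h => h2 (by rw [h]; ring), ⟨i, hi, fun h => h3 (by linarith)⟩, ⟨j, hj, h4⟩⟩

end Pool.Agent.KneserCone
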