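import Pool.Agent.KneserCone.Defs

/-!
# The Gumbel function

PROOF. `bG x = 1 - exp (-y)`, `eG x = y exp (-y)` with `y = exp (-x) > 0`; `1 - y ≤ exp (-y)`.
`eG x ≤ 1`: `y ≤ exp y`. `exp (-max x 0) = min (exp (-x)) 1`.
-/

set_option autoImplicit false
set_option linter.unusedSectionVars false

namespace Pool.Agent.KneserCone

open MeasureTheory Set Filter Topology Module
open scoped ENNReal
open Pool.Agent.Kneser Pool.Agent.KneserRank Pool.Agent.KneserCentre

variable {D n : ℕ}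

theorem bG_nonneg (x : ℝ) : 0 ≤ bG x := by
  unfold bG
  have h1 : Real.exp (-Real.exp (-x)) ≤ 1 :=
    Real.exp_le_one_iff.2 (neg_nonpos.2 (Real.exp_pos _).le)
  linarith

theorem bG_le_one (x : ℝ) : bG x ≤ 1 := by
  unfold bG
  linarith [Real.exp_pos (-Real.exp (-x))]

theorem bG_le_exp (x : ℝ) : bG x ≤ Real.exp (-x) := by
  unfold bG
  linarith [Real.add_one_le_exp (-Real.exp (-x))]

private theorem le_exp_max_Gumbel {f : ℝ → ℝ} (h1 : ∀ x, f x ≤ 1)
    (h2 : ∀ x, f x ≤ Real.exp (-x)) (x : ℝ) : f x ≤ Real.exp (-max x 0) := by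
  rcases le_total x 0 with h | h
  · rw [max_eq_right h, neg_zero, Real.exp_zero]
    exact h1 x
  · rw [max_eq_left h]
    exact h2 x

theorem bG_le_exp_max (x : ℝ) : bG x ≤ Real.exp (-max x 0) :=
  le_exp_max_Gumbel bG_le_one bG_le_exp x

theorem eG_nonneg (x : ℝ) : 0 ≤ eG x :=
  mul_nonneg (Real.exp_pos _).le (Real.exp_pos _).le

theorem eG_le_exp (x : ℝ) : eG x ≤ Real.exp (-x) := by
  unfold eG
  have h1 : Real.exp (-Real.exp (-x)) ≤ 1 :=
    Real.exp_le_one_iff.2 (neg_nonpos.2 (Real.exp_pos _).le)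
  exact mul_le_of_le_one_right (Real.exp_pos _).le h1

private theorem eG_le_one_Gumbel (x : ℝ) : eG x ≤ 1 := by
  unfold eG
  have h1 : Real.exp (-x) ≤ Real.exp (Real.exp (-x)) := by
    linarith [Real.add_one_le_exp (Real.exp (-x))]
  calc Real.exp (-x) * Real.exp (-Real.exp (-x))
      ≤ Real.exp (Real.exp (-x)) * Real.exp (-Real.exp (-x)) :=
        mul_le_mul_of_nonneg_right h1 (Real.exp_pos _).le
    _ = 1 := by rw [← Real.exp_add, add_neg_cancel, Real.exp_zero]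

theorem eG_le_exp_max (x : ℝ) : eG x ≤ Real.exp (-max x 0) :=
  le_exp_max_Gumbel eG_le_one_Gumbel eG_le_exp x

theorem continuous_bG : Continuous bG := by
  unfold bG
  fun_prop

theorem continuous_eG : Continuous eG := by
  unfold eG
  fun_prop

/-- For `v < 0`, `bG (v / r) → 1` as `r → 0+`. -/
theorem tendsto_bG_neg {v : ℝ} (hv : v < 0) :
    Tendsto (fun r : ℝ => bG (v / r)) (𝓝[>] 0) (𝓝 1) := by
  have h1 : Tendsto (fun r : ℝ => -(v / r)) (𝓝[>] 0) atTop := by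
    have h2 := (tendsto_inv_nhdsGT_zero (𝕜 := ℝ)).const_mul_atTop (neg_pos.2 hv)
    refine h2.congr fun r => ?_
    ring
  have h3 : Tendsto (fun r : ℝ => Real.exp (-Real.exp (-(v / r)))) (𝓝[>] 0) (𝓝 0) :=
    Real.tendsto_exp_neg_atTop_nhds_zero.comp (Real.tendsto_exp_atTop.comp h1)
  have h4 := h3.const_sub 1
  rw [sub_zero] at h4
  exact h4

/-- For `v > 0`, `bG (v / r) → 0` as `r → 0+`. -/
theorem tendsto_bG_pos {v : ℝ} (hv : 0 < v) :
    Tendsto (fun r : ℝ => bG (v / r)) (𝓝[>] 0) (𝓝 0) := by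
  have h1 : Tendsto (fun r : ℝ => v / r) (𝓝[>] 0) atTop := by
    have h2 := (tendsto_inv_nhdsGT_zero (𝕜 := ℝ)).const_mul_atTop hv
    refine h2.congr fun r => ?_
    ring
  have h3 : Tendsto (fun r : ℝ => Real.exp (-(v / r))) (𝓝[>] 0) (𝓝 0) :=
    Real.tendsto_exp_neg_atTop_nhds_zero.comp h1
  exact squeeze_zero (fun r => bG_nonneg _) (fun r => bG_le_exp _) h3

end Pool.Agent.KneserCone
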