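import Pool.Agent.KneserCone.Defs

/-!
# Three balls (Kirszbraun)

PROOF. Let `ι : E →ₗᵢ[ℝ] F` be an isometric embedding (`finrank E ≤ finrank F`). All `c l > 0`; with
`ρ l = √(c l)` the points `u l`, `ι (v l)` of `F` satisfy the hypotheses of `inter_of_rank`
(`Pool/Agent/KneserRank/Final.lean`, rank condition by `rank_of_card`, `3 ≤ finrank F + 4`), so
`volume (⋂ closedBall (u l) (ρ l)) ≤ volume (⋂ closedBall (ι (v l)) (ρ l))`. The left side is
positive: the intersection of the open balls is open and contains `x`. So there is `y'` in the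
intersection on the right; let `y` be the preimage of the orthogonal projection of `y'` on the range of
`ι` (or `y = adjoint ι y'`): `‖y - v l‖ = ‖proj y' - ι (v l)‖ ≤ ‖y' - ι (v l)‖`.
-/

set_option autoImplicit false
set_option linter.unusedSectionVars false

namespace Pool.Agent.KneserCone

open MeasureTheory Set Filter Topology Module
open scoped ENNReal
open Pool.Agent.Kneser Pool.Agent.KneserRank Pool.Agent.KneserCentre

variable {D n : ℕ}

variable {E : Type*} [NormedAddCommGroup E] [InnerProductSpace ℝ E] [FiniteDimensional ℝ E]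
  [MeasurableSpace E] [BorelSpace E]

private theorem exists_isometry_kirs {E F : Type*} [NormedAddCommGroup E] [InnerProductSpace ℝ E]
    [FiniteDimensional ℝ E] [NormedAddCommGroup F] [InnerProductSpace ℝ F]
    [FiniteDimensional ℝ F] (hF : finrank ℝ E ≤ finrank ℝ F) : Nonempty (E →ₗᵢ[ℝ] F) := by
  classical
  let b := stdOrthonormalBasis ℝ E
  let b' := stdOrthonormalBasis ℝ F
  have hv : Orthonormal ℝ fun i : Fin (finrank ℝ E) => b' (Fin.castLE hF i) :=
    b'.orthonormal.comp _ (Fin.castLE_injective hF)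
  let f : E →ₗ[ℝ] F := b.toBasis.constr ℝ fun i => b' (Fin.castLE hF i)
  refine ⟨f.isometryOfOrthonormal (v := b.toBasis) (by simp [b.orthonormal]) ?_⟩
  have : (f ∘ b.toBasis) = fun i => b' (Fin.castLE hF i) := by
    funext i
    simp [f]
  rw [this]
  exact hv

theorem kirs_three {F : Type*} [NormedAddCommGroup F] [InnerProductSpace ℝ F]
    [FiniteDimensional ℝ F] [MeasurableSpace F] [BorelSpace F] (hF : finrank ℝ E ≤ finrank ℝ F)
    (u : Fin 3 → F) (v : Fin 3 → E) (huv : ∀ l m, dist (v l) (v m) ≤ dist (u l) (u m))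
    (c : Fin 3 → ℝ) (x : F) (hx : ∀ l, ‖x - u l‖ ^ 2 < c l) :
    ∃ y : E, ∀ l, ‖y - v l‖ ^ 2 ≤ c l := by
  classical
  obtain ⟨ι⟩ : Nonempty (E →ₗᵢ[ℝ] F) := exists_isometry_kirs hF
  have hc : ∀ l, 0 < c l := fun l => lt_of_le_of_lt (sq_nonneg _) (hx l)
  have hxl : ∀ l, dist x (u l) < √(c l) := by
    intro l
    rw [dist_eq_norm]
    exact Real.lt_sqrt_of_sq_lt (hx l)
  have h1 := inter_of_rank (n := 3) (by norm_num) u (fun l => ι (v l)) (fun l => √(c l))
    (rank_of_card u _ (by omega))
    (fun l m => by rw [ι.dist_map]; exact huv l m) (fun l => Real.sqrt_nonneg _)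
  have hpos : 0 < volume (⋂ l, Metric.closedBall (u l) (√(c l))) := by
    have hsub : (⋂ l, Metric.ball (u l) (√(c l))) ⊆ ⋂ l, Metric.closedBall (u l) (√(c l)) :=
      iInter_mono fun l => Metric.ball_subset_closedBall
    have hopen : IsOpen (⋂ l, Metric.ball (u l) (√(c l))) :=
      isOpen_iInter_of_finite fun l => Metric.isOpen_ball
    have hne : (⋂ l, Metric.ball (u l) (√(c l))).Nonempty :=
      ⟨x, mem_iInter.mpr fun l => Metric.mem_ball.mpr (hxl l)⟩
    exact lt_of_lt_of_le (hopen.measure_pos volume hne) (measure_mono hsub)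
  have hne : (⋂ l, Metric.closedBall (ι (v l)) (√(c l))).Nonempty := by
    rw [Set.nonempty_iff_ne_empty]
    intro h0
    rw [h0, measure_empty] at h1
    exact absurd (lt_of_lt_of_le hpos h1) (lt_irrefl _)
  obtain ⟨y', hy'⟩ := hne
  refine ⟨LinearMap.adjoint ι.toLinearMap y', fun l => ?_⟩
  have h2 : dist y' (ι (v l)) ≤ √(c l) := Metric.mem_closedBall.mp (mem_iInter.mp hy' l)
  have h3 : LinearMap.adjoint ι.toLinearMap y' - v l =
      LinearMap.adjoint ι.toLinearMap (y' - ι (v l)) := by
    rw [map_sub]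
    congr 1
    refine ext_inner_left ℝ fun w => ?_
    rw [LinearMap.adjoint_inner_right]
    exact (ι.inner_map_map w (v l)).symm
  have h4 : ‖LinearMap.adjoint ι.toLinearMap y' - v l‖ ≤ ‖y' - ι (v l)‖ := by
    rw [h3]
    set z := y' - ι (v l) with hz
    set a := LinearMap.adjoint ι.toLinearMap z with ha
    have h5 : ‖a‖ ^ 2 ≤ ‖a‖ * ‖z‖ := by
      have h6 : inner ℝ a a = inner ℝ (ι a) z := by
        conv_lhs => rw [ha]
        rw [LinearMap.adjoint_inner_right]
        rfl
      have h7 : inner ℝ (ι a) z ≤ ‖ι a‖ * ‖z‖ := real_inner_le_norm _ _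
      rw [ι.norm_map] at h7
      rw [← real_inner_self_eq_norm_sq, h6]
      exact h7
    rcases eq_or_lt_of_le (norm_nonneg a) with h8 | h8
    · rw [← h8]; exact norm_nonneg _
    · nlinarith
  have h9 : ‖LinearMap.adjoint ι.toLinearMap y' - v l‖ ≤ √(c l) := by
    rw [dist_eq_norm] at h2
    exact h4.trans h2
  calc ‖LinearMap.adjoint ι.toLinearMap y' - v l‖ ^ 2 ≤ √(c l) ^ 2 :=
        pow_le_pow_left₀ (norm_nonneg _) h9 2
    _ = c l := Real.sq_sqrt (hc l).le

end Pool.Agent.KneserCone
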