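import Pool.Agent.KneserCone.Defs

/-!
# Integration over `η` in terms of `h`

PROOF. Both sides are iterated integrals over `t ∈ (0, 1)`, `w` and `η` resp. `h` (Tonelli,
`lintegral_prod`; `mu D` is a product measure, and `volume` on `XS D` is the product of the volumes,
for `t ∉ (0, 1)` the right side vanishes). For fixed `(t, w)`, with `H = HH a 0 w t`,
`∫⁻ η, g (t, (w, H + η ^ 2 + ε)) = ∫⁻ h in Ioi H, g (t, (w, h + ε)) * ofReal (1 / √(h - H))`
(`shift_inner` in `Pool/Agent/KneserRank/Shift.lean`, private there, copy it together with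
`shift_half`) and then translate `h` by `ε`. Measurability of `dens a ε` and `lft a ε`: all functions are
explicit (`Measurable.ite`, `fun_prop`).
-/

set_option autoImplicit false
set_option linter.unusedSectionVars false

namespace Pool.Agent.KneserCone

open MeasureTheory Set Filter Topology Module
open scoped ENNReal
open Pool.Agent.Kneser Pool.Agent.KneserRank Pool.Agent.KneserCentre

variable {D n : ℕ}

private theorem lift_meas_HH (a : Fin D → ℝ) :
    Measurable fun x : ℝ × (Fin D → ℝ) => HH a 0 x.2 x.1 := by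
  unfold HH ll
  fun_prop

private theorem lift_meas_om (a : Fin D → ℝ) : Measurable (om a) := by
  unfold om ll
  fun_prop

private theorem lift_om_nonneg (a : Fin D → ℝ) (t : ℝ) : 0 ≤ om a t := by
  unfold om
  positivity

private theorem lift_half {g : ℝ → ℝ≥0∞} (H : ℝ) {s : Set ℝ} (hs : MeasurableSet s)
    (hs0 : ∀ x ∈ s, x ≠ 0) (hinj : InjOn (fun x : ℝ => H + x ^ 2) s)
    (him : (fun x : ℝ => H + x ^ 2) '' s = Ioi H) :
    ∫⁻ h in Ioi H, g h * ENNReal.ofReal (1 / √(h - H)) =
      ∫⁻ x in s, 2 * g (H + x ^ 2) := by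
  have hd : ∀ x ∈ s, HasDerivWithinAt (fun x : ℝ => H + x ^ 2) (2 * x) s x := by
    intro x _
    have h1 : HasDerivAt (fun x : ℝ => H + x ^ 2) (2 * x) x := by
      simpa using ((hasDerivAt_id x).pow 2).const_add H
    exact h1.hasDerivWithinAt
  have h2 := lintegral_image_eq_lintegral_abs_deriv_mul hs hd hinj
    (fun h => g h * ENNReal.ofReal (1 / √(h - H)))
  rw [him] at h2
  rw [h2]
  refine setLIntegral_congr_fun hs fun x hx => ?_
  have hx0 := hs0 x hx
  have h3 : H + x ^ 2 - H = x ^ 2 := by ring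
  have h4 : ENNReal.ofReal |2 * x| * ENNReal.ofReal (1 / |x|) = 2 := by
    rw [← ENNReal.ofReal_mul (abs_nonneg _), abs_mul]
    have h5 : |(2 : ℝ)| * |x| * (1 / |x|) = 2 := by
      have : |x| ≠ 0 := abs_ne_zero.mpr hx0
      rw [abs_two]
      field_simp
    rw [h5]
    simp
  simp only [h3, Real.sqrt_sq_eq_abs]
  calc ENNReal.ofReal |2 * x| * (g (H + x ^ 2) * ENNReal.ofReal (1 / |x|))
      = (ENNReal.ofReal |2 * x| * ENNReal.ofReal (1 / |x|)) * g (H + x ^ 2) := by ring
    _ = 2 * g (H + x ^ 2) := by rw [h4]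

private theorem lift_inner {g : ℝ → ℝ≥0∞} (hg : Measurable g) (H : ℝ) :
    ∫⁻ η : ℝ, g (H + η ^ 2) = ∫⁻ h in Ioi H, g h * ENNReal.ofReal (1 / √(h - H)) := by
  have hp : ∫⁻ h in Ioi H, g h * ENNReal.ofReal (1 / √(h - H)) =
      ∫⁻ x in Ioi (0 : ℝ), 2 * g (H + x ^ 2) := by
    refine lift_half H measurableSet_Ioi (fun x hx => (mem_Ioi.mp hx).ne') ?_ ?_
    · intro x hx y hy hxy
      have hx' := mem_Ioi.mp hx
      have hy' := mem_Ioi.mp hy
      have h1 : x ^ 2 = y ^ 2 := by simpa using hxy
      nlinarith [sq_nonneg (x - y), sq_nonneg (x + y)]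
    · ext h
      simp only [mem_image, mem_Ioi]
      constructor
      · rintro ⟨x, hx, rfl⟩
        have : 0 < x ^ 2 := by positivity
        linarith
      · intro hh
        exact ⟨√(h - H), Real.sqrt_pos.mpr (by linarith),
          by rw [Real.sq_sqrt (by linarith)]; ring⟩
  have hn : ∫⁻ h in Ioi H, g h * ENNReal.ofReal (1 / √(h - H)) =
      ∫⁻ x in Iio (0 : ℝ), 2 * g (H + x ^ 2) := by
    refine lift_half H measurableSet_Iio (fun x hx => (mem_Iio.mp hx).ne) ?_ ?_
    · intro x hx y hy hxy
      have hx' := mem_Iio.mp hx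
      have hy' := mem_Iio.mp hy
      have h1 : x ^ 2 = y ^ 2 := by simpa using hxy
      nlinarith [sq_nonneg (x - y), sq_nonneg (x + y)]
    · ext h
      simp only [mem_image, mem_Ioi, mem_Iio]
      constructor
      · rintro ⟨x, hx, rfl⟩
        have : 0 < x ^ 2 := by nlinarith
        linarith
      · intro hh
        exact ⟨-√(h - H), by simpa using Real.sqrt_pos.mpr (by linarith : 0 < h - H),
          by rw [neg_sq, Real.sq_sqrt (by linarith)]; ring⟩
  have hgm : Measurable fun x : ℝ => g (H + x ^ 2) := hg.comp (by fun_prop)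
  have hsum : ∫⁻ η : ℝ, 2 * g (H + η ^ 2) =
      (∫⁻ x in Iio (0 : ℝ), 2 * g (H + x ^ 2)) + ∫⁻ x in Ioi (0 : ℝ), 2 * g (H + x ^ 2) := by
    rw [← lintegral_add_compl _ (measurableSet_Iio (a := (0 : ℝ))), compl_Iio,
      setLIntegral_congr (Ioi_ae_eq_Ici (a := (0 : ℝ)))]
  have h2 : (2 : ℝ≥0∞) * ∫⁻ η : ℝ, g (H + η ^ 2) =
      2 * ∫⁻ h in Ioi H, g h * ENNReal.ofReal (1 / √(h - H)) := by
    rw [← lintegral_const_mul _ hgm, hsum, ← hn, ← hp, two_mul]
  exact (ENNReal.mul_right_inj (by norm_num) (by norm_num)).mp h2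

theorem measurable_dens (a : Fin D → ℝ) (ε : ℝ) : Measurable (dens a ε) := by
  have hH : Measurable fun X : XS D => HH a 0 X.2.1 X.1 :=
    (lift_meas_HH a).comp (measurable_fst.prodMk (measurable_fst.comp measurable_snd))
  have hh : Measurable fun X : XS D => X.2.2 - ε :=
    (measurable_snd.comp measurable_snd).sub measurable_const
  have ho : Measurable fun X : XS D => om a X.1 := (lift_meas_om a).comp measurable_fst
  unfold dens
  refine ENNReal.measurable_ofReal.comp (Measurable.ite ?_ ?_ measurable_const)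
  · exact (measurable_fst measurableSet_Ioo).inter (measurableSet_lt hH hh)
  · exact ho.div (Real.continuous_sqrt.measurable.comp (hh.sub hH))

theorem measurable_lft (a : Fin D → ℝ) (ε : ℝ) : Measurable (lft a ε) := by
  have hH : Measurable fun X : XS D => HH a 0 X.2.1 X.1 :=
    (lift_meas_HH a).comp (measurable_fst.prodMk (measurable_fst.comp measurable_snd))
  unfold lft
  refine measurable_fst.prodMk ((measurable_fst.comp measurable_snd).prodMk ?_)
  exact (hH.add ((measurable_snd.comp measurable_snd).pow_const 2)).add measurable_const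

theorem lintegral_lft (a : Fin D → ℝ) {g : XS D → ℝ≥0∞} (hg : Measurable g) (ε : ℝ) :
    ∫⁻ x, ENNReal.ofReal (om a x.1) * g (lft a ε x) ∂(mu D) =
      ∫⁻ X : XS D, dens a ε X * g X := by
  have ho : Measurable fun X : XS D => ENNReal.ofReal (om a X.1) :=
    ENNReal.measurable_ofReal.comp ((lift_meas_om a).comp measurable_fst)
  have hm1 : Measurable fun x : XS D => ENNReal.ofReal (om a x.1) * g (lft a ε x) :=
    ho.mul (hg.comp (measurable_lft a ε))
  have hm2 : Measurable fun X : XS D => dens a ε X * g X := (measurable_dens a ε).mul hg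
  have hmt1 : ∀ t : ℝ, Measurable fun y : (Fin D → ℝ) × ℝ =>
      ENNReal.ofReal (om a t) * g (lft a ε (t, y)) := fun t => hm1.comp measurable_prodMk_left
  have hmt2 : ∀ t : ℝ, Measurable fun y : (Fin D → ℝ) × ℝ =>
      dens a ε (t, y) * g (t, y) := fun t => hm2.comp measurable_prodMk_left
  have e1 : ∫⁻ x, ENNReal.ofReal (om a x.1) * g (lft a ε x) ∂(mu D) =
      ∫⁻ t in Ioo (0 : ℝ) 1, ∫⁻ w : Fin D → ℝ, ∫⁻ η : ℝ,
        ENNReal.ofReal (om a t) * g (lft a ε (t, (w, η))) := by
    unfold mu
    rw [lintegral_prod _ hm1.aemeasurable]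
    refine lintegral_congr fun t => ?_
    rw [lintegral_prod _ (hmt1 t).aemeasurable]
  have e2 : ∫⁻ X : XS D, dens a ε X * g X =
      ∫⁻ t : ℝ, ∫⁻ w : Fin D → ℝ, ∫⁻ h : ℝ, dens a ε (t, (w, h)) * g (t, (w, h)) := by
    rw [Measure.volume_eq_prod, lintegral_prod _ hm2.aemeasurable]
    refine lintegral_congr fun t => ?_
    rw [Measure.volume_eq_prod, lintegral_prod _ (hmt2 t).aemeasurable]
  rw [e1, e2, ← lintegral_indicator measurableSet_Ioo]
  refine lintegral_congr fun t => ?_
  by_cases ht : t ∈ Ioo (0 : ℝ) 1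
  · rw [indicator_of_mem ht]
    refine lintegral_congr fun w => ?_
    set H : ℝ := HH a 0 w t with hHdef
    have hG : Measurable fun h : ℝ => g (t, (w, h + ε)) := by
      refine hg.comp (measurable_const.prodMk (measurable_const.prodMk ?_))
      exact measurable_id.add measurable_const
    have hGH : Measurable fun η : ℝ => g (t, (w, H + η ^ 2 + ε)) := by
      have : Measurable fun η : ℝ => H + η ^ 2 := by fun_prop
      exact hG.comp this
    have e3 : ∫⁻ η : ℝ, ENNReal.ofReal (om a t) * g (lft a ε (t, (w, η))) =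
        ENNReal.ofReal (om a t) * ∫⁻ η : ℝ, g (t, (w, H + η ^ 2 + ε)) := by
      rw [← lintegral_const_mul _ hGH]
      rfl
    rw [e3, lift_inner (g := fun h => g (t, (w, h + ε))) hG H]
    have hm3 : Measurable fun h : ℝ => g (t, (w, h + ε)) * ENNReal.ofReal (1 / √(h - H)) := by
      refine hG.mul (ENNReal.measurable_ofReal.comp ?_)
      exact measurable_const.div
        (Real.continuous_sqrt.measurable.comp (measurable_id.sub measurable_const))
    rw [← lintegral_const_mul _ hm3, ← lintegral_indicator measurableSet_Ioi]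
    have h4 := lintegral_add_right_eq_self (μ := (volume : Measure ℝ))
      (fun h => dens a ε (t, (w, h)) * g (t, (w, h))) ε
    rw [← h4]
    refine lintegral_congr fun h => ?_
    by_cases hh : H < h
    · rw [indicator_of_mem (mem_Ioi.mpr hh)]
      have h5 : dens a ε (t, (w, h + ε)) = ENNReal.ofReal (om a t / √(h - H)) := by
        unfold dens
        simp only [add_sub_cancel_right]
        rw [if_pos ⟨ht, hh⟩]
      rw [h5, div_eq_mul_one_div (om a t), ENNReal.ofReal_mul (lift_om_nonneg a t)]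
      ring
    · rw [indicator_of_notMem (by simpa using hh)]
      have h5 : dens a ε (t, (w, h + ε)) = 0 := by
        unfold dens
        simp only [add_sub_cancel_right]
        rw [if_neg (fun h6 => hh h6.2), ENNReal.ofReal_zero]
      rw [h5, zero_mul]
  · rw [indicator_of_notMem ht]
    have h5 : ∀ (w : Fin D → ℝ) (h : ℝ), dens a ε (t, (w, h)) = 0 := by
      intro w h
      unfold dens
      rw [if_neg (fun h6 => ht h6.1), ENNReal.ofReal_zero]
    simp only [h5, zero_mul, lintegral_zero]

end Pool.Agent.KneserCone
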