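import Pool.Agent.KneserCone.VBound

/-!
# The limits of the smoothed volumes

PROOF. For fixed `s`, and all `x` with `‖x - p l‖² ≠ c l - s` for all `l` (almost all, `ae_ne_sphere`),
`bG ((‖x - p l‖² + s - c l) / r) → 1` or `0` as `r → 0+` (`tendsto_bG_neg`, `tendsto_bG_pos`), so the
integrand tends to `φ (cnt2 ..)` (`continuous_mul`, `mul_indicator`; see `tendsto_smooth` in
`Pool/Agent/KneserRank/Weighted.lean`); dominated by the bound for `r ≤ 1` in `VBound`. Then dominated
convergence in `s ∈ [0, ε]` (`exists_VI_small`). `tendsto_V0`: for almost all `x`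
(`‖x - p l‖² ≠ c l`) the integrand is constant for small `s > 0`, and it is bounded by `CC` times the
indicator of a ball. `V0_le_of_int`: if `V0 p φ c 0 < V0 q φ c 0` then `V0 p φ c s - V0 q φ c s ≤ -κ < 0`
for `0 < s ≤ ε` by `tendsto_V0`, so the integral over `[0, ε]` is negative (`V0` is bounded and
measurable in `s`: the function `(s, x) ↦ φ (cnt2 ..)` is measurable).
-/

set_option autoImplicit false
set_option linter.unusedSectionVars false

namespace Pool.Agent.KneserCone

open MeasureTheory Set Filter Topology Module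
open scoped ENNReal
open Pool.Agent.Kneser Pool.Agent.KneserRank Pool.Agent.KneserCentre

variable {D n : ℕ}

variable {E : Type*} [NormedAddCommGroup E] [InnerProductSpace ℝ E] [FiniteDimensional ℝ E]
  [MeasurableSpace E] [BorelSpace E]

private theorem cnt2_eq_LimV (p : Fin n → E) (φ : ℕ → ℝ) (c : Fin n → ℝ) (x : E) :
    φ (cnt2 p c x) = mul φ (fun l => if l ∈ Finset.univ.filter (fun i => ‖x - p i‖ ^ 2 ≤ c i)
      then (1 : ℝ) else 0) := by
  rw [mul_indicator φ]
  rfl

private theorem abs_cnt_LimV (p : Fin n → E) {φ : ℕ → ℝ} (hφ0 : φ 0 = 0) (c : Fin n → ℝ)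
    {s : ℝ} (hs : 0 ≤ s) (x : E) :
    ‖φ (cnt2 p (fun l => c l - s) x)‖ ≤ CC n φ * ∑ l, Real.exp (-‖x - p l‖ ^ 2 + c l) := by
  rw [cnt2_eq_LimV p φ, Real.norm_eq_abs]
  refine (abs_mul_le_sum hφ0 (fun l => ?_) (fun l => ?_)).trans ?_
  · split_ifs <;> norm_num
  · split_ifs <;> norm_num
  · refine mul_le_mul_of_nonneg_left (Finset.sum_le_sum fun l _ => ?_) (CC_nonneg n φ)
    split_ifs with h
    · have h1 := (Finset.mem_filter.1 h).2
      exact Real.one_le_exp (by linarith)
    · exact (Real.exp_pos _).le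

private theorem integrable_bd_LimV (p : Fin n → E) (φ : ℕ → ℝ) (c : Fin n → ℝ) :
    Integrable (fun x : E => CC n φ * ∑ l, Real.exp (-‖x - p l‖ ^ 2 + c l)) :=
  (integrable_finsetSum _ fun l _ => integrable_exp_norm (p l) (c l)).const_mul _

private theorem measurable_LimV (p : Fin n → E) (φ : ℕ → ℝ) (c : Fin n → ℝ) :
    Measurable (fun y : ℝ × E => φ (cnt2 p (fun l => c l - y.1) y.2)) := by
  have h : (fun y : ℝ × E => cnt2 p (fun l => c l - y.1) y.2) =
      fun y => ∑ i, if ‖y.2 - p i‖ ^ 2 ≤ c i - y.1 then 1 else 0 := by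
    funext y
    unfold cnt2
    rw [Finset.card_filter]
  have h1 : Measurable (fun y : ℝ × E => cnt2 p (fun l => c l - y.1) y.2) := by
    rw [h]
    refine Finset.measurable_sum _ fun i _ => ?_
    refine Measurable.ite (measurableSet_le ?_ ?_) measurable_const measurable_const
    · have h2 : Measurable fun x : E => ‖x - p i‖ ^ 2 :=
        ((continuous_id.sub continuous_const).norm.pow 2).measurable
      exact h2.comp measurable_snd
    · exact measurable_const.sub measurable_fst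
  exact (measurable_from_top (f := φ)).comp h1

private theorem tendsto_VI_LimV [Nontrivial E] (p : Fin n → E) {φ : ℕ → ℝ} (hφ0 : φ 0 = 0)
    (c : Fin n → ℝ) (s : ℝ) :
    Tendsto (fun r => VI p φ c r s) (𝓝[>] 0) (𝓝 (V0 p φ c s)) := by
  unfold VI V0
  refine tendsto_integral_filter_of_dominated_convergence
    (bound := fun x => CC n φ * ∑ l, Real.exp (-‖x - p l‖ ^ 2 + (c l - s))) ?_ ?_ ?_ ?_
  · refine Eventually.of_forall fun r => ?_
    refine Continuous.aestronglyMeasurable ?_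
    refine (continuous_mul φ).comp (continuous_pi fun l => continuous_bG.comp ?_)
    fun_prop
  · have h1 : Ioc (0 : ℝ) 1 ∈ 𝓝[>] (0 : ℝ) := Ioc_mem_nhdsGT one_pos
    filter_upwards [h1] with r hr
    refine Eventually.of_forall fun x => ?_
    rw [Real.norm_eq_abs]
    refine (abs_mul_le_sum hφ0 (fun l => bG_nonneg _) fun l => bG_le_one _).trans ?_
    refine mul_le_mul_of_nonneg_left (Finset.sum_le_sum fun l _ => ?_) (CC_nonneg n φ)
    refine (bG_le_exp_max _).trans ?_
    rw [Real.exp_le_exp]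
    set v := ‖x - p l‖ ^ 2 + s - c l with hv
    have h2 : v ≤ max (v / r) 0 := by
      rcases le_or_gt v 0 with h | h
      · exact h.trans (le_max_right _ _)
      · refine le_trans ?_ (le_max_left _ _)
        rw [le_div_iff₀ hr.1]
        nlinarith [hr.2]
    linarith
  · exact integrable_bd_LimV p φ (fun l => c l - s)
  · have hne : ∀ᵐ x : E, ∀ l, ‖x - p l‖ ^ 2 ≠ c l - s :=
      ae_all_iff.2 fun l => ae_ne_sphere (p l) (c l - s)
    filter_upwards [hne] with x hx
    rw [cnt2_eq_LimV p φ]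
    refine ((continuous_mul φ).tendsto _).comp (tendsto_pi_nhds.mpr fun l => ?_)
    rcases lt_or_gt_of_ne (hx l) with h | h
    · have hm : l ∈ Finset.univ.filter (fun i => ‖x - p i‖ ^ 2 ≤ c i - s) :=
        Finset.mem_filter.2 ⟨Finset.mem_univ l, h.le⟩
      rw [if_pos hm]
      exact tendsto_bG_neg (by linarith)
    · have hm : l ∉ Finset.univ.filter (fun i => ‖x - p i‖ ^ 2 ≤ c i - s) :=
        fun hh => absurd (Finset.mem_filter.1 hh).2 (not_le.2 h)
      rw [if_neg hm]
      exact tendsto_bG_pos (by linarith)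

private theorem abs_V0_LimV (p : Fin n → E) {φ : ℕ → ℝ} (hφ0 : φ 0 = 0) (c : Fin n → ℝ)
    {s : ℝ} (hs : 0 ≤ s) :
    ‖V0 p φ c s‖ ≤ ∫ x : E, CC n φ * ∑ l, Real.exp (-‖x - p l‖ ^ 2 + c l) :=
  norm_integral_le_of_norm_le (integrable_bd_LimV p φ c)
    (Eventually.of_forall fun x => abs_cnt_LimV p hφ0 c hs x)

private theorem measurable_V0_LimV (p : Fin n → E) (φ : ℕ → ℝ) (c : Fin n → ℝ) :
    StronglyMeasurable (V0 p φ c) := by
  have h := (measurable_LimV p φ c).stronglyMeasurable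
  exact h.integral_prod_right'

theorem tendsto_int_VI [Nontrivial E] (p : Fin n → E) {φ : ℕ → ℝ} (hφ0 : φ 0 = 0)
    (c : Fin n → ℝ) {ε : ℝ} (hε : 0 ≤ ε) :
    Tendsto (fun r => ∫ s in (0 : ℝ)..ε, VI p φ c r s) (𝓝[>] 0)
      (𝓝 (∫ s in (0 : ℝ)..ε, V0 p φ c s)) := by
  obtain ⟨C, hC, h⟩ := exists_VI_small p hφ0 (∑ l, |c l|)
  have hc : ∀ l, |c l| ≤ ∑ l, |c l| := fun l =>
    Finset.single_le_sum (f := fun l => |c l|) (fun l _ => abs_nonneg _) (Finset.mem_univ l)
  refine intervalIntegral.tendsto_integral_filter_of_dominated_convergence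
    (bound := fun _ => C) ?_ ?_ ?_ ?_
  · refine Eventually.of_forall fun r => ?_
    exact ((measurable_VI p φ c).measurable.comp
      (measurable_const.prodMk measurable_id)).aestronglyMeasurable
  · have h1 : Ioc (0 : ℝ) 1 ∈ 𝓝[>] (0 : ℝ) := Ioc_mem_nhdsGT one_pos
    filter_upwards [h1] with r hr
    refine Eventually.of_forall fun s hs => ?_
    rw [uIoc_of_le hε] at hs
    rw [Real.norm_eq_abs]
    refine (h c hc r hr.1 hr.2 s).trans ?_
    exact mul_le_of_le_one_right hC (Real.exp_le_one_iff.2 (by linarith [hs.1]))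
  · exact intervalIntegrable_const
  · exact Eventually.of_forall fun s _ => tendsto_VI_LimV p hφ0 c s

theorem tendsto_V0 [Nontrivial E] (p : Fin n → E) {φ : ℕ → ℝ} (hφ0 : φ 0 = 0) (c : Fin n → ℝ) :
    Tendsto (V0 p φ c) (𝓝[>] 0) (𝓝 (V0 p φ c 0)) := by
  unfold V0
  refine tendsto_integral_filter_of_dominated_convergence
    (bound := fun x => CC n φ * ∑ l, Real.exp (-‖x - p l‖ ^ 2 + c l)) ?_ ?_ ?_ ?_
  · refine Eventually.of_forall fun s => ?_
    exact ((measurable_LimV p φ c).comp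
      (measurable_const.prodMk measurable_id)).aestronglyMeasurable
  · filter_upwards [self_mem_nhdsWithin] with s hs
    exact Eventually.of_forall fun x => abs_cnt_LimV p hφ0 c (le_of_lt hs) x
  · exact integrable_bd_LimV p φ c
  · have hne : ∀ᵐ x : E, ∀ l, ‖x - p l‖ ^ 2 ≠ c l :=
      ae_all_iff.2 fun l => ae_ne_sphere (p l) (c l)
    filter_upwards [hne] with x hx
    refine tendsto_const_nhds.congr' ?_
    have h1 : ∀ l, ∀ᶠ s : ℝ in 𝓝[>] 0, (‖x - p l‖ ^ 2 ≤ c l - s ↔ ‖x - p l‖ ^ 2 ≤ c l - 0) := by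
      intro l
      rcases lt_or_gt_of_ne (hx l) with h | h
      · have h2 : Iio (c l - ‖x - p l‖ ^ 2) ∈ 𝓝 (0 : ℝ) := Iio_mem_nhds (by linarith)
        filter_upwards [mem_nhdsWithin_of_mem_nhds h2] with s hs
        have hs' : s < c l - ‖x - p l‖ ^ 2 := hs
        constructor <;> intro _ <;> linarith
      · filter_upwards [self_mem_nhdsWithin] with s hs
        have hs' : 0 < s := hs
        constructor <;> intro _ <;> linarith
    filter_upwards [eventually_all.2 h1] with s hs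
    unfold cnt2
    congr 2
    exact Finset.filter_congr fun i _ => (hs i).symm

theorem intervalIntegrable_V0 (p : Fin n → E) {φ : ℕ → ℝ} (hφ0 : φ 0 = 0)
    (c : Fin n → ℝ) {ε : ℝ} (hε : 0 ≤ ε) : IntervalIntegrable (V0 p φ c) volume 0 ε := by
  rw [intervalIntegrable_iff_integrableOn_Ioc_of_le hε]
  refine Measure.integrableOn_of_bounded
    (M := ∫ x : E, CC n φ * ∑ l, Real.exp (-‖x - p l‖ ^ 2 + c l)) (by simp)
    (measurable_V0_LimV p φ c).aestronglyMeasurable ?_
  exact (ae_restrict_iff' measurableSet_Ioc).2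
    (Eventually.of_forall fun s hs => abs_V0_LimV p hφ0 c hs.1.le)

theorem V0_le_of_int [Nontrivial E] (p q : Fin n → E) {φ : ℕ → ℝ} (hφ0 : φ 0 = 0)
    (c : Fin n → ℝ)
    (h : ∀ ε : ℝ, 0 < ε → 0 ≤ ∫ s in (0 : ℝ)..ε, (V0 p φ c s - V0 q φ c s)) :
    V0 q φ c 0 ≤ V0 p φ c 0 := by
  by_contra hcon
  rw [not_le] at hcon
  set κ := (V0 q φ c 0 - V0 p φ c 0) / 2 with hκ
  have hκ0 : 0 < κ := by rw [hκ]; linarith
  have h1 := (tendsto_V0 p hφ0 c).sub (tendsto_V0 q hφ0 c)
  have h2 : ∀ᶠ s : ℝ in 𝓝[>] 0, V0 p φ c s - V0 q φ c s < -κ :=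
    h1.eventually (gt_mem_nhds (by linarith))
  obtain ⟨δ, hδ, h3⟩ := mem_nhdsGT_iff_exists_Ioo_subset.1 h2
  have hδ0 : (0 : ℝ) < δ := hδ
  have h4 := h (δ / 2) (by linarith)
  have h5 : ∫ s in (0 : ℝ)..(δ / 2), (V0 p φ c s - V0 q φ c s) ≤
      ∫ _s in (0 : ℝ)..(δ / 2), (-κ) := by
    refine intervalIntegral.integral_mono_on (by linarith)
      ((intervalIntegrable_V0 p hφ0 c (by linarith)).sub
        (intervalIntegrable_V0 q hφ0 c (by linarith))) intervalIntegrable_const fun s hs => ?_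
    rcases hs.1.eq_or_lt with h0 | h0
    · rw [← h0]
      linarith
    · exact le_of_lt (h3 ⟨h0, by linarith [hs.2]⟩)
  rw [intervalIntegral.integral_const, smul_eq_mul] at h5
  have h6 : 0 < (δ / 2 - 0) * κ := by
    have : 0 < δ / 2 - 0 := by linarith
    positivity
  nlinarith

end Pool.Agent.KneserCone
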