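import Pool.Agent.KneserCone.LowOne
import Pool.Agent.KneserCone.Scale

/-!
# Local configurations of low rank

PROOF. Put `z' l = if l ∈ L then z l else z i`, `p' l = if l ∈ L then p l else p i`, `q'` similarly.
By `gd_congr` the left and right sides do not change if `z` is replaced by `z'` (`ya a z x l` only
depends on `z l`). The set of the vectors `(1, p' l, q' l, ‖p' l‖² - ‖q' l‖²)` is the image of `L`
(`i ∈ L`), and multiplying `p'`, `q'` by `σ = (√r)⁻¹` applies the linear map
`(x, u, v, y) ↦ (x, σ u, σ v, σ² y)`, which does not increase the rank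
(`Submodule.finrank_map_le`). So `pos_of_rank` gives `Pos (finrank E)` for `σ p'`, `σ q'`, whose
squared distances are `∑ a k ((z' l k - z' m k) / √r)²` etc. Now `GI_scale` and `low_one` with
`z' / √r`, `c / r`, `ε / r`.
-/

set_option autoImplicit false
set_option linter.unusedSectionVars false

namespace Pool.Agent.KneserCone

open MeasureTheory Set Filter Topology Module
open scoped ENNReal
open Pool.Agent.Kneser Pool.Agent.KneserRank Pool.Agent.KneserCentre

variable {D n : ℕ}

variable {E : Type*} [NormedAddCommGroup E] [InnerProductSpace ℝ E] [FiniteDimensional ℝ E]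
  [MeasurableSpace E] [BorelSpace E]

theorem low_le {a : Fin D → ℝ} (ha : Pencil a) (hD : D = finrank ℝ E + 3) (p q : Fin n → E)
    (z : Fin n → Fin D → ℝ) (hp : ∀ i j, ‖p i - p j‖ ^ 2 = ∑ k, a k * (z i k - z j k) ^ 2)
    (hq : ∀ i j, ‖q i - q j‖ ^ 2 = ∑ k, (1 - a k) * (z i k - z j k) ^ 2) {φ : ℕ → ℝ}
    (hφ0 : φ 0 = 0) (hφ : ∀ k, φ (k + 2) - 2 * φ (k + 1) + φ k ≤ 0) {L : Finset (Fin n)}
    {i j : Fin n} (hij : i ≠ j) (hi : i ∈ L) (hj : j ∈ L)
    (hrank : finrank ℝ (Submodule.span ℝ ((fun k : Fin n =>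
      ((1 : ℝ), p k, q k, ‖p k‖ ^ 2 - ‖q k‖ ^ 2)) '' (L : Set (Fin n)))) ≤ finrank ℝ E + 4)
    (c : Fin n → ℝ) {r : ℝ} (hr : 0 < r) {ε : ℝ} (hε : 0 ≤ ε) :
    GI a z φ L i j c r ε ≤ GI a z φ L i j c r 0 := by
  classical
  set s : Fin n → Fin n := fun l => if l ∈ L then l else i with hs
  have hsL : ∀ l, s l ∈ L := by
    intro l
    by_cases h : l ∈ L
    · simp only [hs, if_pos h, h]
    · simp only [hs, if_neg h, hi]
  have hse : ∀ l ∈ L, s l = l := fun l hl => by simp only [hs, if_pos hl]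
  -- the integrals do not change
  have hcongr : ∀ δ : ℝ, GI a z φ L i j c r δ = GI a (fun l => z (s l)) φ L i j c r δ := by
    intro δ
    unfold GI
    refine integral_congr_ae (Filter.Eventually.of_forall fun x => ?_)
    have h1 : gd φ L i j c r (fun l => ya a z x l + δ) =
        gd φ L i j c r (fun l => ya a (fun l => z (s l)) x l + δ) := by
      refine gd_congr φ L hi hj (fun _ _ => rfl) r fun l hl => ?_
      simp only [ya, LL, zet, hse l hl]
    simp only [h1]
  rw [hcongr ε, hcongr 0, GI_scale a _ φ L i j c hr ε, GI_scale a _ φ L i j c hr 0, zero_div]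
  refine mul_le_mul_of_nonneg_left ?_ (Real.rpow_nonneg hr.le _)
  have hσ : (√r) ^ 2 = r := Real.sq_sqrt hr.le
  have hσ0 : 0 < √r := Real.sqrt_pos.mpr hr
  refine low_one hD ha _ ?_ hφ0 hφ hij hi hj _ (div_nonneg hε hr.le)
  set σ : ℝ := (√r)⁻¹ with hσd
  have hpos := pos_of_rank (fun l => σ • p (s l)) (fun l => σ • q (s l)) ?_
  · have e1 : (fun i j : Fin n => ‖σ • p (s i) - σ • p (s j)‖ ^ 2) =
        fun i j => ∑ k, a k * (z (s i) k / √r - z (s j) k / √r) ^ 2 := by
      funext x y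
      rw [← smul_sub, norm_smul, mul_pow, hp, Finset.mul_sum]
      refine Finset.sum_congr rfl fun k _ => ?_
      rw [Real.norm_eq_abs, sq_abs, hσd]
      field_simp
    have e2 : (fun i j : Fin n => ‖σ • q (s i) - σ • q (s j)‖ ^ 2) =
        fun i j => ∑ k, (1 - a k) * (z (s i) k / √r - z (s j) k / √r) ^ 2 := by
      funext x y
      rw [← smul_sub, norm_smul, mul_pow, hq, Finset.mul_sum]
      refine Finset.sum_congr rfl fun k _ => ?_
      rw [Real.norm_eq_abs, sq_abs, hσd]
      field_simp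
    rw [← e1, ← e2]
    exact hpos
  · refine le_trans ?_ hrank
    set f : ℝ × E × E × ℝ →ₗ[ℝ] ℝ × E × E × ℝ :=
      LinearMap.prodMap LinearMap.id (LinearMap.prodMap (σ • LinearMap.id)
        (LinearMap.prodMap (σ • LinearMap.id) ((σ ^ 2) • LinearMap.id))) with hf
    set V : Fin n → ℝ × E × E × ℝ := fun k => ((1 : ℝ), p k, q k, ‖p k‖ ^ 2 - ‖q k‖ ^ 2) with hV
    have hle : Submodule.span ℝ (Set.range fun l : Fin n => ((1 : ℝ), σ • p (s l), σ • q (s l),
        ‖σ • p (s l)‖ ^ 2 - ‖σ • q (s l)‖ ^ 2)) ≤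
        (Submodule.span ℝ (V '' (L : Set (Fin n)))).map f := by
      refine Submodule.span_le.mpr ?_
      rintro _ ⟨l, rfl⟩
      refine ⟨V (s l), Submodule.subset_span ⟨s l, hsL l, rfl⟩, ?_⟩
      simp only [hf, hV, LinearMap.prodMap_apply, LinearMap.id_apply, LinearMap.smul_apply,
        norm_smul, mul_pow, Real.norm_eq_abs, sq_abs, smul_eq_mul, mul_sub]
    exact (Submodule.finrank_mono hle).trans (Submodule.finrank_map_le f _)

end Pool.Agent.KneserCone
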