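import Pool.Agent.KneserCone.PolyGI

/-!
# Local configurations of low rank, scale one

PROOF. By `tendsto_GI_one` (twice, `ε` and `0`) it is enough to show
`∫ om * pg (ya + ε) ≤ ∫ om * pg (ya)` for all large `M`. With `T = (idx (Fin n) N).erase 0`,
`C k = -coef φ (AL L c M) k * (k i * k j)`, `pg φ L c M i j y = ∑ k ∈ T, C k * ee k y`
(`mix_sum_expand`, `coef_zero`) and it is `≥ 0` for `y ≥ 0` (`pg_nonneg`). By `integral_trip`
(`K = tot k`, `I k` the integral over `t`)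
`∫ om * pg (ya) - ∫ om * pg (ya + ε) = ∑ k ∈ T, C k (1 - exp (-K ε)) 2 ^ D (π / K) ^ ((D+1)/2) I k
= 2 ^ D π ^ ((D+1)/2) ∫ s in 0..ε, ∑ k ∈ T, (C k exp (-K s)) K ^ (-(d/2 + 1)) I k`
(`(D + 1) / 2 = d / 2 + 2`, `(1 - exp (-K ε)) / K = ∫ s in 0..ε, exp (-K s)`), and for every
`s ≥ 0` the sum is `≥ 0` by `H`, applied to the coefficients `C k exp (-K s)`:
`∑ k ∈ T, C k exp (-K s) ee k y = pg φ L c M i j (y + s) ≥ 0`.
-/

set_option autoImplicit false
set_option linter.unusedSectionVars false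

namespace Pool.Agent.KneserCone

open MeasureTheory Set Filter Topology Module
open scoped ENNReal
open Pool.Agent.Kneser Pool.Agent.KneserRank Pool.Agent.KneserCentre

variable {D n : ℕ}

private theorem lo_ee_shift (k : Fin n → ℕ) (y : Fin n → ℝ) (ε : ℝ) :
    ee k (fun i => y i + ε) = Real.exp (-(tot k * ε)) * ee k y := by
  unfold ee tot
  rw [← Real.exp_add]
  congr 1
  rw [Finset.sum_mul, ← neg_add, ← Finset.sum_add_distrib]
  congr 1
  refine Finset.sum_congr rfl fun i _ => ?_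
  ring

private theorem lo_exp_int {K : ℝ} (hK : 0 < K) (ε : ℝ) :
    K * ∫ s in (0 : ℝ)..ε, Real.exp (-(K * s)) = 1 - Real.exp (-(K * ε)) := by
  have h1 : ∀ s ∈ Set.uIcc (0 : ℝ) ε,
      HasDerivAt (fun s : ℝ => -(Real.exp (-(K * s)) / K)) (Real.exp (-(K * s))) s := by
    intro s _
    have h2 : HasDerivAt (fun s : ℝ => -(K * s)) (-(K * 1)) s :=
      ((hasDerivAt_id s).const_mul K).neg
    have h3 := (h2.exp.div_const K).neg
    have h4 : -(Real.exp (-(K * s)) * -(K * 1) / K) = Real.exp (-(K * s)) := by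
      field_simp
    rw [h4] at h3
    exact h3
  rw [intervalIntegral.integral_eq_sub_of_hasDerivAt h1
    (Continuous.intervalIntegrable (by fun_prop) _ _)]
  rw [mul_zero, neg_zero, Real.exp_zero]
  field_simp
  ring

private theorem lo_shift {d : ℕ} (hD : D = d + 3) {a : Fin D → ℝ} (ha : Pencil a)
    (z : Fin n → Fin D → ℝ)
    (H : Pos d (fun i j => ∑ k, a k * (z i k - z j k) ^ 2)
      (fun i j => ∑ k, (1 - a k) * (z i k - z j k) ^ 2)) (T : Finset (Fin n → ℕ))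
    (C : (Fin n → ℕ) → ℝ) (hT : ∀ k ∈ T, k ≠ 0)
    (hG : ∀ y : Fin n → ℝ, (∀ i, 0 ≤ y i) → 0 ≤ ∑ k ∈ T, C k * ee k y) {ε : ℝ} (hε : 0 ≤ ε) :
    ∫ x, om a x.1 * ∑ k ∈ T, C k * ee k (fun i => ya a z x i + ε) ∂(mu D) ≤
      ∫ x, om a x.1 * ∑ k ∈ T, C k * ee k (fun i => ya a z x i + 0) ∂(mu D) := by
  set I : (Fin n → ℕ) → ℝ := fun k => ∫ t in (0 : ℝ)..1,
    Real.exp (-((t * quad k (fun i j => ∑ m, a m * (z i m - z j m) ^ 2) +
          (1 - t) * quad k (fun i j => ∑ m, (1 - a m) * (z i m - z j m) ^ 2)) / tot k)) with hI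
  set J : (Fin n → ℕ) → ℝ := fun k => ∫ x, om a x.1 * ee k (ya a z x) ∂(mu D) with hJ
  have hJ1 : ∀ k ∈ T, J k = 2 ^ D * (Real.pi / tot k) ^ (((D : ℝ) + 1) / 2) * I k :=
    fun k hk => integral_trip ha z (hT k hk)
  have key : ∀ ε : ℝ, ∫ x, om a x.1 * ∑ k ∈ T, C k * ee k (fun i => ya a z x i + ε) ∂(mu D) =
      ∑ k ∈ T, C k * Real.exp (-(tot k * ε)) * J k := by
    intro ε
    have h1 : ∀ x : XS D,
        om a x.1 * ∑ k ∈ T, C k * ee k (fun i => ya a z x i + ε) =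
        ∑ k ∈ T, (C k * Real.exp (-(tot k * ε))) * (om a x.1 * ee k (ya a z x)) := by
      intro x
      simp only [lo_ee_shift, Finset.mul_sum]
      refine Finset.sum_congr rfl (fun k _ => ?_)
      have : ee k (ya a z x) = ee k (fun i => ya a z x i) := rfl
      rw [this]
      ring
    simp only [h1]
    rw [integral_finsetSum T
      (fun k hk => (integrable_trip ha z (hT k hk)).const_mul _)]
    refine Finset.sum_congr rfl (fun k _ => ?_)
    rw [integral_const_mul]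
  set c : ℝ := 2 ^ D * Real.pi ^ ((d : ℝ) / 2 + 2) with hc'
  have hc : (0 : ℝ) < c := by
    have := Real.pi_pos
    positivity
  have hKJ : ∀ k ∈ T, tot k * J k = c * (tot k ^ (-((d : ℝ) / 2 + 1)) * I k) := by
    intro k hk
    have hK := tot_pos (hT k hk)
    rw [hJ1 k hk]
    have hexp : ((D : ℝ) + 1) / 2 = (d : ℝ) / 2 + 2 := by
      rw [hD]; push_cast; ring
    rw [hexp, Real.div_rpow Real.pi_pos.le hK.le]
    have h1 : tot k ^ (-((d : ℝ) / 2 + 1)) = tot k / tot k ^ ((d : ℝ) / 2 + 2) := by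
      have h2 : (-((d : ℝ) / 2 + 1)) = 1 - ((d : ℝ) / 2 + 2) := by ring
      rw [h2, Real.rpow_sub hK, Real.rpow_one]
    rw [h1, hc']
    field_simp
  rw [key ε, key 0, ← sub_nonneg, ← Finset.sum_sub_distrib]
  have h5 : ∑ k ∈ T, (C k * Real.exp (-(tot k * 0)) * J k -
      C k * Real.exp (-(tot k * ε)) * J k) =
      ∫ s in (0 : ℝ)..ε, c * ∑ k ∈ T, (C k * Real.exp (-(tot k * s))) *
        (tot k ^ (-((d : ℝ) / 2 + 1)) * I k) := by
    rw [intervalIntegral.integral_const_mul, intervalIntegral.integral_finsetSum]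
    · rw [Finset.mul_sum]
      refine Finset.sum_congr rfl fun k hk => ?_
      have hK := tot_pos (hT k hk)
      rw [intervalIntegral.integral_mul_const, intervalIntegral.integral_const_mul]
      have h6 := lo_exp_int hK ε
      rw [mul_zero, neg_zero, Real.exp_zero]
      have h7 : C k * 1 * J k - C k * Real.exp (-(tot k * ε)) * J k =
          C k * J k * (1 - Real.exp (-(tot k * ε))) := by ring
      rw [h7, ← h6]
      have h8 := hKJ k hk
      linear_combination (C k * ∫ s in (0 : ℝ)..ε, Real.exp (-(tot k * s))) * h8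
    · intro k _
      exact Continuous.intervalIntegrable (by fun_prop) _ _
  rw [h5]
  refine intervalIntegral.integral_nonneg hε fun s hs => ?_
  refine mul_nonneg hc.le ?_
  refine H T (fun k => C k * Real.exp (-(tot k * s))) hT ?_
  intro y hy
  have h9 := hG (fun i => y i + s) (fun i => add_nonneg (hy i) hs.1)
  have h10 : ∑ k ∈ T, C k * Real.exp (-(tot k * s)) * ee k y =
      ∑ k ∈ T, C k * ee k (fun i => y i + s) := by
    refine Finset.sum_congr rfl fun k _ => ?_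
    rw [lo_ee_shift]
    ring
  rw [h10]
  exact h9

theorem low_one {d : ℕ} (hD : D = d + 3) {a : Fin D → ℝ} (ha : Pencil a) (z : Fin n → Fin D → ℝ)
    (H : Pos d (fun i j => ∑ k, a k * (z i k - z j k) ^ 2)
      (fun i j => ∑ k, (1 - a k) * (z i k - z j k) ^ 2)) {φ : ℕ → ℝ}
    (hφ0 : φ 0 = 0) (hφ : ∀ k, φ (k + 2) - 2 * φ (k + 1) + φ k ≤ 0) {L : Finset (Fin n)}
    {i j : Fin n} (hij : i ≠ j) (hi : i ∈ L) (hj : j ∈ L) (c : Fin n → ℝ) {ε : ℝ} (hε : 0 ≤ ε) :
    GI a z φ L i j c 1 ε ≤ GI a z φ L i j c 1 0 := by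
  have t1 := tendsto_GI_one ha z φ L hij hi hj c hε
  have t0 := tendsto_GI_one ha z φ L hij hi hj c (le_refl (0 : ℝ))
  refine le_of_tendsto_of_tendsto t1 t0 ?_
  obtain ⟨M₀, hM₀⟩ : ∃ M₀ : ℕ, ∀ l, Real.exp (c l) ≤ M₀ := by
    obtain ⟨M₀, hM₀⟩ := exists_nat_ge (∑ l, Real.exp (c l))
    refine ⟨M₀, fun l => le_trans ?_ hM₀⟩
    exact Finset.single_le_sum (f := fun l => Real.exp (c l)) (fun _ _ => (Real.exp_pos _).le)
      (Finset.mem_univ l)
  filter_upwards [eventually_ge_atTop M₀] with M hM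
  have hM' : ∀ l, Real.exp (c l) ≤ M := fun l => (hM₀ l).trans (by exact_mod_cast hM)
  obtain ⟨N, hN0, hN⟩ : ∃ N : ℕ, 0 < N ∧ ∀ l, (AL L c M l).natDegree < N := by
    refine ⟨(∑ l, (AL L c M l).natDegree) + 1, Nat.succ_pos _, fun l => ?_⟩
    have := Finset.single_le_sum (f := fun l => (AL L c M l).natDegree)
      (fun _ _ => Nat.zero_le _) (Finset.mem_univ l)
    exact Nat.lt_succ_of_le this
  set T : Finset (Fin n → ℕ) := (idx (Fin n) N).erase 0 with hT
  have hTne : ∀ k ∈ T, k ≠ 0 := fun k hk => (Finset.mem_erase.mp hk).1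
  have hzero : coef φ (AL L c M) 0 = 0 := coef_zero hφ0 (AL_coeff_zero L c M)
  have hpg : ∀ y : Fin n → ℝ, pg φ L c M i j y =
      ∑ k ∈ T, (-(coef φ (AL L c M) k * ((k i : ℝ) * (k j : ℝ)))) * ee k y := by
    intro y
    unfold pg
    rw [mix_sum_expand φ hN hN0 hij y]
    have h1 : ∑ k ∈ idx (Fin n) N,
        coef φ (AL L c M) k * (((k i : ℝ) * (k j : ℝ)) * ee k y) =
        ∑ k ∈ T, coef φ (AL L c M) k * (((k i : ℝ) * (k j : ℝ)) * ee k y) := by
      rw [hT]
      refine (Finset.sum_erase _ ?_).symm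
      rw [hzero, zero_mul]
    rw [h1, ← Finset.sum_neg_distrib]
    refine Finset.sum_congr rfl fun k _ => ?_
    ring
  have h2 := lo_shift hD ha z H T
    (fun k => -(coef φ (AL L c M) k * ((k i : ℝ) * (k j : ℝ)))) hTne
    (fun y hy => by
      rw [← hpg y]
      exact pg_nonneg hφ L c hM' hij hy) hε
  simp only [hpg]
  exact h2

end Pool.Agent.KneserCone
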