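import Pool.Agent.KneserCone.Coord2

/-!
# The local dichotomy

PROOF. Write `p k = x₀ + P (z k)`, `q k = y₀ + Q (z k)`. The linear map
`(s, v, α, β) ↦ (s, s x₀ + P v, s y₀ + Q v, α, β)` from `ℝ × (Fin D → ℝ) × ℝ × ℝ` is injective
(`‖P v‖² + ‖Q v‖² = ∑ v k ^ 2`) and maps `u k = (1, z k, ‖p k‖² - c k, ‖q k‖² - c k)` to the given
vectors, so the span of the `u k`, `k ∈ L`, has dimension `≤ finrank E + 5 = D + 2 < D + 3`; there is a
nonzero functional `F (s, v, α, β) = s f + ∑ v k g k + α γ + β δ` vanishing on all `u k`, `k ∈ L`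
(`Submodule.exists_le_ker_of_lt_top`). `‖p k‖² = ‖x₀‖² + 2 ⟪x₀, P (z k)⟫ + ∑ a (z k)²`, so with a
suitable `f'`, `g'`: `f' + ∑ g' m z k m + γ (∑ a (z k)² - c k) + δ (∑ (1 - a) (z k)² - c k) = 0`. If
`γ + δ ≠ 0` divide by it: with `t0 = γ / (γ + δ)`,
`c k = h0 + LL a z w0 k + t0 * zet a z k` for suitable `h0`, `w0` (the coefficient of `(z k m)²` is
`t0 a m + (1 - t0) (1 - a m) = (1 - a m) + t0 (2 a m - 1)`), so `O = (t0, (w0, h0))`. If
`γ + δ = 0` then the functional `(s, v, y) ↦ s f + ∑ v k g k + y γ` on `ℝ × (Fin D → ℝ) × ℝ` is nonzero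
and vanishes on `(1, z k, ‖p k‖² - ‖q k‖²)`, `k ∈ L`; so these vectors span a space of dimension
`≤ D + 1 = finrank E + 4`, and so do their images `(1, p k, q k, ‖p k‖² - ‖q k‖²)` under a linear map.
-/

set_option autoImplicit false
set_option linter.unusedSectionVars false

namespace Pool.Agent.KneserCone

open MeasureTheory Set Filter Topology Module
open scoped ENNReal
open Pool.Agent.Kneser Pool.Agent.KneserRank Pool.Agent.KneserCentre

variable {D n : ℕ}

variable {E : Type*} [NormedAddCommGroup E] [InnerProductSpace ℝ E] [FiniteDimensional ℝ E]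
  [MeasurableSpace E] [BorelSpace E]

theorem rank_dichotomy (p q : Fin n → E) (x₀ y₀ : E) {a : Fin D → ℝ} (hD : D = finrank ℝ E + 3)
    (P Q : (Fin D → ℝ) →ₗ[ℝ] E) (z : Fin n → Fin D → ℝ) (hp : ∀ i, p i = x₀ + P (z i))
    (hq : ∀ i, q i = y₀ + Q (z i)) (hP : ∀ v, ‖P v‖ ^ 2 = ∑ k, a k * v k ^ 2)
    (hQ : ∀ v, ‖Q v‖ ^ 2 = ∑ k, (1 - a k) * v k ^ 2) (c : Fin n → ℝ) (L : Finset (Fin n))
    (hL : finrank ℝ (Submodule.span ℝ ((fun k : Fin n =>
      ((1 : ℝ), p k, q k, ‖p k‖ ^ 2 - c k, ‖q k‖ ^ 2 - c k)) '' (L : Set (Fin n)))) ≤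
      finrank ℝ E + 5) :
    (finrank ℝ (Submodule.span ℝ ((fun k : Fin n =>
      ((1 : ℝ), p k, q k, ‖p k‖ ^ 2 - ‖q k‖ ^ 2)) '' (L : Set (Fin n)))) ≤ finrank ℝ E + 4) ∨
      ∃ O : XS D, ∀ l ∈ L, c l = Yf a z O l := by
  classical
  -- the vectors `u k` and the linear map
  let u : Fin n → ℝ × (Fin D → ℝ) × ℝ × ℝ := fun k => (1, z k, ‖p k‖ ^ 2 - c k, ‖q k‖ ^ 2 - c k)
  let Φ : (ℝ × (Fin D → ℝ) × ℝ × ℝ) →ₗ[ℝ] (ℝ × E × E × ℝ × ℝ) :=
    { toFun := fun x => (x.1, x.1 • x₀ + P x.2.1, x.1 • y₀ + Q x.2.1, x.2.2.1, x.2.2.2)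
      map_add' := by
        intro x y
        refine Prod.ext rfl (Prod.ext ?_ (Prod.ext ?_ rfl))
        · simp only [Prod.fst_add, Prod.snd_add, map_add, add_smul]
          abel
        · simp only [Prod.fst_add, Prod.snd_add, map_add, add_smul]
          abel
      map_smul' := by
        intro r x
        refine Prod.ext rfl (Prod.ext ?_ (Prod.ext ?_ rfl))
        · simp only [Prod.smul_fst, Prod.smul_snd, map_smul, smul_add, smul_smul, smul_eq_mul,
            RingHom.id_apply]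
        · simp only [Prod.smul_fst, Prod.smul_snd, map_smul, smul_add, smul_smul, smul_eq_mul,
            RingHom.id_apply] }
  have hΦ : Function.Injective Φ := by
    rw [← LinearMap.ker_eq_bot, LinearMap.ker_eq_bot']
    rintro ⟨s, v, α, β⟩ h
    simp only [Φ, LinearMap.coe_mk, AddHom.coe_mk, Prod.mk_eq_zero] at h
    obtain ⟨h1, h2, h3, h4, h5⟩ := h
    rw [h1, zero_smul, zero_add] at h2 h3
    have e1 := hP v
    have e2 := hQ v
    rw [h2] at e1
    rw [h3] at e2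
    have e3 : ∑ k, v k ^ 2 = 0 := by
      have : ∑ k, v k ^ 2 = ∑ k, a k * v k ^ 2 + ∑ k, (1 - a k) * v k ^ 2 := by
        rw [← Finset.sum_add_distrib]
        exact Finset.sum_congr rfl fun k _ => by ring
      rw [this, ← e1, ← e2]
      simp
    have e4 : v = 0 := by
      funext k
      have := (Finset.sum_eq_zero_iff_of_nonneg (fun k _ => sq_nonneg (v k))).1 e3 k
        (Finset.mem_univ k)
      simpa using this
    rw [h1, e4, h4, h5]
    rfl
  have hΦu : ∀ k, Φ (u k) = ((1 : ℝ), p k, q k, ‖p k‖ ^ 2 - c k, ‖q k‖ ^ 2 - c k) := by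
    intro k
    simp only [Φ, u, LinearMap.coe_mk, AddHom.coe_mk, one_smul, ← hp, ← hq]
  have hspan : Submodule.span ℝ ((fun k : Fin n =>
      ((1 : ℝ), p k, q k, ‖p k‖ ^ 2 - c k, ‖q k‖ ^ 2 - c k)) '' (L : Set (Fin n))) =
      (Submodule.span ℝ (u '' (L : Set (Fin n)))).map Φ := by
    rw [Submodule.map_span, Set.image_image]
    congr 1
    exact Set.image_congr fun k _ => (hΦu k).symm
  have hfr : Submodule.span ℝ (u '' (L : Set (Fin n))) < ⊤ := by
    rw [hspan, ← (Submodule.equivMapOfInjective Φ hΦ _).finrank_eq] at hL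
    rw [lt_top_iff_ne_top]
    intro h
    rw [h, finrank_top] at hL
    simp only [finrank_prod, finrank_self, finrank_fin_fun] at hL
    omega
  obtain ⟨F, hF0, hF⟩ := Submodule.exists_le_ker_of_lt_top _ hfr
  have hFu : ∀ k ∈ L, F (u k) = 0 := fun k hk =>
    LinearMap.mem_ker.1 (hF (Submodule.subset_span ⟨k, hk, rfl⟩))
  -- the coefficients of `F`
  let f0 : ℝ := F (1, 0, 0, 0)
  let G : (Fin D → ℝ) →ₗ[ℝ] ℝ := F ∘ₗ (LinearMap.inr ℝ ℝ ((Fin D → ℝ) × ℝ × ℝ)) ∘ₗ
    (LinearMap.inl ℝ (Fin D → ℝ) (ℝ × ℝ))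
  let γ : ℝ := F (0, 0, 1, 0)
  let δ : ℝ := F (0, 0, 0, 1)
  have hFall : ∀ s v α β, F (s, v, α, β) = s * f0 + G v + α * γ + β * δ := by
    intro s v α β
    have : (s, v, α, β) = s • ((1, 0, 0, 0) : ℝ × (Fin D → ℝ) × ℝ × ℝ) + (0, v, 0, 0) +
        α • ((0, 0, 1, 0) : ℝ × (Fin D → ℝ) × ℝ × ℝ) +
        β • ((0, 0, 0, 1) : ℝ × (Fin D → ℝ) × ℝ × ℝ) := by
      simp
    rw [this, map_add, map_add, map_add, map_smul, map_smul, map_smul]
    rfl
  have hrel : ∀ k ∈ L, f0 + G (z k) + (‖p k‖ ^ 2 - c k) * γ + (‖q k‖ ^ 2 - c k) * δ = 0 := by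
    intro k hk
    have := hFu k hk
    rw [show u k = (1, z k, ‖p k‖ ^ 2 - c k, ‖q k‖ ^ 2 - c k) from rfl, hFall, one_mul] at this
    exact this
  by_cases hγδ : γ + δ = 0
  · left
    have hδ : δ = -γ := by linarith
    let F' : (ℝ × (Fin D → ℝ) × ℝ) →ₗ[ℝ] ℝ :=
      { toFun := fun x => x.1 * f0 + G x.2.1 + x.2.2 * γ
        map_add' := by
          intro x y
          simp only [Prod.fst_add, Prod.snd_add, map_add]
          ring
        map_smul' := by
          intro r x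
          simp only [Prod.smul_fst, Prod.smul_snd, map_smul, smul_eq_mul, RingHom.id_apply]
          ring }
    have hF' : ∀ s v y, F' (s, v, y) = s * f0 + G v + y * γ := fun s v y => rfl
    have hF'0 : F' ≠ 0 := by
      intro h
      apply hF0
      have h1 : f0 = 0 := by
        have := hF' 1 0 0
        rw [h] at this
        simpa using this.symm
      have h2 : γ = 0 := by
        have := hF' 0 0 1
        rw [h] at this
        simpa using this.symm
      have h3 : ∀ v, G v = 0 := by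
        intro v
        have := hF' 0 v 0
        rw [h] at this
        simpa using this.symm
      refine LinearMap.ext fun x => ?_
      obtain ⟨s, v, α, β⟩ := x
      rw [hFall, h1, h3, hδ, h2]
      simp
    let u' : Fin n → ℝ × (Fin D → ℝ) × ℝ := fun k => (1, z k, ‖p k‖ ^ 2 - ‖q k‖ ^ 2)
    have hle : Submodule.span ℝ (u' '' (L : Set (Fin n))) ≤ LinearMap.ker F' := by
      rw [Submodule.span_le]
      rintro _ ⟨k, hk, rfl⟩
      refine LinearMap.mem_ker.2 ?_
      rw [show u' k = (1, z k, ‖p k‖ ^ 2 - ‖q k‖ ^ 2) from rfl, hF', one_mul]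
      have := hrel k hk
      rw [hδ] at this
      linarith
    have hlt : Submodule.span ℝ (u' '' (L : Set (Fin n))) < ⊤ := by
      refine lt_of_le_of_lt hle ?_
      rw [lt_top_iff_ne_top]
      intro h
      exact hF'0 (LinearMap.ker_eq_top.1 h)
    have hfin : finrank ℝ (Submodule.span ℝ (u' '' (L : Set (Fin n)))) < D + 2 := by
      have h1 := Submodule.finrank_lt hlt.ne
      simp only [finrank_prod, finrank_self, finrank_fin_fun] at h1
      omega
    let Ψ : (ℝ × (Fin D → ℝ) × ℝ) →ₗ[ℝ] (ℝ × E × E × ℝ) :=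
      { toFun := fun x => (x.1, x.1 • x₀ + P x.2.1, x.1 • y₀ + Q x.2.1, x.2.2)
        map_add' := by
          intro x y
          refine Prod.ext rfl (Prod.ext ?_ (Prod.ext ?_ rfl))
          · simp only [Prod.fst_add, Prod.snd_add, map_add, add_smul]
            abel
          · simp only [Prod.fst_add, Prod.snd_add, map_add, add_smul]
            abel
        map_smul' := by
          intro r x
          refine Prod.ext rfl (Prod.ext ?_ (Prod.ext ?_ rfl))
          · simp only [Prod.smul_fst, Prod.smul_snd, map_smul, smul_add, smul_smul, smul_eq_mul,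
              RingHom.id_apply]
          · simp only [Prod.smul_fst, Prod.smul_snd, map_smul, smul_add, smul_smul, smul_eq_mul,
              RingHom.id_apply] }
    have hspan' : Submodule.span ℝ ((fun k : Fin n =>
        ((1 : ℝ), p k, q k, ‖p k‖ ^ 2 - ‖q k‖ ^ 2)) '' (L : Set (Fin n))) =
        (Submodule.span ℝ (u' '' (L : Set (Fin n)))).map Ψ := by
      rw [Submodule.map_span, Set.image_image]
      congr 1
      refine Set.image_congr fun k _ => ?_
      simp only [Ψ, u', LinearMap.coe_mk, AddHom.coe_mk, one_smul, ← hp, ← hq]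
    rw [hspan']
    have := Submodule.finrank_map_le Ψ (Submodule.span ℝ (u' '' (L : Set (Fin n))))
    omega
  · right
    have hnp : ∀ k, ‖p k‖ ^ 2 = ‖x₀‖ ^ 2 + 2 * inner ℝ x₀ (P (z k)) + ∑ m, a m * z k m ^ 2 := by
      intro k
      rw [hp, norm_add_sq_real, hP]
    have hnq : ∀ k, ‖q k‖ ^ 2 =
        ‖y₀‖ ^ 2 + 2 * inner ℝ y₀ (Q (z k)) + ∑ m, (1 - a m) * z k m ^ 2 := by
      intro k
      rw [hq, norm_add_sq_real, hQ]
    let ℓ : (Fin D → ℝ) →ₗ[ℝ] ℝ := G + (2 * γ) • ((innerₛₗ ℝ x₀) ∘ₗ P) +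
      (2 * δ) • ((innerₛₗ ℝ y₀) ∘ₗ Q)
    have hℓ : ∀ v, ℓ v = G v + 2 * γ * inner ℝ x₀ (P v) + 2 * δ * inner ℝ y₀ (Q v) := by
      intro v
      simp [ℓ]
    have hℓs : ∀ v, ℓ v = ∑ m, v m * ℓ (Pi.single m 1) := by
      intro v
      rw [LinearMap.pi_apply_eq_sum_univ ℓ v]
      refine Finset.sum_congr rfl fun m _ => ?_
      rw [smul_eq_mul]
      congr 2
      funext j
      by_cases h : m = j
      · subst h
        simp
      · rw [if_neg h, Pi.single_eq_of_ne (Ne.symm h)]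
    refine ⟨(γ / (γ + δ), (fun m => -(ℓ (Pi.single m 1) / (γ + δ)),
      (f0 + γ * ‖x₀‖ ^ 2 + δ * ‖y₀‖ ^ 2) / (γ + δ))), fun k hk => ?_⟩
    have h1 := hrel k hk
    rw [hnp, hnq] at h1
    have h2 : (γ + δ) * c k = f0 + γ * ‖x₀‖ ^ 2 + δ * ‖y₀‖ ^ 2 + ℓ (z k) +
        γ * ∑ m, a m * z k m ^ 2 + δ * ∑ m, (1 - a m) * z k m ^ 2 := by
      rw [hℓ]
      linarith
    have h3 : c k = (f0 + γ * ‖x₀‖ ^ 2 + δ * ‖y₀‖ ^ 2 + ℓ (z k) +
        γ * ∑ m, a m * z k m ^ 2 + δ * ∑ m, (1 - a m) * z k m ^ 2) / (γ + δ) := by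
      rw [eq_div_iff hγδ, mul_comm]
      exact h2
    rw [h3, hℓs]
    simp only [Yf, LL, zet]
    rw [Finset.mul_sum, Finset.mul_sum, Finset.mul_sum]
    rw [add_assoc, add_assoc (f0 + γ * ‖x₀‖ ^ 2 + δ * ‖y₀‖ ^ 2), add_div,
      ← Finset.sum_add_distrib, ← Finset.sum_add_distrib, Finset.sum_div,
      add_assoc (_ / (γ + δ)), ← Finset.sum_add_distrib]
    congr 1
    refine Finset.sum_congr rfl fun m _ => ?_
    field_simp
    ring

end Pool.Agent.KneserCone
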