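import Pool.Agent.KneserCone.CentralAll
import Pool.Agent.KneserCone.Low
import Pool.Agent.KneserCone.GBound
import Pool.Agent.KneserCone.Disj
import Pool.Agent.KneserCone.Err
import Pool.Agent.KneserCone.LimV
import Pool.Agent.KneserCone.Rnk

/-!
# The local rank condition: conclusion

The identity `ident` is averaged over the smoothing scale `r` with the weight `wr D Λ`, `Λ → ∞`.
-/

set_option autoImplicit false
set_option linter.unusedSectionVars false

namespace Pool.Agent.KneserCone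

open MeasureTheory Set Filter Topology Module
open scoped ENNReal
open Pool.Agent.Kneser Pool.Agent.KneserRank Pool.Agent.KneserCentre

variable {D n : ℕ}

variable {E : Type*} [NormedAddCommGroup E] [InnerProductSpace ℝ E] [FiniteDimensional ℝ E]
  [MeasurableSpace E] [BorelSpace E]

/-- The difference of the pair integrals. -/
noncomputable def GD (a : Fin D → ℝ) (z : Fin n → Fin D → ℝ) (φ : ℕ → ℝ) (L : Finset (Fin n))
    (i j : Fin n) (c : Fin n → ℝ) (ε r : ℝ) : ℝ :=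
  GI a z φ L i j c r 0 - GI a z φ L i j c r ε

theorem three_le_of_pencil {a : Fin D → ℝ} (ha : Pencil a) : 3 ≤ D := by
  have h := ha.zeros
  have h2 := Finset.card_le_univ (Finset.univ.filter fun k => a k = 0)
  rw [Fintype.card_fin] at h2
  omega

theorem GD_meas (a : Fin D → ℝ) (z : Fin n → Fin D → ℝ) (φ : ℕ → ℝ) (L : Finset (Fin n))
    (i j : Fin n) (c : Fin n → ℝ) (ε : ℝ) :
    AEStronglyMeasurable (GD a z φ L i j c ε) (volume.restrict (Ioi (0 : ℝ))) :=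
  ((measurable_GI a z φ L i j c 0).sub (measurable_GI a z φ L i j c ε)).aestronglyMeasurable

theorem GD_bound {a : Fin D → ℝ} (z : Fin n → Fin D → ℝ) (φ : ℕ → ℝ) (L : Finset (Fin n))
    (i j : Fin n) (c : Fin n → ℝ) {C : ℝ}
    (hb : ∀ r : ℝ, 0 < r → ∀ ε : ℝ, 0 ≤ ε →
      |GI a z φ L i j c r ε| ≤ C * (1 + r) ^ (((D : ℝ) - 3) / 2)) {ε : ℝ} (hε : 0 ≤ ε) (r : ℝ)
    (hr : 0 < r) : |GD a z φ L i j c ε r| ≤ (2 * C) * (1 + r) ^ (((D : ℝ) - 3) / 2) := by
  unfold GD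
  have h1 := hb r hr 0 le_rfl
  have h2 := hb r hr ε hε
  have h3 := abs_sub (GI a z φ L i j c r 0) (GI a z φ L i j c r ε)
  linarith

/-- The lower bound for one pair. -/
theorem pair_lower {a : Fin D → ℝ} (ha : Pencil a) (hD : D = finrank ℝ E + 3) (p q : Fin n → E)
    (z : Fin n → Fin D → ℝ) (hp : ∀ i j, ‖p i - p j‖ ^ 2 = ∑ k, a k * (z i k - z j k) ^ 2)
    (hq : ∀ i j, ‖q i - q j‖ ^ 2 = ∑ k, (1 - a k) * (z i k - z j k) ^ 2)
    (hpq : ∀ i j, dist (q i) (q j) ≤ dist (p i) (p j)) {φ : ℕ → ℝ}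
    (hφ0 : φ 0 = 0) (hφ : ∀ k, φ (k + 2) - 2 * φ (k + 1) + φ k ≤ 0) (c : Fin n → ℝ) {i j : Fin n}
    (hlt : dist (q i) (q j) < dist (p i) (p j)) (L : Finset (Fin n)) (hi : i ∈ L) (hj : j ∈ L)
    (hdis : ∀ k, k ∉ L →
      ¬ ∃ y : E, ‖y - q i‖ ^ 2 ≤ c i ∧ ‖y - q j‖ ^ 2 ≤ c j ∧ ‖y - q k‖ ^ 2 ≤ c k)
    (hL : (finrank ℝ (Submodule.span ℝ ((fun k : Fin n =>
      ((1 : ℝ), p k, q k, ‖p k‖ ^ 2 - ‖q k‖ ^ 2)) '' (L : Set (Fin n)))) ≤ finrank ℝ E + 4) ∨
      ∃ O : XS D, ∀ l ∈ L, c l = Yf a z O l) {ε : ℝ} (hε : 0 ≤ ε) :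
    (∃ C : ℝ, ∀ r : ℝ, 0 < r →
      |GD a z φ Finset.univ i j c ε r| ≤ C * (1 + r) ^ (((D : ℝ) - 3) / 2)) ∧
    ∃ e : ℕ → ℝ, Tendsto e atTop (𝓝 0) ∧ ∀ k : ℕ,
      e k ≤ ((k : ℝ) + 1) * ∫ r in Ioi (0 : ℝ), wr D ((k : ℝ) + 1) r *
        GD a z φ Finset.univ i j c ε r := by
  have hD3 : 3 ≤ D := three_le_of_pencil ha
  have hij : i ≠ j := by
    rintro rfl
    simp at hlt
  have hlt' : ‖q i - q j‖ < ‖p i - p j‖ := by
    rw [← dist_eq_norm, ← dist_eq_norm]; exact hlt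
  set R : ℝ := (∑ l, |c l|) + 1 with hR
  have hcR : ∀ l, |c l| < R := by
    intro l
    have := Finset.single_le_sum (f := fun l => |c l|) (fun l _ => abs_nonneg _)
      (Finset.mem_univ l)
    rw [hR]; linarith
  obtain ⟨C, hC0, hC⟩ := exists_bound ha hD p q z hp hq hlt' φ R
  have hbU := fun r hr ε hε => hC Finset.univ c (fun l => (hcR l).le) r hr ε hε
  have hbL := fun r hr ε hε => hC L c (fun l => (hcR l).le) r hr ε hε
  have bU := fun r hr => GD_bound z φ Finset.univ i j c hbU hε r hr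
  have bL := fun r hr => GD_bound z φ L i j c hbL hε r hr
  refine ⟨⟨_, bU⟩, ?_⟩
  -- a uniform delta
  have hδ : ∃ δ : ℝ, 0 < δ ∧ ∀ k, k ∉ L → ∀ x : XS D, x.1 ∈ Ioo (0 : ℝ) 1 →
      δ ≤ max (ya a z x i - c i) (max (ya a z x j - c j) (ya a z x k - c k)) := by
    have h1 : ∀ k : Fin n, ∃ δ : ℝ, 0 < δ ∧ (k ∉ L → ∀ x : XS D, x.1 ∈ Ioo (0 : ℝ) 1 →
        δ ≤ max (ya a z x i - c i) (max (ya a z x j - c j) (ya a z x k - c k))) := by
      intro k
      by_cases hk : k ∈ L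
      · exact ⟨1, one_pos, fun h => absurd hk h⟩
      · obtain ⟨δ, h0, h2⟩ := exists_disj ha hD p q z hp hq hpq c (hdis k hk)
        exact ⟨δ, h0, fun _ => h2⟩
    choose δ h0 h2 using h1
    have hne : (Finset.univ : Finset (Fin n)).Nonempty := ⟨i, Finset.mem_univ i⟩
    refine ⟨Finset.univ.inf' hne δ, ?_, ?_⟩
    · rw [Finset.lt_inf'_iff]
      exact fun k _ => h0 k
    · intro k hk x hx
      exact (Finset.inf'_le δ (Finset.mem_univ k)).trans (h2 k hk x hx)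
  obtain ⟨δ, hδ0, hδ1⟩ := hδ
  -- the error
  set Er : ℝ → ℝ := fun r => GD a z φ Finset.univ i j c ε r - GD a z φ L i j c ε r with hEr
  have hErm : AEStronglyMeasurable Er (volume.restrict (Ioi (0 : ℝ))) :=
    (GD_meas a z φ Finset.univ i j c ε).sub (GD_meas a z φ L i j c ε)
  have hErb : ∀ r : ℝ, 0 < r → |Er r| ≤ (4 * C) * (1 + r) ^ (((D : ℝ) - 3) / 2) := by
    intro r hr
    have h1 := bU r hr
    have h2 := bL r hr
    have h3 := abs_sub (GD a z φ Finset.univ i j c ε r) (GD a z φ L i j c ε r)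
    rw [hEr]
    simp only
    linarith
  have hErt : Tendsto Er (𝓝[>] 0) (𝓝 0) := by
    have h1 := tendsto_err ha z φ hi hj hδ0 hδ1 (le_refl (0 : ℝ))
    have h2 := tendsto_err ha z φ hi hj hδ0 hδ1 hε
    have h3 := h1.sub h2
    rw [sub_zero] at h3
    refine h3.congr fun r => ?_
    rw [hEr]
    simp only [GD]
    ring
  -- the main term
  have hB : ∀ Λ : ℝ, 1 ≤ Λ → 0 ≤ ∫ r in Ioi (0 : ℝ), wr D Λ r * GD a z φ L i j c ε r := by
    intro Λ hΛ
    rcases hL with hL | ⟨O, hO⟩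
    · refine setIntegral_nonneg measurableSet_Ioi fun r hr => ?_
      have hr' : (0 : ℝ) < r := hr
      refine mul_nonneg ?_ ?_
      · unfold wr
        exact Real.rpow_nonneg (by nlinarith) _
      · unfold GD
        rw [sub_nonneg]
        exact low_le ha hD p q z hp hq hφ0 hφ hij hi hj hL c hr' hε
    · exact central_nonneg ha z hφ hij hi hj hO hcR
        (fun c' hc' r hr ε hε => hC L c' hc' r hr ε hε) hΛ hε
  refine ⟨fun k => ((k : ℝ) + 1) * ∫ r in Ioi (0 : ℝ), wr D ((k : ℝ) + 1) r * Er r, ?_, ?_⟩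
  · have := tendsto_abel hD3 hErm hErb hErt
    rwa [zero_mul] at this
  · intro k
    have hk1 : (1 : ℝ) ≤ (k : ℝ) + 1 := by
      have : (0 : ℝ) ≤ k := Nat.cast_nonneg k
      linarith
    have iE := integrableOn_wr_mul hD3 hErm hErb hk1
    have iL := integrableOn_wr_mul hD3 (GD_meas a z φ L i j c ε) bL hk1
    have hsum : ∫ r in Ioi (0 : ℝ), wr D ((k : ℝ) + 1) r * GD a z φ Finset.univ i j c ε r =
        (∫ r in Ioi (0 : ℝ), wr D ((k : ℝ) + 1) r * Er r) +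
          ∫ r in Ioi (0 : ℝ), wr D ((k : ℝ) + 1) r * GD a z φ L i j c ε r := by
      rw [← integral_add iE iL]
      refine integral_congr_ae (Eventually.of_forall fun r => ?_)
      simp only [hEr]
      ring
    rw [hsum]
    refine mul_le_mul_of_nonneg_left ?_ (by linarith)
    have := hB _ hk1
    linarith

/-- The inequality for the smoothed counting function. -/
theorem V0_le_local [Nontrivial E] {a : Fin D → ℝ} (ha : Pencil a) (hD : D = finrank ℝ E + 3)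
    (p q : Fin n → E) (z : Fin n → Fin D → ℝ)
    (hp : ∀ i j, ‖p i - p j‖ ^ 2 = ∑ k, a k * (z i k - z j k) ^ 2)
    (hq : ∀ i j, ‖q i - q j‖ ^ 2 = ∑ k, (1 - a k) * (z i k - z j k) ^ 2)
    (hpq : ∀ i j, dist (q i) (q j) ≤ dist (p i) (p j)) {φ : ℕ → ℝ}
    (hφ0 : φ 0 = 0) (hφ : ∀ k, φ (k + 2) - 2 * φ (k + 1) + φ k ≤ 0) (c : Fin n → ℝ)
    (hloc : ∀ i j, dist (q i) (q j) < dist (p i) (p j) → ∃ L : Finset (Fin n), i ∈ L ∧ j ∈ L ∧
      (∀ k, k ∉ L →
        ¬ ∃ y : E, ‖y - q i‖ ^ 2 ≤ c i ∧ ‖y - q j‖ ^ 2 ≤ c j ∧ ‖y - q k‖ ^ 2 ≤ c k) ∧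
      ((finrank ℝ (Submodule.span ℝ ((fun k : Fin n =>
        ((1 : ℝ), p k, q k, ‖p k‖ ^ 2 - ‖q k‖ ^ 2)) '' (L : Set (Fin n)))) ≤ finrank ℝ E + 4) ∨
        ∃ O : XS D, ∀ l ∈ L, c l = Yf a z O l)) :
    V0 q φ c 0 ≤ V0 p φ c 0 := by
  have hD3 : 3 ≤ D := three_le_of_pencil ha
  refine V0_le_of_int p q hφ0 c fun ε hε => ?_
  set T : Fin n → Fin n → ℝ := fun i j => (‖p i - p j‖ ^ 2 - ‖q i - q j‖ ^ 2) / 2 with hT
  have hT0 : ∀ i j, 0 ≤ T i j := by
    intro i j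
    have h1 := hpq i j
    rw [dist_eq_norm, dist_eq_norm] at h1
    have h2 : ‖q i - q j‖ ^ 2 ≤ ‖p i - p j‖ ^ 2 := by gcongr
    rw [hT]
    simp only
    linarith
  have hTz : ∀ i j, ¬ dist (q i) (q j) < dist (p i) (p j) → T i j = 0 := by
    intro i j h
    have h1 : dist (q i) (q j) = dist (p i) (p j) := le_antisymm (hpq i j) (not_lt.mp h)
    rw [dist_eq_norm, dist_eq_norm] at h1
    rw [hT]
    simp only
    rw [h1]
    ring
  set A : ℝ → ℝ := fun r =>
    2 ^ D * Real.pi ^ 2 * ∫ s in (0 : ℝ)..ε, (VI p φ c r s - VI q φ c r s) with hA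
  -- the pairs
  have hpair : ∀ i j, ∃ (C : ℝ) (e : ℕ → ℝ), Tendsto e atTop (𝓝 0) ∧
      (dist (q i) (q j) < dist (p i) (p j) → (∀ r : ℝ, 0 < r →
        |GD a z φ Finset.univ i j c ε r| ≤ C * (1 + r) ^ (((D : ℝ) - 3) / 2)) ∧
      ∀ k : ℕ, e k ≤ ((k : ℝ) + 1) * ∫ r in Ioi (0 : ℝ), wr D ((k : ℝ) + 1) r *
        GD a z φ Finset.univ i j c ε r) := by
    intro i j
    by_cases h : dist (q i) (q j) < dist (p i) (p j)
    · obtain ⟨L, hi, hj, hdis, hL⟩ := hloc i j h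
      obtain ⟨⟨C, hC⟩, e, he, he2⟩ :=
        pair_lower ha hD p q z hp hq hpq hφ0 hφ c h L hi hj hdis hL hε.le
      exact ⟨C, e, he, fun _ => ⟨hC, he2⟩⟩
    · exact ⟨0, fun _ => 0, tendsto_const_nhds, fun h' => absurd h' h⟩
  choose C e he hCe using hpair
  -- the identity
  have hAid : ∀ r : ℝ, 0 < r → A r = ∑ i, ∑ j, T i j * GD a z φ Finset.univ i j c ε r := by
    intro r hr
    exact ident ha hD p q z hp hq hφ0 c hr hε.le
  -- measurability and bounds of A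
  have hAm : AEStronglyMeasurable A (volume.restrict (Ioi (0 : ℝ))) := by
    have h1 : StronglyMeasurable (fun x : ℝ × ℝ => VI p φ c x.1 x.2 - VI q φ c x.1 x.2) :=
      (measurable_VI p φ c).sub (measurable_VI q φ c)
    have h2 : StronglyMeasurable (fun r : ℝ => ∫ s in Ioc 0 ε,
        (VI p φ c r s - VI q φ c r s)) :=
      StronglyMeasurable.integral_prod_right (ν := volume.restrict (Ioc 0 ε)) h1
    have h3 : A = fun r => 2 ^ D * Real.pi ^ 2 * ∫ s in Ioc 0 ε,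
        (VI p φ c r s - VI q φ c r s) := by
      funext r
      rw [hA]
      simp only
      rw [intervalIntegral.integral_of_le hε.le]
    rw [h3]
    exact (h2.const_mul _).aestronglyMeasurable
  have hDd : ((D : ℝ) - 3) / 2 = (finrank ℝ E : ℝ) / 2 := by
    rw [hD]; push_cast; ring
  obtain ⟨Cp, hCp0, hCp⟩ := exists_VI_bound p hφ0 (∑ l, |c l|)
  obtain ⟨Cq, hCq0, hCq⟩ := exists_VI_bound q hφ0 (∑ l, |c l|)
  have hcl : ∀ l, |c l| ≤ ∑ l, |c l| := fun l =>
    Finset.single_le_sum (f := fun l => |c l|) (fun l _ => abs_nonneg _) (Finset.mem_univ l)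
  have hAb : ∀ r : ℝ, 0 < r →
      |A r| ≤ (2 ^ D * Real.pi ^ 2 * ((Cp + Cq) * ε)) * (1 + r) ^ (((D : ℝ) - 3) / 2) := by
    intro r hr
    have h1 : ‖∫ s in (0 : ℝ)..ε, (VI p φ c r s - VI q φ c r s)‖ ≤
        ((Cp + Cq) * (1 + r) ^ (((D : ℝ) - 3) / 2)) * |ε - 0| := by
      refine intervalIntegral.norm_integral_le_of_norm_le_const fun s hs => ?_
      rw [uIoc_of_le hε.le] at hs
      have e1 := hCp c hcl r hr s hs.1.le
      have e2 := hCq c hcl r hr s hs.1.le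
      rw [Real.norm_eq_abs, hDd]
      have e3 := abs_sub (VI p φ c r s) (VI q φ c r s)
      linarith
    rw [Real.norm_eq_abs, sub_zero, abs_of_pos hε] at h1
    rw [hA]
    simp only
    rw [abs_mul, abs_of_nonneg (by positivity : (0 : ℝ) ≤ 2 ^ D * Real.pi ^ 2)]
    refine (mul_le_mul_of_nonneg_left h1 (by positivity)).trans (le_of_eq ?_)
    ring
  have hint0 : ∀ r : ℝ, 0 < r → A r = 2 ^ D * Real.pi ^ 2 *
      ((∫ s in (0 : ℝ)..ε, VI p φ c r s) - ∫ s in (0 : ℝ)..ε, VI q φ c r s) := by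
    intro r hr
    rw [hA]
    simp only
    rw [intervalIntegral.integral_sub (intervalIntegrable_VI p hφ0 c hr hε.le)
      (intervalIntegrable_VI q hφ0 c hr hε.le)]
  have hAt : Tendsto A (𝓝[>] 0) (𝓝 (2 ^ D * Real.pi ^ 2 *
      ((∫ s in (0 : ℝ)..ε, V0 p φ c s) - ∫ s in (0 : ℝ)..ε, V0 q φ c s))) := by
    have h1 := ((tendsto_int_VI p hφ0 c hε.le).sub (tendsto_int_VI q hφ0 c hε.le)).const_mul
      (2 ^ D * Real.pi ^ 2)
    refine h1.congr' ?_
    filter_upwards [self_mem_nhdsWithin] with r hr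
    exact (hint0 r hr).symm
  have hlim := tendsto_abel hD3 hAm hAb hAt
  -- the lower bound
  have hlow : ∀ k : ℕ, ∑ i, ∑ j, T i j * e i j k ≤
      ((k : ℝ) + 1) * ∫ r in Ioi (0 : ℝ), wr D ((k : ℝ) + 1) r * A r := by
    intro k
    have hk1 : (1 : ℝ) ≤ (k : ℝ) + 1 := by
      have : (0 : ℝ) ≤ k := Nat.cast_nonneg k
      linarith
    have hi : ∀ i j, IntegrableOn (fun r => T i j * (wr D ((k : ℝ) + 1) r *
        GD a z φ Finset.univ i j c ε r)) (Ioi (0 : ℝ)) := by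
      intro i j
      by_cases h : dist (q i) (q j) < dist (p i) (p j)
      · exact (integrableOn_wr_mul hD3 (GD_meas a z φ Finset.univ i j c ε)
          (hCe i j h).1 hk1).const_mul _
      · rw [hTz i j h]
        simp only [zero_mul]
        exact integrableOn_zero
    have h1 : ∫ r in Ioi (0 : ℝ), wr D ((k : ℝ) + 1) r * A r =
        ∑ i, ∑ j, T i j * ∫ r in Ioi (0 : ℝ), wr D ((k : ℝ) + 1) r *
          GD a z φ Finset.univ i j c ε r := by
      have h2 : ∫ r in Ioi (0 : ℝ), wr D ((k : ℝ) + 1) r * A r =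
          ∫ r in Ioi (0 : ℝ), ∑ i, ∑ j, T i j * (wr D ((k : ℝ) + 1) r *
            GD a z φ Finset.univ i j c ε r) := by
        refine setIntegral_congr_fun measurableSet_Ioi fun r hr => ?_
        rw [hAid r hr, Finset.mul_sum]
        refine Finset.sum_congr rfl fun i _ => ?_
        rw [Finset.mul_sum]
        refine Finset.sum_congr rfl fun j _ => ?_
        ring
      rw [h2, integral_finsetSum _ fun i _ => integrable_finsetSum _ fun j _ => hi i j]
      refine Finset.sum_congr rfl fun i _ => ?_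
      rw [integral_finsetSum _ fun j _ => hi i j]
      refine Finset.sum_congr rfl fun j _ => ?_
      rw [integral_const_mul]
    rw [h1, Finset.mul_sum]
    refine Finset.sum_le_sum fun i _ => ?_
    rw [Finset.mul_sum]
    refine Finset.sum_le_sum fun j _ => ?_
    by_cases h : dist (q i) (q j) < dist (p i) (p j)
    · have h3 := mul_le_mul_of_nonneg_left ((hCe i j h).2 k) (hT0 i j)
      refine h3.trans (le_of_eq ?_)
      ring
    · rw [hTz i j h]
      simp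
  have he0 : Tendsto (fun k => ∑ i, ∑ j, T i j * e i j k) atTop (𝓝 0) := by
    have h1 : Tendsto (fun k => ∑ i, ∑ j, T i j * e i j k) atTop
        (𝓝 (∑ i : Fin n, ∑ j : Fin n, T i j * 0)) :=
      tendsto_finsetSum _ fun i _ => tendsto_finsetSum _ fun j _ => (he i j).const_mul _
    simpa using h1
  have hfin := le_of_tendsto_of_tendsto' he0 hlim hlow
  have hw := integral_wr_pos (D := D) hD3
  have h4 := nonneg_of_mul_nonneg_left hfin hw
  have h5 : (0 : ℝ) < 2 ^ D * Real.pi ^ 2 := by positivity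
  have h6 := nonneg_of_mul_nonneg_right h4 h5
  rwa [← intervalIntegral.integral_sub (intervalIntegrable_V0 p hφ0 c hε.le)
    (intervalIntegrable_V0 q hφ0 c hε.le)] at h6

end Pool.Agent.KneserCone
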