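import Pool.Agent.KneserCone.Defs

/-!
# Convexity of `x ^ (1 + ∑ α i) * ∏ u i ^ (-α i)`

PROOF. Let `A = ∑ α i`, `J = {t ∈ (0, 1) | 0 < x t}`, `f t` the function. On `J`,
`f t = x t * exp (-S t)` with `S t = ∑ α i * log (u i t / x t)`. Let `s, t ∈ J`, `λ + μ = 1`,
`m = λ s + μ t`, so `x m = λ x s + μ x t`; put `λ' = λ x s / x m`, `μ' = μ x t / x m`,
`λ' + μ' = 1`. By concavity `u i m / x m ≥ λ' (u i s / x s) + μ' (u i t / x t)`, so
`S m ≥ λ' S s + μ' S t` (`log` is increasing and concave), hence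
`f m ≤ x m exp (-(λ' S s + μ' S t)) ≤ x m (λ' exp (-S s) + μ' exp (-S t)) = λ f s + μ f t`.
If `x s ≤ 0`, `x t ≤ 0` or `x m ≤ 0` then `f m = 0 ≤ ..` or the following case: `x s ≤ 0 < x t`,
`0 < x m`. Then let `τ` be the point between `s` and `t` with `x τ = 0` (`τ ∈ (0, 1)`), and
`m = (1 - κ) τ + κ t` with `x m = κ x t`, so `0 < κ ≤ μ` (because `x m ≤ μ x t`) and `κ ≤ 1`.
`u i m ≥ κ u i t + (1 - κ) u i τ ≥ κ u i t`, so
`f m = (κ x t) ^ (1 + A) ∏ u i m ^ (-α i) ≤ κ ^ (1 + A) κ ^ (-A) f t = κ f t ≤ μ f t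
≤ λ f s + μ f t`.
-/

set_option autoImplicit false
set_option linter.unusedSectionVars false

namespace Pool.Agent.KneserCone

open MeasureTheory Set Filter Topology Module
open scoped ENNReal
open Pool.Agent.Kneser Pool.Agent.KneserRank Pool.Agent.KneserCentre

variable {D n : ℕ}

/-- The function, in the form `x * exp (-S)`. -/
private theorem persp_form {κ : Type*} (s : Finset κ) (α : κ → ℝ) (v : κ → ℝ) {x : ℝ}
    (hx : 0 < x) : x ^ (1 + ∑ i ∈ s, α i) * Real.exp (-∑ i ∈ s, α i * Real.log (v i))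
      = x * Real.exp (-∑ i ∈ s, α i * (Real.log (v i) - Real.log x)) := by
  rw [Real.rpow_add hx, Real.rpow_one, Real.rpow_def_of_pos hx, mul_assoc, ← Real.exp_add]
  congr 2
  simp only [mul_sub, Finset.sum_sub_distrib, ← Finset.sum_mul]
  ring

/-- Both points in the positive part. -/
private theorem persp_pos {κ : Type*} (s : Finset κ) (α : κ → ℝ) (hα : ∀ i ∈ s, 0 ≤ α i)
    (va vb vm : κ → ℝ) {xa xb xm l m : ℝ} (hl : 0 ≤ l) (hm : 0 ≤ m)
    (ha : 0 < xa) (hb : 0 < xb) (hxm : 0 < xm) (he : xm = l * xa + m * xb)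
    (hva : ∀ i ∈ s, 0 < va i) (hvb : ∀ i ∈ s, 0 < vb i)
    (hv : ∀ i ∈ s, l * va i + m * vb i ≤ vm i) :
    xm * Real.exp (-∑ i ∈ s, α i * (Real.log (vm i) - Real.log xm))
      ≤ l * (xa * Real.exp (-∑ i ∈ s, α i * (Real.log (va i) - Real.log xa)))
        + m * (xb * Real.exp (-∑ i ∈ s, α i * (Real.log (vb i) - Real.log xb))) := by
  set l' := l * xa / xm with hl'
  set m' := m * xb / xm with hm'
  have h1 : l' + m' = 1 := by
    rw [hl', hm', ← add_div, ← he, div_self hxm.ne']
  have h0l : 0 ≤ l' := by positivity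
  have h0m : 0 ≤ m' := by positivity
  have key : ∀ i ∈ s, l' * (Real.log (va i) - Real.log xa) + m' * (Real.log (vb i) - Real.log xb)
      ≤ Real.log (vm i) - Real.log xm := by
    intro i hi
    have pa := hva i hi
    have pb := hvb i hi
    have h2 : l * va i + m * vb i = xm * (l' * (va i / xa) + m' * (vb i / xb)) := by
      rw [hl', hm']
      field_simp
    have h3 : 0 < l' * (va i / xa) + m' * (vb i / xb) := by
      rcases lt_or_eq_of_le h0l with h | h
      · have : 0 < l' * (va i / xa) := by positivity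
        have : 0 ≤ m' * (vb i / xb) := by positivity
        linarith
      · have h5 : m' = 1 := by linarith
        rw [← h, h5]
        have : 0 < vb i / xb := by positivity
        linarith
    have h4 : 0 < l * va i + m * vb i := by rw [h2]; positivity
    have h5 : 0 < vm i := lt_of_lt_of_le h4 (hv i hi)
    have h6 : l' * Real.log (va i / xa) + m' * Real.log (vb i / xb)
        ≤ Real.log (l' * (va i / xa) + m' * (vb i / xb)) := by
      have := (strictConcaveOn_log_Ioi.concaveOn).2 (show va i / xa ∈ Ioi (0 : ℝ) from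
        by simp only [mem_Ioi]; positivity) (show vb i / xb ∈ Ioi (0 : ℝ) from
        by simp only [mem_Ioi]; positivity) h0l h0m h1
      simpa [smul_eq_mul] using this
    rw [← Real.log_div pa.ne' ha.ne', ← Real.log_div pb.ne' hb.ne', ← Real.log_div h5.ne' hxm.ne']
    refine h6.trans (Real.log_le_log h3 ?_)
    rw [le_div_iff₀ hxm]
    have := hv i hi
    rw [h2] at this
    linarith
  have h7 : -∑ i ∈ s, α i * (Real.log (vm i) - Real.log xm)
      ≤ l' * (-∑ i ∈ s, α i * (Real.log (va i) - Real.log xa))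
        + m' * (-∑ i ∈ s, α i * (Real.log (vb i) - Real.log xb)) := by
    rw [mul_neg, mul_neg, ← neg_add, neg_le_neg_iff, Finset.mul_sum, Finset.mul_sum,
      ← Finset.sum_add_distrib]
    refine Finset.sum_le_sum fun i hi => ?_
    have := mul_le_mul_of_nonneg_left (key i hi) (hα i hi)
    linarith
  have h8 : Real.exp (-∑ i ∈ s, α i * (Real.log (vm i) - Real.log xm))
      ≤ l' * Real.exp (-∑ i ∈ s, α i * (Real.log (va i) - Real.log xa))
        + m' * Real.exp (-∑ i ∈ s, α i * (Real.log (vb i) - Real.log xb)) := by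
    refine (Real.exp_le_exp.2 h7).trans ?_
    have := convexOn_exp.2 (mem_univ (-∑ i ∈ s, α i * (Real.log (va i) - Real.log xa)))
      (mem_univ (-∑ i ∈ s, α i * (Real.log (vb i) - Real.log xb))) h0l h0m h1
    simpa [smul_eq_mul] using this
  have h9 := mul_le_mul_of_nonneg_left h8 hxm.le
  refine h9.trans (le_of_eq ?_)
  rw [hl', hm']
  field_simp

/-- One point in the nonpositive part. -/
private theorem persp_mix {κ : Type*} (s : Finset κ) (α : κ → ℝ) (hα : ∀ i ∈ s, 0 ≤ α i)
    (vb vm : κ → ℝ) {xb xm m : ℝ}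
    (hb : 0 < xb) (hxm : 0 < xm) (he : xm ≤ m * xb)
    (hvb : ∀ i ∈ s, 0 < vb i)
    (hv : ∀ i ∈ s, xm / xb * vb i ≤ vm i) :
    xm * Real.exp (-∑ i ∈ s, α i * (Real.log (vm i) - Real.log xm))
      ≤ m * (xb * Real.exp (-∑ i ∈ s, α i * (Real.log (vb i) - Real.log xb))) := by
  have key : ∀ i ∈ s, (Real.log (vb i) - Real.log xb) ≤ Real.log (vm i) - Real.log xm := by
    intro i hi
    have pb := hvb i hi
    have h4 : 0 < xm / xb * vb i := by positivity
    have h5 : 0 < vm i := lt_of_lt_of_le h4 (hv i hi)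
    rw [← Real.log_div pb.ne' hb.ne', ← Real.log_div h5.ne' hxm.ne']
    refine Real.log_le_log (by positivity) ?_
    rw [le_div_iff₀ hxm]
    have := hv i hi
    calc vb i / xb * xm = xm / xb * vb i := by ring
      _ ≤ vm i := this
  have h7 : -∑ i ∈ s, α i * (Real.log (vm i) - Real.log xm)
      ≤ (-∑ i ∈ s, α i * (Real.log (vb i) - Real.log xb)) := by
    rw [neg_le_neg_iff]
    exact Finset.sum_le_sum fun i hi => mul_le_mul_of_nonneg_left (key i hi) (hα i hi)
  calc xm * Real.exp (-∑ i ∈ s, α i * (Real.log (vm i) - Real.log xm))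
      ≤ (m * xb) * Real.exp (-∑ i ∈ s, α i * (Real.log (vb i) - Real.log xb)) :=
        mul_le_mul he (Real.exp_le_exp.2 h7) (Real.exp_pos _).le (hxm.le.trans he)
    _ = _ := by ring

/-- The point `τ` where `x` vanishes: the lower bound for `u` at the middle point. -/
private theorem persp_conc {u : ℝ → ℝ} {x0 x1 : ℝ} (hu : ConcaveOn ℝ (Ioo (0 : ℝ) 1) u)
    (hp : ∀ t ∈ Ioo (0 : ℝ) 1, 0 ≤ x0 + x1 * t → 0 < u t) {a b l m : ℝ}
    (ha : a ∈ Ioo (0 : ℝ) 1) (hb : b ∈ Ioo (0 : ℝ) 1) (hl : 0 ≤ l) (hm : 0 ≤ m)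
    (h1 : l + m = 1) (hxa : x0 + x1 * a ≤ 0) (hxb : 0 < x0 + x1 * b)
    (hxm : 0 < x0 + x1 * (l * a + m * b)) :
    (x0 + x1 * (l * a + m * b)) / (x0 + x1 * b) * u b ≤ u (l * a + m * b) := by
  set xa := x0 + x1 * a with hxa'
  set xb := x0 + x1 * b with hxb'
  have hd : 0 < xb - xa := by linarith
  have he : x0 + x1 * (l * a + m * b) = l * xa + m * xb := by
    have : l = 1 - m := by linarith
    rw [hxa', hxb', this]; ring
  rw [he] at hxm ⊢
  set θ := xb / (xb - xa) with hθ
  have hθ0 : 0 ≤ θ := by positivity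
  have hθ1 : θ ≤ 1 := by rw [hθ, div_le_one hd]; linarith
  set τ := θ * a + (1 - θ) * b with hτ
  have hτm : τ ∈ Ioo (0 : ℝ) 1 := by
    have := (convex_Ioo (0 : ℝ) 1) ha hb hθ0 (sub_nonneg.2 hθ1) (by ring)
    simpa [smul_eq_mul] using this
  have hτx : x0 + x1 * τ = 0 := by
    have h2 : x0 + x1 * τ = θ * xa + (1 - θ) * xb := by rw [hτ, hxa', hxb']; ring
    rw [h2, hθ]
    field_simp
    ring
  have hτu : 0 < u τ := hp τ hτm hτx.ge
  set k := (l * xa + m * xb) / xb with hk
  have hk0 : 0 ≤ k := by positivity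
  have hk1 : k ≤ 1 := by
    rw [hk, div_le_one hxb]
    have : l = 1 - m := by linarith
    have h3 : m ≤ 1 := by linarith
    nlinarith
  have hmid : (1 - k) * τ + k * b = l * a + m * b := by
    have h4 : (1 - k) * θ = l := by
      rw [hk, hθ]
      have : m = 1 - l := by linarith
      rw [this]
      field_simp
      ring
    have : (1 - k) * τ + k * b = ((1 - k) * θ) * a + (1 - (1 - k) * θ) * b := by
      rw [hτ]; ring
    rw [this, h4]
    have : m = 1 - l := by linarith
    rw [this]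
  have h5 := hu.2 hτm hb (sub_nonneg.2 hk1) hk0 (by ring)
  simp only [smul_eq_mul] at h5
  rw [hmid] at h5
  have h6 : 0 ≤ (1 - k) * u τ := mul_nonneg (sub_nonneg.2 hk1) hτu.le
  linarith

theorem convexOn_persp {κ : Type*} (s : Finset κ) (α : κ → ℝ) (hα : ∀ i ∈ s, 0 ≤ α i)
    (u : κ → ℝ → ℝ) (x0 x1 : ℝ) (hu : ∀ i ∈ s, ConcaveOn ℝ (Ioo (0 : ℝ) 1) (u i))
    (hp : ∀ i ∈ s, ∀ t ∈ Ioo (0 : ℝ) 1, 0 ≤ x0 + x1 * t → 0 < u i t) :
    ConvexOn ℝ (Ioo (0 : ℝ) 1) (fun t => if 0 < x0 + x1 * t then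
      (x0 + x1 * t) ^ (1 + ∑ i ∈ s, α i) * Real.exp (-∑ i ∈ s, α i * Real.log (u i t))
      else 0) := by
  have hnn : ∀ t : ℝ, 0 ≤ (if 0 < x0 + x1 * t then
      (x0 + x1 * t) ^ (1 + ∑ i ∈ s, α i) * Real.exp (-∑ i ∈ s, α i * Real.log (u i t))
      else 0) := by
    intro t
    split_ifs with h
    · positivity
    · exact le_rfl
  refine ⟨convex_Ioo 0 1, ?_⟩
  intro a ha b hb l m hl hm h1
  simp only [smul_eq_mul]
  by_cases hxm : 0 < x0 + x1 * (l * a + m * b)
  · have he : x0 + x1 * (l * a + m * b) = l * (x0 + x1 * a) + m * (x0 + x1 * b) := by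
      have : l = 1 - m := by linarith
      rw [this]; ring
    rw [if_pos hxm, persp_form s α (fun i => u i (l * a + m * b)) hxm]
    by_cases hxa : 0 < x0 + x1 * a
    · rw [if_pos hxa, persp_form s α (fun i => u i a) hxa]
      by_cases hxb : 0 < x0 + x1 * b
      · rw [if_pos hxb, persp_form s α (fun i => u i b) hxb]
        refine persp_pos s α hα (fun i => u i a) (fun i => u i b) _ hl hm hxa hxb hxm he
          (fun i hi => hp i hi a ha hxa.le) (fun i hi => hp i hi b hb hxb.le) fun i hi => ?_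
        have := (hu i hi).2 ha hb hl hm h1
        simpa [smul_eq_mul] using this
      · rw [if_neg hxb, mul_zero, add_zero]
        rw [not_lt] at hxb
        refine persp_mix s α hα (fun i => u i a) _ hxa hxm ?_
          (fun i hi => hp i hi a ha hxa.le) fun i hi => ?_
        · have := mul_nonpos_of_nonneg_of_nonpos hm hxb
          linarith
        · have h2 := persp_conc (hu i hi) (hp i hi) hb ha hm hl (by linarith) hxb hxa
            (by rw [add_comm (m * b)]; exact hxm)
          rw [add_comm (m * b)] at h2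
          exact h2
    · rw [if_neg hxa, mul_zero, zero_add]
      rw [not_lt] at hxa
      have hxb : 0 < x0 + x1 * b := by
        by_contra hh
        rw [not_lt] at hh
        have h3 := mul_nonpos_of_nonneg_of_nonpos hm hh
        have h4 := mul_nonpos_of_nonneg_of_nonpos hl hxa
        linarith
      rw [if_pos hxb, persp_form s α (fun i => u i b) hxb]
      refine persp_mix s α hα (fun i => u i b) _ hxb hxm ?_
          (fun i hi => hp i hi b hb hxb.le) fun i hi => ?_
      · have := mul_nonpos_of_nonneg_of_nonpos hl hxa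
        linarith
      · exact persp_conc (hu i hi) (hp i hi) ha hb hl hm h1 hxa hxb hxm
  · rw [if_neg hxm]
    exact add_nonneg (mul_nonneg hl (hnn a)) (mul_nonneg hm (hnn b))

end Pool.Agent.KneserCone
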