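import Pool.Agent.KneserCone.Sd

/-!
# Polynomial approximation at scale one

PROOF. With `u = exp (-(y - c)) = exp c * exp (-y)`, `0 ≤ u ≤ M` for `y ≥ 0`, `exp c ≤ M`. The value
of `AL` is `1 - (1 - u / M) ^ M ≤ u` (Bernoulli) and `dP` is `u (1 - u / M) ^ (M - 1)`. The limits:
`(1 - u / M) ^ M → exp (-u)` (`tendsto_one_add_div_pow_exp` or similar), also with exponent `M - 1`.
-/

set_option autoImplicit false
set_option linter.unusedSectionVars false

namespace Pool.Agent.KneserCone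

open MeasureTheory Set Filter Topology Module
open scoped ENNReal
open Pool.Agent.Kneser Pool.Agent.KneserRank Pool.Agent.KneserCentre

variable {D n : ℕ}

/-- The approximating polynomials in `exp (-y)`. -/
noncomputable def AL (L : Finset (Fin n)) (c : Fin n → ℝ) (M : ℕ) (l : Fin n) : Polynomial ℝ :=
  if l ∈ L then 1 - (1 - Polynomial.C (Real.exp (c l) / M) * Polynomial.X) ^ M else 0

theorem AL_coeff_zero (L : Finset (Fin n)) (c : Fin n → ℝ) (M : ℕ) (l : Fin n) :
    (AL L c M l).coeff 0 = 0 := by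
  rw [Polynomial.coeff_zero_eq_eval_zero]
  unfold AL
  split_ifs
  · simp
  · simp

/-- The value of `AL`. -/
private theorem AL_eval_pos {L : Finset (Fin n)} (c : Fin n → ℝ) (M : ℕ) {l : Fin n}
    (hl : l ∈ L) (s : ℝ) :
    (AL L c M l).eval (Real.exp s) = 1 - (1 - Real.exp (s + c l) / M) ^ M := by
  unfold AL
  rw [if_pos hl]
  simp only [Polynomial.eval_sub, Polynomial.eval_one, Polynomial.eval_pow, Polynomial.eval_mul,
    Polynomial.eval_C, Polynomial.eval_X]
  rw [Real.exp_add]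
  ring_nf

private theorem AL_eval_neg {L : Finset (Fin n)} (c : Fin n → ℝ) (M : ℕ) {l : Fin n}
    (hl : l ∉ L) (x : ℝ) : (AL L c M l).eval x = 0 := by
  unfold AL
  rw [if_neg hl, Polynomial.eval_zero]

private theorem dP_AL_pos {L : Finset (Fin n)} (c : Fin n → ℝ) {M : ℕ} (hM : M ≠ 0) {l : Fin n}
    (hl : l ∈ L) (s : ℝ) :
    dP (AL L c M l) s =
      Real.exp (s + c l) * (1 - Real.exp (s + c l) / M) ^ (M - 1) := by
  unfold dP AL
  rw [if_pos hl]
  have hM' : (M : ℝ) ≠ 0 := by exact_mod_cast hM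
  simp only [Polynomial.derivative_sub, Polynomial.derivative_one, Polynomial.derivative_pow,
    Polynomial.derivative_mul, Polynomial.derivative_C, Polynomial.derivative_X, zero_mul,
    zero_add, mul_one, zero_sub]
  simp only [Polynomial.eval_sub, Polynomial.eval_one, Polynomial.eval_pow, Polynomial.eval_mul,
    Polynomial.eval_C, Polynomial.eval_X, Polynomial.eval_neg]
  rw [Real.exp_add]
  have h1 : 1 - Real.exp (c l) / M * Real.exp s = 1 - Real.exp s * Real.exp (c l) / M := by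
    ring
  rw [h1]
  generalize (1 - Real.exp s * Real.exp (c l) / M) ^ (M - 1) = q
  field_simp

private theorem dP_AL_neg {L : Finset (Fin n)} (c : Fin n → ℝ) (M : ℕ) {l : Fin n}
    (hl : l ∉ L) (s : ℝ) : dP (AL L c M l) s = 0 := by
  unfold dP AL
  rw [if_neg hl, Polynomial.derivative_zero, Polynomial.eval_zero, mul_zero]

/-- The range of `1 - u / M`. -/
private theorem base_mem {c : Fin n → ℝ} {M : ℕ} (hM : ∀ l, Real.exp (c l) ≤ M)
    (l : Fin n) {s : ℝ} (hs : s ≤ 0) :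
    0 < (M : ℝ) ∧ 0 ≤ Real.exp (s + c l) / M ∧ Real.exp (s + c l) / M ≤ 1 := by
  have h0 : 0 < (M : ℝ) := (Real.exp_pos _).trans_le (hM l)
  refine ⟨h0, div_nonneg (Real.exp_pos _).le h0.le, ?_⟩
  rw [div_le_one h0]
  exact (Real.exp_le_exp.2 (by linarith)).trans (hM l)

theorem AL_nonneg (L : Finset (Fin n)) (c : Fin n → ℝ) {M : ℕ} (hM : ∀ l, Real.exp (c l) ≤ M)
    (l : Fin n) {s : ℝ} (hs : s ≤ 0) : 0 ≤ (AL L c M l).eval (Real.exp s) := by
  obtain ⟨-, h1, h2⟩ := base_mem hM l hs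
  by_cases hl : l ∈ L
  · rw [AL_eval_pos c M hl, sub_nonneg]
    exact pow_le_one₀ (by linarith) (by linarith)
  · rw [AL_eval_neg c M hl]

theorem AL_le_one (L : Finset (Fin n)) (c : Fin n → ℝ) {M : ℕ} (hM : ∀ l, Real.exp (c l) ≤ M)
    (l : Fin n) {s : ℝ} (hs : s ≤ 0) : (AL L c M l).eval (Real.exp s) ≤ 1 := by
  obtain ⟨-, h1, h2⟩ := base_mem hM l hs
  by_cases hl : l ∈ L
  · rw [AL_eval_pos c M hl]
    have h3 : 0 ≤ (1 - Real.exp (s + c l) / M) ^ M := pow_nonneg (by linarith) _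
    linarith
  · rw [AL_eval_neg c M hl]
    exact zero_le_one

theorem AL_le_exp (L : Finset (Fin n)) (c : Fin n → ℝ) {M : ℕ} (hM : ∀ l, Real.exp (c l) ≤ M)
    (l : Fin n) {s : ℝ} (hs : s ≤ 0) : (AL L c M l).eval (Real.exp s) ≤ Real.exp (s + c l) := by
  obtain ⟨h0, h1, h2⟩ := base_mem hM l hs
  by_cases hl : l ∈ L
  · rw [AL_eval_pos c M hl]
    have h3 := one_add_mul_le_pow (a := -(Real.exp (s + c l) / M)) (by linarith) M
    have h4 : (M : ℝ) * -(Real.exp (s + c l) / M) = -Real.exp (s + c l) := by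
      field_simp
    rw [h4] at h3
    have h5 : (1 + -(Real.exp (s + c l) / M)) = 1 - Real.exp (s + c l) / M := by ring
    rw [h5] at h3
    linarith
  · rw [AL_eval_neg c M hl]
    exact (Real.exp_pos _).le

theorem dP_AL_nonneg (L : Finset (Fin n)) (c : Fin n → ℝ) {M : ℕ} (hM : ∀ l, Real.exp (c l) ≤ M)
    (l : Fin n) {s : ℝ} (hs : s ≤ 0) : 0 ≤ dP (AL L c M l) s := by
  obtain ⟨h0, h1, h2⟩ := base_mem hM l hs
  by_cases hl : l ∈ L
  · rw [dP_AL_pos c (by rintro rfl; simp at h0) hl]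
    exact mul_nonneg (Real.exp_pos _).le (pow_nonneg (by linarith) _)
  · rw [dP_AL_neg c M hl]

theorem dP_AL_le_exp (L : Finset (Fin n)) (c : Fin n → ℝ) {M : ℕ}
    (hM : ∀ l, Real.exp (c l) ≤ M) (l : Fin n) {s : ℝ} (hs : s ≤ 0) :
    dP (AL L c M l) s ≤ Real.exp (s + c l) := by
  obtain ⟨h0, h1, h2⟩ := base_mem hM l hs
  by_cases hl : l ∈ L
  · rw [dP_AL_pos c (by rintro rfl; simp at h0) hl]
    exact mul_le_of_le_one_right (Real.exp_pos _).le
      (pow_le_one₀ (by linarith) (by linarith))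
  · rw [dP_AL_neg c M hl]
    exact (Real.exp_pos _).le

private theorem tendsto_pow_exp (u : ℝ) :
    Tendsto (fun M : ℕ => (1 - u / M) ^ M) atTop (𝓝 (Real.exp (-u))) := by
  refine (Real.tendsto_one_add_div_pow_exp (-u)).congr fun M => ?_
  rw [neg_div, ← sub_eq_add_neg]

theorem AL_tendsto (L : Finset (Fin n)) (c : Fin n → ℝ) (l : Fin n) (y : ℝ) :
    Tendsto (fun M => (AL L c M l).eval (Real.exp (-y))) atTop
      (𝓝 (if l ∈ L then bG (y - c l) else 0)) := by
  by_cases hl : l ∈ L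
  · rw [if_pos hl]
    have h1 := (tendsto_pow_exp (Real.exp (-y + c l))).const_sub 1
    have h2 : bG (y - c l) = 1 - Real.exp (-Real.exp (-y + c l)) := by
      unfold bG
      rw [show -(y - c l) = -y + c l by ring]
    rw [h2]
    exact h1.congr fun M => (AL_eval_pos c M hl (-y)).symm
  · rw [if_neg hl]
    exact tendsto_const_nhds.congr fun M => (AL_eval_neg c M hl _).symm

theorem dP_AL_tendsto (L : Finset (Fin n)) (c : Fin n → ℝ) (l : Fin n) (y : ℝ) :
    Tendsto (fun M => dP (AL L c M l) (-y)) atTop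
      (𝓝 (if l ∈ L then eG (y - c l) else 0)) := by
  by_cases hl : l ∈ L
  · rw [if_pos hl]
    obtain ⟨u, hu⟩ : ∃ u, u = Real.exp (-y + c l) := ⟨_, rfl⟩
    have h1 : Tendsto (fun M : ℕ => 1 - u / M) atTop (𝓝 (1 - 0)) :=
      (tendsto_const_div_atTop_nhds_zero_nat u).const_sub 1
    rw [sub_zero] at h1
    have h2 := ((tendsto_pow_exp u).div h1 one_ne_zero).const_mul u
    have h3 : eG (y - c l) = u * (Real.exp (-u) / 1) := by
      unfold eG
      rw [show -(y - c l) = -y + c l by ring, ← hu, div_one]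
    rw [h3]
    refine h2.congr' ?_
    have h4 : ∀ᶠ M : ℕ in atTop, (1 - u / M : ℝ) ≠ 0 := h1.eventually_ne one_ne_zero
    filter_upwards [h4, eventually_ge_atTop 1] with M hM hM1
    rw [dP_AL_pos c (by omega) hl, ← hu]
    congr 1
    have h5 : (1 - u / M) ^ M = (1 - u / M) ^ (M - 1) * (1 - u / M) := by
      rw [← pow_succ]
      congr 1
      omega
    change (1 - u / M) ^ M / (1 - u / M) = _
    rw [h5, mul_div_assoc, div_self hM, mul_one]
  · rw [if_neg hl]
    exact tendsto_const_nhds.congr fun M => (dP_AL_neg c M hl _).symm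

end Pool.Agent.KneserCone
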