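import Pool.Agent.KneserCone.Poly
import Pool.Agent.KneserCone.Trip

/-!
# The pair integrals at scale one as limits of sums

PROOF. By `mix_sum_expand` (`Pool/Agent/KneserRank/Expand.lean`) the function
`pg φ L c M i j y = -∑ S, φ #S * mix (BB (AL L c M) S) i j (fun l => -y l)` is
`-∑ k ∈ idx (Fin n) N, coef φ (AL L c M) k * (k i * k j * ee k y)` for large `N`, and by the
formula for `BB_dP` (see `mix_sum_nonpos` there)
`pg = dP (AL i) (-y i) * dP (AL j) (-y j) * sd φ i j (fun l => (AL L c M l).eval (exp (-y l)))`.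
`pg_tendsto`: `Poly` and `continuous_sd`; note `gd φ L i j c 1 y =
eG (y i - c i) * eG (y j - c j) * sd ..`. `abs_pg_le` from `abs_sd_le`. `tendsto_GI_one`: dominated
convergence with the integrable function
`CC * exp (c i + c j) * om * exp (-(ya i + ya j))` (`integrable_trip` with `k = e i + e j`, i.e.
`Pi.single i 1 + Pi.single j 1`), `ya + ε ≥ 0` by `ya_nonneg`, `ae_mem_Ioo`.
-/

set_option autoImplicit false
set_option linter.unusedSectionVars false

namespace Pool.Agent.KneserCone

open MeasureTheory Set Filter Topology Module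
open scoped ENNReal
open Pool.Agent.Kneser Pool.Agent.KneserRank Pool.Agent.KneserCentre

variable {D n : ℕ}

/-- The polynomial approximation of the pair density at scale one. -/
noncomputable def pg (φ : ℕ → ℝ) (L : Finset (Fin n)) (c : Fin n → ℝ) (M : ℕ) (i j : Fin n)
    (y : Fin n → ℝ) : ℝ :=
  -∑ S : Finset (Fin n), φ S.card * mix (BB (AL L c M) S) i j (fun l => -y l)

theorem pg_eq (φ : ℕ → ℝ) (L : Finset (Fin n)) (c : Fin n → ℝ) (M : ℕ) {i j : Fin n}
    (hij : i ≠ j) (y : Fin n → ℝ) :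
    pg φ L c M i j y = dP (AL L c M i) (-y i) * dP (AL L c M j) (-y j) *
      sd φ i j (fun l => (AL L c M l).eval (Real.exp (-y l))) := by
  unfold pg sd
  rw [mul_neg]
  congr 1
  rw [Finset.mul_sum]
  refine Finset.sum_congr rfl fun S _ => ?_
  unfold mix
  rw [if_neg hij]
  simp only [BB_eval, BB_dP]
  ring

theorem pg_nonneg {φ : ℕ → ℝ} (hφ : ∀ k, φ (k + 2) - 2 * φ (k + 1) + φ k ≤ 0)
    (L : Finset (Fin n)) (c : Fin n → ℝ) {M : ℕ} (hM : ∀ l, Real.exp (c l) ≤ M) {i j : Fin n}
    (hij : i ≠ j) {y : Fin n → ℝ} (hy : ∀ l, 0 ≤ y l) : 0 ≤ pg φ L c M i j y := by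
  rw [pg_eq φ L c M hij y]
  have h : ∀ l, -y l ≤ 0 := fun l => neg_nonpos.2 (hy l)
  exact mul_nonneg (mul_nonneg (dP_AL_nonneg L c hM i (h i)) (dP_AL_nonneg L c hM j (h j)))
    (sd_nonneg hφ hij (fun l => AL_nonneg L c hM l (h l)) fun l => AL_le_one L c hM l (h l))

theorem abs_pg_le (φ : ℕ → ℝ) (L : Finset (Fin n)) (c : Fin n → ℝ) {M : ℕ}
    (hM : ∀ l, Real.exp (c l) ≤ M) {i j : Fin n} (hij : i ≠ j) {y : Fin n → ℝ}
    (hy : ∀ l, 0 ≤ y l) :
    |pg φ L c M i j y| ≤ CC n φ * Real.exp (c i + c j) * Real.exp (-(y i + y j)) := by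
  rw [pg_eq φ L c M hij y, abs_mul]
  have h : ∀ l, -y l ≤ 0 := fun l => neg_nonpos.2 (hy l)
  have h1 := dP_AL_nonneg L c hM i (h i)
  have h2 := dP_AL_nonneg L c hM j (h j)
  have h3 := dP_AL_le_exp L c hM i (h i)
  have h4 := dP_AL_le_exp L c hM j (h j)
  have h5 := abs_sd_le φ i j (fun l => AL_nonneg L c hM l (h l))
    fun l => AL_le_one L c hM l (h l)
  rw [abs_of_nonneg (mul_nonneg h1 h2)]
  have h6 : Real.exp (-y i + c i) * Real.exp (-y j + c j) =
      Real.exp (c i + c j) * Real.exp (-(y i + y j)) := by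
    rw [← Real.exp_add, ← Real.exp_add]
    congr 1
    ring
  calc dP (AL L c M i) (-y i) * dP (AL L c M j) (-y j) *
        |sd φ i j fun l => (AL L c M l).eval (Real.exp (-y l))|
      ≤ (Real.exp (-y i + c i) * Real.exp (-y j + c j)) * CC n φ :=
        mul_le_mul (mul_le_mul h3 h4 h2 (Real.exp_pos _).le) h5 (abs_nonneg _)
          (mul_nonneg (Real.exp_pos _).le (Real.exp_pos _).le)
    _ = CC n φ * Real.exp (c i + c j) * Real.exp (-(y i + y j)) := by
        rw [h6]
        ring

theorem pg_tendsto (φ : ℕ → ℝ) (L : Finset (Fin n)) (c : Fin n → ℝ) {i j : Fin n} (hij : i ≠ j)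
    (hi : i ∈ L) (hj : j ∈ L) (y : Fin n → ℝ) :
    Tendsto (fun M => pg φ L c M i j y) atTop (𝓝 (gd φ L i j c 1 y)) := by
  have h1 := dP_AL_tendsto L c i (y i)
  have h2 := dP_AL_tendsto L c j (y j)
  rw [if_pos hi] at h1
  rw [if_pos hj] at h2
  have h3 : Tendsto (fun M => (fun l => (AL L c M l).eval (Real.exp (-y l)) : Fin n → ℝ)) atTop
      (𝓝 (fun l => if l ∈ L then bG (y l - c l) else 0)) :=
    tendsto_pi_nhds.2 fun l => AL_tendsto L c l (y l)
  have h4 := ((continuous_sd φ i j).tendsto _).comp h3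
  have h5 := (h1.mul h2).mul h4
  have h6 : gd φ L i j c 1 y = eG (y i - c i) * eG (y j - c j) *
      sd φ i j (fun l => if l ∈ L then bG (y l - c l) else 0) := by
    unfold gd
    simp only [div_one, inv_one, one_pow, one_mul]
  rw [h6]
  exact h5.congr fun M => (pg_eq φ L c M hij y).symm

theorem tendsto_GI_one {a : Fin D → ℝ} (ha : Pencil a) (z : Fin n → Fin D → ℝ) (φ : ℕ → ℝ)
    (L : Finset (Fin n)) {i j : Fin n} (hij : i ≠ j) (hi : i ∈ L) (hj : j ∈ L) (c : Fin n → ℝ)
    {ε : ℝ} (hε : 0 ≤ ε) :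
    Tendsto (fun M => ∫ x, om a x.1 * pg φ L c M i j (fun l => ya a z x l + ε) ∂(mu D)) atTop
      (𝓝 (GI a z φ L i j c 1 ε)) := by
  have hM : ∀ᶠ M : ℕ in atTop, ∀ l : Fin n, Real.exp (c l) ≤ (M : ℝ) := by
    rw [eventually_all]
    exact fun l => tendsto_natCast_atTop_atTop.eventually_ge_atTop (Real.exp (c l))
  have hom : ∀ t, 0 ≤ om a t := fun t => inv_nonneg.2 (Real.sqrt_nonneg _)
  have hk : (Pi.single i 1 + Pi.single j 1 : Fin n → ℕ) ≠ 0 := by
    intro h0
    have h1 := congrFun h0 i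
    simp at h1
  have hee : ∀ y : Fin n → ℝ, ee (Pi.single i 1 + Pi.single j 1 : Fin n → ℕ) y =
      Real.exp (-(y i + y j)) := by
    intro y
    unfold ee
    congr 2
    have h1 : ∀ l, ((Pi.single i 1 + Pi.single j 1 : Fin n → ℕ) l : ℝ) * y l =
        (if l = i then y l else 0) + (if l = j then y l else 0) := by
      intro l
      rw [Pi.add_apply, Pi.single_apply, Pi.single_apply]
      split_ifs <;> simp <;> ring
    simp only [h1, Finset.sum_add_distrib, Finset.sum_ite_eq', Finset.mem_univ, if_true]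
  have hint := (integrable_trip ha z hk).const_mul (CC n φ * Real.exp (c i + c j))
  unfold GI
  refine tendsto_integral_filter_of_dominated_convergence _ ?_ ?_ hint ?_
  · refine Eventually.of_forall fun M => Measurable.aestronglyMeasurable ?_
    have hd : ∀ P : Polynomial ℝ, Measurable (dP P) := fun P =>
      (Real.continuous_exp.mul ((Polynomial.continuous _).comp Real.continuous_exp)).measurable
    have hy : ∀ l, Measurable fun x : XS D => -(ya a z x l + ε) := fun l =>
      ((measurable_ya a z l).add_const ε).neg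
    have h1 : Measurable fun x : XS D => (fun l => (AL L c M l).eval
        (Real.exp (-(ya a z x l + ε))) : Fin n → ℝ) := by
      refine measurable_pi_iff.2 fun l => ?_
      exact (Polynomial.continuous _).measurable.comp (Real.measurable_exp.comp (hy l))
    have h2 : (fun x : XS D => om a x.1 * pg φ L c M i j (fun l => ya a z x l + ε)) =
        fun x : XS D => om a x.1 * (dP (AL L c M i) (-(ya a z x i + ε)) *
          dP (AL L c M j) (-(ya a z x j + ε)) *
          sd φ i j (fun l => (AL L c M l).eval (Real.exp (-(ya a z x l + ε))))) := by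
      funext x
      rw [pg_eq φ L c M hij]
    rw [h2]
    exact ((measurable_om a).comp measurable_fst).mul
      ((((hd _).comp (hy i)).mul ((hd _).comp (hy j))).mul
        ((continuous_sd φ i j).measurable.comp h1))
  · filter_upwards [hM] with M hM
    filter_upwards [ae_mem_Ioo (D := D)] with x hx
    have hy : ∀ l, 0 ≤ ya a z x l + ε := fun l => add_nonneg (ya_nonneg ha z hx l) hε
    have h1 := abs_pg_le φ L c hM hij hy
    rw [Real.norm_eq_abs, abs_mul, abs_of_nonneg (hom _), hee]
    have h2 : Real.exp (-(ya a z x i + ε + (ya a z x j + ε))) ≤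
        Real.exp (-(ya a z x i + ya a z x j)) := Real.exp_le_exp.2 (by linarith)
    have h3 : 0 ≤ CC n φ * Real.exp (c i + c j) :=
      mul_nonneg (CC_nonneg n φ) (Real.exp_pos _).le
    calc om a x.1 * |pg φ L c M i j fun l => ya a z x l + ε|
        ≤ om a x.1 * (CC n φ * Real.exp (c i + c j) *
            Real.exp (-(ya a z x i + ya a z x j))) :=
          mul_le_mul_of_nonneg_left (h1.trans (mul_le_mul_of_nonneg_left h2 h3)) (hom _)
      _ = CC n φ * Real.exp (c i + c j) *
            (om a x.1 * Real.exp (-(ya a z x i + ya a z x j))) := by ring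
  · exact Eventually.of_forall fun x =>
      (pg_tendsto φ L c hij hi hj (fun l => ya a z x l + ε)).const_mul _

end Pool.Agent.KneserCone
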