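import Pool.Agent.KneserCone.PolyGI

/-!
# The identity for polynomials at scale one

PROOF. Let `N` bound the degrees, `T = (idx (Fin n) N).erase 0`; `coef φ A 0 = 0` by `coef_zero`
(`AL_coeff_zero`), so all sums run over `k ∈ T`, `k ≠ 0` (see the proof of `smooth_le_of_pos` in
`Pool/Agent/KneserRank/Expand.lean`, which contains all these steps with `s = 0`). Write
`K = tot k`, `d = finrank E`, `P = quad k (‖p i - p j‖²)`, `Q = quad k (‖q i - q j‖²)`,
`I k = ∫ t in 0..1, exp (-((t P + (1 - t) Q) / K))`. By `mul_expand`, `integral_ee` and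
`ee k (y + s) = exp (-K s) ee k y`, the integrand on the left is
`∑ coef k * exp (-K s) * (π / K) ^ (d / 2) * (exp (-P/K) - exp (-Q/K))`, and
`exp (-P/K) - exp (-Q/K) = -((P - Q)/K) * I k` (`exp_sub_exp`); `∫ s in 0..ε, exp (-K s) =
(1 - exp (-K ε)) / K`. So the left side is
`-2 ^ D π² ∑ coef k * π ^ (d/2) * K ^ (-(d/2) - 2) * (P - Q) * I k * (1 - exp (-K ε))`.
On the right, `pg φ univ c M i j y = -∑ coef k * (k i * k j * ee k y)` (`mix_sum_expand`) for
`i ≠ j`, and the terms with `i = j` have the factor `‖p i - p i‖² - ‖q i - q i‖² = 0`; by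
`integral_trip` the right side is
`-∑ coef k * (∑ i j, k i k j (s i j - r i j) / 2) * (1 - exp (-K ε)) * 2 ^ D (π / K) ^ ((D+1)/2) I k`
and `∑ i j, k i k j (s i j - r i j) / 2 = P - Q`, `(D + 1) / 2 = d / 2 + 2`.
-/

set_option autoImplicit false
set_option linter.unusedSectionVars false

namespace Pool.Agent.KneserCone

open MeasureTheory Set Filter Topology Module
open scoped ENNReal
open Pool.Agent.Kneser Pool.Agent.KneserRank Pool.Agent.KneserCentre

variable {D n : ℕ}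

variable {E : Type*} [NormedAddCommGroup E] [InnerProductSpace ℝ E] [FiniteDimensional ℝ E]
  [MeasurableSpace E] [BorelSpace E]

private theorem ee_add_PolyId (k : Fin n → ℕ) (y : Fin n → ℝ) (s : ℝ) :
    ee k (fun l => y l + s) = Real.exp (-(tot k * s)) * ee k y := by
  unfold ee tot
  rw [← Real.exp_add]
  congr 1
  have h : ∑ i, (k i : ℝ) * (y i + s) = ∑ i, (k i : ℝ) * y i + (∑ i, (k i : ℝ)) * s := by
    rw [Finset.sum_mul, ← Finset.sum_add_distrib]
    exact Finset.sum_congr rfl fun i _ => by ring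
  rw [h]
  ring

private theorem integral_exp_PolyId {K : ℝ} (hK : 0 < K) (ε : ℝ) :
    ∫ s in (0 : ℝ)..ε, Real.exp (-(K * s)) = (1 - Real.exp (-(K * ε))) / K := by
  have h : ∀ s ∈ uIcc (0 : ℝ) ε,
      HasDerivAt (fun s : ℝ => -(Real.exp (-(K * s))) / K) (Real.exp (-(K * s))) s := by
    intro s _
    have h1 : HasDerivAt (fun s : ℝ => -(K * s)) (-(K * 1)) s :=
      ((hasDerivAt_id s).const_mul K).neg
    refine (h1.exp.neg.div_const K).congr_deriv ?_
    field_simp
  rw [intervalIntegral.integral_eq_sub_of_hasDerivAt h]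
  · rw [mul_zero, neg_zero, Real.exp_zero]
    ring
  · refine Continuous.intervalIntegrable ?_ _ _
    fun_prop

/-- the space integrals of the smoothed functions -/
private theorem space_PolyId {φ : ℕ → ℝ} {A : Fin n → Polynomial ℝ} {N : ℕ}
    (hN : ∀ l, (A l).natDegree < N) (hN0 : 0 < N) (hzero : coef φ A 0 = 0) (r : Fin n → E)
    (s : ℝ) :
    ∫ x : E, mul φ (fun l => (A l).eval (Real.exp (-(‖x - r l‖ ^ 2 + s)))) =
      ∑ k ∈ (idx (Fin n) N).erase 0, coef φ A k * (Real.exp (-(tot k * s)) *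
        ((Real.pi / tot k) ^ ((finrank ℝ E : ℝ) / 2) *
        Real.exp (-(quad k (fun i j => ‖r i - r j‖ ^ 2) / tot k)))) := by
  have hTne : ∀ k ∈ (idx (Fin n) N).erase 0, k ≠ 0 := fun k hk => (Finset.mem_erase.mp hk).1
  have e1 : ∀ x : E, mul φ (fun l => (A l).eval (Real.exp (-(‖x - r l‖ ^ 2 + s)))) =
      ∑ k ∈ (idx (Fin n) N).erase 0, coef φ A k * (Real.exp (-(tot k * s)) *
        ee k (fun l => ‖x - r l‖ ^ 2)) := by
    intro x
    rw [mul_expand φ hN hN0 (fun l => ‖x - r l‖ ^ 2 + s)]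
    rw [← Finset.sum_erase (idx (Fin n) N) (a := 0) (by rw [hzero, zero_mul])]
    exact Finset.sum_congr rfl fun k _ => by rw [ee_add_PolyId]
  simp only [e1]
  rw [integral_finsetSum]
  · refine Finset.sum_congr rfl fun k hk => ?_
    rw [integral_const_mul, integral_const_mul, integral_ee (hTne k hk)]
  · intro k hk
    exact ((integrable_ee (hTne k hk) r).const_mul _).const_mul _

/-- the pair integrals of the approximations -/
private theorem pair_PolyId {a : Fin D → ℝ} (ha : Pencil a) (z : Fin n → Fin D → ℝ)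
    {φ : ℕ → ℝ} (c : Fin n → ℝ) (M : ℕ) {N : ℕ}
    (hN : ∀ l, (AL Finset.univ c M l).natDegree < N) (hN0 : 0 < N)
    (hzero : coef φ (AL Finset.univ c M) 0 = 0) {i j : Fin n} (hij : i ≠ j) (s : ℝ) :
    ∫ x, om a x.1 * pg φ Finset.univ c M i j (fun l => ya a z x l + s) ∂(mu D) =
      -∑ k ∈ (idx (Fin n) N).erase 0, coef φ (AL Finset.univ c M) k *
        (((k i : ℝ) * (k j : ℝ)) * (Real.exp (-(tot k * s)) *
          ∫ x, om a x.1 * ee k (ya a z x) ∂(mu D))) := by
  have hTne : ∀ k ∈ (idx (Fin n) N).erase 0, k ≠ 0 := fun k hk => (Finset.mem_erase.mp hk).1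
  have e1 : ∀ x : XS D, om a x.1 * pg φ Finset.univ c M i j (fun l => ya a z x l + s) =
      -∑ k ∈ (idx (Fin n) N).erase 0, coef φ (AL Finset.univ c M) k *
        (((k i : ℝ) * (k j : ℝ)) * (Real.exp (-(tot k * s)) *
          (om a x.1 * ee k (ya a z x)))) := by
    intro x
    unfold pg
    rw [mix_sum_expand φ hN hN0 hij (fun l => ya a z x l + s)]
    rw [← Finset.sum_erase (idx (Fin n) N) (a := 0) (by rw [hzero, zero_mul]), mul_neg,
      Finset.mul_sum]
    congr 1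
    refine Finset.sum_congr rfl fun k _ => ?_
    rw [ee_add_PolyId]
    ring
  simp only [e1]
  rw [integral_neg, integral_finsetSum]
  · congr 1
    refine Finset.sum_congr rfl fun k hk => ?_
    rw [integral_const_mul, integral_const_mul, integral_const_mul]
  · intro k hk
    exact (((integrable_trip ha z (hTne k hk)).const_mul _).const_mul _).const_mul _

private theorem quad_sub_PolyId (k : Fin n → ℕ) (s r : Fin n → Fin n → ℝ) :
    ∑ i, ∑ j, (s i j - r i j) / 2 * ((k i : ℝ) * (k j : ℝ)) = quad k s - quad k r := by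
  unfold quad
  rw [← sub_div, ← Finset.sum_sub_distrib, Finset.sum_div]
  refine Finset.sum_congr rfl fun i _ => ?_
  rw [← Finset.sum_sub_distrib, Finset.sum_div]
  refine Finset.sum_congr rfl fun j _ => ?_
  ring

/-- the term of the exponent `k` -/
private theorem term_PolyId {d D : ℕ} {K : ℝ} (hK : 0 < K) (P Q e : ℝ) (hD : D = d + 3) :
    2 ^ D * Real.pi ^ 2 * ((1 - e) / K * ((Real.pi / K) ^ ((d : ℝ) / 2) *
      (Real.exp (-(P / K)) - Real.exp (-(Q / K))))) =
      -((P - Q) * ((1 - e) * (2 ^ D * (Real.pi / K) ^ (((D : ℝ) + 1) / 2) *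
        ∫ t in (0 : ℝ)..1, Real.exp (-((t * P + (1 - t) * Q) / K))))) := by
  rw [exp_sub_exp]
  have h7 : ∀ t : ℝ, -((t * P + (1 - t) * Q) / K) = -(t * (P / K) + (1 - t) * (Q / K)) := by
    intro t; ring
  simp only [h7]
  have h8 : ((D : ℝ) + 1) / 2 = (d : ℝ) / 2 + 2 := by
    rw [hD]; push_cast; ring
  have hpK : 0 < Real.pi / K := div_pos Real.pi_pos hK
  rw [h8, Real.rpow_add hpK]
  have h9 : (Real.pi / K) ^ (2 : ℝ) = (Real.pi / K) ^ 2 := by
    rw [← Real.rpow_natCast]; norm_num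
  rw [h9]
  generalize (∫ t in (0 : ℝ)..1, Real.exp (-(t * (P / K) + (1 - t) * (Q / K)))) = I
  generalize (Real.pi / K) ^ ((d : ℝ) / 2) = R
  field_simp

theorem poly_ident {a : Fin D → ℝ} (ha : Pencil a) (hD : D = finrank ℝ E + 3) (p q : Fin n → E)
    (z : Fin n → Fin D → ℝ) (hp : ∀ i j, ‖p i - p j‖ ^ 2 = ∑ k, a k * (z i k - z j k) ^ 2)
    (hq : ∀ i j, ‖q i - q j‖ ^ 2 = ∑ k, (1 - a k) * (z i k - z j k) ^ 2) {φ : ℕ → ℝ}
    (hφ0 : φ 0 = 0) (c : Fin n → ℝ) (M : ℕ) {ε : ℝ} (hε : 0 ≤ ε) :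
    2 ^ D * Real.pi ^ 2 * ∫ s in (0 : ℝ)..ε,
        ((∫ x : E, mul φ (fun l => (AL Finset.univ c M l).eval
          (Real.exp (-(‖x - p l‖ ^ 2 + s))))) -
        ∫ x : E, mul φ (fun l => (AL Finset.univ c M l).eval
          (Real.exp (-(‖x - q l‖ ^ 2 + s))))) =
      ∑ i, ∑ j, (‖p i - p j‖ ^ 2 - ‖q i - q j‖ ^ 2) / 2 *
        ((∫ x, om a x.1 * pg φ Finset.univ c M i j (ya a z x) ∂(mu D)) -
        ∫ x, om a x.1 * pg φ Finset.univ c M i j (fun l => ya a z x l + ε) ∂(mu D)) := by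
  classical
  obtain ⟨A, hA⟩ : ∃ A, A = AL Finset.univ c M := ⟨_, rfl⟩
  obtain ⟨N, hN0, hN⟩ : ∃ N : ℕ, 0 < N ∧ ∀ l, (A l).natDegree < N := by
    refine ⟨(∑ l, (A l).natDegree) + 1, Nat.succ_pos _, fun l => ?_⟩
    have := Finset.single_le_sum (f := fun l => (A l).natDegree) (fun _ _ => Nat.zero_le _)
      (Finset.mem_univ l)
    exact Nat.lt_succ_of_le this
  have hzero : coef φ A 0 = 0 :=
    coef_zero hφ0 (fun l => by rw [hA]; exact AL_coeff_zero _ _ _ _)
  obtain ⟨T, hT⟩ : ∃ T, T = (idx (Fin n) N).erase 0 := ⟨_, rfl⟩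
  have hTne : ∀ k ∈ T, k ≠ 0 := fun k hk => by
    rw [hT] at hk
    exact (Finset.mem_erase.mp hk).1
  have hpf : (fun i j => ∑ m, a m * (z i m - z j m) ^ 2) = fun i j => ‖p i - p j‖ ^ 2 := by
    funext i j
    exact (hp i j).symm
  have hqf : (fun i j => ∑ m, (1 - a m) * (z i m - z j m) ^ 2) =
      fun i j => ‖q i - q j‖ ^ 2 := by
    funext i j
    exact (hq i j).symm
  -- the left side
  have hL : ∀ s : ℝ, ((∫ x : E, mul φ (fun l => (A l).eval
          (Real.exp (-(‖x - p l‖ ^ 2 + s))))) -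
        ∫ x : E, mul φ (fun l => (A l).eval (Real.exp (-(‖x - q l‖ ^ 2 + s))))) =
      ∑ k ∈ T, (coef φ A k * ((Real.pi / tot k) ^ ((finrank ℝ E : ℝ) / 2) *
        (Real.exp (-(quad k (fun i j => ‖p i - p j‖ ^ 2) / tot k)) -
        Real.exp (-(quad k (fun i j => ‖q i - q j‖ ^ 2) / tot k))))) *
        Real.exp (-(tot k * s)) := by
    intro s
    rw [space_PolyId hN hN0 hzero p s, space_PolyId hN hN0 hzero q s, ← hT,
      ← Finset.sum_sub_distrib]
    exact Finset.sum_congr rfl fun k _ => by ring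
  rw [← hA]
  simp only [hL]
  rw [intervalIntegral.integral_finsetSum]
  swap
  · intro k _
    refine Continuous.intervalIntegrable ?_ _ _
    fun_prop
  -- the right side
  have hR : ∀ i j, (‖p i - p j‖ ^ 2 - ‖q i - q j‖ ^ 2) / 2 *
        ((∫ x, om a x.1 * pg φ Finset.univ c M i j (ya a z x) ∂(mu D)) -
        ∫ x, om a x.1 * pg φ Finset.univ c M i j (fun l => ya a z x l + ε) ∂(mu D)) =
      ∑ k ∈ T, (‖p i - p j‖ ^ 2 - ‖q i - q j‖ ^ 2) / 2 * ((k i : ℝ) * (k j : ℝ)) *
        -(coef φ A k * ((1 - Real.exp (-(tot k * ε))) *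
          ∫ x, om a x.1 * ee k (ya a z x) ∂(mu D))) := by
    intro i j
    rcases eq_or_ne i j with rfl | hij
    · simp
    · have h1 := pair_PolyId ha z c M (φ := φ) (N := N) (by rw [← hA]; exact hN) hN0
        (by rw [← hA]; exact hzero) hij 0
      have h2 := pair_PolyId ha z c M (φ := φ) (N := N) (by rw [← hA]; exact hN) hN0
        (by rw [← hA]; exact hzero) hij ε
      simp only [add_zero] at h1
      rw [h1, h2, ← hT, ← hA, ← Finset.sum_neg_distrib, ← Finset.sum_neg_distrib,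
        ← Finset.sum_sub_distrib, Finset.mul_sum]
      refine Finset.sum_congr rfl fun k _ => ?_
      rw [mul_zero, neg_zero, Real.exp_zero]
      ring
  simp only [hR]
  have hswap : ∀ g : Fin n → Fin n → (Fin n → ℕ) → ℝ,
      ∑ i, ∑ j, ∑ k ∈ T, g i j k = ∑ k ∈ T, ∑ i, ∑ j, g i j k := by
    intro g
    have e : ∀ i, ∑ j, ∑ k ∈ T, g i j k = ∑ k ∈ T, ∑ j, g i j k := fun i => Finset.sum_comm
    simp only [e]
    exact Finset.sum_comm
  rw [hswap, Finset.mul_sum]
  refine Finset.sum_congr rfl fun k hk => ?_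
  simp only [← Finset.sum_mul]
  rw [quad_sub_PolyId k (fun i j => ‖p i - p j‖ ^ 2) (fun i j => ‖q i - q j‖ ^ 2),
    integral_trip ha z (hTne k hk), hpf, hqf, intervalIntegral.integral_const_mul,
    integral_exp_PolyId (tot_pos (hTne k hk))]
  have h := term_PolyId (tot_pos (hTne k hk)) (quad k (fun i j => ‖p i - p j‖ ^ 2))
    (quad k (fun i j => ‖q i - q j‖ ^ 2)) (Real.exp (-(tot k * ε))) hD
  linear_combination (coef φ A k) * h

end Pool.Agent.KneserCone
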