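import Pool.Agent.KneserCone.Persp

/-!
# Convexity of the weight divided by `kk ^ (3 / 2)`

PROOF. See the proof of `convexOn_WW` in `Pool/Agent/KneserRank/Convex.lean` (copy what you need,
the lemmas there are private). With `A`, `B` sets of three indices with `a k = 0`, `a k = 1` and
`R` the set of the remaining `D - 6` indices, `Y t = t (1 - t) kk x₁ x₂ t` is concave and positive on
`(0, 1)` and `om t * kk ^ (-3/2) = (∏ k ∈ R, ll k t ^ (-1/2)) * Y t ^ (-3/2)`. With
`x = x0 + x1 t`, for `x > 0` the function is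
`x ^ D * (1 + Λ x) ^ (-(D + 1) / 2) * (∏ k ∈ R, ll k t ^ (-1/2)) * Y t ^ (-3/2)`, and it is `0` for
`x ≤ 0` (`D ≥ 6`). Apply `convexOn_persp` with the concave functions `1 + Λ x` (affine, exponent
`(D + 1) / 2`), `ll a k` for `k ∈ R` (exponent `1 / 2`), `Y` (exponent `3 / 2`), e.g. indexed by
`Option (Option (Fin D))`; the sum of the exponents is `(D + 1) / 2 + (D - 6) / 2 + 3 / 2 = D - 1`.
Where `1 + Λ x` is not positive, `x < 0`, nothing is needed.
-/

set_option autoImplicit false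
set_option linter.unusedSectionVars false

namespace Pool.Agent.KneserCone

open MeasureTheory Set Filter Topology Module
open scoped ENNReal
open Pool.Agent.Kneser Pool.Agent.KneserRank Pool.Agent.KneserCentre

variable {D n : ℕ}

private theorem WConv_sum {κ : Type*} (s : Finset κ) {f : κ → ℝ → ℝ} {S : Set ℝ}
    (hS : Convex ℝ S) (h : ∀ i ∈ s, ConcaveOn ℝ S (f i)) :
    ConcaveOn ℝ S fun t => ∑ i ∈ s, f i t := by
  refine ⟨hS, fun x hx y hy α β hα hβ hαβ => ?_⟩
  simp only [smul_eq_mul, Finset.mul_sum, ← Finset.sum_add_distrib]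
  exact Finset.sum_le_sum fun i hi => by
    simpa only [smul_eq_mul] using (h i hi).2 hx hy hα hβ hαβ

private theorem WConv_lin {a : ℝ} (h0 : 0 ≤ a) (h1 : a ≤ 1) {t : ℝ} (ht : t ∈ Ioo (0 : ℝ) 1) :
    0 < a * t + (1 - a) * (1 - t) := by
  have ht0 := ht.1
  have ht1 := ht.2
  rcases h0.eq_or_lt with h | h
  · rw [← h]; linarith
  · have h2 : 0 < a * t := mul_pos h ht0
    have h3 : 0 ≤ (1 - a) * (1 - t) := mul_nonneg (by linarith) (by linarith)
    linarith

private theorem WConv_frac {a : ℝ} (h0 : 0 ≤ a) (h1 : a ≤ 1) :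
    ConcaveOn ℝ (Ioo (0 : ℝ) 1) fun t => t * (1 - t) / (a * t + (1 - a) * (1 - t)) := by
  refine ⟨convex_Ioo 0 1, fun x hx y hy α β hα hβ hαβ => ?_⟩
  have hz := convex_Ioo (0 : ℝ) 1 hx hy hα hβ hαβ
  simp only [smul_eq_mul] at hz ⊢
  have lx := WConv_lin h0 h1 hx
  have ly := WConv_lin h0 h1 hy
  have lz := WConv_lin h0 h1 hz
  obtain rfl : β = 1 - α := by linarith
  have h6 : 0 ≤ a * (1 - a) * (α * (1 - α)) * (x - y) ^ 2 :=
    mul_nonneg (mul_nonneg (mul_nonneg h0 (by linarith)) (mul_nonneg hα hβ)) (sq_nonneg _)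
  rw [← mul_div_assoc, ← mul_div_assoc, div_add_div _ _ lx.ne' ly.ne',
    div_le_div_iff₀ (mul_pos lx ly) lz]
  linarith

private theorem WConv_aff (u v : ℝ) :
    ConcaveOn ℝ (Ioo (0 : ℝ) 1) fun t => u + v * t := by
  refine ⟨convex_Ioo 0 1, fun x hx y hy α β hα hβ hαβ => ?_⟩
  obtain rfl : β = 1 - α := by linarith
  simp only [smul_eq_mul]
  apply le_of_eq
  ring

theorem convexOn_cut {a e w : Fin D → ℝ} (ha : Pencil a) (hg : Generic a e w) {Λ : ℝ}
    (hΛ : 0 ≤ Λ) (x0 x1 : ℝ) {x₁ x₂ : ℝ} (h₁ : x₁ ∈ Ioo (0 : ℝ) 1) (h₂ : x₂ ∈ Ioo (0 : ℝ) 1) :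
    ConvexOn ℝ (Ioo (0 : ℝ) 1) (fun t =>
      (om a t * cut D Λ (x0 + x1 * t)) * kk a e w x₁ x₂ t ^ (-(3 / 2) : ℝ)) := by
  classical
  obtain ⟨A, hA, hA3⟩ := Finset.exists_subset_card_eq ha.zeros
  obtain ⟨B, hB, hB3⟩ := Finset.exists_subset_card_eq ha.ones
  have hAB : Disjoint A B := by
    rw [Finset.disjoint_left]
    intro k hk hk'
    have h3 := (Finset.mem_filter.1 (hA hk)).2
    have h4 := (Finset.mem_filter.1 (hB hk')).2
    rw [h3] at h4
    exact zero_ne_one h4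
  have hcAB : (A ∪ B).card = 6 := by
    rw [Finset.card_union_of_disjoint hAB, hA3, hB3]
  have hD6 : 6 ≤ D := by
    have h3 := Finset.card_le_card (Finset.subset_univ (A ∪ B))
    rwa [hcAB, Finset.card_univ, Fintype.card_fin] at h3
  have hRc : (((Finset.univ \ (A ∪ B)).card : ℕ) : ℝ) = (D : ℝ) - 6 := by
    rw [Finset.card_sdiff_of_subset (Finset.subset_univ _), hcAB, Finset.card_univ,
      Fintype.card_fin, Nat.cast_sub hD6]
    norm_num
  have hlc : ∀ k, ConcaveOn ℝ (Ioo (0 : ℝ) 1) fun t => ll a k t := by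
    intro k
    refine ⟨convex_Ioo 0 1, fun x hx y hy α β hα hβ hαβ => ?_⟩
    obtain rfl : β = 1 - α := by linarith
    simp only [ll, smul_eq_mul]
    apply le_of_eq
    ring
  have hYc : ConcaveOn ℝ (Ioo (0 : ℝ) 1) fun t => ∑ k, DD a e w k ^ 2 / (4 * ll a k x₁ *
      ll a k x₂) * (t * (1 - t) / (a k * t + (1 - a k) * (1 - t))) := by
    refine WConv_sum _ (convex_Ioo 0 1) fun k _ => ?_
    refine ⟨convex_Ioo 0 1, fun x hx y hy α β hα hβ hαβ => ?_⟩
    have h3 := (WConv_frac (ha.nonneg k) (ha.le_one k)).2 hx hy hα hβ hαβ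
    simp only [smul_eq_mul] at h3 ⊢
    have h4 : 0 ≤ DD a e w k ^ 2 / (4 * ll a k x₁ * ll a k x₂) :=
      div_nonneg (sq_nonneg _) (mul_pos (mul_pos four_pos (ll_pos ha h₁ k)) (ll_pos ha h₂ k)).le
    refine le_trans (le_of_eq ?_) (mul_le_mul_of_nonneg_left h3 h4)
    ring
  have hYe : ∀ t ∈ Ioo (0 : ℝ) 1, ∑ k, DD a e w k ^ 2 / (4 * ll a k x₁ * ll a k x₂) *
      (t * (1 - t) / (a k * t + (1 - a k) * (1 - t))) = t * (1 - t) * kk a e w x₁ x₂ t := by
    intro t ht
    unfold kk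
    rw [Finset.mul_sum]
    refine Finset.sum_congr rfl fun k _ => ?_
    have e1 := (ll_pos ha h₁ k).ne'
    have e2 := (ll_pos ha h₂ k).ne'
    have e3 := (ll_pos ha ht k).ne'
    have e4 : a k * t + (1 - a k) * (1 - t) = ll a k t := rfl
    rw [e4]
    field_simp
  have hYp : ∀ t ∈ Ioo (0 : ℝ) 1, 0 < ∑ k, DD a e w k ^ 2 / (4 * ll a k x₁ * ll a k x₂) *
      (t * (1 - t) / (a k * t + (1 - a k) * (1 - t))) := by
    intro t ht
    rw [hYe t ht]
    exact mul_pos (mul_pos ht.1 (by linarith [ht.2])) (kk_pos ha hg h₁ h₂ ht)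
  set s : Finset (Option (Option (Fin D))) :=
    Finset.insertNone (Finset.insertNone (Finset.univ \ (A ∪ B))) with hs
  have hmain := convexOn_persp s
    (fun i => Option.elim i (((D : ℝ) + 1) / 2) (fun j => Option.elim j (3 / 2 : ℝ)
      (fun _ => (1 / 2 : ℝ))))
    (by
      intro i _
      rcases i with _ | _ | k
      · simp only [Option.elim]; positivity
      · simp only [Option.elim]; norm_num
      · simp only [Option.elim]; norm_num)
    (fun i => Option.elim i (fun t => (1 + Λ * x0) + (Λ * x1) * t)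
      (fun j => Option.elim j (fun t => ∑ k, DD a e w k ^ 2 / (4 * ll a k x₁ *
        ll a k x₂) * (t * (1 - t) / (a k * t + (1 - a k) * (1 - t))))
      (fun k => fun t => ll a k t))) x0 x1
    (by
      intro i _
      rcases i with _ | _ | k
      · exact WConv_aff _ _
      · exact hYc
      · exact hlc k)
    (by
      intro i _ t ht hx
      rcases i with _ | _ | k
      · show 0 < (1 + Λ * x0) + (Λ * x1) * t
        have := mul_nonneg hΛ hx
        nlinarith [this]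
      · exact hYp t ht
      · exact ll_pos ha ht k)
  refine hmain.congr fun t ht => ?_
  have ht1 : 0 < 1 - t := by linarith [ht.2]
  have hk := kk_pos ha hg h₁ h₂ ht
  by_cases hx : 0 < x0 + x1 * t
  swap
  · have hx' : max (x0 + x1 * t) 0 = 0 := max_eq_right (not_lt.1 hx)
    simp only [if_neg hx]
    unfold cut
    rw [hx', zero_pow (by omega), zero_mul, mul_zero, zero_mul]
  have hx' : max (x0 + x1 * t) 0 = x0 + x1 * t := max_eq_left hx.le
  have hR : 0 < ∏ k ∈ Finset.univ \ (A ∪ B), ll a k t :=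
    Finset.prod_pos fun k _ => ll_pos ha ht k
  have hP : ∏ k, ll a k t = (∏ k ∈ Finset.univ \ (A ∪ B), ll a k t) *
      ((1 - t) ^ 3 * t ^ 3) := by
    rw [← Finset.prod_sdiff (Finset.subset_univ (A ∪ B)), Finset.prod_union hAB]
    congr 2
    · rw [← hA3]
      refine Finset.prod_eq_pow_card fun k hk => ?_
      rw [ll, (Finset.mem_filter.1 (hA hk)).2]
      ring
    · rw [← hB3]
      refine Finset.prod_eq_pow_card fun k hk => ?_
      rw [ll, (Finset.mem_filter.1 (hB hk)).2]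
      ring
  have hPp : 0 < ∏ k, ll a k t := Finset.prod_pos fun k _ => ll_pos ha ht k
  have hsq : √(∏ k, ll a k t) = Real.exp (1 / 2 * Real.log (∏ k, ll a k t)) := by
    rw [Real.sqrt_eq_rpow, Real.rpow_def_of_pos hPp, mul_comm]
  have hΛp : 0 < 1 + Λ * (x0 + x1 * t) := by
    have := mul_nonneg hΛ hx.le
    linarith
  simp only [if_pos hx]
  have hs1 : ∑ i ∈ s, (Option.elim i (((D : ℝ) + 1) / 2) (fun j => Option.elim j (3 / 2 : ℝ)
      (fun _ => (1 / 2 : ℝ)))) = (D : ℝ) - 1 := by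
    rw [hs, Finset.sum_insertNone, Finset.sum_insertNone]
    simp only [Option.elim, Finset.sum_const, nsmul_eq_mul]
    rw [hRc]
    ring
  rw [hs1, show 1 + ((D : ℝ) - 1) = (D : ℝ) by ring, Real.rpow_natCast]
  rw [hs, Finset.sum_insertNone, Finset.sum_insertNone]
  simp only [Option.elim]
  rw [hYe t ht]
  unfold cut om
  rw [hx', hsq, ← Real.exp_neg, Real.rpow_def_of_pos hk, Real.rpow_def_of_pos hΛp,
    show Real.exp (-(1 / 2 * Real.log (∏ k, ll a k t))) *
      ((x0 + x1 * t) ^ D * Real.exp (Real.log (1 + Λ * (x0 + x1 * t)) *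
        -(((D : ℝ) + 1) / 2))) *
      Real.exp (Real.log (kk a e w x₁ x₂ t) * (-(3 / 2))) = (x0 + x1 * t) ^ D *
      (Real.exp (-(1 / 2 * Real.log (∏ k, ll a k t))) *
      Real.exp (Real.log (1 + Λ * (x0 + x1 * t)) * -(((D : ℝ) + 1) / 2)) *
      Real.exp (Real.log (kk a e w x₁ x₂ t) * (-(3 / 2)))) by ring,
    ← Real.exp_add, ← Real.exp_add, hP,
    Real.log_mul hR.ne' (mul_pos (pow_pos ht1 3) (pow_pos ht.1 3)).ne',
    Real.log_mul (pow_pos ht1 3).ne' (pow_pos ht.1 3).ne', Real.log_pow, Real.log_pow,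
    Real.log_prod (fun k _ => (ll_pos ha ht k).ne'),
    Real.log_mul (mul_pos ht.1 ht1).ne' hk.ne', Real.log_mul ht.1.ne' ht1.ne',
    show (1 + Λ * x0) + (Λ * x1) * t = 1 + Λ * (x0 + x1 * t) by ring, ← Finset.mul_sum]
  congr 2
  push_cast
  ring

end Pool.Agent.KneserCone
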