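import Pool.Agent.KneserCone.WMono
import Pool.Agent.KneserCone.Absorb
import Pool.Agent.KneserCone.WConv
import Pool.Agent.KneserCone.CutWt

/-!
# Monotonicity along rays

PROOF. Write `O = (t0, (w0, h0))`, `U = (t1, (w1, h1))`, `t1 ≠ 0`. On the ray `O + r U` put
`t = t0 + r t1`, i.e. `r = x0 + x1 t` with `x1 = 1 / t1`, `x0 = -t0 / t1`; then
`w0 + r w1 = w' + t e'` with `e' = (1 / t1) • w1`, `w' = w0 - t0 • e'`, so
`HH a 0 (w0 + r w1) t = HH a e' w' t`, and `h0 + r h1 = (h0 - t0 β) + β t` with `β = h1 / t1`.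
`Generic a e' w'` holds by `GenU` (`w' k = (w0 k t1 - t0 w1 k) / t1`,
`w' k + e' k = (w0 k t1 + (1 - t0) w1 k) / t1`). With `exists_absorb`,
`HH a e' w' t < h0 - t0 β + β t - ε` iff `HH a e'' w'' t < h ε`, `h ε = γ + h0 - t0 β - ε`, and the
differences agree. Substituting (`lintegral_image_eq_lintegral_abs_deriv_mul` or
`lintegral_comp`-type lemmas for the affine map, the image of `Ioi 0`
is `{t | 0 < x0 + x1 t}`, outside of which `cut` vanishes) both sides are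
`ENNReal.ofReal |x1| * FlinW a e'' w'' (fun t => om a t * cut D Λ (x0 + x1 * t)) (h ε)`
(`r ^ D * wr D Λ r = cut D Λ r` for `r > 0`). Now `FlinW_mono`, `wt_cut`, `convexOn_cut`, and
`h ε ≤ h 0`.
-/

set_option autoImplicit false
set_option linter.unusedSectionVars false

namespace Pool.Agent.KneserCone

open MeasureTheory Set Filter Topology Module
open scoped ENNReal
open Pool.Agent.Kneser Pool.Agent.KneserRank Pool.Agent.KneserCentre

variable {D n : ℕ}

private theorem pos_D_Ray {a : Fin D → ℝ} (ha : Pencil a) : D ≠ 0 := by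
  intro h
  subst h
  have h1 := ha.zeros
  simp at h1

private theorem subst_Ray {x0 x1 : ℝ} (h1 : x1 ≠ 0) (g : ℝ → ℝ≥0∞) :
    ∫⁻ r in Ioi (0 : ℝ), g r =
      ENNReal.ofReal |x1| * ∫⁻ t in {t : ℝ | 0 < x0 + x1 * t}, g (x0 + x1 * t) := by
  have hs : MeasurableSet {t : ℝ | 0 < x0 + x1 * t} :=
    measurableSet_lt measurable_const (by fun_prop)
  have hd : ∀ t ∈ {t : ℝ | 0 < x0 + x1 * t},
      HasDerivWithinAt (fun t : ℝ => x0 + x1 * t) x1 {t : ℝ | 0 < x0 + x1 * t} t := by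
    intro t _
    have h2 : HasDerivAt (fun t : ℝ => x0 + x1 * t) x1 t := by
      simpa using ((hasDerivAt_id t).const_mul x1).const_add x0
    exact h2.hasDerivWithinAt
  have hinj : InjOn (fun t : ℝ => x0 + x1 * t) {t : ℝ | 0 < x0 + x1 * t} := by
    intro t _ u _ h
    have h3 : x1 * t = x1 * u := by
      have : x0 + x1 * t = x0 + x1 * u := h
      linarith
    exact mul_left_cancel₀ h1 h3
  have himg : (fun t : ℝ => x0 + x1 * t) '' {t : ℝ | 0 < x0 + x1 * t} = Ioi 0 := by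
    ext r
    constructor
    · rintro ⟨t, ht, rfl⟩
      exact ht
    · intro hr
      refine ⟨(r - x0) / x1, ?_, ?_⟩
      · have h4 : x0 + x1 * ((r - x0) / x1) = r := by
          field_simp
          ring
        show 0 < x0 + x1 * ((r - x0) / x1)
        rw [h4]
        exact hr
      · show x0 + x1 * ((r - x0) / x1) = r
        field_simp
        ring
  have key := lintegral_image_eq_lintegral_abs_deriv_mul hs hd hinj g
  rw [himg] at key
  rw [key, lintegral_const_mul' _ _ ENNReal.ofReal_ne_top]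

private theorem eq_Ray {a : Fin D → ℝ} (ha : Pencil a) {O U : XS D} (hU : U.1 ≠ 0) {Λ : ℝ}
    {e' w' : Fin D → ℝ} {γ : ℝ} (hH : ∀ t ∈ Ioo (0 : ℝ) 1,
      HH a ((1 / U.1) • U.2.1) (O.2.1 + (-O.1 / U.1) • U.2.1) t - 1 / U.1 * U.2.2 * t =
        HH a e' w' t - γ) (ε : ℝ) :
    ∫⁻ r in Ioi (0 : ℝ), ENNReal.ofReal (r ^ D * wr D Λ r) * dens a ε (O + r • U) =
      ENNReal.ofReal |1 / U.1| * FlinW a e' w'
        (fun t => om a t * cut D Λ (-O.1 / U.1 + 1 / U.1 * t))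
        (O.2.2 + -O.1 / U.1 * U.2.2 + γ - ε) := by
  rw [subst_Ray (x0 := -O.1 / U.1) (x1 := 1 / U.1) (one_div_ne_zero hU)]
  congr 1
  have hs : MeasurableSet {t : ℝ | 0 < -O.1 / U.1 + 1 / U.1 * t} :=
    measurableSet_lt measurable_const (by fun_prop)
  unfold FlinW
  rw [← lintegral_indicator hs, ← lintegral_indicator measurableSet_Ioo]
  refine lintegral_congr fun t => ?_
  have h1 : (O + (-O.1 / U.1 + 1 / U.1 * t) • U).1 = t := by
    show O.1 + (-O.1 / U.1 + 1 / U.1 * t) * U.1 = t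
    field_simp
    ring
  have h2 : (O + (-O.1 / U.1 + 1 / U.1 * t) • U).2.2 =
      O.2.2 + -O.1 / U.1 * U.2.2 + 1 / U.1 * U.2.2 * t := by
    show O.2.2 + (-O.1 / U.1 + 1 / U.1 * t) * U.2.2 = _
    ring
  have h3 : HH a 0 (O + (-O.1 / U.1 + 1 / U.1 * t) • U).2.1 t =
      HH a ((1 / U.1) • U.2.1) (O.2.1 + (-O.1 / U.1) • U.2.1) t := by
    unfold HH
    refine Finset.sum_congr rfl fun k _ => ?_
    have h4 : (O + (-O.1 / U.1 + 1 / U.1 * t) • U).2.1 k + t * (0 : Fin D → ℝ) k =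
        (O.2.1 + (-O.1 / U.1) • U.2.1) k + t * ((1 / U.1) • U.2.1) k := by
      show O.2.1 k + (-O.1 / U.1 + 1 / U.1 * t) * U.2.1 k + t * 0 =
        O.2.1 k + (-O.1 / U.1) * U.2.1 k + t * ((1 / U.1) * U.2.1 k)
      ring
    rw [h4]
  by_cases ht : t ∈ Ioo (0 : ℝ) 1
  · rw [indicator_of_mem ht]
    have h5 := hH t ht
    by_cases hr : t ∈ {t : ℝ | 0 < -O.1 / U.1 + 1 / U.1 * t}
    · rw [indicator_of_mem hr]
      have hr' : 0 < -O.1 / U.1 + 1 / U.1 * t := hr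
      have hcut : cut D Λ (-O.1 / U.1 + 1 / U.1 * t) =
          (-O.1 / U.1 + 1 / U.1 * t) ^ D * wr D Λ (-O.1 / U.1 + 1 / U.1 * t) := by
        unfold cut wr
        rw [max_eq_left hr'.le]
      unfold dens
      rw [h1, h2, h3]
      have h6 : O.2.2 + -O.1 / U.1 * U.2.2 + 1 / U.1 * U.2.2 * t - ε -
          HH a ((1 / U.1) • U.2.1) (O.2.1 + (-O.1 / U.1) • U.2.1) t =
          O.2.2 + -O.1 / U.1 * U.2.2 + γ - ε - HH a e' w' t := by
        linarith
      have h7 : HH a ((1 / U.1) • U.2.1) (O.2.1 + (-O.1 / U.1) • U.2.1) t <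
          O.2.2 + -O.1 / U.1 * U.2.2 + 1 / U.1 * U.2.2 * t - ε ↔
          HH a e' w' t < O.2.2 + -O.1 / U.1 * U.2.2 + γ - ε := by
        rw [← sub_pos, h6, sub_pos]
      by_cases hc : HH a e' w' t < O.2.2 + -O.1 / U.1 * U.2.2 + γ - ε
      · rw [if_pos hc, if_pos ⟨ht, h7.2 hc⟩, h6]
        beta_reduce
        rw [hcut, ← ENNReal.ofReal_mul']
        · congr 1
          ring
        · exact div_nonneg (om_pos ha ht).le (Real.sqrt_nonneg _)
      · rw [if_neg hc, if_neg fun h => hc (h7.1 h.2), ENNReal.ofReal_zero, mul_zero]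
    · rw [indicator_of_notMem hr]
      have hr' : -O.1 / U.1 + 1 / U.1 * t ≤ 0 := not_lt.1 hr
      have hcut : cut D Λ (-O.1 / U.1 + 1 / U.1 * t) = 0 := by
        unfold cut
        rw [max_eq_right hr', zero_pow (pos_D_Ray ha), zero_mul]
      beta_reduce
      rw [hcut]
      simp
  · rw [indicator_of_notMem ht]
    have h8 : dens a ε (O + (-O.1 / U.1 + 1 / U.1 * t) • U) = 0 := by
      unfold dens
      rw [h1, if_neg fun h => ht h.1, ENNReal.ofReal_zero]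
    by_cases hr : t ∈ {t : ℝ | 0 < -O.1 / U.1 + 1 / U.1 * t}
    · rw [indicator_of_mem hr, h8, mul_zero]
    · rw [indicator_of_notMem hr]

theorem ray_le {a : Fin D → ℝ} (ha : Pencil a) {O U : XS D} (hU : GenU a O U) {Λ : ℝ}
    (hΛ : 0 ≤ Λ) {ε : ℝ} (hε : 0 ≤ ε) :
    ∫⁻ r in Ioi (0 : ℝ), ENNReal.ofReal (r ^ D * wr D Λ r) * dens a ε (O + r • U) ≤
      ∫⁻ r in Ioi (0 : ℝ), ENNReal.ofReal (r ^ D * wr D Λ r) * dens a 0 (O + r • U) := by
  have hne := hU.ne
  have hg : Generic a ((1 / U.1) • U.2.1) (O.2.1 + (-O.1 / U.1) • U.2.1) := by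
    constructor
    · obtain ⟨k, hk, h⟩ := hU.left
      refine ⟨k, hk, ?_⟩
      show O.2.1 k + (-O.1 / U.1) * U.2.1 k ≠ 0
      have h1 : O.2.1 k + (-O.1 / U.1) * U.2.1 k =
          (O.2.1 k * U.1 - O.1 * U.2.1 k) / U.1 := by
        field_simp
        ring
      rw [h1]
      exact div_ne_zero h hne
    · obtain ⟨k, hk, h⟩ := hU.right
      refine ⟨k, hk, ?_⟩
      show O.2.1 k + (-O.1 / U.1) * U.2.1 k + (1 / U.1) * U.2.1 k ≠ 0
      have h1 : O.2.1 k + (-O.1 / U.1) * U.2.1 k + (1 / U.1) * U.2.1 k =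
          (O.2.1 k * U.1 + (1 - O.1) * U.2.1 k) / U.1 := by
        field_simp
        ring
      rw [h1]
      exact div_ne_zero h hne
  obtain ⟨e', w', γ, hg', hH⟩ := exists_absorb ha hg (1 / U.1 * U.2.2)
  rw [eq_Ray ha hne hH, eq_Ray ha hne hH]
  gcongr
  refine FlinW_mono ha hg' (wt_cut ha hΛ _ _) (fun x₁ h₁ x₂ h₂ =>
    convexOn_cut ha hg' hΛ _ _ h₁ h₂) ?_
  linarith

end Pool.Agent.KneserCone
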