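import Pool.Agent.KneserCone.Defs

/-!
# Scaling in `XS D`

PROOF. `finrank ℝ (XS D) = D + 2`, and `volume` on `XS D` is an additive Haar measure. Substitute
`X = O + r U` (`lintegral_add_left_eq_self`, and for the dilation `Measure.map_addHaar_smul`
together with `lintegral_map`).
-/

set_option autoImplicit false
set_option linter.unusedSectionVars false

namespace Pool.Agent.KneserCone

open MeasureTheory Set Filter Topology Module
open scoped ENNReal
open Pool.Agent.Kneser Pool.Agent.KneserRank Pool.Agent.KneserCentre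

variable {D n : ℕ}

private theorem finrank_ScaleX : finrank ℝ (XS D) = D + 2 := by
  have h1 : finrank ℝ (XS D) = 1 + (D + 1) := by
    change finrank ℝ (ℝ × ((Fin D → ℝ) × ℝ)) = 1 + (D + 1)
    rw [Module.finrank_prod, Module.finrank_prod, Module.finrank_self, Module.finrank_fin_fun]
  rw [h1]
  ring

private theorem haar_ScaleX : (volume : Measure (XS D)).IsAddHaarMeasure := by
  have h1 : (volume : Measure ((Fin D → ℝ) × ℝ)).IsAddHaarMeasure := by
    rw [Measure.volume_eq_prod]
    infer_instance
  change (volume : Measure (ℝ × ((Fin D → ℝ) × ℝ))).IsAddHaarMeasure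
  rw [Measure.volume_eq_prod]
  infer_instance

theorem lintegral_scaleX {M g : XS D → ℝ≥0∞} (hM : Measurable M) (hg : Measurable g) (O : XS D)
    {r : ℝ} (hr : 0 < r) :
    ∫⁻ X : XS D, M X * g (r⁻¹ • (X - O)) =
      ENNReal.ofReal (r ^ (D + 2)) * ∫⁻ U : XS D, M (O + r • U) * g U := by
  have hpos : 0 < r ^ (D + 2) := pow_pos hr _
  have := haar_ScaleX (D := D)
  have h1 : ∫⁻ X : XS D, M X * g (r⁻¹ • (X - O)) =
      ∫⁻ X : XS D, M (O + X) * g (r⁻¹ • X) := by
    rw [← lintegral_add_left_eq_self (fun X : XS D => M X * g (r⁻¹ • (X - O))) O]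
    simp only [add_sub_cancel_left]
  have hG : Measurable fun X : XS D => M (O + X) * g (r⁻¹ • X) :=
    (hM.comp (measurable_const_add O)).mul (hg.comp (measurable_const_smul r⁻¹))
  have h2 : ∫⁻ U : XS D, M (O + r • U) * g U =
      ENNReal.ofReal |(r ^ finrank ℝ (XS D))⁻¹| *
        ∫⁻ X : XS D, M (O + X) * g (r⁻¹ • X) := by
    rw [← smul_eq_mul, ← lintegral_smul_measure, ← Measure.map_addHaar_smul volume hr.ne',
      lintegral_map hG (measurable_const_smul r)]
    refine lintegral_congr fun U => ?_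
    rw [inv_smul_smul₀ hr.ne']
  rw [h1, h2, finrank_ScaleX, ← mul_assoc, ← ENNReal.ofReal_mul hpos.le,
    abs_of_pos (inv_pos.mpr hpos), mul_inv_cancel₀ hpos.ne', ENNReal.ofReal_one, one_mul]

end Pool.Agent.KneserCone
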