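import Pool.Agent.KneserCone.Ray
import Pool.Agent.KneserCone.GenAe
import Pool.Agent.KneserCone.Lift
import Pool.Agent.KneserCone.ScaleX

/-!
# The averaged inequality in `XS D`

PROOF. By `lintegral_lft` and `lintegral_scaleX` the inner integral is
`ofReal (r ^ (D + 2)) * ∫⁻ U, dens a ε (O + r • U) * g U`, and
`ofReal (wr D Λ r * (r⁻¹) ^ 2) * ofReal (r ^ (D + 2)) = ofReal (r ^ D * wr D Λ r)` for `r > 0`
(`wr D Λ r ≥ 0`). Exchange the integrals (`lintegral_lintegral_swap`, everything is measurable,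
`(r, U) ↦ dens a ε (O + r • U)` is measurable by `measurable_dens`): the left side is
`∫⁻ U, g U * ∫⁻ r in Ioi 0, ofReal (r ^ D * wr D Λ r) * dens a ε (O + r • U)`. Use `ray_le` for
almost every `U` (`ae_genU`).
-/

set_option autoImplicit false
set_option linter.unusedSectionVars false

namespace Pool.Agent.KneserCone

open MeasureTheory Set Filter Topology Module
open scoped ENNReal
open Pool.Agent.Kneser Pool.Agent.KneserRank Pool.Agent.KneserCentre

variable {D n : ℕ}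

private theorem sp_wr {Λ : ℝ} (hΛ : 0 ≤ Λ) {r : ℝ} (hr : 0 < r) : 0 ≤ wr D Λ r := by
  unfold wr
  exact Real.rpow_nonneg (by nlinarith [mul_nonneg hΛ hr.le]) _

private theorem sp_wm (D : ℕ) (Λ : ℝ) : Measurable (wr D Λ) := by
  unfold wr
  fun_prop

/-- the inner integral after the substitution -/
private theorem sp_inner (a : Fin D → ℝ) (O : XS D) {Λ : ℝ} (hΛ : 0 ≤ Λ) (ε : ℝ)
    {g : XS D → ℝ≥0∞} (hg : Measurable g) {r : ℝ} (hr : 0 < r) :
    ENNReal.ofReal (wr D Λ r * (r⁻¹) ^ 2) *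
        ∫⁻ x, ENNReal.ofReal (om a x.1) * g (r⁻¹ • (lft a ε x - O)) ∂(mu D) =
      ENNReal.ofReal (r ^ D * wr D Λ r) * ∫⁻ U : XS D, dens a ε (O + r • U) * g U := by
  have hm : Measurable fun X : XS D => g (r⁻¹ • (X - O)) :=
    hg.comp ((measurable_id.sub_const O).const_smul r⁻¹)
  rw [lintegral_lft a hm ε, lintegral_scaleX (measurable_dens a ε) hg O hr, ← mul_assoc,
    ← ENNReal.ofReal_mul (mul_nonneg (sp_wr hΛ hr) (by positivity))]
  congr 2
  field_simp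
  ring

private theorem sp_eq (a : Fin D → ℝ) (O : XS D) {Λ : ℝ} (hΛ : 0 ≤ Λ) (ε : ℝ)
    {g : XS D → ℝ≥0∞} (hg : Measurable g) :
    ∫⁻ r in Ioi (0 : ℝ), ENNReal.ofReal (wr D Λ r * (r⁻¹) ^ 2) *
        ∫⁻ x, ENNReal.ofReal (om a x.1) * g (r⁻¹ • (lft a ε x - O)) ∂(mu D) =
      ∫⁻ U : XS D, (∫⁻ r in Ioi (0 : ℝ), ENNReal.ofReal (r ^ D * wr D Λ r) *
        dens a ε (O + r • U)) * g U := by
  have hd : Measurable fun q : ℝ × XS D => dens a ε (O + q.1 • q.2) :=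
    (measurable_dens a ε).comp (measurable_const.add (measurable_fst.smul measurable_snd))
  have hw : Measurable fun r : ℝ => ENNReal.ofReal (r ^ D * wr D Λ r) :=
    ((measurable_id.pow_const D).mul (sp_wm D Λ)).ennreal_ofReal
  have h1 : ∫⁻ r in Ioi (0 : ℝ), ENNReal.ofReal (wr D Λ r * (r⁻¹) ^ 2) *
        ∫⁻ x, ENNReal.ofReal (om a x.1) * g (r⁻¹ • (lft a ε x - O)) ∂(mu D) =
      ∫⁻ r in Ioi (0 : ℝ), ∫⁻ U : XS D,
        ENNReal.ofReal (r ^ D * wr D Λ r) * (dens a ε (O + r • U) * g U) := by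
    refine setLIntegral_congr_fun measurableSet_Ioi fun r hr => ?_
    have hr' : 0 < r := hr
    change ENNReal.ofReal (wr D Λ r * (r⁻¹) ^ 2) *
        ∫⁻ x, ENNReal.ofReal (om a x.1) * g (r⁻¹ • (lft a ε x - O)) ∂(mu D) =
      ∫⁻ U : XS D, ENNReal.ofReal (r ^ D * wr D Λ r) * (dens a ε (O + r • U) * g U)
    rw [sp_inner a O hΛ ε hg hr', lintegral_const_mul]
    exact (hd.comp (measurable_const.prodMk measurable_id)).mul hg
  rw [h1, lintegral_lintegral_swap]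
  · refine lintegral_congr fun U => ?_
    rw [← lintegral_mul_const]
    · refine lintegral_congr fun r => ?_
      rw [mul_assoc]
    · exact hw.mul (hd.comp (measurable_id.prodMk measurable_const))
  · exact ((hw.comp measurable_fst).mul (hd.mul (hg.comp measurable_snd))).aemeasurable

theorem space_le {a : Fin D → ℝ} (ha : Pencil a) {O : XS D} (h0 : O.1 ≠ 0) (h1 : O.1 ≠ 1) {Λ : ℝ}
    (hΛ : 0 ≤ Λ) {ε : ℝ} (hε : 0 ≤ ε) {g : XS D → ℝ≥0∞} (hg : Measurable g) :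
    ∫⁻ r in Ioi (0 : ℝ), ENNReal.ofReal (wr D Λ r * (r⁻¹) ^ 2) *
        ∫⁻ x, ENNReal.ofReal (om a x.1) * g (r⁻¹ • (lft a ε x - O)) ∂(mu D) ≤
      ∫⁻ r in Ioi (0 : ℝ), ENNReal.ofReal (wr D Λ r * (r⁻¹) ^ 2) *
        ∫⁻ x, ENNReal.ofReal (om a x.1) * g (r⁻¹ • (lft a 0 x - O)) ∂(mu D) := by
  rw [sp_eq a O hΛ ε hg, sp_eq a O hΛ 0 hg]
  refine lintegral_mono_ae ?_
  filter_upwards [ae_genU ha h0 h1] with U hU
  exact mul_le_mul_left (ray_le ha hU hΛ hε) (g U)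

end Pool.Agent.KneserCone
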