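import Pool.Agent.KneserCone.Defs

/-!
# Monotonicity with a general weight

Copy of `Pool/Agent/KneserRank/Smooth`, `Param`, `Ident`, `Mono` with the weight `om a` replaced by
a general `C¹` weight `v ≥ 0` such that `v * kk ^ (-3/2)` is convex.
-/

set_option autoImplicit false
set_option linter.unusedSectionVars false

namespace Pool.Agent.KneserCone.WM

open MeasureTheory Set Filter Topology
open Pool.Agent.KneserRank (Pencil Generic Roots HH kk kkt kkh DD ll ll_pos par par_mem kk_pos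
  HH_interp exists_roots kk_rel hasDerivAt_kk continuousOn_kk continuousOn_kkt continuousOn_kkh)

variable {D : ℕ}

/-- A bundled weight. -/
structure Wgt where
  /-- the weight -/
  v : ℝ → ℝ
  /-- its derivative -/
  v' : ℝ → ℝ
  /-- the properties -/
  h : Wt v v'

/-- The function whose convexity gives the monotonicity. -/
noncomputable def WW (a e w : Fin D → ℝ) (V : Wgt) (x₁ x₂ t : ℝ) : ℝ :=
  V.v t * kk a e w x₁ x₂ t ^ (-(3 / 2) : ℝ)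

/-- The derivative of `WW` in `t`. -/
noncomputable def WWt (a e w : Fin D → ℝ) (V : Wgt) (x₁ x₂ t : ℝ) : ℝ :=
  V.v' t * kk a e w x₁ x₂ t ^ (-(3 / 2) : ℝ) -
    3 / 2 * (V.v t * kk a e w x₁ x₂ t ^ (-(5 / 2) : ℝ) * kkt a e w x₁ x₂ t)

/-- The value of `FlinW` in terms of the two roots of `H t = h`. -/
noncomputable def Phi (a e w : Fin D → ℝ) (V : Wgt) (x₁ x₂ : ℝ) : ℝ :=
  ∫ θ in (0 : ℝ)..Real.pi,
    V.v (par x₁ x₂ θ) * kk a e w x₁ x₂ (par x₁ x₂ θ) ^ (-(1 / 2) : ℝ)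

/-- The integrand of the derivative of `Phi` along a curve with velocity `(y₁, y₂)`. -/
noncomputable def thd (a e w : Fin D → ℝ) (V : Wgt) (x₁ x₂ y₁ y₂ θ : ℝ) : ℝ :=
  (WWt a e w V x₁ x₂ (par x₁ x₂ θ) * kk a e w x₁ x₂ (par x₁ x₂ θ) +
      WW a e w V x₁ x₂ (par x₁ x₂ θ) * kkt a e w x₁ x₂ (par x₁ x₂ θ)) *
      ((y₁ + y₂) / 2 + (y₂ - y₁) / 2 * Real.cos θ) -
    WW a e w V x₁ x₂ (par x₁ x₂ θ) * kkh a e w x₁ x₂ y₁ y₂ (par x₁ x₂ θ) / 2

/-- Convexity of all the functions `WW`. -/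
def Cvx (a e w : Fin D → ℝ) (V : Wgt) : Prop :=
  ∀ x₁ ∈ Ioo (0 : ℝ) 1, ∀ x₂ ∈ Ioo (0 : ℝ) 1, ConvexOn ℝ (Ioo (0 : ℝ) 1) (WW a e w V x₁ x₂)

variable {V : Wgt}

private theorem wm_cont : ContinuousOn V.v (Ioo (0 : ℝ) 1) :=
  fun t ht => (V.h.deriv t ht).continuousAt.continuousWithinAt

theorem hasDerivAt_WW {a e w : Fin D → ℝ} (ha : Pencil a) (hg : Generic a e w) {x₁ x₂ t : ℝ}
    (h₁ : x₁ ∈ Ioo (0 : ℝ) 1) (h₂ : x₂ ∈ Ioo (0 : ℝ) 1) (ht : t ∈ Ioo (0 : ℝ) 1) :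
    HasDerivAt (WW a e w V x₁ x₂) (WWt a e w V x₁ x₂ t) t := by
  have hk := kk_pos ha hg h₁ h₂ ht
  have h0 := hasDerivAt_kk (a := a) (e := e) (w := w) ha (x₁ := fun _ => x₁) (x₂ := fun _ => x₂)
    (s := fun u => u) (h := t) h₁ h₂ ht (hasDerivAt_const t x₁) (hasDerivAt_const t x₂)
    (hasDerivAt_id' t)
  have hkk : HasDerivAt (fun u => kk a e w x₁ x₂ u) (kkt a e w x₁ x₂ t) t := by
    refine h0.congr_deriv ?_
    unfold kkh
    simp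
  have h1 := (V.h.deriv _ ht).fun_mul
    (hkk.rpow_const (p := (-(3 / 2) : ℝ)) (Or.inl hk.ne'))
  have h2 : HasDerivAt (WW a e w V x₁ x₂) _ t := h1
  refine h2.congr_deriv ?_
  unfold WWt
  have e1 : (-(3 / 2) : ℝ) - 1 = -(5 / 2) := by norm_num
  rw [e1]
  ring

private theorem continuousOn_rpow_kk_Smooth {a e w : Fin D → ℝ} (ha : Pencil a)
    (hg : Generic a e w) (p : ℝ) :
    ContinuousOn (fun x : ℝ × ℝ × ℝ => kk a e w x.1 x.2.1 x.2.2 ^ p)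
      (Ioo (0 : ℝ) 1 ×ˢ Ioo (0 : ℝ) 1 ×ˢ Ioo (0 : ℝ) 1) :=
  (continuousOn_kk ha).rpow_const fun _ hx =>
    Or.inl (kk_pos ha hg hx.1 hx.2.1 hx.2.2).ne'

private theorem continuousOn_snd_snd_Smooth {f : ℝ → ℝ} (hf : ContinuousOn f (Ioo (0 : ℝ) 1)) :
    ContinuousOn (fun x : ℝ × ℝ × ℝ => f x.2.2)
      (Ioo (0 : ℝ) 1 ×ˢ Ioo (0 : ℝ) 1 ×ˢ Ioo (0 : ℝ) 1) :=
  hf.comp (continuous_snd.comp continuous_snd).continuousOn fun _ hx => hx.2.2

theorem continuousOn_WW {a e w : Fin D → ℝ} (ha : Pencil a) (hg : Generic a e w) :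
    ContinuousOn (fun x : ℝ × ℝ × ℝ => WW a e w V x.1 x.2.1 x.2.2)
      (Ioo (0 : ℝ) 1 ×ˢ Ioo (0 : ℝ) 1 ×ˢ Ioo (0 : ℝ) 1) := by
  unfold WW
  exact (continuousOn_snd_snd_Smooth wm_cont).mul
    (continuousOn_rpow_kk_Smooth ha hg _)

theorem continuousOn_WWt {a e w : Fin D → ℝ} (ha : Pencil a) (hg : Generic a e w) :
    ContinuousOn (fun x : ℝ × ℝ × ℝ => WWt a e w V x.1 x.2.1 x.2.2)
      (Ioo (0 : ℝ) 1 ×ˢ Ioo (0 : ℝ) 1 ×ˢ Ioo (0 : ℝ) 1) := by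
  unfold WWt
  exact ((continuousOn_snd_snd_Smooth V.h.cont).mul
    (continuousOn_rpow_kk_Smooth ha hg _)).sub
    (continuousOn_const.mul (((continuousOn_snd_snd_Smooth wm_cont).mul
      (continuousOn_rpow_kk_Smooth ha hg _)).mul (continuousOn_kkt ha)))

/-- The integrand of `Phi` along the curve has derivative `thd`. -/
private theorem par_hasDeriv {x₁ x₂ : ℝ → ℝ} {y₁ y₂ h : ℝ}
    (d₁ : HasDerivAt x₁ y₁ h) (d₂ : HasDerivAt x₂ y₂ h) (θ : ℝ) :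
    HasDerivAt (fun u => par (x₁ u) (x₂ u) θ)
      ((y₁ + y₂) / 2 + (y₂ - y₁) / 2 * Real.cos θ) h := by
  unfold par
  exact ((d₁.add d₂).div_const 2).add (((d₂.sub d₁).div_const 2).mul_const _)

private theorem integrand_hasDeriv {a e w : Fin D → ℝ} (ha : Pencil a) (hg : Generic a e w)
    {x₁ x₂ : ℝ → ℝ} {y₁ y₂ h : ℝ}
    (h₁ : x₁ h ∈ Ioo (0 : ℝ) 1) (h₂ : x₂ h ∈ Ioo (0 : ℝ) 1)
    (d₁ : HasDerivAt x₁ y₁ h) (d₂ : HasDerivAt x₂ y₂ h) (θ : ℝ) :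
    HasDerivAt (fun u => V.v (par (x₁ u) (x₂ u) θ) *
        kk a e w (x₁ u) (x₂ u) (par (x₁ u) (x₂ u) θ) ^ (-(1 / 2) : ℝ))
      (thd a e w V (x₁ h) (x₂ h) y₁ y₂ θ) h := by
  have hp := par_mem h₁ h₂ θ
  have dp := par_hasDeriv d₁ d₂ θ
  have hk := kk_pos ha hg h₁ h₂ hp
  have dk := hasDerivAt_kk (e := e) (w := w) (s := fun u => par (x₁ u) (x₂ u) θ)
    ha h₁ h₂ hp d₁ d₂ dp
  have dk2 := dk.rpow_const (p := (-(1 / 2) : ℝ)) (Or.inl hk.ne')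
  have dom := (V.h.deriv _ hp).comp h dp
  have dd := dom.mul dk2
  have e1 : kk a e w (x₁ h) (x₂ h) (par (x₁ h) (x₂ h) θ) ^ (-(1 / 2) : ℝ) =
      kk a e w (x₁ h) (x₂ h) (par (x₁ h) (x₂ h) θ) ^ (-(3 / 2) : ℝ) *
      kk a e w (x₁ h) (x₂ h) (par (x₁ h) (x₂ h) θ) := by
    rw [← Real.rpow_add_one hk.ne']
    norm_num
  have e2 : kk a e w (x₁ h) (x₂ h) (par (x₁ h) (x₂ h) θ) ^ (-(3 / 2) : ℝ) =
      kk a e w (x₁ h) (x₂ h) (par (x₁ h) (x₂ h) θ) ^ (-(5 / 2) : ℝ) *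
      kk a e w (x₁ h) (x₂ h) (par (x₁ h) (x₂ h) θ) := by
    rw [← Real.rpow_add_one hk.ne']
    norm_num
  have e3 : kk a e w (x₁ h) (x₂ h) (par (x₁ h) (x₂ h) θ) ^ (-(1 / 2) - 1 : ℝ) =
      kk a e w (x₁ h) (x₂ h) (par (x₁ h) (x₂ h) θ) ^ (-(3 / 2) : ℝ) := by
    norm_num
  refine dd.congr_deriv ?_
  simp only [Function.comp]
  unfold thd WWt WW
  rw [e3, e1]
  generalize kk a e w (x₁ h) (x₂ h) (par (x₁ h) (x₂ h) θ) = K at *
  rw [e2]
  ring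

private theorem curve_cont {a e w : Fin D → ℝ} {m : ℝ}
    {x₁ x₂ y₁ y₂ : ℝ → ℝ} (hr : Roots a e w m x₁ x₂ y₁ y₂) :
    ContinuousOn (fun p : ℝ × ℝ => (x₁ p.1, x₂ p.1, par (x₁ p.1) (x₂ p.1) p.2))
      (Ioi m ×ˢ (univ : Set ℝ)) := by
  have c1 : ContinuousOn (fun p : ℝ × ℝ => x₁ p.1) (Ioi m ×ˢ (univ : Set ℝ)) := by
    have : ContinuousOn x₁ (Ioi m) := fun u hu =>
      (hr.deriv₁ u hu).continuousAt.continuousWithinAt
    exact this.comp continuous_fst.continuousOn fun p hp => hp.1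
  have c2 : ContinuousOn (fun p : ℝ × ℝ => x₂ p.1) (Ioi m ×ˢ (univ : Set ℝ)) := by
    have : ContinuousOn x₂ (Ioi m) := fun u hu =>
      (hr.deriv₂ u hu).continuousAt.continuousWithinAt
    exact this.comp continuous_fst.continuousOn fun p hp => hp.1
  have c3 : ContinuousOn (fun p : ℝ × ℝ => par (x₁ p.1) (x₂ p.1) p.2)
      (Ioi m ×ˢ (univ : Set ℝ)) := by
    unfold par
    exact ((c1.add c2).div_const 2).add
      (((c2.sub c1).div_const 2).mul (Real.continuous_cos.comp continuous_snd).continuousOn)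
  exact c1.prodMk (c2.prodMk c3)

private theorem curve_maps {a e w : Fin D → ℝ} {m : ℝ}
    {x₁ x₂ y₁ y₂ : ℝ → ℝ} (hr : Roots a e w m x₁ x₂ y₁ y₂) :
    MapsTo (fun p : ℝ × ℝ => (x₁ p.1, x₂ p.1, par (x₁ p.1) (x₂ p.1) p.2))
      (Ioi m ×ˢ (univ : Set ℝ)) (Ioo (0 : ℝ) 1 ×ˢ Ioo (0 : ℝ) 1 ×ˢ Ioo (0 : ℝ) 1) := by
  intro p hp
  have h1 := hr.mem₁ p.1 hp.1
  have h2 := hr.mem₂ p.1 hp.1
  exact ⟨h1, h2, par_mem h1 h2 p.2⟩

private theorem thd_cont {a e w : Fin D → ℝ} (ha : Pencil a) (hg : Generic a e w) {m : ℝ}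
    {x₁ x₂ y₁ y₂ : ℝ → ℝ} (hr : Roots a e w m x₁ x₂ y₁ y₂) :
    ContinuousOn (fun p : ℝ × ℝ => thd a e w V (x₁ p.1) (x₂ p.1) (y₁ p.1) (y₂ p.1) p.2)
      (Ioi m ×ˢ (univ : Set ℝ)) := by
  have cc := curve_cont hr
  have cm := curve_maps hr
  have d1 : ContinuousOn (fun p : ℝ × ℝ => y₁ p.1) (Ioi m ×ˢ (univ : Set ℝ)) :=
    hr.cont₁.comp continuous_fst.continuousOn fun p hp => hp.1
  have d2 : ContinuousOn (fun p : ℝ × ℝ => y₂ p.1) (Ioi m ×ˢ (univ : Set ℝ)) :=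
    hr.cont₂.comp continuous_fst.continuousOn fun p hp => hp.1
  have k1 := (continuousOn_kk (e := e) (w := w) ha).comp cc cm
  have k2 := (continuousOn_kkt (e := e) (w := w) ha).comp cc cm
  have w1 := (continuousOn_WW (V := V) ha hg).comp cc cm
  have w2 := (continuousOn_WWt (V := V) ha hg).comp cc cm
  have cc2 : ContinuousOn (fun p : ℝ × ℝ => ((y₁ p.1, y₂ p.1),
      (x₁ p.1, x₂ p.1, par (x₁ p.1) (x₂ p.1) p.2))) (Ioi m ×ˢ (univ : Set ℝ)) :=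
    (d1.prodMk d2).prodMk cc
  have cm2 : MapsTo (fun p : ℝ × ℝ => ((y₁ p.1, y₂ p.1),
      (x₁ p.1, x₂ p.1, par (x₁ p.1) (x₂ p.1) p.2))) (Ioi m ×ˢ (univ : Set ℝ))
      (univ ×ˢ Ioo (0 : ℝ) 1 ×ˢ Ioo (0 : ℝ) 1 ×ˢ Ioo (0 : ℝ) 1) := fun p hp =>
    ⟨mem_univ _, cm hp⟩
  have k3 := (continuousOn_kkh (e := e) (w := w) ha).comp cc2 cm2
  unfold thd
  exact (((w2.mul k1).add (w1.mul k2)).mul (((d1.add d2).div_const 2).add
    (((d2.sub d1).div_const 2).mul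
      (Real.continuous_cos.comp continuous_snd).continuousOn))).sub ((w1.mul k3).div_const 2)

private theorem int_cont {a e w : Fin D → ℝ} (ha : Pencil a) (hg : Generic a e w) {m : ℝ}
    {x₁ x₂ y₁ y₂ : ℝ → ℝ} (hr : Roots a e w m x₁ x₂ y₁ y₂) :
    ContinuousOn (fun p : ℝ × ℝ => V.v (par (x₁ p.1) (x₂ p.1) p.2) *
        kk a e w (x₁ p.1) (x₂ p.1) (par (x₁ p.1) (x₂ p.1) p.2) ^ (-(1 / 2) : ℝ))
      (Ioi m ×ˢ (univ : Set ℝ)) := by
  have cc := curve_cont hr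
  have cm := curve_maps hr
  have k1 := (continuousOn_kk (e := e) (w := w) ha).comp cc cm
  have k2 := k1.rpow_const (p := (-(1 / 2) : ℝ)) fun p hp =>
    Or.inl (kk_pos ha hg (cm hp).1 (cm hp).2.1 (cm hp).2.2).ne'
  have o1 : ContinuousOn (fun p : ℝ × ℝ => V.v (par (x₁ p.1) (x₂ p.1) p.2))
      (Ioi m ×ˢ (univ : Set ℝ)) :=
    wm_cont.comp (cc.snd.snd) fun p hp => (cm hp).2.2
  exact o1.mul k2

private theorem slice_cont {f : ℝ × ℝ → ℝ} {m u : ℝ} (hu : m < u)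
    (hf : ContinuousOn f (Ioi m ×ˢ (univ : Set ℝ))) : Continuous fun θ => f (u, θ) := by
  rw [← continuousOn_univ]
  exact hf.comp (by fun_prop) fun θ _ => ⟨hu, mem_univ _⟩

theorem hasDerivAt_Phi {a e w : Fin D → ℝ} (ha : Pencil a) (hg : Generic a e w) {m : ℝ}
    {x₁ x₂ y₁ y₂ : ℝ → ℝ} (hr : Roots a e w m x₁ x₂ y₁ y₂) {h₀ : ℝ} (h : m < h₀) :
    HasDerivAt (fun u => Phi a e w V (x₁ u) (x₂ u))
      (∫ θ in (0 : ℝ)..Real.pi, thd a e w V (x₁ h₀) (x₂ h₀) (y₁ h₀) (y₂ h₀) θ) h₀ := by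
  unfold Phi
  set δ : ℝ := (h₀ - m) / 2 with hδ
  have hδ0 : 0 < δ := by rw [hδ]; linarith
  have hsub : Icc (h₀ - δ) (h₀ + δ) ⊆ Ioi m := by
    intro u hu
    have := hu.1
    rw [mem_Ioi]
    rw [hδ] at this
    linarith
  have hN : Icc (h₀ - δ) (h₀ + δ) ∈ 𝓝 h₀ := Icc_mem_nhds (by linarith) (by linarith)
  have hcomp : IsCompact (Icc (h₀ - δ) (h₀ + δ) ×ˢ Icc (0 : ℝ) Real.pi) :=
    isCompact_Icc.prod isCompact_Icc
  obtain ⟨C, hC⟩ := hcomp.exists_bound_of_continuousOn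
    ((thd_cont ha hg hr).mono (prod_mono hsub (subset_univ _)))
  have hsl := fun (u : ℝ) (hu : m < u) => slice_cont hu (int_cont (V := V) ha hg hr)
  refine (intervalIntegral.hasDerivAt_integral_of_dominated_loc_of_deriv_le
    (F := fun u θ => V.v (par (x₁ u) (x₂ u) θ) *
        kk a e w (x₁ u) (x₂ u) (par (x₁ u) (x₂ u) θ) ^ (-(1 / 2) : ℝ))
    (F' := fun u θ => thd a e w V (x₁ u) (x₂ u) (y₁ u) (y₂ u) θ)
    (bound := fun _ => C) (s := Icc (h₀ - δ) (h₀ + δ)) hN ?_ ?_ ?_ ?_ ?_ ?_).2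
  · filter_upwards [hN] with u hu
    exact (hsl u (hsub hu)).aestronglyMeasurable
  · exact (hsl h₀ h).intervalIntegrable _ _
  · exact (slice_cont h (thd_cont ha hg hr)).aestronglyMeasurable
  · refine Eventually.of_forall fun θ hθ u hu => ?_
    rw [uIoc_of_le Real.pi_pos.le] at hθ
    exact hC (u, θ) ⟨hu, Ioc_subset_Icc_self hθ⟩
  · exact intervalIntegrable_const
  · refine Eventually.of_forall fun θ _ u hu => ?_
    have hu' := hsub hu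
    exact integrand_hasDeriv ha hg (hr.mem₁ u hu') (hr.mem₂ u hu') (hr.deriv₁ u hu')
      (hr.deriv₂ u hu') θ

/-- The divided difference of `kk` in `t`. -/
private noncomputable def identS (a e w : Fin D → ℝ) (x₁ x₂ x t : ℝ) : ℝ :=
  ∑ k, DD a e w k ^ 2 * (2 * a k - 1) / (4 * ll a k x₁ * ll a k x₂ * ll a k x * ll a k t)

/-- The function `E`. -/
private noncomputable def identE (a e w : Fin D → ℝ) (x₁ x₂ y₁ y₂ t : ℝ) : ℝ :=
  (y₂ * identS a e w x₁ x₂ x₂ t - y₁ * identS a e w x₁ x₂ x₁ t) / (x₂ - x₁)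

private theorem identS_spec {a e w : Fin D → ℝ} (ha : Pencil a) {x₁ x₂ x t : ℝ}
    (h₁ : x₁ ∈ Ioo (0 : ℝ) 1) (h₂ : x₂ ∈ Ioo (0 : ℝ) 1) (hx : x ∈ Ioo (0 : ℝ) 1)
    (ht : t ∈ Ioo (0 : ℝ) 1) :
    kk a e w x₁ x₂ t - kk a e w x₁ x₂ x = -(t - x) * identS a e w x₁ x₂ x t := by
  unfold kk identS
  rw [← Finset.sum_sub_distrib, Finset.mul_sum]
  refine Finset.sum_congr rfl fun k _ => ?_
  have p₁ := (ll_pos ha h₁ k).ne'
  have p₂ := (ll_pos ha h₂ k).ne'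
  have p₃ := (ll_pos ha hx k).ne'
  have p₄ := (ll_pos ha ht k).ne'
  have key : ll a k t - ll a k x = (2 * a k - 1) * (t - x) := by unfold ll; ring
  field_simp
  linear_combination (-(DD a e w k ^ 2)) * key

private theorem identE_spec {a e w : Fin D → ℝ} (ha : Pencil a) {x₁ x₂ y₁ y₂ t : ℝ}
    (h₁ : x₁ ∈ Ioo (0 : ℝ) 1) (h₂ : x₂ ∈ Ioo (0 : ℝ) 1) (hlt : x₁ < x₂)
    (ht : t ∈ Ioo (0 : ℝ) 1)
    (k₁ : y₁ * kk a e w x₁ x₂ x₁ * (x₂ - x₁) = -1) (k₂ : y₂ * kk a e w x₁ x₂ x₂ * (x₂ - x₁) = 1) :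
    (t - x₁) * (x₂ - t) * identE a e w x₁ x₂ y₁ y₂ t =
      kk a e w x₁ x₂ t * ((y₁ * (x₂ - t) + y₂ * (t - x₁)) / (x₂ - x₁)) -
        (2 * t - x₁ - x₂) / (x₂ - x₁) ^ 2 := by
  have s₁ := identS_spec (e := e) (w := w) ha h₁ h₂ h₁ ht
  have s₂ := identS_spec (e := e) (w := w) ha h₁ h₂ h₂ ht
  have hl : x₂ - x₁ ≠ 0 := (sub_pos.2 hlt).ne'
  unfold identE
  rw [eq_sub_iff_add_eq]
  field_simp
  linear_combination (-(y₂ * (t - x₁) * (x₂ - x₁))) * s₂ - (y₁ * (x₂ - t) * (x₂ - x₁)) * s₁ +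
    (t - x₁) * (-k₂) - (x₂ - t) * k₁

private theorem identE_diff {a e w : Fin D → ℝ} (ha : Pencil a) {x₁ x₂ y₁ y₂ t : ℝ}
    (h₁ : x₁ ∈ Ioo (0 : ℝ) 1) (h₂ : x₂ ∈ Ioo (0 : ℝ) 1) (ht : t ∈ Ioo (0 : ℝ) 1) :
    DifferentiableAt ℝ (identE a e w x₁ x₂ y₁ y₂) t := by
  have hS : ∀ x ∈ Ioo (0 : ℝ) 1, DifferentiableAt ℝ (identS a e w x₁ x₂ x) t := by
    intro x hx
    unfold identS
    refine DifferentiableAt.fun_sum fun k _ => ?_
    have hne : 4 * ll a k x₁ * ll a k x₂ * ll a k x * ll a k t ≠ 0 :=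
      mul_ne_zero (mul_ne_zero (mul_ne_zero (mul_ne_zero (by norm_num) (ll_pos ha h₁ k).ne')
        (ll_pos ha h₂ k).ne') (ll_pos ha hx k).ne') (ll_pos ha ht k).ne'
    refine (differentiableAt_const _).div ?_ hne
    refine (differentiableAt_const _).mul ?_
    unfold ll
    fun_prop
  unfold identE
  exact (((differentiableAt_const _).mul (hS x₂ h₂)).sub
    ((differentiableAt_const _).mul (hS x₁ h₁))).div_const _

private theorem ident_kk_deriv {a e w : Fin D → ℝ} (ha : Pencil a) {x₁ x₂ t : ℝ}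
    (h₁ : x₁ ∈ Ioo (0 : ℝ) 1) (h₂ : x₂ ∈ Ioo (0 : ℝ) 1) (ht : t ∈ Ioo (0 : ℝ) 1) :
    HasDerivAt (kk a e w x₁ x₂) (kkt a e w x₁ x₂ t) t := by
  have h := hasDerivAt_kk (e := e) (w := w) ha (x₁ := fun _ => x₁) (x₂ := fun _ => x₂)
    (s := fun u => u) (h := t) h₁ h₂ ht (hasDerivAt_const t x₁) (hasDerivAt_const t x₂)
    (hasDerivAt_id t)
  have h0 : kkh a e w x₁ x₂ 0 0 t = 0 := by
    unfold kkh
    simp
  simpa [h0] using h

private theorem ident_key {a e w : Fin D → ℝ} (ha : Pencil a) {x₁ x₂ y₁ y₂ t : ℝ}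
    (h₁ : x₁ ∈ Ioo (0 : ℝ) 1) (h₂ : x₂ ∈ Ioo (0 : ℝ) 1) (hlt : x₁ < x₂)
    (ht : t ∈ Ioo x₁ x₂)
    (k₁ : y₁ * kk a e w x₁ x₂ x₁ * (x₂ - x₁) = -1) (k₂ : y₂ * kk a e w x₁ x₂ x₂ * (x₂ - x₁) = 1)
    (hrel : (-y₁ * (x₂ - t) + y₂ * (t - x₁)) * kk a e w x₁ x₂ t +
      (t - x₁) * (x₂ - t) * kkh a e w x₁ x₂ y₁ y₂ t = 1) :
    (t - x₁) * (x₂ - t) * deriv (identE a e w x₁ x₂ y₁ y₂) t -
        (t - (x₁ + x₂) / 2) * identE a e w x₁ x₂ y₁ y₂ t =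
      kkt a e w x₁ x₂ t * ((y₁ * (x₂ - t) + y₂ * (t - x₁)) / (x₂ - x₁)) -
        kkh a e w x₁ x₂ y₁ y₂ t / 2 := by
  have hl : x₂ - x₁ ≠ 0 := (sub_pos.2 hlt).ne'
  have ht' : t ∈ Ioo (0 : ℝ) 1 := ⟨h₁.1.trans ht.1, ht.2.trans h₂.2⟩
  set E := identE a e w x₁ x₂ y₁ y₂ with hE
  have dE : HasDerivAt E (deriv E t) t := (identE_diff ha h₁ h₂ ht').hasDerivAt
  have dK := ident_kk_deriv (e := e) (w := w) ha h₁ h₂ ht'
  have f1 : HasDerivAt (fun u : ℝ => u - x₁) 1 t := (hasDerivAt_id t).sub_const x₁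
  have f2 : HasDerivAt (fun u : ℝ => x₂ - u) (-1) t := (hasDerivAt_id t).const_sub x₂
  have g1 := (f1.mul f2).mul dE
  have g2 := (dK.mul (((f2.const_mul y₁).add (f1.const_mul y₂)).div_const (x₂ - x₁))).sub
    (((((hasDerivAt_id t).const_mul 2).sub_const x₁).sub_const x₂).div_const ((x₂ - x₁) ^ 2))
  have hev : (fun u => (u - x₁) * (x₂ - u) * E u) =ᶠ[𝓝 t] fun u =>
      kk a e w x₁ x₂ u * ((y₁ * (x₂ - u) + y₂ * (u - x₁)) / (x₂ - x₁)) -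
        (2 * u - x₁ - x₂) / (x₂ - x₁) ^ 2 := by
    filter_upwards [isOpen_Ioo.mem_nhds ht'] with u hu
    exact identE_spec ha h₁ h₂ hlt hu k₁ k₂
  have e1 : (1 * (x₂ - t) + (t - x₁) * -1) * E t + ((t - x₁) * (x₂ - t)) * deriv E t =
      kkt a e w x₁ x₂ t * ((y₁ * (x₂ - t) + y₂ * (t - x₁)) / (x₂ - x₁)) +
        kk a e w x₁ x₂ t * ((y₁ * -1 + y₂ * 1) / (x₂ - x₁)) - 2 * 1 / (x₂ - x₁) ^ 2 :=
    HasDerivAt.unique (g1.congr_of_eventuallyEq hev.symm) g2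
  have e2 := identE_spec (e := e) (w := w) ha h₁ h₂ hlt ht' k₁ k₂
  rw [← hE] at e2
  have q0 : (t - x₁) * (x₂ - t) ≠ 0 := (mul_pos (sub_pos.2 ht.1) (sub_pos.2 ht.2)).ne'
  have e3 : (t - x₁) * (x₂ - t) * (kk a e w x₁ x₂ t * ((y₂ - y₁) / (x₂ - x₁)) -
      2 / (x₂ - x₁) ^ 2 + (t - (x₁ + x₂) / 2) * E t + kkh a e w x₁ x₂ y₁ y₂ t / 2) = 0 := by
    have e4 : (t - x₁) * (x₂ - t) * (kk a e w x₁ x₂ t * ((y₂ - y₁) / (x₂ - x₁)) -
        2 / (x₂ - x₁) ^ 2 + (t - (x₁ + x₂) / 2) * E t + kkh a e w x₁ x₂ y₁ y₂ t / 2) =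
        (t - x₁) * (x₂ - t) * (kk a e w x₁ x₂ t * ((y₂ - y₁) / (x₂ - x₁)) -
        2 / (x₂ - x₁) ^ 2) + (t - (x₁ + x₂) / 2) * ((t - x₁) * (x₂ - t) * E t) +
        (t - x₁) * (x₂ - t) * kkh a e w x₁ x₂ y₁ y₂ t / 2 := by ring
    rw [e4, e2]
    have e5 : (t - x₁) * (x₂ - t) * kkh a e w x₁ x₂ y₁ y₂ t =
        1 - (-y₁ * (x₂ - t) + y₂ * (t - x₁)) * kk a e w x₁ x₂ t := by linarith
    rw [e5]
    field_simp
    ring
  have e6 := (mul_eq_zero.1 e3).resolve_left q0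
  have e7 : (kkt a e w x₁ x₂ t * ((y₁ * (x₂ - t) + y₂ * (t - x₁)) / (x₂ - x₁)) +
      kk a e w x₁ x₂ t * ((y₂ - y₁) / (x₂ - x₁))) - 2 / (x₂ - x₁) ^ 2 =
      (x₂ - t - (t - x₁)) * E t + (t - x₁) * (x₂ - t) * deriv E t := by
    have : (y₁ * -1 + y₂ * 1) = y₂ - y₁ := by ring
    rw [this] at e1
    linarith
  linear_combination (-1) * e7 + e6

private theorem ident_mono {a e w : Fin D → ℝ} (ha : Pencil a) (hg : Generic a e w)
    (hc : Cvx a e w V)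
    {x₁ x₂ : ℝ} (h₁ : x₁ ∈ Ioo (0 : ℝ) 1) (h₂ : x₂ ∈ Ioo (0 : ℝ) 1) :
    MonotoneOn (WWt a e w V x₁ x₂) (Ioo (0 : ℝ) 1) := by
  have h := (hc _ h₁ _ h₂).monotoneOn_deriv
    (fun t ht => (hasDerivAt_WW ha hg h₁ h₂ ht).differentiableAt)
  intro s hs t ht hst
  have := h hs ht hst
  rwa [(hasDerivAt_WW ha hg h₁ h₂ hs).deriv, (hasDerivAt_WW ha hg h₁ h₂ ht).deriv] at this

private theorem ident_par_cont (x₁ x₂ : ℝ) : Continuous (par x₁ x₂) := by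
  unfold par
  fun_prop

private theorem ident_last {a e w : Fin D → ℝ} (ha : Pencil a) (hg : Generic a e w)
    (hcv : Cvx a e w V)
    {x₁ x₂ : ℝ} (h₁ : x₁ ∈ Ioo (0 : ℝ) 1) (h₂ : x₂ ∈ Ioo (0 : ℝ) 1) (hlt : x₁ < x₂) :
    0 ≤ ∫ θ in (0 : ℝ)..Real.pi, WWt a e w V x₁ x₂ (par x₁ x₂ θ) * Real.cos θ := by
  have hcont : Continuous fun θ => WWt a e w V x₁ x₂ (par x₁ x₂ θ) :=
    (continuousOn_WWt ha hg).comp_continuous
      (f := fun θ => (x₁, x₂, par x₁ x₂ θ))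
      (continuous_const.prodMk (continuous_const.prodMk (ident_par_cont x₁ x₂)))
      (fun θ => ⟨h₁, h₂, par_mem h₁ h₂ θ⟩)
  have hsym : (∫ θ in (0 : ℝ)..Real.pi, WWt a e w V x₁ x₂ (par x₁ x₂ θ) * Real.cos θ) =
      ∫ θ in (0 : ℝ)..Real.pi, -(WWt a e w V x₁ x₂ (par x₁ x₂ (Real.pi - θ)) * Real.cos θ) := by
    have h := intervalIntegral.integral_comp_sub_left
      (fun θ => WWt a e w V x₁ x₂ (par x₁ x₂ θ) * Real.cos θ) (a := 0) (b := Real.pi) Real.pi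
    rw [sub_self, sub_zero] at h
    rw [← h]
    refine intervalIntegral.integral_congr fun θ _ => ?_
    simp only [Real.cos_pi_sub]
    ring
  have hc1 : IntervalIntegrable (fun θ => WWt a e w V x₁ x₂ (par x₁ x₂ θ) * Real.cos θ) volume 0
      Real.pi := (hcont.mul Real.continuous_cos).intervalIntegrable _ _
  have hc2 : IntervalIntegrable
      (fun θ => -(WWt a e w V x₁ x₂ (par x₁ x₂ (Real.pi - θ)) * Real.cos θ)) volume 0 Real.pi :=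
    ((hcont.comp (continuous_const.sub continuous_id)).mul
      Real.continuous_cos).neg.intervalIntegrable _ _
  have h2 : 0 ≤ ∫ θ in (0 : ℝ)..Real.pi, (WWt a e w V x₁ x₂ (par x₁ x₂ θ) * Real.cos θ +
      -(WWt a e w V x₁ x₂ (par x₁ x₂ (Real.pi - θ)) * Real.cos θ)) := by
    refine intervalIntegral.integral_nonneg Real.pi_pos.le fun θ _ => ?_
    have e0 : WWt a e w V x₁ x₂ (par x₁ x₂ θ) * Real.cos θ +
        -(WWt a e w V x₁ x₂ (par x₁ x₂ (Real.pi - θ)) * Real.cos θ) =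
        (WWt a e w V x₁ x₂ (par x₁ x₂ θ) - WWt a e w V x₁ x₂ (par x₁ x₂ (Real.pi - θ))) *
          Real.cos θ := by ring
    rw [e0]
    have e1 : par x₁ x₂ θ - par x₁ x₂ (Real.pi - θ) = (x₂ - x₁) * Real.cos θ := by
      unfold par
      rw [Real.cos_pi_sub]
      ring
    rcases le_total 0 (Real.cos θ) with hc | hc
    · refine mul_nonneg (sub_nonneg.2 ?_) hc
      refine ident_mono ha hg hcv h₁ h₂ (par_mem h₁ h₂ _) (par_mem h₁ h₂ _) ?_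
      have := mul_nonneg (sub_pos.2 hlt).le hc
      linarith
    · refine mul_nonneg_of_nonpos_of_nonpos (sub_nonpos.2 ?_) hc
      refine ident_mono ha hg hcv h₁ h₂ (par_mem h₁ h₂ _) (par_mem h₁ h₂ _) ?_
      have := mul_nonpos_iff.2 (Or.inl ⟨(sub_pos.2 hlt).le, hc⟩)
      linarith
  rw [intervalIntegral.integral_add hc1 hc2, ← hsym] at h2
  linarith

theorem integral_thd_nonneg {a e w : Fin D → ℝ} (ha : Pencil a) (hg : Generic a e w)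
    (hc : Cvx a e w V)
    {x₁ x₂ y₁ y₂ : ℝ} (h₁ : x₁ ∈ Ioo (0 : ℝ) 1) (h₂ : x₂ ∈ Ioo (0 : ℝ) 1) (hlt : x₁ < x₂)
    (hrel : ∀ t ∈ Ioo (0 : ℝ) 1, (-y₁ * (x₂ - t) + y₂ * (t - x₁)) * kk a e w x₁ x₂ t +
      (t - x₁) * (x₂ - t) * kkh a e w x₁ x₂ y₁ y₂ t = 1) :
    0 ≤ ∫ θ in (0 : ℝ)..Real.pi, thd a e w V x₁ x₂ y₁ y₂ θ := by
  have hd : 0 < x₂ - x₁ := sub_pos.2 hlt
  have hp := ident_par_cont x₁ x₂
  have hm := fun θ => par_mem h₁ h₂ θ
  have k₁ : y₁ * kk a e w x₁ x₂ x₁ * (x₂ - x₁) = -1 := by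
    have := hrel x₁ h₁
    linear_combination (-1) * this
  have k₂ : y₂ * kk a e w x₁ x₂ x₂ * (x₂ - x₁) = 1 := by
    have := hrel x₂ h₂
    linear_combination this
  have cWt : Continuous fun θ => WWt a e w V x₁ x₂ (par x₁ x₂ θ) :=
    (continuousOn_WWt ha hg).comp_continuous
      (f := fun θ => (x₁, x₂, par x₁ x₂ θ))
      (continuous_const.prodMk (continuous_const.prodMk hp)) (fun θ => ⟨h₁, h₂, hm θ⟩)
  have cW : Continuous fun θ => WW a e w V x₁ x₂ (par x₁ x₂ θ) :=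
    (continuousOn_WW ha hg).comp_continuous
      (f := fun θ => (x₁, x₂, par x₁ x₂ θ))
      (continuous_const.prodMk (continuous_const.prodMk hp)) (fun θ => ⟨h₁, h₂, hm θ⟩)
  have cK : Continuous fun θ => kk a e w x₁ x₂ (par x₁ x₂ θ) :=
    (continuousOn_kk (e := e) (w := w) ha).comp_continuous
      (f := fun θ => (x₁, x₂, par x₁ x₂ θ))
      (continuous_const.prodMk (continuous_const.prodMk hp)) (fun θ => ⟨h₁, h₂, hm θ⟩)
  have cKt : Continuous fun θ => kkt a e w x₁ x₂ (par x₁ x₂ θ) :=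
    (continuousOn_kkt (e := e) (w := w) ha).comp_continuous
      (f := fun θ => (x₁, x₂, par x₁ x₂ θ))
      (continuous_const.prodMk (continuous_const.prodMk hp)) (fun θ => ⟨h₁, h₂, hm θ⟩)
  have cKh : Continuous fun θ => kkh a e w x₁ x₂ y₁ y₂ (par x₁ x₂ θ) :=
    (continuousOn_kkh (e := e) (w := w) ha).comp_continuous
      (f := fun θ => ((y₁, y₂), x₁, x₂, par x₁ x₂ θ))
      (continuous_const.prodMk (continuous_const.prodMk (continuous_const.prodMk hp)))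
      (fun θ => ⟨mem_univ _, h₁, h₂, hm θ⟩)
  have cT : Continuous fun θ => thd a e w V x₁ x₂ y₁ y₂ θ := by
    unfold thd
    exact ((((cWt.mul cK).add (cW.mul cKt)).mul (continuous_const.add
      (continuous_const.mul Real.continuous_cos))).sub ((cW.mul cKh).div_const 2))
  have cE : Continuous fun θ => identE a e w x₁ x₂ y₁ y₂ (par x₁ x₂ θ) := by
    have h0 : ContinuousOn (identE a e w x₁ x₂ y₁ y₂) (Ioo (0 : ℝ) 1) := fun t ht =>
      (identE_diff ha h₁ h₂ ht).continuousAt.continuousWithinAt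
    exact h0.comp_continuous hp hm
  set G : ℝ → ℝ := fun θ => -((x₂ - x₁) / 2) * (WW a e w V x₁ x₂ (par x₁ x₂ θ) *
    identE a e w x₁ x₂ y₁ y₂ (par x₁ x₂ θ)) * Real.sin θ with hG
  have cG : Continuous G := (continuous_const.mul (cW.mul cE)).mul Real.continuous_sin
  have hder : ∀ θ ∈ Ioo (0 : ℝ) Real.pi, HasDerivAt G (thd a e w V x₁ x₂ y₁ y₂ θ -
      WWt a e w V x₁ x₂ (par x₁ x₂ θ) * Real.cos θ / (x₂ - x₁)) θ := by
    intro θ hθ
    have hs : 0 < Real.sin θ := Real.sin_pos_of_pos_of_lt_pi hθ.1 hθ.2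
    have hsc := Real.sin_sq_add_cos_sq θ
    have habs : |Real.cos θ| < 1 := by
      rw [← sq_lt_one_iff_abs_lt_one]
      nlinarith
    obtain ⟨hc1, hc2⟩ := abs_lt.1 habs
    set t := par x₁ x₂ θ with ht
    have ta : t - x₁ = (x₂ - x₁) / 2 * (1 + Real.cos θ) := by rw [ht]; unfold par; ring
    have tb : x₂ - t = (x₂ - x₁) / 2 * (1 - Real.cos θ) := by rw [ht]; unfold par; ring
    have tm : t ∈ Ioo x₁ x₂ := by
      constructor
      · have : 0 < t - x₁ := by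
          rw [ta]
          exact mul_pos (by linarith) (by linarith)
        linarith
      · have : 0 < x₂ - t := by
          rw [tb]
          exact mul_pos (by linarith) (by linarith)
        linarith
    have dp : HasDerivAt (par x₁ x₂) ((x₂ - x₁) / 2 * -Real.sin θ) θ := by
      have := ((Real.hasDerivAt_cos θ).const_mul ((x₂ - x₁) / 2)).const_add ((x₁ + x₂) / 2)
      exact this
    have dW : HasDerivAt (fun u => WW a e w V x₁ x₂ (par x₁ x₂ u))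
        (WWt a e w V x₁ x₂ t * ((x₂ - x₁) / 2 * -Real.sin θ)) θ :=
      (hasDerivAt_WW ha hg h₁ h₂ (hm θ)).comp θ dp
    have dE : HasDerivAt (fun u => identE a e w x₁ x₂ y₁ y₂ (par x₁ x₂ u))
        (deriv (identE a e w x₁ x₂ y₁ y₂) t * ((x₂ - x₁) / 2 * -Real.sin θ)) θ :=
      (identE_diff ha h₁ h₂ (hm θ)).hasDerivAt.comp θ dp
    have dG := ((dW.mul dE).const_mul (-((x₂ - x₁) / 2))).mul (Real.hasDerivAt_sin θ)
    refine dG.congr_deriv ?_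
    have key := ident_key ha h₁ h₂ hlt tm k₁ k₂ (hrel t (hm θ))
    have spec := identE_spec (e := e) (w := w) ha h₁ h₂ hlt (hm θ) k₁ k₂
    have hv : (y₁ * (x₂ - t) + y₂ * (t - x₁)) / (x₂ - x₁) =
        (y₁ + y₂) / 2 + (y₂ - y₁) / 2 * Real.cos θ := by
      rw [ta, tb]
      field_simp
      ring
    have ht2 : (2 * t - x₁ - x₂) / (x₂ - x₁) ^ 2 = Real.cos θ / (x₂ - x₁) := by
      have : 2 * t - x₁ - x₂ = (x₂ - x₁) * Real.cos θ := by linear_combination ta - tb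
      rw [this]
      field_simp
    have hq : (t - x₁) * (x₂ - t) = ((x₂ - x₁) / 2) ^ 2 * Real.sin θ ^ 2 := by
      rw [ta, tb]
      linear_combination ((x₂ - x₁) / 2) ^ 2 * (-hsc)
    have hτ : t - (x₁ + x₂) / 2 = (x₂ - x₁) / 2 * Real.cos θ := by
      linear_combination (ta - tb) / 2
    rw [hv, hq, hτ] at key
    rw [← ht, hv, ht2, hq] at spec
    simp only [Pi.mul_apply, ← ht]
    unfold thd
    rw [← ht]
    linear_combination WWt a e w V x₁ x₂ t * spec + WW a e w V x₁ x₂ t * key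
  have cWc : Continuous fun θ => WWt a e w V x₁ x₂ (par x₁ x₂ θ) * Real.cos θ / (x₂ - x₁) :=
    (cWt.mul Real.continuous_cos).div_const _
  have hint := intervalIntegral.integral_eq_sub_of_hasDerivAt_of_le Real.pi_pos.le
    cG.continuousOn hder ((cT.sub cWc).intervalIntegrable _ _)
  have hG0 : G Real.pi - G 0 = 0 := by simp [hG]
  rw [hG0, intervalIntegral.integral_sub (cT.intervalIntegrable _ _)
    (cWc.intervalIntegrable _ _), intervalIntegral.integral_div, sub_eq_zero] at hint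
  rw [hint]
  exact div_nonneg (ident_last ha hg hc h₁ h₂ hlt) hd.le

private theorem Mono_sub {a e w : Fin D → ℝ} (ha : Pencil a) {x₁ x₂ h t : ℝ}
    (h₁ : x₁ ∈ Ioo (0 : ℝ) 1) (h₂ : x₂ ∈ Ioo (0 : ℝ) 1) (hlt : x₁ < x₂)
    (r₁ : HH a e w x₁ = h) (r₂ : HH a e w x₂ = h) (ht : t ∈ Ioo (0 : ℝ) 1) :
    h - HH a e w t = (t - x₁) * (x₂ - t) * kk a e w x₁ x₂ t := by
  have hi := HH_interp ha e w h₁ h₂ ht
  rw [r₁, r₂] at hi
  have hne : x₂ - x₁ ≠ 0 := sub_ne_zero.2 hlt.ne'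
  apply mul_left_cancel₀ hne
  linear_combination -hi

private theorem Mono_iff {a e w : Fin D → ℝ} (ha : Pencil a) (hg : Generic a e w)
    {x₁ x₂ h t : ℝ}
    (h₁ : x₁ ∈ Ioo (0 : ℝ) 1) (h₂ : x₂ ∈ Ioo (0 : ℝ) 1) (hlt : x₁ < x₂)
    (r₁ : HH a e w x₁ = h) (r₂ : HH a e w x₂ = h) (ht : t ∈ Ioo (0 : ℝ) 1) :
    HH a e w t < h ↔ t ∈ Ioo x₁ x₂ := by
  have hs := Mono_sub ha h₁ h₂ hlt r₁ r₂ ht
  have hk := kk_pos ha hg h₁ h₂ ht
  constructor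
  · intro hh
    have hp : 0 < (t - x₁) * (x₂ - t) * kk a e w x₁ x₂ t := by rw [← hs]; linarith
    have hq : 0 < (t - x₁) * (x₂ - t) := by
      by_contra hc
      push Not at hc
      have := mul_nonpos_of_nonpos_of_nonneg hc hk.le
      linarith
    rcases mul_pos_iff.1 hq with hc | hc
    · exact ⟨by linarith [hc.1], by linarith [hc.2]⟩
    · exfalso
      linarith [hc.1, hc.2]
  · intro hh
    have hp : 0 < (t - x₁) * (x₂ - t) * kk a e w x₁ x₂ t :=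
      mul_pos (mul_pos (by linarith [hh.1]) (by linarith [hh.2])) hk
    linarith

private theorem Mono_par_cont (x₁ x₂ : ℝ) : Continuous (par x₁ x₂) := by
  unfold par
  fun_prop

private theorem Mono_par_deriv (x₁ x₂ θ : ℝ) :
    HasDerivAt (par x₁ x₂) ((x₂ - x₁) / 2 * (-Real.sin θ)) θ := by
  have h := ((Real.hasDerivAt_cos θ).const_mul ((x₂ - x₁) / 2)).const_add ((x₁ + x₂) / 2)
  exact h

private theorem Mono_par_inj {x₁ x₂ : ℝ} (hlt : x₁ < x₂) :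
    InjOn (par x₁ x₂) (Ioo 0 Real.pi) := by
  intro s hs t ht hst
  have hl : (x₂ - x₁) / 2 ≠ 0 := by
    have : 0 < (x₂ - x₁) / 2 := by linarith
    exact this.ne'
  have hc : Real.cos s = Real.cos t := by
    unfold par at hst
    exact mul_left_cancel₀ hl (by linarith)
  exact Real.injOn_cos ⟨hs.1.le, hs.2.le⟩ ⟨ht.1.le, ht.2.le⟩ hc

private theorem Mono_par_image {x₁ x₂ : ℝ} (hlt : x₁ < x₂) :
    par x₁ x₂ '' Ioo 0 Real.pi = Ioo x₁ x₂ := by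
  have hl : 0 < (x₂ - x₁) / 2 := by linarith
  ext t
  constructor
  · rintro ⟨θ, hθ, rfl⟩
    have hc1 : Real.cos θ < 1 := by
      have := Real.cos_lt_cos_of_nonneg_of_le_pi le_rfl hθ.2.le hθ.1
      rwa [Real.cos_zero] at this
    have hc2 : -1 < Real.cos θ := by
      have := Real.cos_lt_cos_of_nonneg_of_le_pi hθ.1.le le_rfl hθ.2
      rwa [Real.cos_pi] at this
    unfold par
    constructor
    · nlinarith
    · nlinarith
  · intro ht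
    have hu1 : -1 < (t - (x₁ + x₂) / 2) / ((x₂ - x₁) / 2) := by
      rw [lt_div_iff₀ hl]
      linarith [ht.1]
    have hu2 : (t - (x₁ + x₂) / 2) / ((x₂ - x₁) / 2) < 1 := by
      rw [div_lt_iff₀ hl]
      linarith [ht.2]
    refine ⟨Real.arccos ((t - (x₁ + x₂) / 2) / ((x₂ - x₁) / 2)), ⟨?_, ?_⟩, ?_⟩
    · exact Real.arccos_pos.2 hu2
    · refine lt_of_le_of_ne (Real.arccos_le_pi _) fun hh => ?_
      have := Real.arccos_eq_pi.1 hh
      linarith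
    · unfold par
      have hne : (x₂ - x₁) / 2 ≠ 0 := hl.ne'
      rw [Real.cos_arccos hu1.le hu2.le, mul_div_cancel₀ _ hne]
      ring

private theorem Mono_F_cont {a e w : Fin D → ℝ} (ha : Pencil a) (hg : Generic a e w) {x₁ x₂ : ℝ}
    (h₁ : x₁ ∈ Ioo (0 : ℝ) 1) (h₂ : x₂ ∈ Ioo (0 : ℝ) 1) :
    Continuous fun θ => V.v (par x₁ x₂ θ) * kk a e w x₁ x₂ (par x₁ x₂ θ) ^ (-(1 / 2) : ℝ) := by
  have c1 : Continuous fun θ => V.v (par x₁ x₂ θ) :=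
    wm_cont.comp_continuous (Mono_par_cont x₁ x₂) fun θ => par_mem h₁ h₂ θ
  have c2 : Continuous fun θ => kk a e w x₁ x₂ (par x₁ x₂ θ) := by
    have hc : Continuous fun θ => ((x₁, x₂, par x₁ x₂ θ) : ℝ × ℝ × ℝ) :=
      continuous_const.prodMk (continuous_const.prodMk (Mono_par_cont x₁ x₂))
    exact (continuousOn_kk (e := e) (w := w) ha).comp_continuous hc
      fun θ => ⟨h₁, h₂, par_mem h₁ h₂ θ⟩
  exact c1.mul (c2.rpow_const fun θ => Or.inl (kk_pos ha hg h₁ h₂ (par_mem h₁ h₂ θ)).ne')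

theorem Flin_eq_Phi {a e w : Fin D → ℝ} (ha : Pencil a) (hg : Generic a e w) {x₁ x₂ h : ℝ}
    (h₁ : x₁ ∈ Ioo (0 : ℝ) 1) (h₂ : x₂ ∈ Ioo (0 : ℝ) 1) (hlt : x₁ < x₂)
    (r₁ : HH a e w x₁ = h) (r₂ : HH a e w x₂ = h) :
    FlinW a e w V.v h = ENNReal.ofReal (Phi a e w V x₁ x₂) := by
  have hl : 0 < (x₂ - x₁) / 2 := by linarith
  have hsub : Ioo x₁ x₂ ⊆ Ioo (0 : ℝ) 1 := fun t ht =>
    ⟨h₁.1.trans ht.1, ht.2.trans h₂.2⟩
  have s1 : FlinW a e w V.v h = ∫⁻ t in Ioo (0 : ℝ) 1, (Ioo x₁ x₂).indicator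
      (fun t => ENNReal.ofReal (V.v t / √((t - x₁) * (x₂ - t) * kk a e w x₁ x₂ t))) t := by
    unfold FlinW
    refine setLIntegral_congr_fun measurableSet_Ioo fun t ht => ?_
    have hi := Mono_iff ha hg h₁ h₂ hlt r₁ r₂ ht
    by_cases hh : HH a e w t < h
    · have hm := hi.1 hh
      simp only [hh, if_true, indicator_of_mem hm]
      rw [Mono_sub ha h₁ h₂ hlt r₁ r₂ ht]
    · have hm : t ∉ Ioo x₁ x₂ := fun hc => hh (hi.2 hc)
      simp only [hh, if_false, indicator_of_notMem hm, ENNReal.ofReal_zero]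
  have s2 : FlinW a e w V.v h = ∫⁻ t in Ioo x₁ x₂,
      ENNReal.ofReal (V.v t / √((t - x₁) * (x₂ - t) * kk a e w x₁ x₂ t)) := by
    rw [s1, setLIntegral_indicator measurableSet_Ioo, inter_eq_left.2 hsub]
  have s3 : FlinW a e w V.v h = ∫⁻ θ in Ioo (0 : ℝ) Real.pi, ENNReal.ofReal
      (V.v (par x₁ x₂ θ) * kk a e w x₁ x₂ (par x₁ x₂ θ) ^ (-(1 / 2) : ℝ)) := by
    rw [s2, ← Mono_par_image hlt, lintegral_image_eq_lintegral_abs_deriv_mul measurableSet_Ioo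
      (fun θ _ => (Mono_par_deriv x₁ x₂ θ).hasDerivWithinAt) (Mono_par_inj hlt)]
    refine setLIntegral_congr_fun measurableSet_Ioo fun θ hθ => ?_
    have hsin : 0 < Real.sin θ := Real.sin_pos_of_pos_of_lt_pi hθ.1 hθ.2
    have hk := kk_pos ha hg h₁ h₂ (par_mem h₁ h₂ θ)
    have hq : (par x₁ x₂ θ - x₁) * (x₂ - par x₁ x₂ θ) =
        ((x₂ - x₁) / 2 * Real.sin θ) ^ 2 := by
      unfold par
      rw [mul_pow, Real.sin_sq]
      ring
    have hls : 0 < (x₂ - x₁) / 2 * Real.sin θ := mul_pos hl hsin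
    have habs : |(x₂ - x₁) / 2 * (-Real.sin θ)| = (x₂ - x₁) / 2 * Real.sin θ := by
      rw [mul_neg, abs_neg, abs_of_pos hls]
    rw [habs, ← ENNReal.ofReal_mul hls.le, hq, Real.sqrt_mul (sq_nonneg _),
      Real.sqrt_sq hls.le]
    congr 1
    rw [Real.rpow_neg hk.le, ← Real.sqrt_eq_rpow]
    have hsk : √(kk a e w x₁ x₂ (par x₁ x₂ θ)) ≠ 0 := (Real.sqrt_pos.2 hk).ne'
    have hne : x₂ - x₁ ≠ 0 := sub_ne_zero.2 hlt.ne'
    field_simp
  rw [s3]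
  unfold Phi
  have hc := Mono_F_cont (V := V) ha hg h₁ h₂
  rw [intervalIntegral.integral_of_le Real.pi_pos.le, integral_Ioc_eq_integral_Ioo]
  refine (ofReal_integral_eq_lintegral_ofReal ?_ ?_).symm
  · exact ((hc.continuousOn (s := Icc 0 Real.pi)).integrableOn_Icc).mono_set Ioo_subset_Icc_self
  · refine Eventually.of_forall fun θ => ?_
    exact mul_nonneg (V.h.nonneg _ (par_mem h₁ h₂ θ))
      (Real.rpow_nonneg (kk_pos ha hg h₁ h₂ (par_mem h₁ h₂ θ)).le _)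

theorem Flin_mono {a e w : Fin D → ℝ} (ha : Pencil a) (hg : Generic a e w)
    (hc : Cvx a e w V) :
    Monotone (FlinW a e w V.v) := by
  obtain ⟨m, x₁, x₂, y₁, y₂, hr⟩ := exists_roots ha hg
  have hzero : ∀ h, h ≤ m → FlinW a e w V.v h = 0 := by
    intro h hh
    unfold FlinW
    rw [setLIntegral_congr_fun (g := fun _ => 0) measurableSet_Ioo, lintegral_zero]
    intro t ht
    have hn : ¬ HH a e w t < h := not_lt.2 (hh.trans (hr.low t ht))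
    simp only [hn, if_false, ENNReal.ofReal_zero]
  have hmono : MonotoneOn (fun h => Phi a e w V (x₁ h) (x₂ h)) (Ioi m) := by
    refine monotoneOn_of_deriv_nonneg (convex_Ioi m) ?_ ?_ ?_
    · exact fun h hh => (hasDerivAt_Phi ha hg hr hh).continuousAt.continuousWithinAt
    · rw [interior_Ioi]
      exact fun h hh =>
        (hasDerivAt_Phi ha hg hr hh).differentiableAt.differentiableWithinAt
    · rw [interior_Ioi]
      intro h hh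
      rw [(hasDerivAt_Phi ha hg hr hh).deriv]
      exact integral_thd_nonneg ha hg hc (hr.mem₁ h hh) (hr.mem₂ h hh) (hr.lt h hh)
        fun t ht => kk_rel ha hr hh ht
  intro h h' hle
  rcases le_or_gt h m with hm | hm
  · rw [hzero h hm]
    exact zero_le
  · have hm' : m < h' := lt_of_lt_of_le hm hle
    rw [Flin_eq_Phi ha hg (hr.mem₁ h hm) (hr.mem₂ h hm) (hr.lt h hm) (hr.root₁ h hm)
      (hr.root₂ h hm), Flin_eq_Phi ha hg (hr.mem₁ h' hm') (hr.mem₂ h' hm') (hr.lt h' hm')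
      (hr.root₁ h' hm') (hr.root₂ h' hm')]
    exact ENNReal.ofReal_le_ofReal (hmono hm hm' hle)

end Pool.Agent.KneserCone.WM

namespace Pool.Agent.KneserCone

open MeasureTheory Set Filter Topology
open Pool.Agent.KneserRank (Pencil Generic kk)

variable {D : ℕ}

/-- Monotonicity of `FlinW`. -/
theorem FlinW_mono {a e w : Fin D → ℝ} (ha : Pencil a) (hg : Generic a e w) {v v' : ℝ → ℝ}
    (hv : Wt v v') (hc : ∀ x₁ ∈ Ioo (0 : ℝ) 1, ∀ x₂ ∈ Ioo (0 : ℝ) 1,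
      ConvexOn ℝ (Ioo (0 : ℝ) 1) (fun t => v t * kk a e w x₁ x₂ t ^ (-(3 / 2) : ℝ))) :
    Monotone (FlinW a e w v) :=
  WM.Flin_mono (V := ⟨v, v', hv⟩) ha hg hc

end Pool.Agent.KneserCone
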